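import Pool.Agent.MP_66cee2_co.XI.Kit

/-
Exponential lower bound, second half: a vector of the isometric class with a neighbour is affine.
-/

namespace Pool.Agent.MP_66cee2_co.XI

open MeasureTheory Set Filter Metric Topology Polynomial Pool.Agent.MP_66cee2_co.X
open scoped ENNReal RealInnerProductSpace

namespace Aff1A

variable {d n : ℕ}

/-- the step identity along a good unit vector. -/
theorem step (hT : STwo) {Q Q' : Ix n → MP d} {m m' : ℕ} (hQ : Iso2 Q m) (hQ' : Iso2 Q' m')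
    (hE : EdgeId Q Q') {z : E d} (hz : ‖z‖ = 1) (g : co (Q sI) z m ≠ 0)
    (g' : co (Q' sI) z m' ≠ 0) (i : Fin n) (x : E d) :
    ev (Q' (Sum.inl i)) (x + z) * ev (Q sI) x - ev (Q (Sum.inl i)) x * ev (Q' sI) (x + z) =
      co (Q (Sum.inl i)) z (m + 1) / co (Q sI) z m * (ev (Q sI) x * ev (Q' sI) (x + z)) := by
  have hN := nbr_of_edge hE hQ.1 hQ'.1 x hz
  have hs : ∀ k, slp (ln (Q (Sum.inl k)) x z) (ln (Q sI) x z) m =
      co (Q (Sum.inl k)) z (m + 1) / co (Q sI) z m := fun k => by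
    rw [slp, coeff_ln_top (hQ.2.2.1 k), coeff_ln_top hQ.2.1]
  have h1 : ∑ k, slp (ln (Q (Sum.inl k)) x z) (ln (Q sI) x z) m ^ 2 = 1 := by
    simp only [hs, div_pow]
    rw [← Finset.sum_div, hQ.2.2.2 z, hz, one_pow, one_mul, div_self (pow_ne_zero 2 g)]
  have := hT n _ _ _ _ hN m m' (natDegree_ln hQ.2.1 x z) (by rwa [coeff_ln_top hQ.2.1])
    (natDegree_ln hQ'.2.1 x z) (by rwa [coeff_ln_top hQ'.2.1]) h1 i 0
  simpa only [eval_ln, hs, zero_add, zero_smul, one_smul, add_zero] using this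

theorem continuous_wv (v : E d) : Continuous (wv v) := by
  unfold wv; fun_prop

theorem wv_zero (v : E d) : wv v 0 = v := by simp [wv]

/-- increments of `p / q` in directions orthogonal to `v` do not depend on the base point. -/
theorem incr (hT : STwo) (hD : SDec) {Q Q' : Ix n → MP d} {m m' : ℕ} (hQ : Iso2 Q m)
    (hQ' : Iso2 Q' m') (hE : EdgeId Q Q') {v : E d} (hv : ‖v‖ = 1) (g : co (Q sI) v m ≠ 0)
    (g' : co (Q' sI) v m' ≠ 0) (i : Fin n) {x₀ : E d} (h0 : ev (Q sI) x₀ ≠ 0)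
    (h1 : ev (Q' sI) (x₀ + v) ≠ 0) :
    ∃ φ : E d → ℝ, ∀ᶠ y : E d × E d in 𝓝 (x₀, 0), ⟪v, y.2⟫ = 0 →
      ev (Q (Sum.inl i)) (y.1 + y.2) / ev (Q sI) (y.1 + y.2) -
        ev (Q (Sum.inl i)) y.1 / ev (Q sI) y.1 = φ y.2 := by
  have cw := continuous_wv v
  have ne : ∀ F : E d × E d → ℝ, Continuous F → F (x₀, 0) ≠ 0 →
      ∀ᶠ y : E d × E d in 𝓝 (x₀, 0), F y ≠ 0 := fun F hF h => hF.continuousAt.eventually_ne h
  have e1 : ∀ᶠ y : E d × E d in 𝓝 (x₀, 0), ‖y.2‖ < 1 :=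
    (continuous_snd.norm.continuousAt (x := ((x₀, 0) : E d × E d))).eventually_lt
      continuousAt_const (by simp)
  have e2 := ne (fun y => co (Q sI) (wv v y.2) m) (by fun_prop) (by simpa [wv_zero] using g)
  have e3 := ne (fun y => co (Q' sI) (wv v y.2) m') (by fun_prop) (by simpa [wv_zero] using g')
  have e4 := ne (fun y => co (Q sI) (wv v y.2 - y.2) m) (by fun_prop)
    (by simpa [wv_zero] using g)
  have e5 := ne (fun y => co (Q' sI) (wv v y.2 - y.2) m') (by fun_prop)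
    (by simpa [wv_zero] using g')
  have e6 := ne (fun y => ev (Q sI) y.1) (by fun_prop) h0
  have e7 := ne (fun y => ev (Q sI) (y.1 + y.2)) (by fun_prop) (by simpa using h0)
  have e8 := ne (fun y => ev (Q' sI) (y.1 + wv v y.2)) (by fun_prop)
    (by simpa [wv_zero] using h1)
  refine ⟨fun h => co (Q (Sum.inl i)) (wv v h) (m + 1) / co (Q sI) (wv v h) m -
    co (Q (Sum.inl i)) (wv v h - h) (m + 1) / co (Q sI) (wv v h - h) m, ?_⟩
  filter_upwards [e1, e2, e3, e4, e5, e6, e7, e8] with y e1 e2 e3 e4 e5 e6 e7 e8 hy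
  obtain ⟨u1, u2, -, -⟩ := (hD d).1 v y.2 hv hy e1.le
  have s1 := step hT hQ hQ' hE u1 e2 e3 i y.1
  have s2 := step hT hQ hQ' hE u2 e4 e5 i (y.1 + y.2)
  rw [show y.1 + y.2 + (wv v y.2 - y.2) = y.1 + wv v y.2 by abel] at s2
  generalize co (Q (Sum.inl i)) (wv v y.2) (m + 1) / co (Q sI) (wv v y.2) m = L1 at s1 ⊢
  generalize co (Q (Sum.inl i)) (wv v y.2 - y.2) (m + 1) / co (Q sI) (wv v y.2 - y.2) m = L2
    at s2 ⊢
  generalize ev (Q' (Sum.inl i)) (y.1 + wv v y.2) = A at s1 s2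
  generalize ev (Q' sI) (y.1 + wv v y.2) = B at s1 s2 e8
  generalize ev (Q sI) (y.1 + y.2) = q2 at s2 e7 ⊢
  generalize ev (Q sI) y.1 = q1 at s1 e6 ⊢
  generalize ev (Q (Sum.inl i)) (y.1 + y.2) = p2 at s2 ⊢
  generalize ev (Q (Sum.inl i)) y.1 = p1 at s1 ⊢
  have t1 : p1 / q1 = A / B - L1 := by
    field_simp
    linear_combination (-1 : ℝ) * s1
  have t2 : p2 / q2 = A / B - L2 := by
    field_simp
    linear_combination (-1 : ℝ) * s2
  rw [t1, t2]; ring

/-- a function with increments independent of the base point is affine. -/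
theorem affine_of_incr {f ψ : E d → ℝ} {x₀ : E d} (hf : ∀ᶠ y in 𝓝 x₀, DifferentiableAt ℝ f y)
    (h : ∀ᶠ y in 𝓝 x₀, ∀ᶠ z in 𝓝 (0 : E d), f (y + z) - f y = ψ z) :
    ∃ (T : E d →L[ℝ] ℝ) (c : ℝ), ∀ᶠ y in 𝓝 x₀, f y = T y + c := by
  have h1 : ∀ᶠ y in 𝓝 x₀, HasFDerivAt f (fderiv ℝ ψ 0) y := by
    filter_upwards [hf, h] with y hy hz
    have a1 : HasFDerivAt (fun z => f (y + z) - f y) (fderiv ℝ f y) 0 := by
      have : HasFDerivAt f (fderiv ℝ f y) (y + 0) := by simpa using hy.hasFDerivAt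
      exact ((hasFDerivAt_comp_add_left y).2 this).sub_const _
    have a2 : HasFDerivAt ψ (fderiv ℝ f y) 0 :=
      a1.congr_of_eventuallyEq (hz.mono fun z hz => hz.symm)
    rw [a2.fderiv]
    exact hy.hasFDerivAt
  obtain ⟨r, hr, hb⟩ := Metric.eventually_nhds_iff_ball.1 h1
  refine ⟨fderiv ℝ ψ 0, f x₀ - fderiv ℝ ψ 0 x₀, ?_⟩
  have h2 : ∀ y ∈ ball x₀ r, HasFDerivAt (fun y => f y - fderiv ℝ ψ 0 y) (0 : E d →L[ℝ] ℝ) y :=
    fun y hy => by
      have := (hb y hy).fun_sub (fderiv ℝ ψ 0).hasFDerivAt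
      rwa [sub_self] at this
  filter_upwards [ball_mem_nhds x₀ hr] with y hy
  have := isOpen_ball.is_const_of_fderiv_eq_zero (𝕜 := ℝ) (convex_ball x₀ r).isPreconnected
    (fun y hy => (h2 y hy).differentiableAt.differentiableWithinAt)
    (fun y hy => (h2 y hy).fderiv) hy (mem_ball_self hr)
  linarith

theorem ev_lin (T : E d →L[ℝ] ℝ) (z : E d) :
    ev (∑ k, MvPolynomial.C (T (EuclideanSpace.single k 1)) * MvPolynomial.X k : MP d) z = T z := by
  conv_rhs => rw [← (EuclideanSpace.basisFun (Fin d) ℝ).sum_repr z]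
  simp [mul_comm]

/-- a polynomial that vanishes near a point is zero. -/
theorem ev_eq_zero_of_nhds (hN : SNull) {q : MP d} {x₀ : E d} (h : ∀ᶠ y in 𝓝 x₀, ev q y = 0) :
    q = 0 := by
  by_contra hq
  obtain ⟨y, hy, hy'⟩ := (dense_ev_ne hN hq).inter_nhds_nonempty h
  exact hy hy'

theorem exists_ev_ne {q : MP d} (hq : q ≠ 0) : ∃ z, ev q z ≠ 0 := by
  by_contra h
  push Not at h
  exact hq (eq_zero_of_ev h)

theorem ev_sq (z : E d) : ev (∑ k, MvPolynomial.X k ^ 2 : MP d) z = ‖z‖ ^ 2 := by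
  simp [EuclideanSpace.real_norm_sq_eq]

theorem ev_inner (v z : E d) :
    ev (∑ k, MvPolynomial.C (v k) * MvPolynomial.X k : MP d) z = ⟪v, z⟫ := by
  simp [PiLp.inner_apply, mul_comm]

/-- two good unit vectors that are not parallel. -/
theorem exists_two (hd : 2 ≤ d) {q q' : MP d} {m m' : ℕ}
    (h : MvPolynomial.homogeneousComponent m q ≠ 0)
    (h' : MvPolynomial.homogeneousComponent m' q' ≠ 0) :
    ∃ v v' : E d, ‖v‖ = 1 ∧ ‖v'‖ = 1 ∧ v ≠ v' ∧ v ≠ -v' ∧ co q v m ≠ 0 ∧ co q' v m' ≠ 0 ∧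
      co q v' m ≠ 0 ∧ co q' v' m' ≠ 0 := by
  have key : ∀ v : E d, ‖v‖ ≤ 1 → ∃ b : E d, ‖b‖ = 1 ∧ ⟪v, b⟫ ^ 2 ≠ 1 ∧ co q b m ≠ 0 ∧
      co q' b m' ≠ 0 := by
    intro v hv
    set M : MP d := (∑ k, MvPolynomial.X k ^ 2) -
      (∑ k, MvPolynomial.C (v k) * MvPolynomial.X k) ^ 2 with hM
    have eM : ∀ z, ev M z = ‖z‖ ^ 2 - ⟪v, z⟫ ^ 2 := fun z => by
      rw [hM, ev_sub, ev_pow, ev_sq, ev_inner]
    have M0 : M ≠ 0 := by
      intro h0
      have a : ∀ k, v k ^ 2 = 1 := fun k => by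
        have := eM (EuclideanSpace.single k 1)
        rw [h0, ev_zero] at this
        simp [EuclideanSpace.inner_single_right] at this
        linarith
      have b : ‖v‖ ^ 2 = d := by simp [EuclideanSpace.real_norm_sq_eq, a]
      have c : (2 : ℝ) ≤ d := by exact_mod_cast hd
      nlinarith [norm_nonneg v]
    obtain ⟨b, hb⟩ := exists_ev_ne (mul_ne_zero (mul_ne_zero h h') M0)
    rw [ev_mul, ev_mul, ← co_eq_ev, ← co_eq_ev, eM] at hb
    have b1 := left_ne_zero_of_mul (left_ne_zero_of_mul hb)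
    have b2 := right_ne_zero_of_mul (left_ne_zero_of_mul hb)
    have b3 := right_ne_zero_of_mul hb
    have b0 : ‖b‖ ≠ 0 := by
      intro e
      rw [norm_eq_zero] at e
      simp [e] at b3
    refine ⟨‖b‖⁻¹ • b, by rw [norm_smul, norm_inv, norm_norm, inv_mul_cancel₀ b0], ?_, ?_, ?_⟩
    · rw [inner_smul_right]
      intro e
      apply b3
      field_simp at e
      linarith
    · rw [co_smul]; exact mul_ne_zero (pow_ne_zero _ (inv_ne_zero b0)) b1
    · rw [co_smul]; exact mul_ne_zero (pow_ne_zero _ (inv_ne_zero b0)) b2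
  obtain ⟨v, v1, -, v2, v3⟩ := key 0 (by simp)
  obtain ⟨v', w1, w0, w2, w3⟩ := key v v1.le
  refine ⟨v, v', v1, w1, ?_, ?_, v2, v3, w2, w3⟩
  · rintro rfl
    rw [real_inner_self_eq_norm_sq, v1] at w0
    norm_num at w0
  · rintro rfl
    rw [inner_neg_left, real_inner_self_eq_norm_sq, w1] at w0
    norm_num at w0

end Aff1A

open Aff1A in
theorem sAff1 : SNull → STwo → SDec → SAff1 := by
  intro hN hT hD d n hd Q Q' m m' hQ hQ' h h' hE
  obtain ⟨v, v', v1, w1, n1, n2, g1, g2, g3, g4⟩ := exists_two hd h h'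
  have q0 : Q sI ≠ 0 := fun e => h (by rw [e, map_zero])
  have q0' : Q' sI ≠ 0 := fun e => h' (by rw [e, map_zero])
  obtain ⟨x₀, hx⟩ := exists_ev_ne (mul_ne_zero (mul_ne_zero q0 (sh_ne_zero v q0'))
    (sh_ne_zero v' q0'))
  rw [ev_mul, ev_mul, ev_sh, ev_sh] at hx
  have x1 := left_ne_zero_of_mul (left_ne_zero_of_mul hx)
  have x2 := right_ne_zero_of_mul (left_ne_zero_of_mul hx)
  have x3 := right_ne_zero_of_mul hx
  obtain ⟨H, H', hH⟩ := (hD d).2 v v' v1 w1 n1 n2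
  have ne : ∀ᶠ y in 𝓝 x₀, ev (Q sI) y ≠ 0 := (continuous_ev _).continuousAt.eventually_ne x1
  have main : ∀ i, ∃ (T : E d →L[ℝ] ℝ) (c : ℝ), ∀ z,
      ev (Q (Sum.inl i)) z = ev (Q sI) z * (T z + c) := by
    intro i
    obtain ⟨φ, hφ⟩ := incr hT hD hQ hQ' hE v1 g1 g2 i x1 x2
    obtain ⟨φ', hφ'⟩ := incr hT hD hQ hQ' hE w1 g3 g4 i x1 x3
    have t1 : Tendsto (fun y : E d × E d => (y.1, H y.2)) (𝓝 (x₀, 0)) (𝓝 (x₀, 0)) :=
      Continuous.tendsto' (by fun_prop) _ _ (by simp)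
    have t2 : Tendsto (fun y : E d × E d => (y.1 + H y.2, H' y.2)) (𝓝 (x₀, 0)) (𝓝 (x₀, 0)) :=
      Continuous.tendsto' (by fun_prop) _ _ (by simp)
    have e : ∀ᶠ y : E d × E d in 𝓝 (x₀, 0),
        ev (Q (Sum.inl i)) (y.1 + y.2) / ev (Q sI) (y.1 + y.2) -
          ev (Q (Sum.inl i)) y.1 / ev (Q sI) y.1 = φ (H y.2) + φ' (H' y.2) := by
      filter_upwards [t1.eventually hφ, t2.eventually hφ'] with y a b
      have a' := a (hH y.2).2.1
      have b' := b (hH y.2).2.2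
      simp only [add_assoc, (hH y.2).1] at a' b'
      linarith
    obtain ⟨T, c, hTc⟩ := affine_of_incr (f := fun y => ev (Q (Sum.inl i)) y / ev (Q sI) y)
      (ψ := fun z => φ (H z) + φ' (H' z)) (x₀ := x₀)
      (ne.mono fun y hy => (((contDiff_ev (m := 1) _).contDiffAt.div
        (contDiff_ev (m := 1) _).contDiffAt hy).differentiableAt one_ne_zero)) e.curry_nhds
    have z0 : Q (Sum.inl i) - Q sI * ((∑ k, MvPolynomial.C (T (EuclideanSpace.single k 1)) *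
        MvPolynomial.X k) + MvPolynomial.C c) = 0 := by
      refine ev_eq_zero_of_nhds hN (x₀ := x₀) ?_
      filter_upwards [ne, hTc] with y hy hy'
      rw [ev_sub, ev_mul, ev_add, ev_lin, ev_C, ← hy']
      field_simp
      ring
    refine ⟨T, c, fun z => ?_⟩
    have := congrArg (fun p => ev p z) z0
    simp only [ev_sub, ev_mul, ev_add, ev_lin, ev_C, ev_zero] at this
    linarith
  choose T c hTc using main
  refine ⟨((EuclideanSpace.equiv (Fin n) ℝ).symm : (Fin n → ℝ) →L[ℝ] E n).comp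
    (ContinuousLinearMap.pi T), WithLp.toLp 2 c, fun z i => ?_⟩
  rw [hTc i z]
  simp

end Pool.Agent.MP_66cee2_co.XI
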