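import Pool.Agent.MP_66cee2_co.XI.Kit

/-
Row Aff2: both ends of an edge in the isometric class are the same isometry.
-/

namespace Pool.Agent.MP_66cee2_co.XI

open MeasureTheory Set Filter Metric Topology Polynomial Pool.Agent.MP_66cee2_co.X
open scoped ENNReal RealInnerProductSpace

namespace Aff2A

variable {d n : ℕ}

theorem ext_dense (hN : SNull) {q : MP d} (hq : q ≠ 0) {f g : E d → ℝ} (hf : Continuous f)
    (hg : Continuous g) (h : ∀ z, ev q z ≠ 0 → f z = g z) (z : E d) : f z = g z :=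
  congrFun (Continuous.ext_on (dense_ev_ne hN hq) hf hg h) z

theorem lz_smul (a b : ℝ) (u v : Ix n → ℝ) : lz (a • u) (b • v) = a * b * lz u v := by
  simp only [lz_eq, Pi.smul_apply, smul_eq_mul, mul_add, Finset.mul_sum]
  congr 1
  · congr 1
    · exact Finset.sum_congr rfl fun i _ => by ring
    · ring
  · ring

theorem par0 {a e : E n} (h1 : ‖e + a‖ ^ 2 = 1) (h2 : ‖e - a‖ ^ 2 = 1) (h3 : ‖e‖ ^ 2 = 1) :
    a = 0 := by
  rw [norm_add_sq_real] at h1
  rw [norm_sub_sq_real] at h2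
  have : ‖a‖ ^ 2 = 0 := by linarith
  simpa using this

theorem top_ne {j : ℕ} {Q : Ix n → MP d} (h : Cl2 j Q) :
    ∃ m, Iso2 Q m ∧ MvPolynomial.homogeneousComponent m (Q sI) ≠ 0 := by
  obtain ⟨m, h1, α, hα, h2⟩ := h
  refine ⟨m, h1, fun h0 => ?_⟩
  have h3 := MvPolynomial.coeff_homogeneousComponent m (Q sI) α
  rw [h0, if_pos hα, MvPolynomial.coeff_zero] at h3
  rw [← h3] at h2
  norm_num at h2

theorem one (hN : SNull) {Q : Ix n → MP d} {m : ℕ} (h : Iso2 Q m)
    (h0 : MvPolynomial.homogeneousComponent m (Q sI) ≠ 0) (T : E d →L[ℝ] E n) (c : E n)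
    (hT : ∀ z i, ev (Q (Sum.inl i)) z = ev (Q sI) z * (T z + c) i) :
    Q sI ≠ 0 ∧ (∀ z, ‖T z‖ ^ 2 = ‖z‖ ^ 2) ∧ ∀ z, evv Q z = ev (Q sI) z • lift (T z + c) := by
  have hq : Q sI ≠ 0 := fun e => h0 (by rw [e, map_zero])
  refine ⟨hq, ext_dense hN h0 (by fun_prop) (by fun_prop) fun z hz => ?_, fun z => ?_⟩
  · have h1 : ∀ i, co (Q (Sum.inl i)) z (m + 1) = co (Q sI) z m * T z i := by
      intro i
      have e : ln (Q (Sum.inl i)) 0 z = ln (Q sI) 0 z * X * C (T z i) + ln (Q sI) 0 z * C (c i) := by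
        refine Polynomial.funext fun t => ?_
        simp only [eval_add, eval_mul, eval_ln_zero, eval_X, eval_C, hT, map_smul, PiLp.add_apply,
          PiLp.smul_apply, smul_eq_mul]
        ring
      rw [co, e, coeff_add, coeff_mul_C, coeff_mul_C, coeff_mul_X,
        coeff_eq_zero_of_natDegree_lt (Nat.lt_succ_of_le (natDegree_ln h.2.1 0 z)), zero_mul,
        add_zero, co]
    have h2 := h.2.2.2 z
    simp only [h1, mul_pow, ← Finset.mul_sum] at h2
    rw [← EuclideanSpace.real_norm_sq_eq, mul_comm (‖z‖ ^ 2)] at h2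
    rw [← co_eq_ev] at hz
    exact mul_left_cancel₀ (pow_ne_zero 2 hz) h2
  · funext a
    rcases a with i | _ | _
    · exact hT z i
    · change ev (Q (Sum.inr false)) z = ev (Q sI) z * (1 / 2 - ‖T z + c‖ ^ 2)
      refine ext_dense hN hq (f := fun z => ev (Q (Sum.inr false)) z)
        (g := fun z => ev (Q sI) z * (1 / 2 - ‖T z + c‖ ^ 2)) (by fun_prop) (by fun_prop)
        (fun z hz => ?_) z
      have h1 := h.1 z
      have h2 : ∑ i, ev (Q (Sum.inl i)) z * ev (Q (Sum.inl i)) z =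
          ev (Q sI) z ^ 2 * ‖T z + c‖ ^ 2 := by
        rw [EuclideanSpace.real_norm_sq_eq, Finset.mul_sum]
        exact Finset.sum_congr rfl fun i _ => by rw [hT]; ring
      rw [lz_eq] at h1
      simp only [evv, h2] at h1
      refine mul_left_cancel₀ hz ?_
      simp only [sI] at h1 ⊢
      linear_combination h1 / 2
    · exact (mul_one _).symm

end Aff2A

open Aff2A

theorem sAff2 : SNull → SAff1 → SAff2 := by
  intro hN hA d n hd j j' Q Q' hQ hQ' hE
  obtain ⟨m, h1, h2⟩ := top_ne hQ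
  obtain ⟨m', h1', h2'⟩ := top_ne hQ'
  obtain ⟨T, c, hT⟩ := hA d n hd Q Q' m m' h1 h1' h2 h2' hE
  obtain ⟨T', c', hT'⟩ := hA d n hd Q' Q m' m h1' h1 h2' h2 hE.symm
  obtain ⟨hq, hn, hl⟩ := one hN h1 h2 T c hT
  obtain ⟨hq', hn', hl'⟩ := one hN h1' h2' T' c' hT'
  have key : ∀ w : E d, ‖w‖ = 1 → ∀ z, ‖T z + c - (T' (z + w) + c')‖ ^ 2 = 1 := by
    intro w hw
    refine ext_dense hN (mul_ne_zero hq (sh_ne_zero w hq')) (by fun_prop) (by fun_prop)
      fun z hz => ?_
    have h3 := hE z w hw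
    rw [hl, hl', lz_smul, lz_lift] at h3
    rw [ev_mul, ev_sh] at hz
    have h4 := (mul_eq_zero.1 h3).resolve_left hz
    linarith
  let w : E d := EuclideanSpace.single ⟨0, by omega⟩ 1
  have hw : ‖w‖ = 1 := by simp [w]
  have hTT : ∀ z, T z = T' z := by
    intro z
    refine sub_eq_zero.1 (par0 (e := c - (T' w + c')) ?_ ?_ ?_)
    · rw [← key w hw z, map_add]; congr 2; abel
    · rw [← key w hw (-z), map_add, map_neg, map_neg]; congr 2; abel
    · rw [← key w hw 0, zero_add, map_zero, zero_add]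
  have hc : c' = c := by
    refine sub_eq_zero.1 (par0 (e := T' w) ?_ ?_ (by rw [hn', hw, one_pow]))
    · rw [← key w hw 0, zero_add, map_zero, zero_add, norm_sub_rev c]; congr 2; abel
    · rw [← key (-w) (by rw [norm_neg, hw]) 0, zero_add, map_zero, zero_add, map_neg]
      congr 2; abel
  refine ⟨hq, hq', ⟨T.toLinearMap, fun z => ?_⟩, c, hl, fun z => ?_⟩
  · exact (pow_left_inj₀ (norm_nonneg _) (norm_nonneg _) two_ne_zero).1 (hn z)
  · rw [hl', hc, ← hTT]
    rfl

end Pool.Agent.MP_66cee2_co.XI
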