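import Pool.Agent.MP_66cee2_co.XI.Kit

/-
Pieces are closed, jointly in the direction.
-/

namespace Pool.Agent.MP_66cee2_co.XI

open MeasureTheory Set Filter Metric Topology Polynomial Pool.Agent.MP_66cee2_co.X
open scoped ENNReal

namespace CloA

variable {X : Type} [TopologicalSpace X] {d n D : ℕ}

theorem closed_ex {ι : Type} {s : Set ι} (hs : s.Finite) {A : ι → X → Prop}
    (hA : ∀ i, IsClosed {x | A i x}) (h : ∀ i x, A i x → i ∈ s) : IsClosed {x | ∃ i, A i x} := by
  have : {x | ∃ i, A i x} = ⋃ i ∈ s, {x | A i x} := by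
    ext x
    simp only [mem_ofPred_eq, mem_iUnion]
    exact ⟨fun ⟨i, hi⟩ => ⟨i, h i x hi, hi⟩, fun ⟨i, _, hi⟩ => ⟨i, hi⟩⟩
  rw [this]
  exact hs.isClosed_biUnion fun i _ => hA i

theorem closed_all {ι : Sort*} {A : ι → X → Prop} (hA : ∀ i, IsClosed {x | A i x}) :
    IsClosed {x | ∀ i, A i x} := by
  rw [ofPred_forall]
  exact isClosed_iInter hA

theorem closed_and {A B : X → Prop} (hA : IsClosed {x | A x}) (hB : IsClosed {x | B x}) :
    IsClosed {x | A x ∧ B x} := hA.inter hB

theorem closed_or {A B : X → Prop} (hA : IsClosed {x | A x}) (hB : IsClosed {x | B x}) :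
    IsClosed {x | A x ∨ B x} := hA.union hB

theorem closed_meas [SequentialSpace X] {Y : Type} [MeasurableSpace Y] (μ : Measure Y)
    {B : X → Set Y} (hB : ∀ y, IsOpen {p | y ∈ B p}) (c : ℝ≥0∞) :
    IsClosed {p | μ (B p) ≤ c} := by
  refine IsSeqClosed.isClosed fun x p hx hp => ?_
  have h1 : B p ⊆ ⋃ N, ⋂ k ≥ N, B (x k) := fun y hy => by
    obtain ⟨N, hN⟩ := eventually_atTop.1 (hp.eventually ((hB y).mem_nhds hy))
    exact mem_iUnion.2 ⟨N, mem_iInter₂.2 hN⟩
  refine (measure_mono h1).trans ?_
  rw [Monotone.measure_iUnion fun a b hab => biInter_subset_biInter_left fun k hk => hab.trans hk]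
  exact iSup_le fun N => (measure_mono (biInter_subset_of_mem (le_refl N))).trans (hx N)

/-- a continuous family of polynomials of bounded degree. -/
structure Fam (D : ℕ) (q : X → MP d) : Prop where
  deg : ∀ x, (q x).totalDegree ≤ D
  cf : ∀ α, Continuous fun x => MvPolynomial.coeff α (q x)

variable {q : X → MP d} {w : X → E d}

theorem Fam.cev (h : Fam D q) (hw : Continuous w) : Continuous fun x => ev (q x) (w x) := by
  have : (fun x => ev (q x) (w x)) =
      fun x => ∑ α ∈ mons d D, MvPolynomial.coeff α (q x) * ∏ i, w x i ^ α i := by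
    funext x
    rw [ev_eq_sum]
    exact Finset.sum_subset (support_subset_mons (h.deg x)) fun α _ hα => by
      rw [MvPolynomial.notMem_support_iff.1 hα, zero_mul]
  rw [this]
  exact continuous_finsetSum _ fun α _ => (h.cf α).mul (by fun_prop)

theorem Fam.cco (h : Fam D q) (hw : Continuous w) (k : ℕ) :
    Continuous fun x => co (q x) (w x) k := by
  simp only [co_eq_ev]
  refine Fam.cev (D := k) ⟨fun x => (MvPolynomial.homogeneousComponent_isHomogeneous k
    (q x)).totalDegree_le, fun α => ?_⟩ hw
  simp only [MvPolynomial.coeff_homogeneousComponent]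
  split_ifs
  · exact h.cf α
  · exact continuous_const

theorem Fam.degL (h : Fam D q) (hw : Continuous w) (m : ℕ) : IsClosed {x | DegL (q x) (w x) m} :=
  closed_all fun k => closed_all fun _ => isClosed_eq (h.cco hw k) continuous_const

theorem Fam.zero (h : Fam D q) : IsClosed {x | q x = 0} := by
  simp only [MvPolynomial.ext_iff]
  exact closed_all fun α => isClosed_eq (h.cf α) continuous_const

theorem Fam.tdeg (h : Fam D q) (m : ℕ) : IsClosed {x | (q x).totalDegree ≤ m} := by
  have : ∀ p : MP d, p.totalDegree ≤ m ↔ ∀ α, α ∉ mons d m → MvPolynomial.coeff α p = 0 := by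
    refine fun p => ⟨fun hp α hα => MvPolynomial.notMem_support_iff.1 fun h =>
      hα (support_subset_mons hp h), fun hp => Finset.sup_le fun α hα => ?_⟩
    have : α ∈ mons d m := by_contra fun h => MvPolynomial.mem_support_iff.1 hα (hp α h)
    simp only [mons, Set.Finite.mem_toFinset, Set.mem_ofPred_eq, Finsupp.degree_eq_sum] at this
    rwa [Finsupp.sum_fintype _ _ (fun _ => rfl)]
  simp only [this]
  exact closed_all fun α => closed_all fun _ => isClosed_eq (h.cf α) continuous_const

theorem le_of_co {p : MP d} (h : p.totalDegree ≤ D) {v : E d} {m : ℕ} (hm : co p v m ≠ 0) :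
    m ≤ D := not_lt.1 fun hc => hm (degL_of_totalDegree h v m hc)

theorem le_of_sq {p : MP d} (h : p.totalDegree ≤ D) {v : E d} {m : ℕ} {j : ℝ}
    (hm : 1 ≤ j * co p v m ^ 2) : m ≤ D :=
  le_of_co h (v := v) fun e => by rw [e] at hm; norm_num at hm

theorem le_of_sum {p : Fin n → MP d} (h : ∀ i, (p i).totalDegree ≤ D) {v : E d} {m : ℕ} {j : ℝ}
    (hm : 1 ≤ j * ∑ i, co (p i) v m ^ 2) : m ≤ D := by
  by_contra hc
  rw [Finset.sum_eq_zero fun i _ => by
    rw [degL_of_totalDegree (h i) v m (not_le.1 hc), zero_pow two_ne_zero]] at hm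
  norm_num at hm

variable {Q : X → Ix n → MP d}

theorem closed_GC (h : ∀ a, Fam D fun x => Q x a) : IsClosed {x | GC (Q x)} := by
  refine closed_all fun z => ?_
  have hc : ∀ a, Continuous fun x => ev (Q x a) z := fun a => (h a).cev continuous_const
  simp only [lz_eq, evv]
  exact isClosed_eq (by fun_prop) (by fun_prop)

theorem closed_Cl (h : ∀ a, Fam D fun x => Q x a) (hw : Continuous w) (c : Fin 4) (j : ℕ) :
    IsClosed {x | Cl c j (w x) (Q x)} := by
  have hc : ∀ a k, Continuous fun x => co (Q x a) (w x) k := fun a k => (h a).cco hw k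
  have hd : ∀ a m, IsClosed {x | DegL (Q x a) (w x) m} := fun a m => (h a).degL hw m
  refine closed_or (closed_and isClosed_const ?_) (closed_or (closed_and isClosed_const ?_)
    (closed_or (closed_and isClosed_const ?_) (closed_and isClosed_const ?_)))
  · exact closed_and (h _).zero (closed_ex (finite_Iic D)
      (fun m => closed_and (closed_all fun i => hd _ m) (isClosed_le (by fun_prop) (by fun_prop)))
      fun m x hx => le_of_sum (fun i => (h _).deg x) hx.2)
  · refine closed_and (closed_GC h) (closed_ex (finite_Iic D) (fun m => closed_ex (finite_Iic D)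
      (fun k => closed_and isClosed_const (closed_and (hd _ m) (closed_and
        (closed_all fun i => hd _ k) (closed_and (isClosed_le (by fun_prop) (by fun_prop))
          (isClosed_le (by fun_prop) (by fun_prop))))))
      fun k x hx => le_of_sum (fun i => (h _).deg x) hx.2.2.2.2) fun m x hx => ?_)
    obtain ⟨k, hx⟩ := hx
    exact le_of_sq ((h _).deg x) hx.2.2.2.1
  · exact closed_and (closed_GC h) (closed_ex (finite_Iic D)
      (fun m => closed_and (hd _ m) (closed_and (closed_all fun i => hd _ _)
        (closed_and (isClosed_le (by fun_prop) (by fun_prop))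
          (isClosed_le (by fun_prop) (by fun_prop)))))
      fun m x hx => le_of_sq ((h _).deg x) hx.2.2.1)
  · have hm : ∀ (x : X) (α : Fin d →₀ ℕ), 1 ≤ (j : ℝ) * MvPolynomial.coeff α (Q x sI) ^ 2 →
        α ∈ mons d D := fun x α hα => support_subset_mons ((h _).deg x)
      (MvPolynomial.mem_support_iff.2 fun e => by rw [e] at hα; norm_num at hα)
    refine closed_ex (finite_Iic D) (fun m => closed_and (closed_and (closed_GC h)
      (closed_and ((h _).tdeg m) (closed_and (closed_all fun i => (h _).tdeg _)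
        (closed_all fun z => ?_)))) (closed_ex (mons d D).finite_toSet
          (fun α => closed_and isClosed_const (isClosed_le continuous_const ?_))
          fun α x hx => hm x α hx.2)) fun m x hx => ?_
    · have hz : ∀ a k, Continuous fun x => co (Q x a) z k :=
        fun a k => (h a).cco continuous_const k
      exact isClosed_eq (by fun_prop) (by fun_prop)
    · exact continuous_const.mul (((h _).cf α).pow 2)
    · obtain ⟨-, α, rfl, hα⟩ := hx
      simpa only [mons, Set.Finite.mem_toFinset, Set.mem_ofPred_eq, mem_Iic] using hm x α hα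

theorem closed_thin [SequentialSpace X] (h : ∀ a, Fam D fun x => Q x a) (hw : Continuous w)
    (u : E d → Ix n → ℝ) (ε τ : ℝ) : IsClosed {x | Thin (badS u (Q x) ε) (w x) τ} := by
  refine closed_meas volume (fun z => ?_) _
  have hc : ∀ a, Continuous fun x => ev (Q x a) z := fun a => (h a).cev continuous_const
  refine IsOpen.inter (s := {x | ∃ a b, ε < |ev (Q x a) z * u z b - ev (Q x b) z * u z a|})
    (t := {x | dist z (w x) < τ}) ?_ (isOpen_lt (by fun_prop) continuous_const)
  simp only [ofPred_exists]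
  exact isOpen_iUnion fun a => isOpen_iUnion fun b => isOpen_lt continuous_const (by fun_prop)

/-- the polynomial with given coefficients. -/
noncomputable def mkP (D : ℕ) (c : mons d D → Icc (-1 : ℝ) 1) : MP d :=
  ∑ α, MvPolynomial.monomial α.1 (c α).1

theorem coeff_mkP (c : mons d D → Icc (-1 : ℝ) 1) (α : Fin d →₀ ℕ) :
    MvPolynomial.coeff α (mkP D c) = if h : α ∈ mons d D then (c ⟨α, h⟩).1 else 0 := by
  rw [mkP, MvPolynomial.coeff_sum]
  simp only [MvPolynomial.coeff_monomial]
  split_ifs with h
  · rw [Finset.sum_eq_single ⟨α, h⟩ (fun β _ hβ => if_neg fun e => hβ (Subtype.ext e))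
      (by simp), if_pos rfl]
  · exact Finset.sum_eq_zero fun β _ => if_neg fun e : β.1 = α => h (e ▸ β.2)

theorem deg_mkP (c : mons d D → Icc (-1 : ℝ) 1) : (mkP D c).totalDegree ≤ D := by
  refine MvPolynomial.totalDegree_finsetSum_le fun α _ =>
    (MvPolynomial.totalDegree_monomial_le _ _).trans ?_
  have := α.2
  simp only [mons, Set.Finite.mem_toFinset, Set.mem_ofPred_eq, Finsupp.degree_eq_sum] at this
  rwa [Finsupp.sum_fintype _ _ (fun _ => rfl)]

theorem exists_mkP {p : MP d} (h : p.totalDegree ≤ D) (hc : ∀ α, |MvPolynomial.coeff α p| ≤ 1) :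
    ∃ c, mkP D c = p := by
  refine ⟨fun α => ⟨_, abs_le.1 (hc α.1)⟩, MvPolynomial.ext _ _ fun α => ?_⟩
  rw [coeff_mkP]
  split_ifs with hα
  · rfl
  · exact (MvPolynomial.notMem_support_iff.1 fun e => hα (support_subset_mons h e)).symm

end CloA

open CloA

theorem sClo : SClo := by
  intro d n u D K j c
  let Y : Type := (E d × E d) × (Ix n → mons d D → Icc (-1 : ℝ) 1)
  have hF : ∀ a, Fam D fun y : Y => mkP D (y.2 a) := fun a => ⟨fun y => deg_mkP _, fun α => by
    simp only [coeff_mkP]
    split_ifs
    · exact continuous_subtype_val.comp ((continuous_apply _).comp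
        ((continuous_apply a).comp continuous_snd))
    · exact continuous_const⟩
  have hT : IsClosed {y : Y | ‖y.1.1‖ ≤ j ∧ (∀ τ : ℝ, 0 < τ → j * τ ≤ 1 →
      Thin (badS u (fun a => mkP D (y.2 a)) (j * τ ^ K)) y.1.1 τ) ∧
      Cl c j y.1.2 fun a => mkP D (y.2 a)} :=
    closed_and (isClosed_le (by fun_prop) continuous_const) (closed_and
      (closed_all fun τ => closed_all fun _ => closed_all fun _ =>
        closed_thin hF (by fun_prop) u _ τ) (closed_Cl hF (by fun_prop) c j))
  convert isClosedMap_fst_of_compactSpace _ hT using 1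
  ext x
  constructor
  · rintro ⟨h1, Q, hQ, h2⟩
    choose e he using fun a => exists_mkP (hQ.deg a) (hQ.cf a)
    obtain rfl : (fun a => mkP D (e a)) = Q := funext he
    exact ⟨(x, e), ⟨h1, hQ.thin, h2⟩, rfl⟩
  · rintro ⟨y, ⟨h1, h2, h3⟩, rfl⟩
    refine ⟨h1, _, ⟨fun a => deg_mkP _, fun a α => ?_, h2⟩, h3⟩
    rw [coeff_mkP]
    split_ifs
    · exact abs_le.2 (y.2 a _).2
    · simp

end Pool.Agent.MP_66cee2_co.XI
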