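import Pool.Agent.MP_66cee2_co.XI.Kit

/-
Exponential lower bound, second half: coefficients of polynomials in one variable.
-/

namespace Pool.Agent.MP_66cee2_co.XI

open MeasureTheory Set Filter Metric Topology Polynomial Pool.Agent.MP_66cee2_co.X

namespace CoefA

theorem one (m : ℕ) : ∃ C : ℝ, 0 ≤ C ∧ ∀ q : ℝ[X], q.natDegree ≤ m → ∀ A : ℝ,
    (∀ t ∈ Icc (0 : ℝ) 1, |q.eval t| ≤ A) → ∀ k, |q.coeff k| ≤ C * A := by
  let v : ℕ → ℝ := fun i => i / (m + 1)
  have hv : Set.InjOn v (Finset.range (m + 1)) := fun a _ b _ h => by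
    have h1 : ((m : ℝ) + 1) ≠ 0 := by positivity
    exact_mod_cast (div_left_inj' h1).mp h
  let b : ℕ → ℝ[X] := fun i => Lagrange.basis (Finset.range (m + 1)) v i
  refine ⟨∑ i ∈ Finset.range (m + 1), ∑ k ∈ (b i).support, |(b i).coeff k|,
    Finset.sum_nonneg fun i _ => Finset.sum_nonneg fun k _ => abs_nonneg _, fun q hq A hA k => ?_⟩
  have h1 : q.degree < (Finset.range (m + 1)).card := by
    rw [Finset.card_range]
    exact degree_le_natDegree.trans_lt (by exact_mod_cast Nat.lt_succ_of_le hq)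
  rw [Lagrange.eq_interpolate hv h1, Lagrange.interpolate_apply, finsetSum_coeff, Finset.sum_mul]
  refine (Finset.abs_sum_le_sum_abs _ _).trans (Finset.sum_le_sum fun i hi => ?_)
  rw [coeff_C_mul, abs_mul, mul_comm]
  have h2 : v i ∈ Icc (0 : ℝ) 1 := by
    refine ⟨by positivity, div_le_one_of_le₀ ?_ (by positivity)⟩
    exact_mod_cast (Finset.mem_range.mp hi).le
  refine mul_le_mul ?_ (hA _ h2) (abs_nonneg _) (Finset.sum_nonneg fun k _ => abs_nonneg _)
  by_cases hk : k ∈ (b i).support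
  · exact Finset.single_le_sum (f := fun k => |(b i).coeff k|) (fun _ _ => abs_nonneg _) hk
  · rw [notMem_support_iff.mp hk, abs_zero]
    exact Finset.sum_nonneg fun k _ => abs_nonneg _

theorem two (m : ℕ) (q : ℝ[X]) (B δ : ℝ) (hq : q.natDegree ≤ m) (hδ : 0 < δ)
    (h : ∀ t ∈ Ioo (0 : ℝ) δ, |q.eval t| ≤ B * t ^ (m + 1)) : q = 0 := by
  by_contra h0
  obtain ⟨p, hp, hd⟩ := exists_eq_pow_rootMultiplicity_mul_and_not_dvd q h0 0
  set r := q.rootMultiplicity 0 with hr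
  have h1 : r ≤ m := by
    have := natDegree_le_of_dvd ⟨p, hp⟩ h0
    rw [natDegree_pow, natDegree_X_sub_C, mul_one] at this
    exact this.trans hq
  obtain ⟨k, rfl⟩ := Nat.exists_eq_add_of_le h1
  have h2 : ∀ᶠ t in 𝓝[>] (0 : ℝ), |p.eval t| ≤ B * t ^ (k + 1) := by
    filter_upwards [Ioo_mem_nhdsGT hδ] with t ht
    have h3 := h t ht
    have h4 : 0 < t ^ r := pow_pos ht.1 r
    conv_lhs at h3 => rw [hp]
    simp only [eval_mul, eval_pow, eval_sub, eval_X, eval_C, sub_zero, abs_mul,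
      abs_of_pos h4] at h3
    refine le_of_mul_le_mul_left (h3.trans (le_of_eq ?_)) h4
    ring
  have h5 : Tendsto (fun t : ℝ => |p.eval t|) (𝓝[>] 0) (𝓝 |p.eval 0|) :=
    (p.continuous.abs.tendsto 0).mono_left nhdsWithin_le_nhds
  have h6 : Tendsto (fun t : ℝ => B * t ^ (k + 1)) (𝓝[>] 0) (𝓝 (B * 0 ^ (k + 1))) :=
    ((by fun_prop : Continuous fun t : ℝ => B * t ^ (k + 1)).tendsto 0).mono_left
      nhdsWithin_le_nhds
  have h7 := le_of_tendsto_of_tendsto h5 h6 h2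
  rw [zero_pow k.succ_ne_zero, mul_zero, abs_nonpos_iff] at h7
  exact hd (dvd_iff_isRoot.mpr h7)

end CoefA

theorem sCoef : SCoef := ⟨CoefA.one, CoefA.two⟩

end Pool.Agent.MP_66cee2_co.XI
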