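import Pool.Agent.MP_66cee2_co.XI.Kit

/-
Two step decomposition of small vectors.
-/

namespace Pool.Agent.MP_66cee2_co.XI

open MeasureTheory Set Filter Metric Topology Polynomial Pool.Agent.MP_66cee2_co.X
open scoped ENNReal RealInnerProductSpace

namespace DecA

theorem nsq {d : ℕ} (v h : E d) (hv : ‖v‖ = 1) (hvh : ⟪v, h⟫ = 0) (a b : ℝ) :
    ‖a • h + b • v‖ ^ 2 = a ^ 2 * ‖h‖ ^ 2 + b ^ 2 := by
  rw [norm_add_sq_real, inner_smul_left, inner_smul_right, real_inner_comm, hvh, norm_smul,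
    norm_smul, hv, mul_pow, mul_pow, Real.norm_eq_abs, Real.norm_eq_abs, sq_abs, sq_abs]
  simp

end DecA

open DecA in
theorem sDec : SDec := by
  intro d
  refine ⟨fun v h hv hvh hh => ?_, fun v v' hv hv' h1 h2 => ?_⟩
  · set s := √(1 - ‖h‖ ^ 2 / 4) with hs
    have h0 := norm_nonneg h
    have hs2 : s ^ 2 = 1 - ‖h‖ ^ 2 / 4 := Real.sq_sqrt (by nlinarith)
    have hs0 : 0 ≤ s := Real.sqrt_nonneg _
    have hs1 : s ≤ 1 := by nlinarith
    have key : ‖h‖ ^ 2 / 4 + (s - 1) ^ 2 ≤ ‖h‖ ^ 2 := by nlinarith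
    have e1 : wv v h = (1 / 2 : ℝ) • h + s • v := rfl
    have e2 : wv v h - h = (-1 / 2 : ℝ) • h + s • v := by rw [e1]; module
    have e3 : wv v h - v = (1 / 2 : ℝ) • h + (s - 1) • v := by rw [e1]; module
    have e4 : wv v h - h - v = (-1 / 2 : ℝ) • h + (s - 1) • v := by rw [e1]; module
    refine ⟨?_, ?_, ?_, ?_⟩
    · rw [← sq_eq_sq₀ (norm_nonneg _) zero_le_one, e1, nsq v h hv hvh]; linarith
    · rw [← sq_eq_sq₀ (norm_nonneg _) zero_le_one, e2, nsq v h hv hvh]; linarith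
    · rw [← sq_le_sq₀ (norm_nonneg _) h0, e3, nsq v h hv hvh]; linarith
    · rw [← sq_le_sq₀ (norm_nonneg _) h0, e4, nsq v h hv hvh]; linarith
  · set m : E d := v - ⟪v, v'⟫ • v' with hm
    have hvv : ⟪v, v⟫ = 1 := by rw [real_inner_self_eq_norm_sq, hv, one_pow]
    have hvv' : ⟪v', v'⟫ = 1 := by rw [real_inner_self_eq_norm_sq, hv', one_pow]
    have a1 : ⟪v, v'⟫ ≠ 1 := fun e => h1 ((inner_eq_one_iff_of_norm_eq_one hv hv').1 e)
    have a2 : ⟪v, v'⟫ ≠ -1 := fun e => h2 ((inner_eq_one_iff_of_norm_eq_one (𝕜 := ℝ) hv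
      (by rw [norm_neg, hv'])).1 (by rw [inner_neg_right, e, neg_neg]))
    have hvm : ⟪v, m⟫ ≠ 0 := by
      rw [hm, inner_sub_right, inner_smul_right, hvv]
      intro e
      have : (⟪v, v'⟫ - 1) * (⟪v, v'⟫ + 1) = 0 := by linarith
      rcases mul_eq_zero.1 this with e | e
      · exact a1 (by linarith)
      · exact a2 (by linarith)
    have hv'm : ⟪v', m⟫ = 0 := by
      rw [hm, inner_sub_right, inner_smul_right, hvv', real_inner_comm]; ring
    let H' : E d →L[ℝ] E d := (innerSL ℝ v).smulRight ((⟪v, m⟫)⁻¹ • m)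
    have hH' : ∀ z, H' z = ⟪v, z⟫ • (⟪v, m⟫)⁻¹ • m := fun z => rfl
    refine ⟨ContinuousLinearMap.id ℝ _ - H', H', fun z => ⟨by simp, ?_, ?_⟩⟩
    · change ⟪v, z - H' z⟫ = 0
      rw [hH', inner_sub_right, inner_smul_right, inner_smul_right, inv_mul_cancel₀ hvm]; ring
    · rw [hH', inner_smul_right, inner_smul_right, hv'm]; ring

end Pool.Agent.MP_66cee2_co.XI
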