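import Pool.Agent.MP_66cee2_co.XI.Kit

/-
Exponential lower bound, second half: density points.
-/

namespace Pool.Agent.MP_66cee2_co.XI

open MeasureTheory Set Filter Metric Topology Pool.Agent.MP_66cee2_co.X
open scoped ENNReal

namespace DenA

variable {d : ℕ}

theorem closed_le (B : Set (E d)) (τ : ℝ) (c : ℝ≥0∞) :
    IsClosed {x : E d | volume (B ∩ ball x τ) ≤ c} := by
  refine isClosed_of_closure_subset fun x hx => ?_
  have hm : Monotone fun k : ℕ => B ∩ ball x (τ - 1 / ((k : ℝ) + 1)) := fun k l hkl =>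
    inter_subset_inter_right _ (ball_subset_ball (by
      have : 1 / ((l : ℝ) + 1) ≤ 1 / ((k : ℝ) + 1) := Nat.one_div_le_one_div hkl
      linarith))
  have hU : B ∩ ball x τ ⊆ ⋃ k : ℕ, B ∩ ball x (τ - 1 / ((k : ℝ) + 1)) := by
    rintro z ⟨h1, h2⟩
    obtain ⟨k, hk⟩ := exists_nat_one_div_lt (sub_pos.2 (mem_ball.1 h2))
    exact mem_iUnion.2 ⟨k, h1, mem_ball.2 (by linarith)⟩
  refine (measure_mono hU).trans ?_
  rw [hm.measure_iUnion]
  refine iSup_le fun k => ?_
  obtain ⟨y, hy, hxy⟩ := Metric.mem_closure_iff.1 hx (1 / ((k : ℝ) + 1)) Nat.one_div_pos_of_nat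
  refine le_trans (measure_mono (inter_subset_inter_right _ fun z hz => ?_)) hy
  rw [mem_ball] at hz ⊢
  linarith [dist_triangle z x y]

theorem vol_closed (x : E d) {τ : ℝ} (hτ : 0 < τ) :
    volume (closedBall x τ) = volume (ball (0 : E d) τ) := by
  rw [Measure.addHaar_closedBall _ _ hτ.le, Measure.addHaar_ball_of_pos _ _ hτ]

end DenA

theorem sDen : SDen := by
  intro d Z
  refine ⟨fun hZ r => ?_, fun hZ => ?_⟩
  · have : Den Z r = Z ∩ ⋂ τ : ℝ, ⋂ _ : 0 < τ, ⋂ _ : τ ≤ r, {x | Thin Zᶜ x τ} := by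
      ext x; simp [Den]
    rw [this]
    exact hZ.inter (isClosed_iInter fun τ => isClosed_iInter fun _ => isClosed_iInter fun _ =>
      DenA.closed_le _ _ _)
  · filter_upwards [Besicovitch.ae_tendsto_measure_inter_div_of_measurableSet volume hZ.compl]
      with x hx hxZ
    rw [indicator_of_notMem (not_not.2 hxZ)] at hx
    have hc : (0 : ℝ≥0∞) < (16 * 4 ^ d : ℝ≥0∞)⁻¹ :=
      ENNReal.inv_pos.2 (ENNReal.mul_ne_top (by simp) (by simp))
    obtain ⟨u, hu, h⟩ := mem_nhdsGT_iff_exists_Ioc_subset.1 (hx.eventually (ge_mem_nhds hc))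
    refine ⟨u, hu, hxZ, fun τ h0 h1 => ?_⟩
    have h2 := h ⟨h0, h1⟩
    rw [mem_ofPred_eq, DenA.vol_closed x h0, ENNReal.div_le_iff (measure_ball_pos _ _ h0).ne'
      measure_ball_lt_top.ne] at h2
    exact (measure_mono (inter_subset_inter_right _ ball_subset_closedBall)).trans h2

end Pool.Agent.MP_66cee2_co.XI
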