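import Pool.Agent.MP_66cee2_co.XI.Kit

/-
Exponential lower bound, second half: the edge identity.
-/

namespace Pool.Agent.MP_66cee2_co.XI

open MeasureTheory Set Filter Metric Topology Polynomial Pool.Agent.MP_66cee2_co.X
open scoped ENNReal RealInnerProductSpace

namespace EdgeA

variable {d n : ℕ}

theorem abs_lz_le {a b : Ix n → ℝ} {A B : ℝ} (ha : ∀ i, |a i| ≤ A) (hb : ∀ i, |b i| ≤ B) :
    |lz a b| ≤ (2 * n + 2) * (A * B) := by
  have h : ∀ i k, |a i * b k| ≤ A * B := fun i k => by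
    rw [abs_mul]
    exact mul_le_mul (ha i) (hb k) (abs_nonneg _) ((abs_nonneg _).trans (ha i))
  have h1 : |∑ i, a (Sum.inl i) * b (Sum.inl i)| ≤ n * (A * B) :=
    (Finset.abs_sum_le_sum_abs _ _).trans
      ((Finset.sum_le_card_nsmul _ _ (A * B) fun i _ => h _ _).trans (by simp))
  rw [lz_eq]
  have h2 := abs_le.mp (h (Sum.inr true) (Sum.inr false))
  have h3 := abs_le.mp (h (Sum.inr false) (Sum.inr true))
  have h4 := abs_le.mp h1
  rw [abs_le]
  constructor <;> linarith [h2.1, h2.2, h3.1, h3.2, h4.1, h4.2]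

theorem lz_split (a b u v : Ix n → ℝ) (l m : ℝ) : lz a b =
    lz (fun i => a i - l * u i) b + lz (fun i => l * u i) (fun i => b i - m * v i) +
      l * m * lz u v := by
  have e : ∑ i, a (Sum.inl i) * b (Sum.inl i) =
      ∑ i, (a (Sum.inl i) - l * u (Sum.inl i)) * b (Sum.inl i) +
        ∑ i, l * u (Sum.inl i) * (b (Sum.inl i) - m * v (Sum.inl i)) +
        l * m * ∑ i, u (Sum.inl i) * v (Sum.inl i) := by
    simp only [Finset.mul_sum, ← Finset.sum_add_distrib]
    exact Finset.sum_congr rfl fun i _ => by ring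
  simp only [lz_eq]
  rw [e]; ring

theorem lz_small {a b u v : Ix n → ℝ} (hu : u ⬝ᵥ u = 1) (hv : v ⬝ᵥ v = 1) (huv : lz u v = 0)
    {M ε J : ℝ} (ha : ∀ i, |a i| ≤ M) (hb : ∀ i, |b i| ≤ M) (hε : ε ≤ J)
    (h1 : ∀ i k, |a i * u k - a k * u i| ≤ ε) (h2 : ∀ i k, |b i * v k - b k * v i| ≤ ε) :
    |lz a b| ≤ (2 * n + 2) * (n + 2) * (2 * M + (n + 2) * J) * ε := by
  have e1 := near_par hu h1
  have e2 := near_par hv h2
  have e3 : ∀ i, |(a ⬝ᵥ u) * u i| ≤ M + (n + 2) * J := fun i => by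
    have f1 := abs_le.mp (e1 i)
    have f2 := abs_le.mp (ha i)
    have f3 : ((n : ℝ) + 2) * ε ≤ (n + 2) * J := by gcongr
    rw [abs_le]
    constructor <;> linarith [f1.1, f1.2, f2.1, f2.2]
  rw [lz_split a b u v (a ⬝ᵥ u) (b ⬝ᵥ v), huv, mul_zero, add_zero]
  refine (abs_add_le _ _).trans ((add_le_add (abs_lz_le e1 hb) (abs_lz_le e3 e2)).trans ?_)
  exact le_of_eq (by ring)

/-- the Lorentz form of two polynomial vectors. -/
noncomputable def lzp (Q Q' : Ix n → MP d) : MP d :=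
  (2 : ℝ) • ∑ i, Q (Sum.inl i) * Q' (Sum.inl i) + Q (Sum.inr true) * Q' (Sum.inr false) +
    Q (Sum.inr false) * Q' (Sum.inr true)

theorem ev_lzp (Q Q' : Ix n → MP d) (z : E d) : ev (lzp Q Q') z = lz (evv Q z) (evv Q' z) := by
  simp [lzp, lz_eq, evv]

theorem deg_lzp {Q Q' : Ix n → MP d} {A B : ℕ} (h : ∀ a, (Q a).totalDegree ≤ A)
    (h' : ∀ a, (Q' a).totalDegree ≤ B) : (lzp Q Q').totalDegree ≤ A + B := by
  have e : ∀ a b, (Q a * Q' b).totalDegree ≤ A + B := fun a b =>
    (MvPolynomial.totalDegree_mul _ _).trans (add_le_add (h a) (h' b))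
  refine (MvPolynomial.totalDegree_add _ _).trans (max_le
    ((MvPolynomial.totalDegree_add _ _).trans (max_le ?_ (e _ _))) (e _ _))
  exact (MvPolynomial.totalDegree_smul_le _ _).trans
    (MvPolynomial.totalDegree_finsetSum_le fun i _ => e _ _)

theorem hom {H : MP d} {D : ℕ} (hH : H.totalDegree ≤ D) (N : Fin d → ℝ[X]) (e : ℝ[X])
    (hN : ∀ i, (N i).natDegree ≤ 2) (he : e.natDegree ≤ 2) :
    ∃ r : ℝ[X], r.natDegree ≤ 2 * D ∧ ∀ (s : ℝ) (v : E d),
      (∀ i, (N i).eval s = e.eval s * v i) → r.eval s = e.eval s ^ D * ev H v := by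
  refine ⟨∑ α ∈ H.support, C (MvPolynomial.coeff α H) *
    ((∏ i, N i ^ α i) * e ^ (D - ∑ i, α i)), ?_, fun s v hv => ?_⟩
  · refine natDegree_sum_le_of_forall_le _ _ fun α hα => (natDegree_C_mul_le _ _).trans ?_
    have h1 := (sum_le_totalDegree hα).trans hH
    have h2 : (∏ i, N i ^ α i).natDegree ≤ ∑ i, α i * 2 :=
      (natDegree_prod_le _ _).trans
        (Finset.sum_le_sum fun i _ => natDegree_pow_le_of_le _ (hN i))
    rw [← Finset.sum_mul] at h2
    have h3 := natDegree_pow_le_of_le (D - ∑ i, α i) he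
    refine (natDegree_mul_le_of_le h2 h3).trans ?_
    omega
  · rw [ev_eq_sum, eval_finsetSum, Finset.mul_sum]
    refine Finset.sum_congr rfl fun α hα => ?_
    have h1 := (sum_le_totalDegree hα).trans hH
    simp only [eval_mul, eval_C, eval_prod, eval_pow, hv, mul_pow, Finset.prod_mul_distrib,
      Finset.prod_pow_eq_pow_sum]
    conv_rhs => rw [← Nat.add_sub_cancel' h1, pow_add]
    ring

theorem sphere (hC : SCoef) (hS : SSig) (hd : 2 ≤ d) {H : MP d} {D : ℕ} (hH : H.totalDegree ≤ D)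
    {m : E d} (hm : ‖m‖ = 1) {B δ : ℝ} (hδ : 0 < δ)
    (h : ∀ τ, 0 < τ → τ ≤ δ → ∀ w : E d, ‖w‖ = 1 → ‖w - m‖ < τ → |ev H w| ≤ B * τ ^ (2 * D + 1))
    (w : E d) (hw : ‖w‖ = 1) : ev H w = 0 := by
  have key : ∀ w : E d, ‖w‖ = 1 → ⟪m, w⟫ + 1 ≠ 0 → ev H w = 0 := by
    intro w hw hc
    set c := ⟪m, w⟫ with hcd
    have hc1 : |c| ≤ 1 := by simpa [hm, hw] using abs_real_inner_le_norm m w
    obtain ⟨r, hr, hre⟩ := hom hH
      (fun i => C (m i) * (1 - X ^ 2) + C (2 * w i) * (X + C c * X ^ 2)) (1 + C (2 * c) * X + X ^ 2)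
      (fun i => by compute_degree) (by compute_degree)
    have hre' : ∀ s : ℝ, 1 + 2 * c * s + s ^ 2 ≠ 0 → r.eval s = (1 + 2 * c * s + s ^ 2) ^ D *
        ev H ((1 + 2 * c * s + s ^ 2)⁻¹ • ((1 - s ^ 2) • m + (2 * (s + c * s ^ 2)) • w)) := by
      intro s hs
      rw [hre s ((1 + 2 * c * s + s ^ 2)⁻¹ • ((1 - s ^ 2) • m + (2 * (s + c * s ^ 2)) • w))]
      · simp only [eval_add, eval_mul, eval_C, eval_one, eval_pow, eval_X]
      · intro i
        simp only [eval_add, eval_mul, eval_C, eval_sub, eval_one, eval_pow, eval_X,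
          PiLp.smul_apply, PiLp.add_apply, smul_eq_mul]
        rw [mul_inv_cancel_left₀ hs]
        ring
    have h0 : r = 0 := by
      refine hC.2 (2 * D) r (4 ^ D * (|B| * 17 ^ (2 * D + 1))) (min (1 / 4) (δ / 17)) hr
        (by positivity) fun s hs => ?_
      obtain ⟨hs0, hs1⟩ := hs
      rw [lt_min_iff] at hs1
      obtain ⟨c1, c2⟩ := abs_le.mp hc1
      set e := 1 + 2 * c * s + s ^ 2 with he
      have e1 : 1 / 2 ≤ e := by nlinarith [hs1.1]
      have e2 : e ≤ 4 := by nlinarith [hs1.1]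
      have e0 : 0 < e := by linarith
      set N := (1 - s ^ 2) • m + (2 * (s + c * s ^ 2)) • w with hN
      have hN2 : ‖N‖ ^ 2 = e ^ 2 := by
        rw [hN, norm_add_sq_real, norm_smul, norm_smul, real_inner_smul_left,
          real_inner_smul_right, hm, hw, ← hcd, mul_one, mul_one, Real.norm_eq_abs,
          Real.norm_eq_abs, sq_abs, sq_abs, he]
        ring
      have hN1 : ‖N‖ = e := (pow_left_inj₀ (norm_nonneg _) e0.le two_ne_zero).mp hN2
      have hu : ‖e⁻¹ • N‖ = 1 := by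
        rw [norm_smul, hN1, Real.norm_eq_abs, abs_of_pos (inv_pos.mpr e0), inv_mul_cancel₀ e0.ne']
      have hcl : ‖e⁻¹ • N - m‖ < 17 * s := by
        have f1 : e⁻¹ • N - m =
            e⁻¹ • ((-(2 * s * (s + c))) • m + (2 * s * (1 + c * s)) • w) := by
          have : e⁻¹ • N - m = e⁻¹ • (N - e • m) := by
            rw [smul_sub, smul_smul e⁻¹ e, inv_mul_cancel₀ e0.ne', one_smul]
          rw [this]
          congr 1
          rw [hN, he]
          module
        have f2 : ‖(-(2 * s * (s + c))) • m + (2 * s * (1 + c * s)) • w‖ ≤ 8 * s := by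
          refine (norm_add_le _ _).trans ?_
          rw [norm_smul, norm_smul, hm, hw, mul_one, mul_one, Real.norm_eq_abs, Real.norm_eq_abs]
          have g1 : |-(2 * s * (s + c))| ≤ 4 * s := by
            rw [abs_le]; constructor <;> nlinarith [hs1.1]
          have g3 : |c * s| ≤ 1 := by
            rw [abs_le]; constructor <;> nlinarith [hs1.1]
          have g2 : |2 * s * (1 + c * s)| ≤ 4 * s := by
            obtain ⟨g4, g5⟩ := abs_le.mp g3
            rw [abs_le]; constructor <;> nlinarith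
          linarith
        rw [f1, norm_smul, Real.norm_eq_abs, abs_of_pos (inv_pos.mpr e0),
          inv_mul_lt_iff₀ e0]
        nlinarith
      have h1 := h (17 * s) (by positivity) (by linarith [hs1.2]) _ hu hcl
      rw [hre' s e0.ne', abs_mul, abs_pow, abs_of_pos e0]
      calc e ^ D * |ev H (e⁻¹ • N)| ≤ 4 ^ D * (|B| * (17 * s) ^ (2 * D + 1)) := by
            gcongr
            exact h1.trans (by gcongr; exact le_abs_self B)
        _ = _ := by rw [mul_pow]; ring
    have h2 : 1 + 2 * c * 1 + 1 ^ 2 ≠ 0 := fun h => hc (by linarith)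
    have h3 := hre' 1 h2
    rw [h0, eval_zero] at h3
    have h4 : (1 + 2 * c * 1 + 1 ^ 2)⁻¹ • ((1 - 1 ^ 2 : ℝ) • m + (2 * (1 + c * 1 ^ 2)) • w) = w := by
      rw [show (2 * (1 + c * 1 ^ 2) : ℝ) = 1 + 2 * c * 1 + 1 ^ 2 by ring]
      simp only [one_pow, sub_self, zero_smul, zero_add] at h2 ⊢
      rw [smul_smul, inv_mul_cancel₀ h2, one_smul]
    rw [h4] at h3
    exact (mul_eq_zero.mp h3.symm).resolve_left (pow_ne_zero _ h2)
  by_contra hne
  obtain ⟨ε, hε, hb⟩ := Metric.eventually_nhds_iff.mp ((continuous_ev H).continuousAt.eventually_ne hne)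
  obtain ⟨-, -, -, h4, h5⟩ := hS d hd
  obtain ⟨w', h6, h7, h8⟩ := h4 (fun w => ⟪m, w⟫ + 1 ≠ 0)
    (by rw [ae_iff]; simpa using h5 m 1 (by simp)) w hw ε hε
  exact hb (by rwa [dist_eq_norm]) (key w' h6 h8)

end EdgeA

open EdgeA in
theorem sEdge : SRem → SCoef → SSig → SEdge := by
  intro hR hC hS d n u hd hu D K j hK hj x y Q Q' hQ hQ' hxy z w hw
  have hj' : (1 : ℝ) ≤ j := by exact_mod_cast hj
  obtain ⟨C, hC0, hR⟩ := hR d (D + D)
  have hae : ∀ᵐ w ∂sig d, ∀ᵐ z, lz (u z) (u (z + w)) = 0 := by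
    refine (Measure.ae_ae_comm ?_).mp hu.orth
    have h1 := hu.meas
    have h2 : Measurable fun p : E d × E d => lz (u p.1) (u (p.1 + p.2)) := by
      simp only [lz_eq]
      fun_prop
    exact h2 (measurableSet_singleton 0)
  set M : ℝ := (mons d D).card * (1 * (‖x‖ + 2) ^ D) with hM
  set C0 : ℝ := (2 * n + 2) * (n + 2) * (2 * M + (n + 2) * j) with hC0d
  have hC0' : 0 ≤ C0 := by positivity
  set R : ℝ := ‖z - x‖ + 1 with hRd
  have hx0 := norm_nonneg x
  -- the bound for good directions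
  have hgood : ∀ τ : ℝ, 0 < τ → j * (2 * τ) ≤ 1 → ∀ w : E d, ‖w‖ = 1 → ‖w - (y - x)‖ ≤ τ →
      (∀ᵐ z, lz (u z) (u (z + w)) = 0) → |lz (evv Q z) (evv Q' (z + w))| ≤
        C * (C0 * (j * 2 ^ K)) * R ^ (D + D) * τ ^ (2 * D + 1) := by
    intro τ hτ hτj w hw hwτ hz
    have hτ1 : 2 * τ ≤ 1 := by nlinarith
    have hε : (j : ℝ) * (2 * τ) ^ K ≤ j :=
      mul_le_of_le_one_right (by positivity) (pow_le_one₀ (by positivity) hτ1)
    have t1 := (hQ.thin _ (by positivity) hτj).shift (y := x) (τ := τ) (by linarith) 0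
      (by simp; linarith)
    have t2 := (hQ'.thin _ (by positivity) hτj).shift (y := x) (τ := τ) (by linarith) w
      (by rw [show x + w - y = w - (y - x) by abel]; linarith)
    have hev : ∀ z, ev (lzp Q fun a => sh w (Q' a)) z = lz (evv Q z) (evv Q' (z + w)) := by
      intro z
      rw [ev_lzp]
      congr 1
      funext a
      exact ev_sh _ _ _
    have hsub : {z | C0 * (j * (2 * τ) ^ K) < |ev (lzp Q fun a => sh w (Q' a)) z|} ∩ ball x τ ⊆
        (({z | z + 0 ∈ badS u Q (j * (2 * τ) ^ K)} ∩ ball x τ) ∪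
          ({z | z + w ∈ badS u Q' (j * (2 * τ) ^ K)} ∩ ball x τ)) ∪
          {z | ¬ lz (u z) (u (z + w)) = 0} := by
      rintro p ⟨hp, hpx⟩
      by_contra hcon
      simp only [mem_union, mem_inter_iff, hpx, and_true, mem_ofPred_eq, add_zero, badS, not_or,
        not_exists, not_lt, not_not] at hcon
      have n1 : ‖p‖ ≤ ‖x‖ + 1 := by
        have := norm_add_le x (p - x)
        rw [add_sub_cancel] at this
        rw [mem_ball_iff_norm] at hpx
        linarith
      have n2 : ‖p + w‖ ≤ ‖x‖ + 2 := by linarith [norm_add_le p w]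
      have := lz_small (hu.unit p) (hu.unit (p + w)) hcon.2 (a := evv Q p) (b := evv Q' (p + w))
        (fun i => abs_ev_le (hQ.deg i) (hQ.cf i) (R := ‖x‖ + 2) (by linarith) (by linarith))
        (fun i => abs_ev_le (hQ'.deg i) (hQ'.cf i) (by linarith) n2) hε hcon.1.1 hcon.1.2
      rw [mem_ofPred_eq, hev] at hp
      exact absurd this (not_le.mpr hp)
    have hvol : volume ({z | C0 * (j * (2 * τ) ^ K) < |ev (lzp Q fun a => sh w (Q' a)) z|} ∩
        ball x τ) ≤ 2⁻¹ * volume (ball (0 : E d) τ) := by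
      refine (measure_mono hsub).trans ((measure_union_le _ _).trans ?_)
      rw [ae_iff.mp hz, add_zero]
      refine (measure_union_le _ _).trans ((add_le_add t1 t2).trans ?_)
      rw [← add_mul]
      gcongr
      calc (16⁻¹ + 16⁻¹ : ℝ≥0∞) ≤ 4⁻¹ + 4⁻¹ := by
            gcongr <;> norm_num
        _ = 2⁻¹ := by
            rw [← two_mul, show (4 : ℝ≥0∞) = 2 * 2 by norm_num,
              ENNReal.mul_inv (by simp) (by simp), ← mul_assoc,
              ENNReal.mul_inv_cancel (by simp) (by simp), one_mul]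
    have h1 := hR _ (deg_lzp hQ.deg fun a => (totalDegree_sh w _).trans (hQ'.deg a)) x τ _ R hτ
      (by linarith [norm_nonneg (z - x)]) (by positivity) hvol z (by linarith)
    rw [hev] at h1
    refine h1.trans ?_
    obtain ⟨k, rfl⟩ := Nat.exists_eq_add_of_le hK
    have h2 : τ ^ k ≤ 1 := pow_le_one₀ hτ.le (by linarith)
    have h3 : C * (C0 * (j * (2 * τ) ^ (4 * D + 1 + k))) * (R / τ) ^ (D + D) =
        C * (C0 * (j * 2 ^ (4 * D + 1 + k))) * R ^ (D + D) * τ ^ (2 * D + 1) * τ ^ k := by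
      rw [div_pow, mul_pow]
      field_simp
      ring
    rw [h3]
    exact mul_le_of_le_one_right (by positivity) h2
  have hev : ∀ w, ev (lzp (fun a => MvPolynomial.C (ev (Q a) z)) fun a => sh z (Q' a)) w =
      lz (evv Q z) (evv Q' (z + w)) := by
    intro w
    rw [ev_lzp]
    congr 1
    · funext a
      exact ev_C _ _
    · funext a
      rw [add_comm]
      exact ev_sh _ _ _
  rw [← hev]
  have hdeg := deg_lzp (Q := fun a => (MvPolynomial.C (ev (Q a) z) : MP d)) (A := 0)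
    (fun a => (MvPolynomial.totalDegree_C _).le) fun a => (totalDegree_sh z _).trans (hQ'.deg a)
  rw [zero_add] at hdeg
  refine sphere hC hS hd hdeg (m := y - x) (by rwa [norm_sub_rev]) (δ := 1 / (2 * j))
    (B := C * (C0 * (j * 2 ^ K)) * R ^ (D + D)) (by positivity) ?_ w hw
  intro τ hτ hτj v hv hvτ
  by_contra hcon
  have e1 := ((continuous_ev _).abs.continuousAt (x := v)).eventually
    (lt_mem_nhds (not_le.mp hcon))
  have e2 := ((continuous_id.sub (continuous_const (y := y - x))).norm.continuousAt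
    (x := v)).eventually (gt_mem_nhds hvτ)
  obtain ⟨ε, hε, hb⟩ := Metric.eventually_nhds_iff.mp (e1.and e2)
  obtain ⟨v', h6, h7, h8⟩ := (hS d hd).2.2.2.1 _ hae v hv ε hε
  obtain ⟨b1, b2⟩ := hb (y := v') (by rwa [dist_eq_norm])
  rw [hev] at b1
  refine absurd (hgood τ hτ ?_ v' h6 b2.le h8) (not_le.mpr b1)
  rw [le_div_iff₀ (by positivity)] at hτj
  linarith

end Pool.Agent.MP_66cee2_co.XI
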