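import Pool.Agent.MP_66cee2_co.XI.Kit

/-
Zero sets of polynomials are null.
-/

namespace Pool.Agent.MP_66cee2_co.XI

open MeasureTheory Set Filter Metric Topology Polynomial Pool.Agent.MP_66cee2_co.X
open scoped ENNReal RealInnerProductSpace

namespace NullA

theorem ae_ne (d : ℕ) : ∀ q : MP d, q ≠ 0 → ∀ᵐ x : Fin d → ℝ, MvPolynomial.eval x q ≠ 0 := by
  induction d with
  | zero =>
    intro q hq
    refine Eventually.of_forall fun x h => hq (MvPolynomial.funext fun y => ?_)
    rw [Subsingleton.elim y x, h, map_zero]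
  | succ d ih =>
    intro q hq
    set p := MvPolynomial.finSuccEquiv ℝ d q with hp
    have hp0 : p ≠ 0 := fun h => hq ((MvPolynomial.finSuccEquiv ℝ d).map_eq_zero_iff.1 h)
    have hl := ih p.leadingCoeff (leadingCoeff_ne_zero.2 hp0)
    have hc : Continuous fun z : ℝ × (Fin d → ℝ) =>
        MvPolynomial.eval (Fin.cons z.1 z.2 : Fin (d + 1) → ℝ) q :=
      (MvPolynomial.continuous_eval q).comp
        (Continuous.finCons (A := fun _ => ℝ) continuous_fst continuous_snd)
    have hm : MeasurableSet {z : ℝ × (Fin d → ℝ) |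
        MvPolynomial.eval (Fin.cons z.1 z.2 : Fin (d + 1) → ℝ) q ≠ 0} :=
      (isOpen_ne_fun hc continuous_const).measurableSet
    have h1 : ∀ᵐ z : ℝ × (Fin d → ℝ),
        MvPolynomial.eval (Fin.cons z.1 z.2 : Fin (d + 1) → ℝ) q ≠ 0 := by
      rw [Measure.volume_eq_prod, Measure.ae_prod_iff_ae_ae hm, Measure.ae_ae_comm hm]
      filter_upwards [hl] with s hs
      have h2 : p.map (MvPolynomial.eval s) ≠ 0 := fun h => hs (by
        have := congrArg (fun r => r.coeff p.natDegree) h
        simpa using this)
      filter_upwards [(p.map (MvPolynomial.eval s)).finite_setOfPred_isRoot h2 |>.countable.ae_notMem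
        volume] with y hy
      rw [MvPolynomial.eval_eq_eval_mv_eval']
      exact hy
    have h3 := (volume_preserving_piFinSuccAbove (fun _ : Fin (d + 1) => ℝ) 0
      ).quasiMeasurePreserving.ae h1
    filter_upwards [h3] with x hx
    have e : (Fin.cons (x 0) (fun j => x (Fin.succ j)) : Fin (d + 1) → ℝ) = x :=
      Fin.cons_self_tail x
    rw [← e]
    exact hx

end NullA

theorem sNull : SNull := by
  intro d q hq
  have h := (PiLp.volume_preserving_ofLp (Fin d)).quasiMeasurePreserving.ae (NullA.ae_ne d q hq)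
  rw [ae_iff] at h
  simpa [ev] using h

end Pool.Agent.MP_66cee2_co.XI
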