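import Pool.Agent.MP_66cee2_co.XI.Kit

/-
Row One: behaviour at infinity on one line.
-/

namespace Pool.Agent.MP_66cee2_co.XI

open Set Filter Topology Polynomial

namespace OneA

variable {n : ℕ} {p p' : Fin n → ℝ[X]} {q q' : ℝ[X]}

theorem nbr_div (h : Nbr p q p' q') {t s : ℝ} (hs : s = t + 1 ∨ s = t - 1) (h1 : q.eval t ≠ 0)
    (h2 : q'.eval s ≠ 0) :
    ∑ i, ((p i).eval t / q.eval t - (p' i).eval s / q'.eval s) ^ 2 = 1 := by
  have e : ∀ i, ((p i).eval t / q.eval t - (p' i).eval s / q'.eval s) ^ 2 =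
      ((p i).eval t * q'.eval s - (p' i).eval s * q.eval t) ^ 2 / (q.eval t * q'.eval s) ^ 2 :=
    fun i => by field_simp
  simp only [e]
  rw [← Finset.sum_div, h t s hs, div_self (pow_ne_zero _ (mul_ne_zero h1 h2))]

theorem nbr_abs (h : Nbr p q p' q') {t s : ℝ} (hs : s = t + 1 ∨ s = t - 1) (h1 : q.eval t ≠ 0)
    (h2 : q'.eval s ≠ 0) (i : Fin n) :
    |(p i).eval t / q.eval t - (p' i).eval s / q'.eval s| ≤ 1 := by
  rw [← sq_le_one_iff_abs_le_one, ← nbr_div h hs h1 h2]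
  exact Finset.single_le_sum
    (f := fun i => ((p i).eval t / q.eval t - (p' i).eval s / q'.eval s) ^ 2)
    (fun _ _ => sq_nonneg _) (Finset.mem_univ i)

theorem deg_eq {m : ℕ} (h1 : q.natDegree ≤ m) (h2 : q.coeff m ≠ 0) : q.degree = m :=
  le_antisymm (degree_le_of_natDegree_le h1) (le_degree_of_ne_zero h2)

theorem deg_le (h : Nbr p q p' q') (hq' : q' ≠ 0) {m : ℕ} (h1 : q.natDegree ≤ m)
    (h2 : q.coeff m ≠ 0) (i : Fin n) : (p i).natDegree ≤ m + 1 := by
  have hq : q ≠ 0 := fun e => h2 (by rw [e, coeff_zero])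
  by_contra hc
  have hd : (X * q).degree < (p i).degree := by
    refine degree_lt_degree (lt_of_le_of_lt ?_ (not_le.1 hc))
    rw [natDegree_X_mul hq]; omega
  have hT := abs_div_tendsto_atTop_atTop_of_degree_gt _ _ hd (mul_ne_zero X_ne_zero hq)
  obtain ⟨t₀, ht₀⟩ := eventually_atTop.1 (((eventually_atTop_not_isRoot q hq).and
    (eventually_atTop_not_isRoot q' hq')).and (eventually_ge_atTop 1))
  have t1 : 1 ≤ t₀ := (ht₀ t₀ le_rfl).2
  have key : ∀ l : ℕ, |(p i).eval (t₀ + 2 * l) / q.eval (t₀ + 2 * l)| ≤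
      |(p i).eval t₀ / q.eval t₀| + 2 * l := by
    intro l
    induction l with
    | zero => simp
    | succ l ih =>
      have l0 : (0 : ℝ) ≤ l := Nat.cast_nonneg l
      have a1 := abs_le.1 (nbr_abs h (t := t₀ + 2 * l) (s := t₀ + 2 * l + 1) (Or.inl rfl)
        (ht₀ _ (by linarith)).1.1 (ht₀ _ (by linarith)).1.2 i)
      have a2 := abs_le.1 (nbr_abs h (t := t₀ + 2 * l + 2) (s := t₀ + 2 * l + 1)
        (Or.inr (by ring)) (ht₀ _ (by linarith)).1.1 (ht₀ _ (by linarith)).1.2 i)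
      have a3 := abs_le.1 ih
      rw [show t₀ + 2 * ((l + 1 : ℕ) : ℝ) = t₀ + 2 * l + 2 by push_cast; ring, abs_le]
      push_cast
      constructor <;> linarith [a1.1, a1.2, a2.1, a2.2, a3.1, a3.2]
  have hl : Tendsto (fun l : ℕ => t₀ + 2 * (l : ℝ)) atTop atTop :=
    tendsto_atTop_add_const_left _ _ (tendsto_natCast_atTop_atTop.const_mul_atTop two_pos)
  obtain ⟨l, hl⟩ := ((hT.comp hl).eventually_gt_atTop (|(p i).eval t₀ / q.eval t₀| + 1)).exists
  have l0 : (0 : ℝ) ≤ l := Nat.cast_nonneg l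
  have k := key l
  have t2 : 0 < t₀ + 2 * l := by linarith
  simp only [Function.comp_apply, eval_mul, eval_X] at hl
  rw [mul_comm (t₀ + 2 * l), ← div_div, abs_div _ (t₀ + 2 * l), abs_of_pos t2, lt_div_iff₀ t2] at hl
  nlinarith [abs_nonneg ((p i).eval t₀ / q.eval t₀)]

theorem asy_deg {p q : ℝ[X]} {m : ℕ} (hp : p.natDegree ≤ m + 1) (h1 : q.natDegree ≤ m)
    (h2 : q.coeff m ≠ 0) : (p - (C (slp p q m) * X + C (ofs p q m)) * q).degree < q.degree := by
  rw [deg_eq h1 h2, degree_lt_iff_coeff_zero]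
  intro k hk
  rw [add_mul, mul_assoc, coeff_sub, coeff_add, coeff_C_mul, coeff_C_mul]
  rcases hk.eq_or_lt with rfl | hk
  · rw [ofs, div_mul_cancel₀ _ h2]; ring
  · obtain ⟨k, rfl⟩ : ∃ j, k = j + 1 := ⟨k - 1, by omega⟩
    rw [coeff_X_mul, coeff_eq_zero_of_natDegree_lt (p := q) (n := k + 1) (by omega)]
    rcases (Nat.lt_succ_iff.1 hk).eq_or_lt with rfl | hk
    · rw [slp, div_mul_cancel₀ _ h2]; ring
    · rw [coeff_eq_zero_of_natDegree_lt (p := q) (n := k) (by omega),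
        coeff_eq_zero_of_natDegree_lt (p := p) (by omega)]
      ring

theorem asy {p q : ℝ[X]} {m : ℕ} (hp : p.natDegree ≤ m + 1) (h1 : q.natDegree ≤ m)
    (h2 : q.coeff m ≠ 0) :
    Tendsto (fun t => p.eval t / q.eval t - (slp p q m * t + ofs p q m)) atTop (𝓝 0) := by
  have hq : q ≠ 0 := fun e => h2 (by rw [e, coeff_zero])
  refine (div_tendsto_atTop_zero_of_degree_lt _ _ (asy_deg hp h1 h2)).congr' ?_
  filter_upwards [eventually_atTop_not_isRoot q hq] with t ht
  have : q.eval t ≠ 0 := ht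
  simp only [eval_sub, eval_mul, eval_add, eval_C, eval_X]
  field_simp

end OneA

open OneA in
theorem sOne : SOne := by
  intro n p p' q q' h hq' m h1 h2
  have hq : q ≠ 0 := fun e => h2 (by rw [e, coeff_zero])
  have d1 := deg_le h hq' h1 h2
  refine ⟨d1, fun m' h3 h4 => ?_⟩
  have d2 := deg_le h.symm hq h3 h4
  have sh : ∀ c : ℝ, Tendsto (fun t : ℝ => t + c) atTop atTop := fun c =>
    tendsto_atTop_add_const_right _ c tendsto_id
  have ev : ∀ c : ℝ, ∀ᶠ t in atTop, q.eval t ≠ 0 ∧ q'.eval (t + c) ≠ 0 := fun c =>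
    (eventually_atTop_not_isRoot q hq).and ((sh c).eventually (eventually_atTop_not_isRoot q' hq'))
  have lim : ∀ (c : ℝ) i, Tendsto (fun t => (p i).eval t / q.eval t -
      (p' i).eval (t + c) / q'.eval (t + c) - (slp (p i) q m - slp (p' i) q' m') * t) atTop
      (𝓝 (ofs (p i) q m - ofs (p' i) q' m' - slp (p' i) q' m' * c)) := fun c i => by
    have := ((asy (d1 i) h1 h2).sub ((asy (d2 i) h3 h4).comp (sh c))).add_const
      (ofs (p i) q m - ofs (p' i) q' m' - slp (p' i) q' m' * c)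
    rw [sub_zero, zero_add] at this
    refine this.congr fun t => ?_
    simp only [Function.comp_apply]
    ring
  have hL : ∀ i, slp (p i) q m = slp (p' i) q' m' := fun i => by
    by_contra hc
    have a0 : 0 < |slp (p i) q m - slp (p' i) q' m'| := abs_pos.2 (sub_ne_zero.2 hc)
    obtain ⟨t, ⟨⟨a1, a2⟩, a3⟩, a4⟩ := ((((ev 1).and ((lim 1 i).abs.eventually
      (gt_mem_nhds (lt_add_one _)))).and
      ((tendsto_id.const_mul_atTop a0).eventually_gt_atTop
        (|ofs (p i) q m - ofs (p' i) q' m' - slp (p' i) q' m' * 1| + 2))).and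
      (eventually_ge_atTop 0)).exists
    have a5 := nbr_abs h (Or.inl rfl) a1.1 a1.2 i
    have a6 : |slp (p i) q m - slp (p' i) q' m'| * t =
        |(slp (p i) q m - slp (p' i) q' m') * t| := by rw [abs_mul, abs_of_nonneg a4]
    simp only [id] at a3
    rw [a6] at a3
    have a7 := abs_sub_abs_le_abs_sub ((slp (p i) q m - slp (p' i) q' m') * t)
      ((p i).eval t / q.eval t - (p' i).eval (t + 1) / q'.eval (t + 1))
    rw [abs_sub_comm] at a2
    linarith
  have hS : ∀ c : ℝ, c = 1 ∨ c = -1 →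
      ∑ i, (ofs (p i) q m - ofs (p' i) q' m' - slp (p i) q m * c) ^ 2 = 1 := fun c hc => by
    have a1 := tendsto_finsetSum Finset.univ fun i _ => (lim c i).pow 2
    simp only [← hL, sub_self, zero_mul, sub_zero] at a1
    refine tendsto_nhds_unique a1 (tendsto_const_nhds.congr' ?_)
    filter_upwards [ev c] with t ht
    exact (nbr_div h (by rcases hc with rfl | rfl <;> simp [sub_eq_add_neg]) ht.1 ht.2).symm
  refine ⟨hL, ?_⟩
  have e : ∑ i, (ofs (p i) q m - ofs (p' i) q' m' - slp (p i) q m * 1) ^ 2 +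
      ∑ i, (ofs (p i) q m - ofs (p' i) q' m' - slp (p i) q m * (-1)) ^ 2 =
      2 * ∑ i, (ofs (p i) q m - ofs (p' i) q' m') ^ 2 + 2 * ∑ i, slp (p i) q m ^ 2 := by
    rw [Finset.mul_sum, Finset.mul_sum, ← Finset.sum_add_distrib, ← Finset.sum_add_distrib]
    exact Finset.sum_congr rfl fun i _ => by ring
  rw [hS 1 (Or.inl rfl), hS (-1) (Or.inr rfl)] at e
  linarith

end Pool.Agent.MP_66cee2_co.XI
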