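import Pool.Agent.MP_66cee2_co.XI.Kit

/-
The field is parallel to the lift at almost every admissible point.
-/

namespace Pool.Agent.MP_66cee2_co.XI

open MeasureTheory Set Filter Metric Topology Polynomial Pool.Agent.MP_66cee2_co.X
open scoped ENNReal RealInnerProductSpace

namespace ParA

variable {d : ℕ}

theorem half {A B S : Set (E d)} {x : E d} {τ : ℝ} (hA : Thin A x τ) (hB : Thin B x τ)
    (h : S ⊆ A ∪ B) : volume (S ∩ ball x τ) ≤ 2⁻¹ * volume (ball (0 : E d) τ) := by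
  have h1 : S ∩ ball x τ ⊆ A ∩ ball x τ ∪ B ∩ ball x τ := fun z hz =>
    (h hz.1).imp (fun a => ⟨a, hz.2⟩) fun a => ⟨a, hz.2⟩
  refine ((measure_mono h1).trans (measure_union_le _ _)).trans ((add_le_add hA hB).trans ?_)
  rw [← add_mul]
  gcongr
  have h2 : (16 * 4 ^ d : ℝ≥0∞)⁻¹ ≤ 4⁻¹ := by
    rw [ENNReal.inv_le_inv]
    calc (4 : ℝ≥0∞) ≤ 16 * 1 := by norm_num
      _ ≤ 16 * 4 ^ d := by gcongr; exact one_le_pow₀ (by norm_num)
  refine (add_le_add h2 h2).trans (le_of_eq ?_)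
  rw [← two_mul, show (4 : ℝ≥0∞) = 2 * 2 by norm_num, ENNReal.mul_inv (by simp) (by simp),
    ← mul_assoc, ENNReal.mul_inv_cancel (by simp) (by simp), one_mul]

/-- a polynomial that is small to high order on half of every small ball vanishes. -/
theorem van (hR : SRem) {q : MP d} {D K : ℕ} (hq : q.totalDegree ≤ D) (hK : D < K) {x : E d}
    {B r : ℝ} (hB : 0 ≤ B) (hr : 0 < r) (h : ∀ τ, 0 < τ → τ ≤ r →
      volume ({z | B * τ ^ K < |ev q z|} ∩ ball x τ) ≤ 2⁻¹ * volume (ball (0 : E d) τ)) :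
    q = 0 := by
  obtain ⟨C, -, hC⟩ := hR d D
  obtain ⟨e, rfl⟩ := Nat.exists_eq_add_of_lt hK
  refine eq_zero_of_ev fun z => abs_nonpos_iff.1 ?_
  have h1 : Tendsto (fun τ : ℝ => C * B * (‖z - x‖ + r) ^ D * τ ^ (e + 1)) (𝓝[>] 0)
      (𝓝 (C * B * (‖z - x‖ + r) ^ D * 0 ^ (e + 1))) :=
    (Continuous.tendsto (by fun_prop) _).mono_left nhdsWithin_le_nhds
  rw [zero_pow e.succ_ne_zero, mul_zero] at h1
  refine ge_of_tendsto h1 ?_
  filter_upwards [Ioc_mem_nhdsGT hr] with τ hτ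
  have h0 := hτ.1
  refine (hC q hq x τ _ (‖z - x‖ + r) h0 (by linarith [norm_nonneg (z - x), hτ.2])
    (by positivity) (h τ h0 hτ.2) z (by linarith)).trans (le_of_eq ?_)
  rw [div_pow]
  field_simp
  ring

end ParA

open ParA in
theorem sPar : SRem → SDen → SPar := by
  intro hR hD d n u hu D K j hK hj G hG
  have hm : ∀ (k : ℕ) (a b : Ix n),
      MeasurableSet {z | 1 / ((k : ℝ) + 1) ≤ |G z a * u z b - G z b * u z a|} := fun k a b => by
    have g : ∀ c, Measurable fun z => G z c := fun c => ((continuous_apply c).comp hG).measurable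
    have v : ∀ c, Measurable fun z => u z c := fun c => (measurable_pi_apply c).comp hu
    exact measurableSet_le measurable_const
      (continuous_abs.measurable.comp (((g a).mul (v b)).sub ((g b).mul (v a))))
  filter_upwards [ae_all_iff.2 fun k => ae_all_iff.2 fun a => ae_all_iff.2 fun b =>
    (hD d _).2 (hm k a b)] with y hy
  rintro ⟨Q, q, hQ, h0, hq, he⟩ a b
  by_contra hne
  obtain ⟨k, hk⟩ := exists_nat_one_div_lt (abs_pos.2 (sub_ne_zero.2 hne))
  obtain ⟨r, hr, hd⟩ := hy k a b hk.le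
  have hj' : (0 : ℝ) < j := by exact_mod_cast hj
  refine h0 (van hR hq hK (x := y) (B := (k + 1) * j) (r := min r (1 / j)) (by positivity)
    (by positivity) fun τ h1 h2 => half (hQ.thin τ h1 ?_) (hd.2 τ h1 (h2.trans (min_le_left _ _)))
      fun z hz => ?_)
  · rw [mul_comm, ← le_div_iff₀ hj']
    exact h2.trans (min_le_right _ _)
  · by_contra hn
    rw [mem_union, not_or, mem_compl_iff, not_not] at hn
    obtain ⟨n1, n2⟩ := hn
    have n3 : |ev (Q a) z * u z b - ev (Q b) z * u z a| ≤ j * τ ^ K :=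
      not_lt.1 fun x => n1 ⟨a, b, x⟩
    have e : ∀ c, ev (Q c) z = ev q z * G z c := fun c => congrFun (he z) c
    rw [e, e, mul_assoc, mul_assoc, ← mul_sub, abs_mul] at n3
    have n4 : 1 / ((k : ℝ) + 1) ≤ |G z a * u z b - G z b * u z a| := n2
    have n5 : ((k : ℝ) + 1) * j * τ ^ K < |ev q z| := hz
    have n6 := (mul_le_mul_of_nonneg_left n4 (abs_nonneg (ev q z))).trans n3
    rw [mul_one_div, div_le_iff₀ (by positivity)] at n6
    linarith

end Pool.Agent.MP_66cee2_co.XI
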