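import Pool.Agent.MP_66cee2_co.XI.Kit

/-
Four step paths through density points.
-/

namespace Pool.Agent.MP_66cee2_co.XI

open MeasureTheory Set Filter Metric Topology Polynomial Pool.Agent.MP_66cee2_co.X
open scoped ENNReal RealInnerProductSpace

namespace PathA

variable {d : ℕ}

theorem cont_wv (v : E d) : Continuous (wv v) := by
  unfold wv; fun_prop

theorem five {A₁ A₂ A₃ A₄ A₅ : Set (E d)} {x : E d} {τ : ℝ} (hτ : 0 < τ)
    (h₁ : volume (A₁ ∩ ball x τ) ≤ 16⁻¹ * volume (ball (0 : E d) τ))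
    (h₂ : volume (A₂ ∩ ball x τ) ≤ 16⁻¹ * volume (ball (0 : E d) τ))
    (h₃ : volume (A₃ ∩ ball x τ) ≤ 16⁻¹ * volume (ball (0 : E d) τ))
    (h₄ : volume (A₄ ∩ ball x τ) ≤ 16⁻¹ * volume (ball (0 : E d) τ))
    (h₅ : volume (A₅ ∩ ball x τ) ≤ 16⁻¹ * volume (ball (0 : E d) τ)) :
    ¬ ∀ᵐ y : E d, y ∈ A₁ ∨ y ∈ A₂ ∨ y ∈ A₃ ∨ y ∈ A₄ ∨ y ∈ A₅ := by
  intro h
  have h0 : volume (ball (0 : E d) τ) ≠ 0 := (measure_ball_pos _ _ hτ).ne'
  have hT : volume (ball (0 : E d) τ) ≠ ⊤ := measure_ball_lt_top.ne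
  have h1 : volume (ball x τ) ≤ volume ((A₁ ∩ ball x τ) ∪ (A₂ ∩ ball x τ) ∪ (A₃ ∩ ball x τ) ∪
      (A₄ ∩ ball x τ) ∪ (A₅ ∩ ball x τ)) := by
    refine measure_mono_ae ?_
    filter_upwards [h] with y hy hb
    change y ∈ ball x τ at hb
    change y ∈ (A₁ ∩ ball x τ) ∪ (A₂ ∩ ball x τ) ∪ (A₃ ∩ ball x τ) ∪ (A₄ ∩ ball x τ) ∪
      (A₅ ∩ ball x τ)
    simp only [mem_union, mem_inter_iff]
    tauto
  have h2 : volume (ball x τ) ≤ 16⁻¹ * volume (ball (0 : E d) τ) +
      16⁻¹ * volume (ball (0 : E d) τ) + 16⁻¹ * volume (ball (0 : E d) τ) +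
      16⁻¹ * volume (ball (0 : E d) τ) + 16⁻¹ * volume (ball (0 : E d) τ) := by
    refine h1.trans ((measure_union_le _ _).trans (add_le_add ?_ h₅))
    refine (measure_union_le _ _).trans (add_le_add ?_ h₄)
    refine (measure_union_le _ _).trans (add_le_add ?_ h₃)
    exact (measure_union_le _ _).trans (add_le_add h₁ h₂)
  rw [Measure.addHaar_ball_center volume x τ] at h2
  lift volume (ball (0 : E d) τ) to NNReal using hT with V hV
  have hV0 : (0 : ℝ) < V := by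
    have : V ≠ 0 := fun h' => h0 (by rw [h']; rfl)
    exact_mod_cast pos_iff_ne_zero.2 this
  have h3 : (16⁻¹ : ℝ≥0∞) = ((16⁻¹ : NNReal) : ℝ≥0∞) := by simp
  rw [h3] at h2
  have h4 : V ≤ 16⁻¹ * V + 16⁻¹ * V + 16⁻¹ * V + 16⁻¹ * V + 16⁻¹ * V := by exact_mod_cast h2
  have h5 : (V : ℝ) ≤ 16⁻¹ * V + 16⁻¹ * V + 16⁻¹ * V + 16⁻¹ * V + 16⁻¹ * V := by
    exact_mod_cast h4
  linarith

end PathA

open PathA in
theorem sPath : SDec → SPath := by
  intro hD d Z r x x₁ x₂ hZ hr hx hx₁ hx₂ n₁ n₂ hne hne'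
  obtain ⟨hw, hH⟩ := hD d
  set v := x₁ - x with hv
  set v' := x₂ - x with hv'
  obtain ⟨H, H', hHH⟩ := hH v v' n₁ n₂ (fun h => hne (sub_left_injective h)) hne'
  set τ := min (r / 3) 1 with hτ
  have hτ0 : 0 < τ := lt_min (by linarith) one_pos
  have hτr : 3 * τ ≤ r := by linarith [min_le_left (r / 3) 1]
  have hτ1 : τ ≤ 1 := min_le_right _ _
  have hM : 0 < ‖H‖ + ‖H'‖ + 1 := by positivity
  set δ := τ / (‖H‖ + ‖H'‖ + 1) with hδ
  have hδ0 : 0 < δ := div_pos hτ0 hM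
  have hδτ : δ * (‖H‖ + ‖H'‖ + 1) = τ := div_mul_cancel₀ _ hM.ne'
  have hsm : ∀ z : E d, ‖z‖ < δ → ‖H z‖ + ‖H' z‖ + ‖z‖ ≤ τ := by
    intro z hz
    have a1 := H.le_opNorm z
    have a2 := H'.le_opNorm z
    nlinarith [norm_nonneg H, norm_nonneg H', norm_nonneg z]
  let G : E d → E d → Prop := fun y z => ‖z‖ < δ ∧ y ∈ Z ∧ y + wv v (H z) ∈ Z ∧ y + H z ∈ Z ∧
    y + (H z + wv v' (H' z)) ∈ Z ∧ y + z ∈ Z
  have hG : MeasurableSet {p : E d × E d | G p.1 p.2} := by
    have c1 : Continuous fun p : E d × E d => p.1 + wv v (H p.2) :=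
      continuous_fst.add ((cont_wv v).comp (H.continuous.comp continuous_snd))
    have c2 : Continuous fun p : E d × E d => p.1 + H p.2 := by fun_prop
    have c3 : Continuous fun p : E d × E d => p.1 + (H p.2 + wv v' (H' p.2)) :=
      continuous_fst.add ((H.continuous.comp continuous_snd).add
        ((cont_wv v').comp (H'.continuous.comp continuous_snd)))
    have c4 : Continuous fun p : E d × E d => p.1 + p.2 := by fun_prop
    have m0 : MeasurableSet {p : E d × E d | ‖p.2‖ < δ} :=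
      (isOpen_lt (by fun_prop) continuous_const).measurableSet
    exact m0.inter ((hZ.preimage continuous_fst).measurableSet.inter
      ((hZ.preimage c1).measurableSet.inter ((hZ.preimage c2).measurableSet.inter
      ((hZ.preimage c3).measurableSet.inter (hZ.preimage c4).measurableSet))))
  have h3 : 3 * τ ≤ 4 * τ := by linarith
  have key : ∀ z : E d, ‖z‖ < δ → ¬ ∀ᵐ y : E d, ¬ G y z := by
    intro z hz h
    have hs := hsm z hz
    have b1 := norm_nonneg (H z)
    have b2 := norm_nonneg (H' z)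
    have b3 := norm_nonneg z
    obtain ⟨-, -, w1, -⟩ := hw v (H z) n₁ (hHH z).2.1 (by linarith)
    obtain ⟨-, -, w2, -⟩ := hw v' (H' z) n₂ (hHH z).2.2 (by linarith)
    have t0 := hx.2 (3 * τ) (by linarith) hτr
    have t1 := hx₁.2 (3 * τ) (by linarith) hτr
    have t2 := hx₂.2 (3 * τ) (by linarith) hτr
    refine five hτ0 (t0.shift (y := x) h3 0 (by simp; linarith))
      (t1.shift (y := x) h3 (wv v (H z)) ?_) (t0.shift (y := x) h3 (H z) ?_)
      (t2.shift (y := x) h3 (H z + wv v' (H' z)) ?_) (t0.shift (y := x) h3 z ?_) ?_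
    · rw [show x + wv v (H z) - x₁ = wv v (H z) - v by rw [hv]; abel]
      linarith
    · rw [add_sub_cancel_left]; linarith
    · rw [show x + (H z + wv v' (H' z)) - x₂ = H z + (wv v' (H' z) - v') by rw [hv']; abel]
      linarith [norm_add_le (H z) (wv v' (H' z) - v')]
    · rw [add_sub_cancel_left]; linarith
    · filter_upwards [h] with y hy
      simp only [G, hz, true_and] at hy
      simp only [Set.mem_ofPred_eq, mem_compl_iff, add_zero]
      tauto
  have hy : ∃ y, volume {z | G y z} ≠ 0 := by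
    by_contra hc
    push Not at hc
    have h1 : ∀ᵐ y : E d, ∀ᵐ z : E d, ¬ G y z := Eventually.of_forall fun y => by
      rw [ae_iff]; simpa using hc y
    rw [Measure.ae_ae_comm (p := fun y z => ¬ G y z) hG.compl] at h1
    have h2 : volume (ball (0 : E d) δ) = 0 := by
      refine measure_mono_null (fun z hz => ?_) (ae_iff.1 h1)
      exact key z (by simpa using hz)
    exact (measure_ball_pos _ _ hδ0).ne' h2
  obtain ⟨y, hy⟩ := hy
  refine ⟨y, (fun z => z + -y) ⁻¹' {z | G y z}, ?_, ?_, fun z hz => ?_⟩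
  · exact (measurable_prodMk_left hG).preimage (by fun_prop)
  · rwa [measure_preimage_add_right]
  · obtain ⟨g0, g1, g2, g3, g4, g5⟩ := hz
    have hs := hsm _ g0
    set z0 := z + -y with hz0
    have b1 := norm_nonneg (H z0)
    have b2 := norm_nonneg (H' z0)
    have b3 := norm_nonneg z0
    obtain ⟨u1, u2, -, -⟩ := hw v (H z0) n₁ (hHH z0).2.1 (by linarith)
    obtain ⟨u3, u4, -, -⟩ := hw v' (H' z0) n₂ (hHH z0).2.2 (by linarith)
    have hz' : z = y + (H z0 + H' z0) := by rw [(hHH z0).1, hz0]; abel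
    refine ⟨_, _, _, g1, g2, g3, g4, by rwa [show y + z0 = z by rw [hz0]; abel] at g5, ?_, ?_, ?_,
      ?_⟩
    · rw [sub_add_cancel_left, norm_neg, u1]
    · rw [add_sub_add_left_eq_sub, u2]
    · rw [add_sub_add_left_eq_sub, sub_add_cancel_left, norm_neg, u3]
    · rw [show y + (H z0 + wv v' (H' z0)) - z = wv v' (H' z0) - H' z0 by
        conv_lhs => rw [hz']
        abel, u4]

end Pool.Agent.MP_66cee2_co.XI
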