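import Pool.Agent.MP_66cee2_co.XI.Kit

/-
Pinning: a positive matrix orthogonal to many lifted neighbours is the lift of the centre.
-/

namespace Pool.Agent.MP_66cee2_co.XI

open MeasureTheory Set Filter Metric Topology Polynomial Pool.Agent.MP_66cee2_co.X
open scoped ENNReal RealInnerProductSpace

namespace PinA

variable {d n : ℕ}

theorem norm_sq (g : E n) : ‖g‖ ^ 2 = ∑ i, g i * g i := by
  rw [EuclideanSpace.real_norm_sq_eq]
  exact Finset.sum_congr rfl fun i _ => sq _

theorem lz_step (r : Ix n → ℝ) (g v : E n) (hv : ‖v‖ = 1) :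
    lz r (lift (g + v)) =
      ⟪(WithLp.toLp 2 fun i => 2 * r (Sum.inl i) - 2 * r sI * g i : E n), v⟫ +
        (2 * ∑ i, r (Sum.inl i) * g i - r sI * (1 / 2 + ‖g‖ ^ 2) + r (Sum.inr false)) := by
  rw [lz_eq]
  simp only [lift, norm_add_sq_real, hv, PiLp.inner_apply, RCLike.inner_apply, conj_trivial,
    PiLp.add_apply, sI]
  have e1 : ∑ i, r (Sum.inl i) * (g i + v i) =
      ∑ i, r (Sum.inl i) * g i + ∑ i, v i * r (Sum.inl i) := by
    rw [← Finset.sum_add_distrib]
    exact Finset.sum_congr rfl fun i _ => by ring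
  have e2 : ∑ i, v i * (2 * r (Sum.inl i) - 2 * r (Sum.inr true) * g i) =
      2 * ∑ i, v i * r (Sum.inl i) - 2 * r (Sum.inr true) * ∑ i, v i * g i := by
    rw [Finset.mul_sum, Finset.mul_sum, ← Finset.sum_sub_distrib]
    exact Finset.sum_congr rfl fun i _ => by ring
  rw [e1, e2]
  ring

theorem row (hS : SSig) (hd : 2 ≤ d) (T : E d →ₗᵢ[ℝ] E n) (g : E n) (r : Ix n → ℝ)
    (h : sig d {w | lz r (lift (g + T w)) = 0} ≠ 0) :
    2 * ∑ i, r (Sum.inl i) * g i - r sI * (1 / 2 + ‖g‖ ^ 2) + r (Sum.inr false) = 0 := by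
  obtain ⟨h1, -, -, -, h5⟩ := hS d hd
  by_contra hb
  have h6 := h5 (ContinuousLinearMap.adjoint T.toContinuousLinearMap
    (WithLp.toLp 2 fun i => 2 * r (Sum.inl i) - 2 * r sI * g i)) _ fun k => hb k.2
  refine h (measure_mono_null (fun w hw => ?_) (measure_union_null (ae_iff.1 h1) h6))
  by_cases hn : ‖w‖ = 1
  · refine Or.inr ?_
    have h7 := lz_step r g (T w) (by rw [T.norm_map, hn])
    rw [mem_ofPred_eq, ContinuousLinearMap.adjoint_inner_left]
    exact h7.symm.trans hw
  · exact Or.inl hn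

theorem alg (M : Matrix (Ix n) (Ix n) ℝ) (hM : M.PosSemidef) (ht : trJ M = M sI sI) (g : E n)
    (hb : ∀ a, 2 * ∑ i, M a (Sum.inl i) * g i - M a sI * (1 / 2 + ‖g‖ ^ 2) +
      M a (Sum.inr false) = 0) (a b : Ix n) : M a b = M sI sI * lift g a * lift g b := by
  have sy : ∀ a b, M a b = M b a := fun a b => by simpa using hM.isHermitian.apply b a
  obtain ⟨e, he⟩ : ∃ e : Fin n → Ix n → ℝ,
      e = fun i => Pi.single (Sum.inl i) 1 - g i • Pi.single sI 1 := ⟨_, rfl⟩
  have mv : ∀ i a, M.mulVec (e i) a = M a (Sum.inl i) - g i * M a sI := by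
    intro i a
    simp [he, Matrix.mulVec_sub, Matrix.mulVec_smul]
  have qf : ∀ i, star (e i) ⬝ᵥ M.mulVec (e i) = M (Sum.inl i) (Sum.inl i) -
      2 * (M sI (Sum.inl i) * g i) + M sI sI * (g i * g i) := by
    intro i
    have h1 : star (e i) ⬝ᵥ M.mulVec (e i) =
        M.mulVec (e i) (Sum.inl i) - g i * M.mulVec (e i) sI := by
      generalize M.mulVec (e i) = v
      simp [he, sub_dotProduct, smul_dotProduct]
    rw [h1, mv, mv, sy (Sum.inl i) sI]
    ring
  have tr : trJ M = 2 * ∑ i, M (Sum.inl i) (Sum.inl i) + 2 * M sI (Sum.inr false) := by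
    simp only [trJ, Fintype.sum_sum_type, Jv, Fintype.sum_bool, Bool.not_true, Bool.not_false,
      Finset.mul_sum, sI]
    rw [sy (Sum.inr false) (Sum.inr true)]
    ring
  have sm : ∑ i, star (e i) ⬝ᵥ M.mulVec (e i) = 0 := by
    simp only [qf]
    rw [Finset.sum_add_distrib, Finset.sum_sub_distrib, ← Finset.mul_sum, ← Finset.mul_sum,
      ← norm_sq]
    linear_combination (ht - tr) / 2 - hb sI
  have z : ∀ i, M.mulVec (e i) = 0 := fun i => (hM.dotProduct_mulVec_zero_iff _).1
    ((Finset.sum_eq_zero_iff_of_nonneg fun i _ => hM.dotProduct_mulVec_nonneg (e i)).1 sm i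
      (Finset.mem_univ i))
  have c1 : ∀ a i, M a (Sum.inl i) = M a sI * g i := fun a i => by
    have h1 := mv i a
    rw [z i, Pi.zero_apply] at h1
    linear_combination -h1
  have c2 : ∀ a b, M a b = M a sI * lift g b := by
    intro a b
    rcases b with i | b
    · exact c1 a i
    · cases b
      · have h1 := hb a
        have h2 : ∑ i, M a (Sum.inl i) * g i = M a sI * ‖g‖ ^ 2 := by
          rw [norm_sq, Finset.mul_sum]
          exact Finset.sum_congr rfl fun i _ => by rw [c1]; ring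
        rw [h2] at h1
        simp only [lift]
        linear_combination h1
      · exact (mul_one _).symm
  rw [c2 a b, sy a sI, c2 sI a]

end PinA

theorem sPin : SSig → SPin := by
  intro hS d n hd T c x M hM ht h
  refine PinA.alg M hM ht _ fun a => PinA.row hS hd T _ (M a) fun h0 => h ?_
  refine measure_mono_null (fun w hw => ?_) h0
  have e : aff T c x + T w = aff T c (x + w) := by
    simp only [aff, map_add]; abel
  rw [mem_ofPred_eq, e]
  exact hw a

end Pool.Agent.MP_66cee2_co.XI
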