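import Pool.Agent.MP_66cee2_co.XI.Kit

/-
From three density points of the isometric class to a set of positive measure.
-/

namespace Pool.Agent.MP_66cee2_co.XI

open MeasureTheory Set Filter Metric Topology Pool.Agent.MP_66cee2_co.X

namespace PosIA

theorem cont {d n : ℕ} (T : E d →ₗᵢ[ℝ] E n) (c : E n) : Continuous fun z => lift (aff T c z) := by
  have h : Continuous (aff T c) := T.continuous.add continuous_const
  refine continuous_pi fun a => ?_
  rcases a with i | b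
  · change Continuous fun z => aff T c z i
    fun_prop
  · cases b
    · change Continuous fun z => 1 / 2 - ‖aff T c z‖ ^ 2
      fun_prop
    · exact continuous_const

theorem uniq (hN : SNull) {d n : ℕ} {q : MP d} (hq : q ≠ 0) {G G' : E d → Ix n → ℝ}
    (h : Continuous G) (h' : Continuous G') (e : ∀ z, ev q z • G z = ev q z • G' z) : G = G' :=
  Continuous.ext_on (dense_ev_ne hN hq) h h' fun z hz => smul_right_injective _ hz (e z)

end PosIA

open PosIA in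
theorem sPosI : SNull → SClo → SEdge → SAff2 → SPath → SPar → SPosI := by
  intro hN hC hE hA hP hR d n u hd hu D K j r hK hj hr x hx x₁ hx₁ x₂ hx₂ e1 e2 e3 e4
  have hZ : IsClosed (Pc u D K j (Cl2 j)) := cl_three (j := j) (w := (0 : E d)) (n := n) ▸
    isClosed_pc hC u D K j 3 0
  obtain ⟨y, S, -, hS, hp⟩ := hP d _ r x x₁ x₂ hZ hr hx hx₁ hx₂ e1 e2 e3 e4
  have hex : ∀ z ∈ Pc u D K j (Cl2 j), ∃ Q, Adm u D K j z Q ∧ Cl2 j Q := fun z hz => hz.2
  choose! Q hQ hQ' using hex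
  have edge := fun z hz z' hz' (h : ‖z - z'‖ = 1) => hA d n hd j j _ _ (hQ' z hz) (hQ' z' hz')
    (hE d n u hd hu D K j hK hj z z' _ _ (hQ z hz) (hQ z' hz') h)
  have tr : ∀ G : E d → Ix n → ℝ, Continuous G → ∀ z ∈ Pc u D K j (Cl2 j),
      ∀ z' ∈ Pc u D K j (Cl2 j), ‖z - z'‖ = 1 → (∀ w, evv (Q z) w = ev (Q z sI) w • G w) →
      ∀ w, evv (Q z') w = ev (Q z' sI) w • G w := fun G hG z hz z' hz' h e => by
    obtain ⟨a1, -, T, c, a2, a3⟩ := edge z hz z' hz' h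
    rw [uniq hN a1 hG (cont T c) fun w => (e w).symm.trans (a2 w)]
    exact a3
  obtain ⟨z₀, hz₀⟩ := nonempty_of_measure_ne_zero hS
  obtain ⟨y₁, -, -, hy, hy₁, -, -, -, b1, -⟩ := hp z₀ hz₀
  obtain ⟨-, -, T, c, hT, -⟩ := edge y hy y₁ hy₁ b1
  refine ⟨T, c, fun h0 => hS ?_⟩
  refine measure_eq_zero_iff_ae_notMem.2 ?_
  filter_upwards [hR d n u hu.meas D K j (by omega) hj _ (cont T c),
    measure_eq_zero_iff_ae_notMem.1 h0] with z h1 h2 hz
  obtain ⟨y₁, y₂, y₃, -, c1, c2, c3, c4, d1, d2, d3, d4⟩ := hp z hz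
  exact h2 (h1 ⟨Q z, Q z sI, hQ z c4, (edge y₃ c3 z c4 d4).2.1, (hQ z c4).deg _,
    tr _ (cont T c) _ c3 _ c4 d4 (tr _ (cont T c) _ c2 _ c3 d3 (tr _ (cont T c) _ c1 _ c2 d2
      (tr _ (cont T c) _ hy _ c1 d1 hT)))⟩)

end Pool.Agent.MP_66cee2_co.XI
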