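import Pool.Agent.MP_66cee2_co.XI.Kit

/-
Exponential lower bound, second half: the Remez inequality.
-/

namespace Pool.Agent.MP_66cee2_co.XI

open MeasureTheory Set Filter Metric Topology Polynomial Pool.Agent.MP_66cee2_co.X
open scoped ENNReal RealInnerProductSpace

namespace RemA

variable {d m : ℕ}

/-- the polynomial with given coefficients. -/
noncomputable def pol (c : mons d m → ℝ) : MP d := ∑ α : mons d m, MvPolynomial.monomial α.1 (c α)

theorem coeff_pol (c : mons d m → ℝ) (α : mons d m) : MvPolynomial.coeff α.1 (pol c) = c α := by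
  classical
  rw [pol, MvPolynomial.coeff_sum, Finset.sum_eq_single α]
  · simp
  · intro β _ hβ
    rw [MvPolynomial.coeff_monomial, if_neg fun e => hβ (Subtype.ext e)]
  · simp

theorem ev_pol (c : mons d m → ℝ) (z : E d) :
    ev (pol c) z = ∑ α : mons d m, c α * ∏ i, z i ^ α.1 i := by
  rw [pol, ev_sum]
  exact Finset.sum_congr rfl fun α _ => by simp [ev, MvPolynomial.eval_monomial]

theorem ev_coeff {q : MP d} (h : q.totalDegree ≤ m) (z : E d) :
    ev q z = ∑ α : mons d m, MvPolynomial.coeff α.1 q * ∏ i, z i ^ α.1 i := by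
  rw [ev_eq_sum, Finset.sum_coe_sort (mons d m)
    (fun α => MvPolynomial.coeff α q * ∏ i, z i ^ α i)]
  refine Finset.sum_subset (support_subset_mons h) fun α _ hα => ?_
  rw [MvPolynomial.notMem_support_iff.1 hα, zero_mul]

theorem abs_pol_sub (c c' : mons d m → ℝ) {z : E d} (hz : ‖z‖ ≤ 1) :
    |ev (pol c) z - ev (pol c') z| ≤ (mons d m).card * ‖c - c'‖ := by
  rw [ev_pol, ev_pol, ← Finset.sum_sub_distrib]
  refine (Finset.abs_sum_le_sum_abs _ _).trans ?_
  refine (Finset.sum_le_card_nsmul _ _ ‖c - c'‖ fun α _ => ?_).trans (by simp)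
  rw [← sub_mul, abs_mul]
  have h1 := abs_mono_le z 1 le_rfl hz α.1 le_rfl
  rw [one_pow] at h1
  exact (mul_le_of_le_one_right (abs_nonneg _) h1).trans (norm_le_pi_norm (c - c') α)

theorem lev_mono (f : E d → ℝ) {a b : ℝ} (h : a ≤ b) (B : Set (E d)) :
    {z | b < f z} ∩ B ⊆ {z | a < f z} ∩ B :=
  inter_subset_inter_left _ fun _ hz => lt_of_le_of_lt h hz

theorem exists_level (hN : SNull) {q : MP d} (hq : q ≠ 0) : ∃ δ : ℝ, 0 < δ ∧
    2⁻¹ * volume (ball (0 : E d) 1) < volume ({z | δ < |ev q z|} ∩ ball 0 1) := by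
  let s : ℕ → Set (E d) := fun k => {z | 1 / ((k : ℝ) + 1) < |ev q z|} ∩ ball 0 1
  have hs : Monotone s := fun k l hkl => lev_mono _ (Nat.one_div_le_one_div hkl) _
  have h1 : volume (ball (0 : E d) 1) ≤ volume (⋃ k, s k) := by
    refine le_trans (measure_mono (t := (⋃ k, s k) ∪ {z | ev q z = 0}) fun z hz => ?_)
      ((measure_union_le _ _).trans_eq (by rw [hN d q hq, add_zero]))
    by_cases h0 : ev q z = 0
    · exact Or.inr h0
    · obtain ⟨k, hk⟩ := exists_nat_one_div_lt (abs_pos.2 h0)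
      exact Or.inl (mem_iUnion.2 ⟨k, hk, hz⟩)
  have h2 : 2⁻¹ * volume (ball (0 : E d) 1) < volume (ball (0 : E d) 1) := by
    rw [mul_comm, ← div_eq_mul_inv]
    exact ENNReal.half_lt_self (measure_ball_pos _ _ one_pos).ne' measure_ball_lt_top.ne
  rw [hs.measure_iUnion] at h1
  obtain ⟨k, hk⟩ := lt_iSup_iff.1 (h2.trans_le h1)
  exact ⟨_, Nat.one_div_pos_of_nat, hk⟩

theorem exists_unif (hN : SNull) (d m : ℕ) : ∃ δ : ℝ, 0 < δ ∧ ∀ c ∈ sphere (0 : mons d m → ℝ) 1,
    2⁻¹ * volume (ball (0 : E d) 1) < volume ({z | δ < |ev (pol c) z|} ∩ ball 0 1) := by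
  refine (isCompact_sphere (0 : mons d m → ℝ) 1).induction_on (p := fun S => ∃ δ : ℝ, 0 < δ ∧
    ∀ c ∈ S, 2⁻¹ * volume (ball (0 : E d) 1) < volume ({z | δ < |ev (pol c) z|} ∩ ball 0 1))
    ⟨1, one_pos, by simp⟩ ?_ ?_ fun c hc => ?_
  · rintro S T hST ⟨δ, h0, h⟩
    exact ⟨δ, h0, fun c hc => h c (hST hc)⟩
  · rintro S T ⟨δ, h0, h⟩ ⟨δ', h0', h'⟩
    refine ⟨min δ δ', lt_min h0 h0', fun c hc => ?_⟩
    rcases hc with hc | hc
    · exact (h c hc).trans_le (measure_mono (lev_mono _ (min_le_left _ _) _))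
    · exact (h' c hc).trans_le (measure_mono (lev_mono _ (min_le_right _ _) _))
  · have hq : pol c ≠ 0 := by
      intro h0
      have : c = 0 := funext fun α => by rw [← coeff_pol c α, h0]; rfl
      simp [this] at hc
    obtain ⟨δ, h0, h⟩ := exists_level hN hq
    have hN : (0 : ℝ) < (mons d m).card + 1 := by positivity
    refine ⟨ball c (δ / 2 / ((mons d m).card + 1)),
      mem_nhdsWithin_of_mem_nhds (ball_mem_nhds _ (by positivity)), δ / 2, half_pos h0,
      fun c' hc' => h.trans_le (measure_mono fun z hz => ⟨?_, hz.2⟩)⟩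
    have h1 := abs_pol_sub c' c (mem_ball_zero_iff.1 hz.2).le
    rw [mem_ball_iff_norm, lt_div_iff₀ hN] at hc'
    have h2 : δ < |ev (pol c) z| := hz.1
    have h3 := abs_sub_abs_le_abs_sub (ev (pol c) z) (ev (pol c') z)
    rw [abs_sub_comm] at h3
    have h4 := norm_nonneg (c' - c)
    change δ / 2 < |ev (pol c') z|
    nlinarith

theorem unit (hN : SNull) (d m : ℕ) : ∃ δ : ℝ, 0 < δ ∧ ∀ q : MP d, q.totalDegree ≤ m → ∀ ε : ℝ,
    0 ≤ ε → volume ({z | ε < |ev q z|} ∩ ball 0 1) ≤ 2⁻¹ * volume (ball (0 : E d) 1) →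
    ∀ α, |MvPolynomial.coeff α q| ≤ ε / δ := by
  obtain ⟨δ, h0, h⟩ := exists_unif hN d m
  refine ⟨δ, h0, fun q hq ε hε hv α => ?_⟩
  let c : mons d m → ℝ := fun α => MvPolynomial.coeff α.1 q
  have key : ‖c‖ ≤ ε / δ := by
    by_contra hc
    rw [not_le] at hc
    have hA : 0 < ‖c‖ := lt_of_le_of_lt (by positivity) hc
    refine (h (‖c‖⁻¹ • c) ?_).not_ge
      (le_trans (measure_mono (inter_subset_inter_left _ fun z hz => ?_)) hv)
    · rw [mem_sphere_zero_iff_norm, norm_smul, norm_inv, norm_norm, inv_mul_cancel₀ hA.ne']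
    · have h1 : δ < |ev (pol (‖c‖⁻¹ • c)) z| := hz
      have h2 : ev (pol (‖c‖⁻¹ • c)) z = ‖c‖⁻¹ * ev q z := by
        rw [ev_pol, ev_coeff hq, Finset.mul_sum]
        exact Finset.sum_congr rfl fun α _ => by simp [c, mul_assoc]
      rw [h2, abs_mul, abs_of_pos (inv_pos.2 hA), lt_inv_mul_iff₀ hA] at h1
      rw [div_lt_iff₀ h0] at hc
      exact hc.trans h1
  by_cases hα : α ∈ mons d m
  · exact (norm_le_pi_norm c ⟨α, hα⟩).trans key
  · rw [MvPolynomial.notMem_support_iff.1 fun h' => hα (support_subset_mons hq h'), abs_zero]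
    positivity

/-- the polynomial `η ↦ q (τ η)`. -/
noncomputable def scl (τ : ℝ) (q : MP d) : MP d :=
  MvPolynomial.aeval (fun i => MvPolynomial.C τ * MvPolynomial.X i) q

theorem ev_scl (τ : ℝ) (q : MP d) (z : E d) : ev (scl τ q) z = ev q (τ • z) := by
  unfold ev scl
  induction q using MvPolynomial.induction_on with
  | C a => simp
  | add p q hp hq => simp only [map_add, hp, hq]
  | mul_X p i hp => simp only [map_mul, hp]; simp

theorem totalDegree_scl (τ : ℝ) (q : MP d) : (scl τ q).totalDegree ≤ q.totalDegree := by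
  unfold scl
  rw [MvPolynomial.aeval_def, MvPolynomial.eval₂_eq']
  refine MvPolynomial.totalDegree_finsetSum_le fun α hα => ?_
  refine (MvPolynomial.totalDegree_mul _ _).trans ?_
  rw [MvPolynomial.algebraMap_eq, MvPolynomial.totalDegree_C, zero_add]
  refine (MvPolynomial.totalDegree_finsetProd _ _).trans ?_
  refine le_trans ?_ (MvPolynomial.le_totalDegree hα)
  rw [Finsupp.sum_fintype _ _ (fun _ => rfl)]
  refine Finset.sum_le_sum fun i _ => (MvPolynomial.totalDegree_pow _ _).trans ?_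
  have : (MvPolynomial.C τ * MvPolynomial.X i : MP d).totalDegree ≤ 1 :=
    (MvPolynomial.totalDegree_mul _ _).trans (by simp)
  nlinarith [Nat.zero_le (α i)]

theorem vol_pre (x : E d) {τ : ℝ} (hτ : τ ≠ 0) (S : Set (E d)) :
    volume ((fun η : E d => τ • η + x) ⁻¹' S) =
      ENNReal.ofReal |(τ ^ Module.finrank ℝ (E d))⁻¹| * volume S := by
  have : (fun η : E d => τ • η + x) ⁻¹' S = (τ • ·) ⁻¹' ((fun z => z + x) ⁻¹' S) := rfl
  rw [this, Measure.addHaar_preimage_smul _ hτ, measure_preimage_add_right]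

end RemA

open RemA in
theorem sRem : SNull → SRem := by
  intro hN d m
  obtain ⟨δ, h0, h⟩ := unit hN d m
  refine ⟨(mons d m).card / δ, by positivity, fun q hq x τ ε R hτ hR hε hv z hz => ?_⟩
  have hdeg : (scl τ (sh x q)).totalDegree ≤ m :=
    (totalDegree_scl _ _).trans ((totalDegree_sh _ _).trans hq)
  have hb : (fun η : E d => τ • η + x) ⁻¹' ball x τ = ball 0 1 := by
    ext η
    simp only [mem_preimage, mem_ball_iff_norm, add_sub_cancel_right, sub_zero, norm_smul,
      Real.norm_of_nonneg hτ.le]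
    exact mul_lt_iff_lt_one_right hτ
  have hc := h _ hdeg ε hε (by
    have e1 : {η | ε < |ev (scl τ (sh x q)) η|} ∩ ball 0 1 =
        (fun η : E d => τ • η + x) ⁻¹' ({z | ε < |ev q z|} ∩ ball x τ) := by
      rw [preimage_inter, hb]
      simp only [ev_scl, ev_sh]
      rfl
    rw [e1, ← hb, vol_pre x hτ.ne', vol_pre x hτ.ne', Measure.addHaar_ball_center _ x,
      mul_left_comm]
    exact mul_le_mul_right hv _)
  have h1 := abs_ev_le hdeg hc (R := R / τ) ((one_le_div hτ).2 hR) (z := τ⁻¹ • (z - x)) (by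
    rw [norm_smul, norm_inv, Real.norm_of_nonneg hτ.le, inv_mul_eq_div]
    exact div_le_div_of_nonneg_right hz hτ.le)
  rw [ev_scl, ev_sh, smul_inv_smul₀ hτ.ne', sub_add_cancel] at h1
  exact h1.trans_eq (by ring)

end Pool.Agent.MP_66cee2_co.XI
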