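import Pool.Agent.MP_66cee2_co.XI.Kit

/-
Row Sig: facts on the sphere measure.
-/

namespace Pool.Agent.MP_66cee2_co.XI

open MeasureTheory Set Filter Metric Topology Polynomial Pool.Agent.MP_66cee2_co.X
open scoped ENNReal RealInnerProductSpace

namespace SigA

variable {d : ℕ}

theorem meas_f : Measurable fun z : E d => ‖z‖⁻¹ • z := by fun_prop

theorem norm_f {z : E d} (hz : z ≠ 0) : ‖‖z‖⁻¹ • z‖ = 1 := norm_smul_inv_norm hz

theorem ae_ne (hd : 2 ≤ d) : ∀ᵐ z : E d, z ≠ 0 := by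
  have : Nonempty (Fin d) := ⟨⟨0, by omega⟩⟩
  exact Measure.ae_ne volume 0

theorem poly_ne (hd : 2 ≤ d) (α : E d) (β : ℝ) (h : ∀ z : E d, ⟪α, z⟫ ^ 2 = β ^ 2 * ‖z‖ ^ 2) :
    α = 0 ∧ β = 0 := by
  let i : Fin d := ⟨0, by omega⟩
  let k : Fin d := ⟨1, by omega⟩
  have hik : i ≠ k := by simp [i, k]
  have h1 := h (EuclideanSpace.single i 1)
  have h2 := h (EuclideanSpace.single k 1)
  have h3 := h (EuclideanSpace.single i 1 + EuclideanSpace.single k 1)
  have h4 : ⟪(EuclideanSpace.single i 1 : E d), (EuclideanSpace.single k 1 : E d)⟫ = 0 := by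
    simp [EuclideanSpace.inner_single_left, hik]
  have n1 : ‖(EuclideanSpace.single i 1 : E d)‖ = 1 := by simp
  have n2 : ‖(EuclideanSpace.single k 1 : E d)‖ = 1 := by simp
  rw [norm_add_sq_real, h4, n1, n2, inner_add_right] at h3
  rw [n1] at h1
  rw [n2] at h2
  generalize ⟪α, (EuclideanSpace.single i 1 : E d)⟫ = a at h1 h3
  generalize ⟪α, (EuclideanSpace.single k 1 : E d)⟫ = b at h2 h3
  have h5 : a * b = 0 := by linarith
  have h6 : β ^ 4 = 0 := by
    calc β ^ 4 = (β ^ 2 * 1 ^ 2) * (β ^ 2 * 1 ^ 2) := by ring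
      _ = (a * b) ^ 2 := by rw [← h1]; nth_rewrite 2 [h1]; rw [← h2, mul_pow]
      _ = 0 := by rw [h5]; ring
  have hβ : β = 0 := pow_eq_zero_iff (by norm_num) |>.1 h6
  have h7 := h α
  rw [hβ, real_inner_self_eq_norm_sq] at h7
  have h8 : ‖α‖ ^ 4 = 0 := by linarith
  exact ⟨norm_eq_zero.1 (pow_eq_zero_iff (by norm_num) |>.1 h8), hβ⟩

end SigA

open SigA in
theorem sSig : SNull → SSig := by
  intro hN d hd
  refine ⟨?_, ?_, measure_ne_top _ _, ?_, ?_⟩
  · rw [sig, ae_map_iff meas_f.aemeasurable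
      (isClosed_eq continuous_norm continuous_const).measurableSet]
    filter_upwards [ae_restrict_of_ae (ae_ne hd)] with z hz
    exact norm_f hz
  · rw [sig, Measure.map_apply meas_f MeasurableSet.univ, preimage_univ,
      Measure.restrict_apply_univ]
    exact (measure_ball_pos volume _ one_pos).ne'
  · intro p hp v hv ε hε
    have h1 := ae_of_ae_map meas_f.aemeasurable hp
    rw [ae_restrict_iff' measurableSet_ball] at h1
    have hv0 : (2⁻¹ : ℝ) • v ≠ 0 := by
      rw [← norm_ne_zero_iff, norm_smul, hv]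
      norm_num
    have hn : ‖(2⁻¹ : ℝ) • v‖ = 2⁻¹ := by
      rw [norm_smul, hv]
      norm_num
    have hc : ContinuousAt (fun z : E d => ‖z‖⁻¹ • z) ((2⁻¹ : ℝ) • v) :=
      (continuous_norm.continuousAt.inv₀ (norm_ne_zero_iff.2 hv0)).smul continuousAt_id
    have e : ‖(2⁻¹ : ℝ) • v‖⁻¹ • (2⁻¹ : ℝ) • v = v := by
      rw [hn, smul_smul]
      norm_num
    have h2 : ∀ᶠ z in 𝓝 ((2⁻¹ : ℝ) • v), z ∈ ball (0 : E d) 1 ∧ z ≠ 0 ∧
        ‖‖z‖⁻¹ • z - v‖ < ε := by
      have a1 : ball (0 : E d) 1 ∈ 𝓝 ((2⁻¹ : ℝ) • v) :=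
        isOpen_ball.mem_nhds (by rw [mem_ball_zero_iff, hn]; norm_num)
      have a2 := hc.tendsto
      rw [e] at a2
      filter_upwards [a1, eventually_ne_nhds hv0, a2.eventually (ball_mem_nhds v hε)]
        with z b1 b2 b3
      exact ⟨b1, b2, mem_ball_iff_norm.1 b3⟩
    obtain ⟨z, hz1, hz2⟩ := (Measure.dense_of_ae h1).inter_nhds_nonempty h2
    exact ⟨_, norm_f hz2.2.1, hz2.2.2, hz1 hz2.1⟩
  · intro α β hne
    have hm : MeasurableSet {w : E d | ⟪α, w⟫ + β = 0} :=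
      (isClosed_eq (by fun_prop) continuous_const).measurableSet
    rw [sig, Measure.map_apply meas_f hm]
    set q : MP d := (∑ i, MvPolynomial.C (α i) * MvPolynomial.X i) ^ 2 -
      MvPolynomial.C (β ^ 2) * ∑ i, MvPolynomial.X i ^ 2 with hq
    have hev : ∀ z : E d, ev q z = ⟪α, z⟫ ^ 2 - β ^ 2 * ‖z‖ ^ 2 := by
      intro z
      rw [EuclideanSpace.real_norm_sq_eq, PiLp.inner_apply]
      simp only [hq, ev_sub, ev_pow, ev_sum, ev_mul, ev_C, ev_X, RCLike.inner_apply,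
        conj_trivial, mul_comm]
    have hq0 : q ≠ 0 := by
      intro h0
      refine hne (poly_ne hd α β fun z => ?_)
      have := hev z
      rw [h0, ev_zero] at this
      linarith
    refine le_antisymm ((Measure.restrict_le_self _).trans ?_) zero_le
    rw [← hN d q hq0]
    refine measure_mono fun z hz => ?_
    change ev q z = 0
    by_cases hz0 : z = 0
    · rw [hev, hz0]
      simp
    · have hn : ‖z‖ ≠ 0 := norm_ne_zero_iff.2 hz0
      have h1 : ⟪α, ‖z‖⁻¹ • z⟫ + β = 0 := hz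
      rw [inner_smul_right] at h1
      have h2 : ⟪α, z⟫ = -β * ‖z‖ := by
        field_simp at h1
        linarith
      rw [hev, h2]
      ring

end Pool.Agent.MP_66cee2_co.XI
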