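import Pool.Agent.MP_66cee2_co.XI.Kit

/-
A set of positive measure that absorbs its unit neighbours is almost everything.
-/

namespace Pool.Agent.MP_66cee2_co.XI

open MeasureTheory Set Filter Metric Topology Polynomial Pool.Agent.MP_66cee2_co.X
open scoped ENNReal RealInnerProductSpace

namespace SprA

variable {d : ℕ}

/-- the shifts that almost never lead into `S` from outside. -/
def W (S : Set (E d)) : AddSubmonoid (E d) where
  carrier := {w | ∀ᵐ x, x + w ∈ S → x ∈ S}
  zero_mem' := show ∀ᵐ x, x + 0 ∈ S → x ∈ S from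
    Eventually.of_forall fun x hx => by simpa using hx
  add_mem' {a b} ha hb := by
    have h := (measurePreserving_add_right (volume : Measure (E d)) a).quasiMeasurePreserving.ae hb
    filter_upwards [ha, h] with x h1 h2 h3
    exact h1 (h2 (by rwa [add_assoc]))

theorem closed {S : Set (E d)} (hS : MeasurableSet S) : IsClosed (W S : Set (E d)) := by
  refine isClosed_iff_frequently.2 fun w hw => ?_
  let F : C(E d, C(E d, E d)) := ContinuousMap.curry ⟨fun p : E d × E d => p.2 + p.1, by fun_prop⟩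
  have hF : ∀ a, MeasurePreserving (F a) volume volume := fun a =>
    measurePreserving_add_right (volume : Measure (E d)) a
  have key : ∀ n : ℕ, ∀ᵐ x, x + w ∈ S ∩ ball 0 n → x ∈ S := by
    intro n
    have h1 := tendsto_measure_symmDiff_preimage_nhds_zero (l := 𝓝 w) (f := F) (g := F w)
      (s := S ∩ ball 0 n) (F.continuous.tendsto w) (Eventually.of_forall hF) (hF w)
      (hS.inter measurableSet_ball).nullMeasurableSet
      (ne_top_of_le_ne_top measure_ball_lt_top.ne (measure_mono inter_subset_right))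
    have h2 : ∃ᶠ a in 𝓝 w, volume {x | ¬ (x + w ∈ S ∩ ball 0 n → x ∈ S)} ≤
        volume (symmDiff (F a ⁻¹' (S ∩ ball 0 n)) (F w ⁻¹' (S ∩ ball 0 n))) := by
      refine hw.mono fun a ha => measure_mono_ae ?_
      have ha' : ∀ᵐ x, x + a ∈ S → x ∈ S := ha
      filter_upwards [ha'] with x h3 h4
      have h5 : ¬ (x + w ∈ S ∩ ball 0 n → x ∈ S) := h4
      rw [Classical.not_imp] at h5
      exact Or.inr ⟨h5.1, fun h6 => h5.2 (h3 h6.1)⟩
    rw [ae_iff]
    exact le_zero_iff.1 (ge_of_tendsto_of_frequently h1 h2)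
  filter_upwards [ae_all_iff.2 key] with x hx h
  obtain ⟨n, hn⟩ := exists_nat_gt ‖x + w‖
  exact hx n ⟨h, mem_ball_zero_iff.2 hn⟩

theorem meas {S : Set (E d)} (hS : MeasurableSet S) :
    MeasurableSet {p : E d × E d | p.1 + p.2 ∈ S → p.1 ∈ S} := by
  have h : {p : E d × E d | p.1 + p.2 ∈ S → p.1 ∈ S} =
      ((fun p : E d × E d => p.1 + p.2) ⁻¹' S)ᶜ ∪ Prod.fst ⁻¹' S := by
    ext p
    simp [imp_iff_not_or]
  rw [h]
  exact ((measurable_fst.add measurable_snd) hS).compl.union (measurable_fst hS)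

end SprA

theorem sSpr : SSig → SDec → SSpr := by
  intro hσ hD d S hd hS h0 h
  have h1 : ∀ᵐ x : E d, ∀ᵐ w ∂sig d, x + w ∈ S → x ∈ S := by
    filter_upwards [h] with x hx
    by_cases hxS : x ∈ S
    · exact Eventually.of_forall fun _ _ => hxS
    · have h2 : sig d {w | x + w ∈ S} = 0 := by_contra fun h3 => hxS (hx h3)
      filter_upwards [measure_eq_zero_iff_ae_notMem.1 h2] with w hw h3
      exact absurd h3 hw
  have h2 : ∀ᵐ w ∂sig d, w ∈ SprA.W S := (Measure.ae_ae_comm (SprA.meas hS)).1 h1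
  have h3 : ∀ v : E d, ‖v‖ = 1 → v ∈ SprA.W S := by
    intro v hv
    refine (SprA.closed hS).closure_subset (Metric.mem_closure_iff.2 fun ε hε => ?_)
    obtain ⟨w, -, h4, h5⟩ := (hσ d hd).2.2.2.1 _ h2 v hv ε hε
    exact ⟨w, h5, by rwa [dist_comm, dist_eq_norm]⟩
  have h4 : ∀ v z : E d, ‖v‖ = 1 → ⟪v, z⟫ = 0 → z ∈ SprA.W S := by
    intro v z hv hz
    obtain ⟨n, hn⟩ := exists_nat_gt ‖z‖
    have hn0 : (0 : ℝ) < n := (norm_nonneg _).trans_lt hn
    obtain ⟨a1, a2, -, -⟩ := (hD d).1 v ((n : ℝ)⁻¹ • z) hv (by rw [inner_smul_right, hz, mul_zero])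
      (by
        rw [norm_smul, norm_inv, Real.norm_natCast, inv_mul_le_iff₀ hn0, mul_one]
        exact hn.le)
    have a3 := (SprA.W S).add_mem (h3 _ a1) (h3 _ ((norm_neg _).trans a2))
    rw [neg_sub, add_sub_cancel] at a3
    have a4 := (SprA.W S).nsmul_mem a3 n
    rwa [← Nat.cast_smul_eq_nsmul ℝ, smul_smul, mul_inv_cancel₀ hn0.ne', one_smul] at a4
  have h5 : ∀ z : E d, z ∈ SprA.W S := by
    intro z
    let i : Fin d := ⟨0, by omega⟩
    let j : Fin d := ⟨1, by omega⟩
    have hij : i ≠ j := by simp [i, j]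
    obtain ⟨H, H', hH⟩ := (hD d).2 (EuclideanSpace.single i 1) (EuclideanSpace.single j 1)
      (by simp) (by simp)
      (fun e => by simpa [hij] using congrArg (fun v : E d => v i) e)
      (fun e => by simpa [hij] using congrArg (fun v : E d => v i) e)
    rw [← (hH z).1]
    exact (SprA.W S).add_mem (h4 _ _ (by simp) (hH z).2.1) (h4 _ _ (by simp) (hH z).2.2)
  have h6 : ∀ᵐ x : E d, ∀ᵐ w : E d, x + w ∈ S → x ∈ S :=
    (Measure.ae_ae_comm (SprA.meas hS)).2 (Eventually.of_forall h5)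
  filter_upwards [h6] with x hx
  by_contra hxS
  refine h0 ?_
  rw [← measure_preimage_add volume x S]
  refine measure_eq_zero_iff_ae_notMem.2 ?_
  filter_upwards [hx] with w hw h7
  exact hxS (hw h7)

end Pool.Agent.MP_66cee2_co.XI
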