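import Pool.Agent.MP_66cee2_co.XI.Kit

/-
Slope of length one: every step equals the slope.
-/

namespace Pool.Agent.MP_66cee2_co.XI

open Set Filter Topology Polynomial

namespace TwoA

theorem lim (P q : ℝ[X]) (h : P.degree ≤ q.degree) :
    ∃ c, Tendsto (fun t => P.eval t / q.eval t) atTop (𝓝 c) ∧
      Tendsto (fun t => P.eval t / q.eval t) atBot (𝓝 c) := by
  rcases h.lt_or_eq with h | h
  · exact ⟨0, div_tendsto_atTop_zero_of_degree_lt P q h, div_tendsto_atBot_zero_of_degree_lt P q h⟩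
  · exact ⟨_, div_tendsto_atTop_leadingCoeff_div_of_degree_eq P q h,
      div_tendsto_atBot_leadingCoeff_div_of_degree_eq P q h⟩

theorem const {A : ℝ → ℝ} {c t : ℝ} (h1 : Tendsto A atTop (𝓝 c)) (h2 : Tendsto A atBot (𝓝 c))
    (h : ∀ l : ℤ, A (t + 2 * l + 2) ≤ A (t + 2 * l)) : A (t + 2) = A t := by
  have ha : Antitone fun l : ℤ => A (t + 2 * l) := antitone_int_of_succ_le fun l => by
    have := h l
    push_cast
    rwa [mul_add, mul_one, ← add_assoc]
  have t1 : Tendsto (fun l : ℤ => A (t + 2 * l)) atTop (𝓝 c) :=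
    h1.comp (tendsto_atTop_add_const_left _ _
      (tendsto_intCast_atTop_atTop.const_mul_atTop two_pos))
  have t2 : Tendsto (fun l : ℤ => A (t + 2 * l)) atBot (𝓝 c) :=
    h2.comp (tendsto_atBot_add_const_left _ _
      ((tendsto_intCast_atBot_iff.2 tendsto_id).const_mul_atBot two_pos))
  have e : ∀ l : ℤ, A (t + 2 * l) = c := fun l =>
    le_antisymm (ha.ge_of_tendsto t2 l) (ha.le_of_tendsto t1 l)
  have e0 := e 0
  have e1 := e 1
  simp only [Int.cast_zero, mul_zero, add_zero, Int.cast_one, mul_one] at e0 e1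
  rw [e0, e1]

theorem unit {n : ℕ} {p p' : Fin n → ℝ[X]} {q q' : ℝ[X]} (h : Nbr p q p' q') {t s : ℝ}
    (hs : s = t + 1 ∨ s = t - 1) (ht : q.eval t ≠ 0) (hs' : q'.eval s ≠ 0) :
    ∑ i, ((p i).eval t / q.eval t - (p' i).eval s / q'.eval s) ^ 2 = 1 := by
  have h1 := h t s hs
  have h2 : (q.eval t * q'.eval s) ^ 2 ≠ 0 := pow_ne_zero _ (mul_ne_zero ht hs')
  rw [← div_eq_one_iff_eq h2, Finset.sum_div] at h1
  rw [← h1]
  exact Finset.sum_congr rfl fun i _ => by field_simp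

theorem step {n : ℕ} (L a b c : Fin n → ℝ) (hL : ∑ i, L i ^ 2 = 1) (h1 : ∑ i, (a i - b i) ^ 2 = 1)
    (h2 : ∑ i, (c i - b i) ^ 2 = 1) :
    ∑ i, (b i - a i - L i) ^ 2 + ∑ i, (c i - b i - L i) ^ 2 =
      2 * (∑ i, L i * a i - ∑ i, L i * c i + 2) := by
  have e : ∑ i, (b i - a i - L i) ^ 2 + ∑ i, (c i - b i - L i) ^ 2 =
      ∑ i, (a i - b i) ^ 2 + ∑ i, (c i - b i) ^ 2 + 2 * ∑ i, L i ^ 2 +
        2 * (∑ i, L i * a i - ∑ i, L i * c i) := by
    simp only [Finset.mul_sum, ← Finset.sum_add_distrib, ← Finset.sum_sub_distrib]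
    exact Finset.sum_congr rfl fun i _ => by ring
  rw [e, h1, h2, hL]
  ring

theorem dense_good {r : ℝ[X]} (hr : r ≠ 0) : Dense {t : ℝ | ∀ k : ℤ, r.eval (t + k) ≠ 0} := by
  have hc : (⋃ k : ℤ, (fun t : ℝ => t + k) ⁻¹' {x | IsRoot r x}).Countable :=
    countable_iUnion fun k =>
      (finite_setOfPred_isRoot hr).countable.preimage (add_left_injective _)
  have hd := hc.dense_compl ℝ
  refine Dense.mono ?_ hd
  exact fun t ht k hk => ht (mem_iUnion.2 ⟨k, hk⟩)

end TwoA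

theorem sTwo : SOne → STwo := by
  intro h1 n p p' q q' h m m' hm hq hm' hq' hL i
  have hq0 : q ≠ 0 := fun e => hq (by rw [e, coeff_zero])
  have hq0' : q' ≠ 0 := fun e => hq' (by rw [e, coeff_zero])
  have hp := (h1 n p p' q q' h hq0' m hm hq).1
  obtain ⟨L, hLd⟩ : ∃ L : Fin n → ℝ, ∀ i, slp (p i) q m = L i := ⟨_, fun _ => rfl⟩
  simp only [hLd] at hL ⊢
  have hLc : ∀ i, (p i).coeff (m + 1) = L i * q.coeff m := fun i => by
    rw [← hLd, slp, div_mul_cancel₀ _ hq]
  have hdeg : (∑ i, C (L i) * p i - X * q).degree ≤ q.degree := by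
    refine le_trans ((degree_le_iff_coeff_zero _ m).2 fun k hk => ?_) (le_degree_of_ne_zero hq)
    obtain ⟨k, rfl⟩ := Nat.exists_eq_add_of_lt (Nat.cast_lt.1 hk)
    rw [coeff_sub, finsetSum_coeff, coeff_X_mul]
    simp only [coeff_C_mul]
    rcases Nat.eq_zero_or_pos k with rfl | hk0
    · simp only [add_zero, hLc, ← mul_assoc, ← sq, ← Finset.sum_mul, hL, one_mul, sub_self]
    · rw [coeff_eq_zero_of_natDegree_lt (p := q) (by omega), sub_zero]
      exact Finset.sum_eq_zero fun i _ => by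
        rw [coeff_eq_zero_of_natDegree_lt ((hp i).trans_lt (by omega)), mul_zero]
  obtain ⟨c, c1, c2⟩ := TwoA.lim _ _ hdeg
  have hA : ∀ s, q.eval s ≠ 0 → (∑ i, C (L i) * p i - X * q).eval s / q.eval s =
      ∑ i, L i * ((p i).eval s / q.eval s) - s := fun s hs => by
    rw [eval_sub, eval_finsetSum, sub_div, Finset.sum_div, eval_mul, eval_X,
      mul_div_cancel_right₀ _ hs]
    simp only [eval_mul, eval_C, mul_div_assoc]
  have hS : ∀ s, q.eval s ≠ 0 → q'.eval (s + 1) ≠ 0 → q.eval (s + 2) ≠ 0 →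
      ∑ i, ((p' i).eval (s + 1) / q'.eval (s + 1) - (p i).eval s / q.eval s - L i) ^ 2 +
        ∑ i, ((p i).eval (s + 2) / q.eval (s + 2) - (p' i).eval (s + 1) / q'.eval (s + 1) -
          L i) ^ 2 =
        2 * ((∑ i, C (L i) * p i - X * q).eval s / q.eval s -
          (∑ i, C (L i) * p i - X * q).eval (s + 2) / q.eval (s + 2)) := fun s a1 a2 a3 => by
    rw [TwoA.step L _ _ _ hL (TwoA.unit h (Or.inl rfl) a1 a2)
      (TwoA.unit h (Or.inr (by ring)) a3 a2), hA _ a1, hA _ a3]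
    ring
  refine congrFun (Continuous.ext_on (TwoA.dense_good (mul_ne_zero hq0 hq0')) (by fun_prop)
    (by fun_prop) fun t ht => ?_)
  have g1 : ∀ (k : ℤ) s, s = t + k → q.eval s ≠ 0 := fun k s e => by
    have := ht k
    rw [eval_mul, ← e] at this
    exact left_ne_zero_of_mul this
  have g2 : ∀ (k : ℤ) s, s = t + k → q'.eval s ≠ 0 := fun k s e => by
    have := ht k
    rw [eval_mul, ← e] at this
    exact right_ne_zero_of_mul this
  have hc := TwoA.const (t := t) c1 c2 fun l => by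
    have := hS (t + 2 * l) (g1 (2 * l) _ (by push_cast; ring))
      (g2 (2 * l + 1) _ (by push_cast; ring)) (g1 (2 * l + 2) _ (by push_cast; ring))
    have h3 : 0 ≤ 2 * ((∑ i, C (L i) * p i - X * q).eval (t + 2 * l) / q.eval (t + 2 * l) -
        (∑ i, C (L i) * p i - X * q).eval (t + 2 * l + 2) / q.eval (t + 2 * l + 2)) := by
      rw [← this]
      positivity
    linarith
  have a1 := g1 0 t (by simp)
  have a2 := g2 1 (t + 1) (by simp)
  have h4 := hS t a1 a2 (g1 2 _ (by simp))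
  rw [hc, sub_self, mul_zero, add_eq_zero_iff_of_nonneg (by positivity) (by positivity),
    Finset.sum_eq_zero_iff_of_nonneg fun _ _ => sq_nonneg _] at h4
  have h5 := sub_eq_zero.1 (pow_eq_zero_iff two_ne_zero |>.1 (h4.1 i (Finset.mem_univ i)))
  rw [← h5]
  field_simp

end Pool.Agent.MP_66cee2_co.XI
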