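import Pool.Agent.MP_66cee2_co.XI.Kit

/-
Exponential lower bound, second half: the type of the jets.
-/

namespace Pool.Agent.MP_66cee2_co.XI

open MeasureTheory Set Filter Metric Topology Polynomial Pool.Agent.MP_66cee2_co.X
open scoped ENNReal RealInnerProductSpace

namespace ClsA

variable {d n : ℕ}

theorem half_le : (16 * 4 ^ d : ℝ≥0∞)⁻¹ + (16 * 4 ^ d : ℝ≥0∞)⁻¹ ≤ 2⁻¹ := by
  have h : (16 * 4 ^ d : ℝ≥0∞)⁻¹ ≤ 2⁻¹ * 2⁻¹ := by
    rw [← ENNReal.mul_inv (by simp) (by simp)]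
    refine ENNReal.inv_le_inv.2 ?_
    calc (2 * 2 : ℝ≥0∞) ≤ 16 * 1 := by norm_num
      _ ≤ 16 * 4 ^ d := by gcongr; exact one_le_pow₀ (by norm_num)
  calc _ ≤ (2⁻¹ * 2⁻¹ + 2⁻¹ * 2⁻¹ : ℝ≥0∞) := add_le_add h h
    _ = 2⁻¹ := by rw [← mul_add, ENNReal.inv_two_add_inv_two, mul_one]

/-- a polynomial that is controlled by the minors near a density point vanishes. -/
theorem van (hR : SRem) {u : E d → Ix n → ℝ} {x : E d} {Q : Ix n → MP d} (hJ : JetAt u x Q)
    {Z : Set (E d)} {r : ℝ} (hr : 0 < r) (hx : x ∈ Den Z r) (q : MP d) {A : ℝ} (hA : 0 ≤ A)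
    (h : ∀ z ∈ Z, ‖z - x‖ ≤ 1 → ∀ ε, 0 ≤ ε → z ∉ badS u Q ε → |ev q z| ≤ A * ε) : q = 0 := by
  obtain ⟨C', hC', hq⟩ := hR d q.totalDegree
  obtain ⟨C, τ₀, hτ₀, hT⟩ := hJ (q.totalDegree + 1)
  refine eq_zero_of_ev fun z => ?_
  set m := q.totalDegree
  set R := ‖z - x‖ + 1 with hRd
  have key : ∀ τ, 0 < τ → τ ≤ min (min τ₀ r) 1 → |ev q z| ≤ C' * (A * |C|) * R ^ m * τ := by
    intro τ hτ hle
    have h1 : τ ≤ τ₀ := hle.trans ((min_le_left _ _).trans (min_le_left _ _))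
    have h2 : τ ≤ r := hle.trans ((min_le_left _ _).trans (min_le_right _ _))
    have h3 : τ ≤ 1 := hle.trans (min_le_right _ _)
    have hsub : {y | A * (|C| * τ ^ (m + 1)) < |ev q y|} ∩ ball x τ ⊆
        (badS u Q (C * τ ^ (m + 1)) ∩ ball x τ) ∪ (Zᶜ ∩ ball x τ) := by
      rintro y ⟨hy, hy'⟩
      by_cases hZ : y ∈ Z
      · refine Or.inl ⟨?_, hy'⟩
        by_contra hb
        refine absurd (h y hZ ((mem_ball_iff_norm.1 hy').le.trans h3) _ (by positivity) ?_)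
          (not_le.2 hy)
        rintro ⟨a, b, hab⟩
        exact hb ⟨a, b, lt_of_le_of_lt (by gcongr; exact le_abs_self C) hab⟩
      · exact Or.inr ⟨hZ, hy'⟩
    have hv : volume ({y | A * (|C| * τ ^ (m + 1)) < |ev q y|} ∩ ball x τ) ≤
        2⁻¹ * volume (ball (0 : E d) τ) := by
      refine (measure_mono hsub).trans ((measure_union_le _ _).trans ?_)
      refine (add_le_add (hT τ hτ h1) (hx.2 τ hτ h2)).trans ?_
      rw [← add_mul]
      gcongr
      exact half_le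
    have := hq q le_rfl x τ _ R hτ (by linarith [norm_nonneg (z - x)]) (by positivity) hv z
      (by linarith)
    refine this.trans (le_of_eq ?_)
    rw [div_pow]
    field_simp
    ring
  have lim : Tendsto (fun τ : ℝ => C' * (A * |C|) * R ^ m * τ) (𝓝[>] 0) (𝓝 0) := by
    have : Tendsto (fun τ : ℝ => C' * (A * |C|) * R ^ m * τ) (𝓝 0)
        (𝓝 (C' * (A * |C|) * R ^ m * 0)) := (continuous_const.mul continuous_id).tendsto 0
    rw [mul_zero] at this
    exact this.mono_left nhdsWithin_le_nhds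
  refine abs_nonpos_iff.1 (ge_of_tendsto lim ?_)
  filter_upwards [Ioc_mem_nhdsGT (lt_min (lt_min hτ₀ hr) one_pos)] with τ hτ
  exact key τ hτ.1 hτ.2

theorem not_bad {u : E d → Ix n → ℝ} {Q : Ix n → MP d} {ε : ℝ} {z : E d}
    (h : z ∉ badS u Q ε) (a b : Ix n) : |evv Q z a * u z b - evv Q z b * u z a| ≤ ε :=
  not_lt.1 fun h' => h ⟨a, b, h'⟩

/-- a coordinate where the field is bounded below cannot vanish. -/
theorem coord (hR : SRem) {u : E d → Ix n → ℝ} {x : E d} {Q : Ix n → MP d} (hJ : JetAt u x Q)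
    {Z : Set (E d)} {r : ℝ} (hr : 0 < r) (hx : x ∈ Den Z r) {b : Ix n} {k : ℕ}
    (hZ : ∀ z ∈ Z, 1 ≤ (k : ℝ) * |u z b|) (hQ : Q ≠ 0) : Q b ≠ 0 := fun hb => by
  refine hQ (funext fun a => van hR hJ hr hx (Q a) (Nat.cast_nonneg k) fun z hz _ ε _ hn => ?_)
  have := not_bad hn a b
  simp only [evv, hb, ev_zero, zero_mul, sub_zero, abs_mul] at this
  calc |ev (Q a) z| = |ev (Q a) z| * 1 := (mul_one _).symm
    _ ≤ |ev (Q a) z| * (k * |u z b|) := by gcongr; exact hZ z hz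
    _ = k * (|ev (Q a) z| * |u z b|) := by ring
    _ ≤ k * ε := by gcongr

/-- the form that vanishes on multiples of lifts. -/
def bf (a b : Ix n → ℝ) : ℝ := lz a b - a sI * b sI

theorem bf_le {a b : Ix n → ℝ} {A B : ℝ} (ha : ∀ i, |a i| ≤ A) (hb : ∀ i, |b i| ≤ B) :
    |bf a b| ≤ (2 * n + 3) * (A * B) := by
  have h : ∀ i k, |a i * b k| ≤ A * B := fun i k => by
    rw [abs_mul]
    exact mul_le_mul (ha i) (hb k) (abs_nonneg _) ((abs_nonneg _).trans (ha i))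
  have hs : |∑ i, a (Sum.inl i) * b (Sum.inl i)| ≤ n * (A * B) :=
    (Finset.abs_sum_le_sum_abs _ _).trans
      ((Finset.sum_le_card_nsmul _ _ (A * B) fun i _ => h _ _).trans (by simp))
  have h1 := abs_le.1 (h (Sum.inr true) (Sum.inr false))
  have h2 := abs_le.1 (h (Sum.inr false) (Sum.inr true))
  have h3 := abs_le.1 (h sI sI)
  have h4 := abs_le.1 hs
  rw [bf, lz_eq, abs_le]
  constructor <;> linarith [h1.1, h1.2, h2.1, h2.2, h3.1, h3.2, h4.1, h4.2]

theorem bf_split (a u : Ix n → ℝ) (l : ℝ) : bf a a =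
    bf a (fun i => a i - l * u i) + bf (fun i => a i - l * u i) (fun i => l * u i) +
      l ^ 2 * bf u u := by
  simp only [bf, lz_eq]
  have e : ∑ i, a (Sum.inl i) * a (Sum.inl i) =
      ∑ i, a (Sum.inl i) * (a (Sum.inl i) - l * u (Sum.inl i)) +
        ∑ i, (a (Sum.inl i) - l * u (Sum.inl i)) * (l * u (Sum.inl i)) +
        l ^ 2 * ∑ i, u (Sum.inl i) * u (Sum.inl i) := by
    rw [Finset.mul_sum, ← Finset.sum_add_distrib, ← Finset.sum_add_distrib]
    exact Finset.sum_congr rfl fun i _ => by ring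
  rw [e]
  ring

theorem unit_le {u : Ix n → ℝ} (hu : u ⬝ᵥ u = 1) (k : Ix n) : |u k| ≤ 1 := by
  rw [← sq_le_one_iff_abs_le_one, ← hu, sq]
  exact Finset.single_le_sum (f := fun k => u k * u k) (fun k _ => mul_self_nonneg _)
    (Finset.mem_univ k)

theorem bdd (Q : Ix n → MP d) (x : E d) :
    ∃ M : ℝ, 0 ≤ M ∧ ∀ z, ‖z - x‖ ≤ 1 → ∀ a, |evv Q z a| ≤ M := by
  have hc : Continuous (evv Q) := continuous_pi fun a => continuous_ev (Q a)
  obtain ⟨M, hM⟩ := (isCompact_closedBall x 1).exists_bound_of_continuousOn hc.continuousOn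
  refine ⟨max M 0, le_max_right _ _, fun z hz a => ?_⟩
  exact ((norm_le_pi_norm (evv Q z) a).trans (hM z (mem_closedBall_iff_norm.2 hz))).trans
    (le_max_left _ _)

theorem gc (hR : SRem) {u : E d → Ix n → ℝ} (hu : ∀ z, u z ⬝ᵥ u z = 1) {x : E d}
    {Q : Ix n → MP d} (hJ : JetAt u x Q) {Z : Set (E d)} {r : ℝ} (hr : 0 < r)
    (hx : x ∈ Den Z r) (hZ : ∀ z ∈ Z, lz (u z) (u z) = u z sI ^ 2) : GC Q := by
  obtain ⟨M, hM, hb⟩ := bdd Q x
  let G : MP d := MvPolynomial.C 2 * ∑ i, Q (Sum.inl i) * Q (Sum.inl i) +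
    Q (Sum.inr true) * Q (Sum.inr false) + Q (Sum.inr false) * Q (Sum.inr true) - Q sI * Q sI
  have hG : ∀ z, ev G z = bf (evv Q z) (evv Q z) := fun z => by
    simp [G, bf, lz_eq, evv]
  have h0 : G = 0 := by
    refine van hR hJ hr hx G
      (A := (2 * n + 3) * (M * (n + 2)) + (2 * n + 3) * ((n + 2) * ((n + 2) * M)))
      (by positivity) fun z hz hz1 ε hε hn => ?_
    have he := near_par (hu z) (not_bad hn)
    set l := evv Q z ⬝ᵥ u z with hl
    have hl1 : |l| ≤ (n + 2) * M := by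
      refine (Finset.abs_sum_le_sum_abs _ _).trans
        ((Finset.sum_le_card_nsmul _ _ M fun k _ => ?_).trans (by simp))
      rw [abs_mul]
      exact (mul_le_of_le_one_right (abs_nonneg _) (unit_le (hu z) k)).trans (hb z hz1 k)
    have hw : ∀ i, |l * u z i| ≤ (n + 2) * M := fun i => by
      rw [abs_mul]
      exact (mul_le_of_le_one_right (abs_nonneg _) (unit_le (hu z) i)).trans hl1
    have hz0 : bf (u z) (u z) = 0 := by rw [bf, hZ z hz]; ring
    rw [hG, bf_split _ (u z) l, hz0, mul_zero, add_zero]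
    refine (abs_add_le _ _).trans ((add_le_add (bf_le (hb z hz1) he) (bf_le he hw)).trans
      (le_of_eq (by ring)))
  intro z
  have := hG z
  rw [h0, ev_zero, bf] at this
  rw [sq]
  exact sub_eq_zero.1 this.symm

/-- passage to global coordinates. -/
theorem jetAt {u : E d → Ix n → ℝ} {x : E d} {Q : Ix n → MP d}
    (h : ∀ K : ℕ, ∃ C : ℝ, Small fun τ => {η | ∃ a b,
      C * τ ^ K < |ev (Q a) η * u (x + η) b - ev (Q b) η * u (x + η) a|}) :
    JetAt u x fun a => sh (-x) (Q a) := fun K => by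
  obtain ⟨C, hC⟩ := h K
  have hp : (0 : ℝ≥0∞) < (16 * 4 ^ d : ℝ≥0∞)⁻¹ :=
    ENNReal.inv_pos.2 (ENNReal.mul_ne_top (by simp) (by simp))
  obtain ⟨τ₀, hτ₀, hs⟩ := mem_nhdsGT_iff_exists_Ioc_subset.1 (hC.eventually_lt_const hp)
  refine ⟨C, τ₀, hτ₀, fun τ hτ hle => ?_⟩
  have h1 := (ENNReal.div_le_iff (measure_ball_pos volume (0 : E d) hτ).ne'
    measure_ball_lt_top.ne).1 (le_of_lt (hs ⟨hτ, hle⟩))
  refine le_trans (le_of_eq ?_) h1
  rw [← measure_preimage_add_right volume x]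
  congr 1
  ext z
  simp only [badS, mem_preimage, mem_inter_iff, mem_ofPred_eq, ev_sh, add_neg_cancel_right,
    mem_ball_iff_norm, add_sub_cancel_right, sub_zero, add_comm x z]

theorem exists_nat {c : ℝ} (hc : c ≠ 0) : ∃ k : ℕ, 1 ≤ (k : ℝ) * |c| := by
  obtain ⟨k, hk⟩ := exists_nat_ge |c|⁻¹
  have := abs_pos.2 hc
  exact ⟨k, by rwa [← inv_mul_cancel₀ this.ne', mul_le_mul_iff_left₀ this]⟩

end ClsA

open ClsA in
theorem sCls (hR : SRem) (hD : SDen) : SCls := by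
  intro d n P u hu
  have hm : ∀ a, Measurable fun z => u z a := fun a => (measurable_pi_apply a).comp hu.meas
  have hk : ∀ (a : Ix n) (k : ℕ), MeasurableSet {z | 1 ≤ (k : ℝ) * |u z a|} := fun a k =>
    measurableSet_le measurable_const ((hm a).abs.const_mul _)
  have hlz : Measurable fun z => lz (u z) (u z) := by
    simp only [lz_eq]
    exact (((Finset.measurable_sum _ fun i _ => (hm _).mul (hm _)).const_mul _).add
      ((hm _).mul (hm _))).add ((hm _).mul (hm _))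
  have m1 : ∀ (a : Ix n) (k : ℕ),
      MeasurableSet ({z | u z sI = 0} ∩ {z | 1 ≤ (k : ℝ) * |u z a|}) := fun a k =>
    (measurableSet_eq_fun (hm _) measurable_const).inter (hk a k)
  have m2 : ∀ k : ℕ, MeasurableSet
      ({z | lz (u z) (u z) = u z sI ^ 2} ∩ {z | 1 ≤ (k : ℝ) * |u z sI|}) := fun k =>
    (measurableSet_eq_fun hlz ((hm _).pow_const 2)).inter (hk _ k)
  filter_upwards [hu.type, hu.jet,
    ae_all_iff.2 fun a => ae_all_iff.2 fun k => (hD d _).2 (m1 a k),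
    ae_all_iff.2 fun k => (hD d _).2 (m2 k)] with x ht hj h1 h2
  obtain ⟨Q, hQ, hj⟩ := hj
  have hJ := jetAt hj
  have hQ' : (fun a => sh (-x) (Q a)) ≠ 0 := fun h =>
    hQ (funext fun a => by_contra fun ha => sh_ne_zero (-x) ha (congrFun h a))
  refine ⟨_, hJ, ?_⟩
  rcases ht with ⟨h0, i, hi⟩ | ⟨h0, hl⟩
  · obtain ⟨k, hk⟩ := exists_nat hi
    obtain ⟨r, hr, hx⟩ := h1 (Sum.inl i) k ⟨h0, hk⟩
    refine Or.inl ⟨?_, i, coord hR hJ hr hx (fun z hz => hz.2) hQ'⟩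
    refine van hR hJ hr hx _ (A := n + 2) (by positivity) fun z hz _ ε _ hn => ?_
    have := near_par (hu.unit z) (not_bad hn) sI
    rwa [show u z sI = 0 from hz.1, mul_zero, sub_zero] at this
  · obtain ⟨k, hk⟩ := exists_nat h0
    obtain ⟨r, hr, hx⟩ := h2 k ⟨hl, hk⟩
    exact Or.inr ⟨coord hR hJ hr hx (fun z hz => hz.2) hQ',
      gc hR hu.unit hJ hr hx fun z hz => hz.1⟩

end Pool.Agent.MP_66cee2_co.XI
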