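import Pool.Agent.MP_66cee2_co.XI.Kit

/-
Approximate orthogonality at density points.
-/

namespace Pool.Agent.MP_66cee2_co.XI

open MeasureTheory Set Filter Metric Topology Pool.Agent.MP_66cee2_co.X
open scoped ENNReal

namespace ApxA

variable {d n : ℕ}

theorem abs_Jv {b : Ix n → ℝ} {C : ℝ} (h : ∀ i, |b i| ≤ C) (i : Ix n) : |Jv b i| ≤ 2 * C := by
  rcases i with i | i
  · rw [Jv, abs_mul, abs_two]
    linarith [h (Sum.inl i)]
  · rw [Jv]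
    linarith [h (Sum.inr !i), abs_nonneg (b (Sum.inr !i))]

theorem sq_diff {a a' b : Ix n → ℝ} {η C : ℝ} (h : ∀ i k, |a i * a k - a' i * a' k| ≤ η)
    (hb : ∀ i, |b i| ≤ C) :
    lz a b ^ 2 ≤ lz a' b ^ 2 + (Fintype.card (Ix n) : ℝ) ^ 2 * (2 * C) ^ 2 * η := by
  have e : lz a b ^ 2 - lz a' b ^ 2 =
      ∑ i, ∑ k, (a i * a k - a' i * a' k) * (Jv b i * Jv b k) := by
    simp only [lz, dotProduct, sq, Finset.sum_mul_sum, ← Finset.sum_sub_distrib]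
    exact Finset.sum_congr rfl fun i _ => Finset.sum_congr rfl fun k _ => by ring
  have hη : 0 ≤ η := (abs_nonneg _).trans (h sI sI)
  have h1 : ∀ i k, (a i * a k - a' i * a' k) * (Jv b i * Jv b k) ≤ η * (2 * C) ^ 2 := by
    intro i k
    refine (le_abs_self _).trans ?_
    rw [abs_mul, abs_mul, sq]
    exact mul_le_mul (h i k) (mul_le_mul (abs_Jv hb i) (abs_Jv hb k) (abs_nonneg _)
      ((abs_nonneg _).trans (abs_Jv hb i))) (by positivity) hη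
  have h2 : ∑ i, ∑ k, (a i * a k - a' i * a' k) * (Jv b i * Jv b k) ≤
      ∑ _i : Ix n, ∑ _k : Ix n, η * (2 * C) ^ 2 :=
    Finset.sum_le_sum fun i _ => Finset.sum_le_sum fun k _ => h1 i k
  simp only [Finset.sum_const, Finset.card_univ, nsmul_eq_mul] at h2
  linarith

theorem shift {Z : Set (E d)} {r e : ℝ} {x y δ : E d} (hx : x ∈ Den Z r) (hy : y ∈ Den Z r)
    (he : 0 < e) (hr : 2 * e ≤ r) (hδ : ‖δ‖ ≤ e) :
    ∃ z : E d, ‖z‖ ≤ e ∧ z + x ∈ Z ∧ z + (y + δ) ∈ Z := by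
  by_contra hn
  have h1 := (hx.2 e he (by linarith)).shift (y := 0) (τ := e) (by linarith) x (by simp)
  have h2 := (hy.2 (2 * e) (by linarith) hr).shift (y := 0) (τ := e) (by linarith) (y + δ)
    (by simp only [zero_add, add_sub_cancel_left]; linarith)
  have h3 : ball (0 : E d) e ⊆ ({z | z + x ∈ Zᶜ} ∩ ball 0 e) ∪ ({z | z + (y + δ) ∈ Zᶜ} ∩ ball 0 e) := by
    intro z hz
    by_cases h : z + x ∈ Z
    · exact Or.inr ⟨fun h' => hn ⟨z, (mem_ball_zero_iff.1 hz).le, h, h'⟩, hz⟩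
    · exact Or.inl ⟨h, hz⟩
  have h4 := (measure_mono (μ := volume) h3).trans ((measure_union_le _ _).trans (add_le_add h1 h2))
  have h5 : (16⁻¹ : ℝ≥0∞) < 2⁻¹ := ENNReal.inv_lt_inv.2 (by norm_num)
  have h6 : (16⁻¹ + 16⁻¹ : ℝ≥0∞) < 1 :=
    (ENNReal.add_lt_add h5 h5).trans_eq ENNReal.inv_two_add_inv_two
  have h7 := ENNReal.mul_lt_mul_left (measure_ball_pos volume (0 : E d) he).ne'
    measure_ball_lt_top.ne h6
  rw [add_mul, one_mul] at h7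
  exact absurd (h4.trans_lt h7) (lt_irrefl _)

end ApxA

open ApxA in
theorem sApx : SApx := by
  intro d n p Z V r hr hF
  obtain ⟨C₀, hC₀⟩ := hF.bdd
  obtain ⟨C, ρ, hρ, hC⟩ := hF.hol
  obtain ⟨M, hM⟩ : ∃ M : ℝ, M = (Fintype.card (Ix n) : ℝ) ^ 2 * (2 * C₀) ^ 2 := ⟨_, rfl⟩
  have hM0 : 0 ≤ M := by rw [hM]; positivity
  obtain ⟨e₀, he₀, h1, h2, h3⟩ : ∃ e₀ : ℝ, 0 < e₀ ∧ 2 * e₀ ≤ r ∧ 2 * e₀ ≤ ρ ∧ 2 * e₀ ≤ 1 :=
    ⟨min r (min ρ 1) / 2, by positivity, by linarith [min_le_left r (min ρ 1)],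
      by linarith [min_le_right r (min ρ 1), min_le_left ρ 1],
      by linarith [min_le_right r (min ρ 1), min_le_right ρ 1]⟩
  refine ⟨M * C₀ ^ 2 / e₀ ^ p + 2 * (M * (|C| * 2 ^ p)), fun x hx y hy => ?_⟩
  obtain ⟨e, he⟩ : ∃ e : ℝ, e = |‖x - y‖ ^ 2 - 1| := ⟨_, rfl⟩
  have he0 : 0 ≤ e := he ▸ abs_nonneg _
  rw [← he, add_mul]
  have a1 : 0 ≤ M * C₀ ^ 2 / e₀ ^ p * e ^ p := by positivity
  have a2 : 0 ≤ 2 * (M * (|C| * 2 ^ p)) * e ^ p := by positivity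
  rcases le_total e₀ e with h | h
  · have b1 := sq_diff (a := V x) (a' := 0) (η := C₀ ^ 2) (fun i k => by
      rw [Pi.zero_apply, zero_mul, sub_zero, abs_mul, sq]
      exact mul_le_mul (hC₀ x hx.1 i) (hC₀ x hx.1 k) (abs_nonneg _)
        ((abs_nonneg _).trans (hC₀ x hx.1 i))) (hC₀ y hy.1)
    have b2 : lz (0 : Ix n → ℝ) (V y) = 0 := zero_dotProduct _
    rw [b2, ← hM] at b1
    have b3 : M * C₀ ^ 2 ≤ M * C₀ ^ 2 / e₀ ^ p * e ^ p := by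
      rw [div_mul_eq_mul_div, le_div_iff₀ (by positivity)]
      exact mul_le_mul_of_nonneg_left (pow_le_pow_left₀ he₀.le h p) (by positivity)
    linarith
  rcases he0.eq_or_lt with h0 | h0
  · have b1 : ‖x - y‖ ^ 2 = 1 := sub_eq_zero.1 (abs_eq_zero.1 (he.symm.trans h0.symm))
    rw [hF.orth x hx.1 y hy.1 ((pow_eq_one_iff_of_nonneg (norm_nonneg _) two_ne_zero).1 b1)]
    linarith
  obtain ⟨t, ht⟩ : ∃ t : ℝ, t = ‖y - x‖ := ⟨_, rfl⟩
  have ht0 : 0 ≤ t := ht ▸ norm_nonneg _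
  rw [norm_sub_rev, ← ht] at he
  have ht1 : 0 < t := by
    refine ht0.lt_of_ne fun h' => ?_
    rw [← h'] at he
    norm_num at he
    linarith
  have b1 : ‖(t⁻¹ - 1) • (y - x)‖ ≤ e := by
    rw [norm_smul, ← ht, Real.norm_eq_abs, ← abs_of_pos ht1, abs_of_pos ht1,
      ← abs_of_pos ht1, ← abs_mul, abs_of_pos ht1, sub_mul, inv_mul_cancel₀ ht1.ne', one_mul, he,
      show t ^ 2 - 1 = (1 - t) * -(1 + t) by ring, abs_mul, abs_neg, abs_of_pos (by linarith : 0 < 1 + t)]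
    nlinarith [abs_nonneg (1 - t)]
  obtain ⟨z, hz, hzx, hzy⟩ := shift hx hy h0 (by linarith) b1
  have b2 : ‖z + x - (z + (y + (t⁻¹ - 1) • (y - x)))‖ = 1 := by
    rw [show z + x - (z + (y + (t⁻¹ - 1) • (y - x))) = -(t⁻¹ • (y - x)) by module, norm_neg,
      norm_smul, ← ht, norm_inv, Real.norm_eq_abs, abs_of_pos ht1, inv_mul_cancel₀ ht1.ne']
  have b3 : ∀ u ∈ Z, ∀ v ∈ Z, ‖u - v‖ ≤ 2 * e → ∀ a b,
      |V u a * V u b - V v a * V v b| ≤ |C| * 2 ^ p * e ^ p := by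
    intro u hu v hv huv a b
    refine (hC u hu v hv (by linarith) a b).trans ?_
    rw [mul_assoc, ← mul_pow]
    exact mul_le_mul (le_abs_self _) (pow_le_pow_left₀ (norm_nonneg _) huv p) (by positivity)
      (abs_nonneg _)
  have b4 := sq_diff (b3 x hx.1 _ hzx (by
    rw [show x - (z + x) = -z by abel, norm_neg]; linarith)) (hC₀ y hy.1)
  have b5 := sq_diff (b3 y hy.1 _ hzy (by
    rw [show y - (z + (y + (t⁻¹ - 1) • (y - x))) = -(z + (t⁻¹ - 1) • (y - x)) by abel, norm_neg]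
    linarith [norm_add_le z ((t⁻¹ - 1) • (y - x))])) (hC₀ _ hzx)
  rw [lz_comm (V y), lz_comm (V (z + (y + _))), hF.orth _ hzx _ hzy b2] at b5
  rw [← hM] at b4 b5
  linarith

end Pool.Agent.MP_66cee2_co.XI
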