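import Pool.Agent.MP_66cee2_co.XI.Kit

/-
Data at infinity of the Euclidean class and of the superlinear class.
-/

namespace Pool.Agent.MP_66cee2_co.XI

open Set Polynomial Pool.Agent.MP_66cee2_co.X

namespace DatEA

variable {d n : ℕ}

/-- the normalised Euclidean vector. -/
noncomputable def nv (a : Fin n → ℝ) : Ix n → ℝ :=
  Sum.elim (fun i => a i / √(2 * ∑ l, a l ^ 2)) fun _ => 0

theorem nv_mul {a : Fin n → ℝ} (i k : Fin n) :
    nv a (Sum.inl i) * nv a (Sum.inl k) = a i * a k / (2 * ∑ l, a l ^ 2) := by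
  have h : 0 ≤ 2 * ∑ l, a l ^ 2 := by positivity
  simp only [nv, Sum.elim_inl]
  rw [div_mul_div_comm, Real.mul_self_sqrt h]

theorem lz_nv (a b : Fin n → ℝ) : lz (nv a) (nv b) =
    2 * (∑ i, a i * b i) / (√(2 * ∑ l, a l ^ 2) * √(2 * ∑ l, b l ^ 2)) := by
  rw [lz_eq]
  simp only [nv, Sum.elim_inl, Sum.elim_inr, mul_zero, add_zero, div_mul_div_comm]
  rw [← Finset.sum_div, mul_div_assoc]

theorem lz_nv_self {a : Fin n → ℝ} (h : 0 < ∑ l, a l ^ 2) : lz (nv a) (nv a) = 1 := by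
  rw [lz_nv, Real.mul_self_sqrt (by positivity)]
  simp only [← sq]
  exact div_self (by positivity)

theorem abs_nv_le (a : Fin n → ℝ) (x : Ix n) : |nv a x| ≤ 1 := by
  rcases x with i | b
  · rw [← sq_le_one_iff_abs_le_one, sq, nv_mul]
    refine div_le_one_of_le₀ ?_ (by positivity)
    have h1 : a i ^ 2 ≤ ∑ l, a l ^ 2 :=
      Finset.single_le_sum (f := fun l => a l ^ 2) (fun l _ => sq_nonneg _) (Finset.mem_univ i)
    nlinarith [sq_nonneg (a i)]
  · simp [nv]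

theorem pos_of {S : ℝ} {j : ℕ} (h : 1 ≤ (j : ℝ) * S) : 0 < S := by
  by_contra h'
  have : (j : ℝ) * S ≤ 0 := mul_nonpos_of_nonneg_of_nonpos (Nat.cast_nonneg j) (not_lt.1 h')
  linarith

theorem nv_hol {a b : Fin n → ℝ} {j : ℕ} {c e : ℝ} (he : 0 ≤ e) (hc : 0 ≤ c)
    (ha : 1 ≤ (j : ℝ) * ∑ l, a l ^ 2) (hb : 1 ≤ (j : ℝ) * ∑ l, b l ^ 2)
    (ha' : ∀ l, |a l| ≤ c) (hb' : ∀ l, |b l| ≤ c) (h : ∀ i k, |a i * b k - a k * b i| ≤ e)
    (x y : Ix n) : |nv a x * nv a y - nv b x * nv b y| ≤ n * c ^ 2 * j ^ 2 * e := by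
  have h0 : 0 ≤ n * c ^ 2 * j ^ 2 * e := by positivity
  rcases x with i | _
  swap
  · simpa [nv] using h0
  rcases y with k | _
  swap
  · simpa [nv] using h0
  have hS := pos_of ha
  have hS' := pos_of hb
  have e1 : a i * a k * ∑ l, b l ^ 2 - b i * b k * ∑ l, a l ^ 2 =
      ∑ l, ((a i * b l - a l * b i) * (a k * b l) + (a k * b l - a l * b k) * (a l * b i)) := by
    simp only [Finset.mul_sum, ← Finset.sum_sub_distrib]
    exact Finset.sum_congr rfl fun l _ => by ring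
  have hp : ∀ s t, |a s * b t| ≤ c ^ 2 := fun s t => by
    rw [abs_mul, sq]
    exact mul_le_mul (ha' s) (hb' t) (abs_nonneg _) hc
  have e2 : |a i * a k * ∑ l, b l ^ 2 - b i * b k * ∑ l, a l ^ 2| ≤ n * (2 * (e * c ^ 2)) := by
    rw [e1]
    refine (Finset.abs_sum_le_sum_abs _ _).trans ?_
    refine (Finset.sum_le_card_nsmul _ _ (2 * (e * c ^ 2)) fun l _ => ?_).trans (by simp)
    refine (abs_add_le _ _).trans ?_
    rw [abs_mul (_ - _), abs_mul (_ - _), two_mul]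
    exact add_le_add (mul_le_mul (h i l) (hp k l) (abs_nonneg _) he)
      (mul_le_mul (h k l) (hp l i) (abs_nonneg _) he)
  rw [nv_mul, nv_mul]
  generalize ∑ l, a l ^ 2 = S at *
  generalize ∑ l, b l ^ 2 = S' at *
  have e3 : a i * a k / (2 * S) - b i * b k / (2 * S') =
      (a i * a k * S' - b i * b k * S) / (2 * (S * S')) := by
    field_simp
  rw [e3, abs_div, abs_of_pos (by positivity : 0 < 2 * (S * S')), div_le_iff₀ (by positivity)]
  refine e2.trans ?_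
  have h1 : 1 ≤ (j * S) * (j * S') := one_le_mul_of_one_le_of_one_le ha hb
  calc n * (2 * (e * c ^ 2)) = n * (2 * (e * c ^ 2)) * 1 := by ring
    _ ≤ n * (2 * (e * c ^ 2)) * ((j * S) * (j * S')) := by gcongr
    _ = _ := by ring

theorem coeff_taylor_top {q : ℝ[X]} {m : ℕ} (h : q.natDegree ≤ m) :
    (taylor 1 q).coeff m = q.coeff m := by
  rcases h.eq_or_lt with e | e
  · rw [← e, coeff_taylor_natDegree, leadingCoeff]
  · rw [coeff_eq_zero_of_natDegree_lt e,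
      coeff_eq_zero_of_natDegree_lt (by rwa [natDegree_taylor])]

/-- the top coefficients at the two ends of an edge are orthogonal. -/
theorem top_orth {Q Q' : Ix n → MP d} (h : EdgeId Q Q') (hQ : Q sI = 0) (hQ' : Q' sI = 0)
    {w : E d} (hw : ‖w‖ = 1) {m m' : ℕ} (hm : ∀ i, DegL (Q (Sum.inl i)) w m)
    (hm' : ∀ i, DegL (Q' (Sum.inl i)) w m') :
    ∑ i, co (Q (Sum.inl i)) w m * co (Q' (Sum.inl i)) w m' = 0 := by
  have h0 : ∑ i, ln (Q (Sum.inl i)) 0 w * taylor 1 (ln (Q' (Sum.inl i)) 0 w) = 0 := by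
    refine Polynomial.funext fun t => ?_
    have h1 := h (t • w) w hw
    rw [lz_eq, show t • w + w = (t + 1) • w by module] at h1
    have e1 : evv Q (t • w) (Sum.inr true) = 0 := by simp [evv, hQ]
    have e2 : evv Q' ((t + 1) • w) (Sum.inr true) = 0 := by simp [evv, hQ']
    rw [e1, e2, zero_mul, mul_zero, add_zero, add_zero] at h1
    simp only [eval_finsetSum, eval_mul, taylor_eval, eval_ln_zero, eval_zero]
    exact (mul_eq_zero.1 h1).resolve_left two_ne_zero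
  have h2 := congrArg (fun r : ℝ[X] => r.coeff (m + m')) h0
  simp only [finsetSum_coeff, coeff_zero] at h2
  rw [← h2]
  refine Finset.sum_congr rfl fun i _ => ?_
  rw [coeff_mul_add_eq_of_natDegree_le (degL_iff.1 (hm i))
    (by rw [natDegree_taylor]; exact degL_iff.1 (hm' i)), coeff_taylor_top (degL_iff.1 (hm' i))]
  rfl

end DatEA

open DatEA in
theorem sDatE : SEdge → SHol → SOne → SDatE := by
  intro hE hH hO d n u hd hu D p j K hp hj hK w hw
  have hE' := hE d n u hd hu D K j (by omega) hj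
  refine ⟨?_, ?_⟩
  · have hex : ∀ x, ∃ (Q : Ix n → MP d) (m : ℕ), x ∈ Pc u D K j (ClE j w) →
        Adm u D K j x Q ∧ Q sI = 0 ∧ (∀ i, DegL (Q (Sum.inl i)) w m) ∧
          1 ≤ (j : ℝ) * ∑ i, co (Q (Sum.inl i)) w m ^ 2 := by
      intro x
      by_cases hx : x ∈ Pc u D K j (ClE j w)
      · obtain ⟨-, Q, hA, h0, m, h1, h2⟩ := hx
        exact ⟨Q, m, fun _ => ⟨hA, h0, h1, h2⟩⟩
      · exact ⟨0, 0, fun h => (hx h).elim⟩
    choose Q m hQ using hex
    refine ⟨fun x => nv fun i => co (Q x (Sum.inl i)) w (m x), ⟨?_, ?_, ?_, ?_⟩, fun _ => rfl⟩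
    · exact ⟨1, fun x _ a => abs_nv_le _ a⟩
    · obtain ⟨C, r, hr, hC⟩ := hH d n u hu D p j hp hj
      refine ⟨n * ((mons d D).card : ℝ) ^ 2 * j ^ 2 * |C|, r, hr, fun x hx y hy hxy a b => ?_⟩
      obtain ⟨hA, -, h1, h2⟩ := hQ x hx
      obtain ⟨hA', -, h1', h2'⟩ := hQ y hy
      rw [mul_assoc _ |C|]
      refine nv_hol (by positivity) (by positivity) h2 h2'
        (fun l => abs_co_le (hA.deg _) (hA.cf _) hw.le _)
        (fun l => abs_co_le (hA'.deg _) (hA'.cf _) hw.le _) (fun i k => ?_) a b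
      have := hC K (by omega) x y _ _ hA hA' hx.1 hxy w hw.le (Sum.inl i) (Sum.inl k) (m x + m y)
      rw [coeff_sub, coeff_mul_add_eq_of_natDegree_le (degL_iff.1 (h1 i)) (degL_iff.1 (h1' k)),
        coeff_mul_add_eq_of_natDegree_le (degL_iff.1 (h1 k)) (degL_iff.1 (h1' i))] at this
      exact this.trans (mul_le_mul_of_nonneg_right (le_abs_self C) (by positivity))
    · exact fun x hx => lz_nv_self (pos_of (hQ x hx).2.2.2)
    · intro x hx y hy hxy
      obtain ⟨hA, h0, h1, -⟩ := hQ x hx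
      obtain ⟨hA', h0', h1', -⟩ := hQ y hy
      rw [lz_nv, top_orth (hE' x y _ _ hA hA' hxy) h0 h0' hw h1 h1', mul_zero, zero_div]
  · rintro x ⟨-, Q, hA, hG, m, k, hmk, h1, -, h3, h4⟩ y ⟨-, Q', hA', hG', m', -, -, -, -, h3', -⟩ hxy
    have hN := nbr_of_edge (hE' x y _ _ hA hA' hxy) hG hG' 0 hw
    have c1 : (ln (Q sI) 0 w).coeff m ≠ 0 := pow_ne_zero_iff two_ne_zero |>.1 (pos_of h3).ne'
    have c2 : (ln (Q' sI) 0 w).coeff m' ≠ 0 := pow_ne_zero_iff two_ne_zero |>.1 (pos_of h3').ne'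
    have c3 : ln (Q' sI) 0 w ≠ 0 := fun h => c2 (by rw [h, coeff_zero])
    have h5 := (hO n _ _ _ _ hN c3 m (degL_iff.1 h1) c1).1
    have h6 : ∀ i, co (Q (Sum.inl i)) w k = 0 := fun i =>
      coeff_eq_zero_of_natDegree_lt ((h5 i).trans_lt (by omega))
    simp only [h6] at h4
    norm_num at h4

end Pool.Agent.MP_66cee2_co.XI
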