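import Pool.Agent.MP_66cee2_co.XI.Kit

/-
Exponential lower bound, second half: minors of nearby admissible vectors are small.
-/

namespace Pool.Agent.MP_66cee2_co.XI

open MeasureTheory Set Filter Metric Topology Polynomial Pool.Agent.MP_66cee2_co.X
open scoped ENNReal RealInnerProductSpace

namespace HolA

variable {d n : ℕ}

theorem minor_le {a a' u : Ix n → ℝ} (hu : u ⬝ᵥ u = 1) {ε M : ℝ}
    (h : ∀ i k, |a i * u k - a k * u i| ≤ ε) (h' : ∀ i k, |a' i * u k - a' k * u i| ≤ ε)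
    (hM : ∀ i, |a i| ≤ M) (hM' : ∀ i, |a' i| ≤ M) (i k : Ix n) :
    |a i * a' k - a k * a' i| ≤ (n + 2) * (3 * M * ε) := by
  have h1 : ∀ l, |u l| ≤ 1 := fun l => by
    rw [← sq_le_one_iff_abs_le_one, ← hu, sq]
    exact Finset.single_le_sum (f := fun k => u k * u k) (fun k _ => mul_self_nonneg _)
      (Finset.mem_univ l)
  have hM0 : 0 ≤ M := (abs_nonneg _).trans (hM i)
  have e : a i * a' k - a k * a' i = ∑ l, (a i * (a' k * u l - a' l * u k)
      - a k * (a' i * u l - a' l * u i) + a' l * (a i * u k - a k * u i)) * u l := by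
    calc a i * a' k - a k * a' i = (a i * a' k - a k * a' i) * (u ⬝ᵥ u) := by rw [hu, mul_one]
      _ = _ := by
        rw [dotProduct, Finset.mul_sum]
        exact Finset.sum_congr rfl fun l _ => by ring
  rw [e]
  refine (Finset.abs_sum_le_sum_abs _ _).trans ?_
  refine (Finset.sum_le_card_nsmul _ _ (3 * M * ε) fun l _ => ?_).trans (by simp)
  rw [abs_mul]
  refine (mul_le_of_le_one_right (abs_nonneg _) (h1 l)).trans ?_
  have b1 : |a i * (a' k * u l - a' l * u k)| ≤ M * ε := by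
    rw [abs_mul]; exact mul_le_mul (hM i) (h' k l) (abs_nonneg _) hM0
  have b2 : |a k * (a' i * u l - a' l * u i)| ≤ M * ε := by
    rw [abs_mul]; exact mul_le_mul (hM k) (h' i l) (abs_nonneg _) hM0
  have b3 : |a' l * (a i * u k - a k * u i)| ≤ M * ε := by
    rw [abs_mul]; exact mul_le_mul (hM' l) (h i k) (abs_nonneg _) hM0
  rw [abs_le] at b1 b2 b3 ⊢
  constructor <;> linarith [b1.1, b1.2, b2.1, b2.2, b3.1, b3.2]

theorem vol_le {u : E d → Ix n → ℝ} (hu : UF u) {D K j : ℕ} {x y : E d} {Q Q' : Ix n → MP d}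
    (hQ : Adm u D K j x Q) (hQ' : Adm u D K j y Q') (hx : ‖x‖ ≤ j) {τ : ℝ} (hτ : 0 < τ)
    (hτ1 : τ ≤ 1) (hj : j * (2 * τ) ≤ 1) (hxy : ‖x - y‖ ≤ τ) (a b : Ix n) :
    volume ({z | (n + 2) * (3 * ((mons d D).card * (1 * ((j : ℝ) + 1) ^ D)) * (j * (2 * τ) ^ K)) <
      |ev (Q a * Q' b - Q b * Q' a) z|} ∩ ball x τ) ≤ 2⁻¹ * volume (ball (0 : E d) τ) := by
  have t1 := (hQ.thin (2 * τ) (by linarith) hj).shift (y := x) (τ := τ) (by linarith) 0
    (by simp; linarith)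
  have t2 := (hQ'.thin (2 * τ) (by linarith) hj).shift (y := x) (τ := τ) (by linarith) 0
    (by rw [add_zero]; linarith)
  refine le_trans (measure_mono (t := _ ∪ _) ?_) ((measure_union_le _ _).trans
    ((add_le_add t1 t2).trans ?_))
  · rintro z ⟨hz, hz'⟩
    by_contra hc
    have hz1 : ‖z‖ ≤ (j : ℝ) + 1 := by
      rw [mem_ball_iff_norm] at hz'
      calc ‖z‖ = ‖x + (z - x)‖ := by congr 1; abel
        _ ≤ ‖x‖ + ‖z - x‖ := norm_add_le _ _
        _ ≤ _ := by linarith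
    have hR : (1 : ℝ) ≤ (j : ℝ) + 1 := by linarith [Nat.cast_nonneg (α := ℝ) j]
    have c1 : ∀ i k, |ev (Q i) z * u z k - ev (Q k) z * u z i| ≤ j * (2 * τ) ^ K := by
      intro i k
      by_contra h
      exact hc (Or.inl ⟨by rw [mem_ofPred_eq, add_zero]; exact ⟨i, k, not_le.mp h⟩, hz'⟩)
    have c2 : ∀ i k, |ev (Q' i) z * u z k - ev (Q' k) z * u z i| ≤ j * (2 * τ) ^ K := by
      intro i k
      by_contra h
      exact hc (Or.inr ⟨by rw [mem_ofPred_eq, add_zero]; exact ⟨i, k, not_le.mp h⟩, hz'⟩)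
    have h := minor_le (a := fun i => ev (Q i) z) (a' := fun i => ev (Q' i) z) (hu.unit z) c1 c2
      (fun i => abs_ev_le (hQ.deg i) (hQ.cf i) hR hz1)
      (fun i => abs_ev_le (hQ'.deg i) (hQ'.cf i) hR hz1) a b
    rw [mem_ofPred_eq, ev_sub, ev_mul, ev_mul] at hz
    exact absurd h (not_le.mpr hz)
  · rw [← add_mul]
    gcongr
    rw [← two_mul, show (16 : ℝ≥0∞) = 2 * 8 by norm_num, ENNReal.mul_inv (by simp) (by simp),
      ← mul_assoc, ENNReal.mul_inv_cancel (by simp) (by simp), one_mul]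
    exact ENNReal.inv_le_inv.mpr (by norm_num)

end HolA

theorem sHol : SRem → SCoef → SHol := by
  intro hR hC d n u hu D p j hp hj
  obtain ⟨C₁, hC₁, h₁⟩ := hR d (2 * D)
  obtain ⟨C₂, hC₂, h₂⟩ := hC.1 (2 * D)
  have hj1 : (1 : ℝ) ≤ j := by exact_mod_cast hj
  set M : ℝ := (n + 2) * (3 * ((mons d D).card * (1 * ((j : ℝ) + 1) ^ D))) with hM
  have hM0 : 0 ≤ M := by positivity
  refine ⟨C₂ * (C₁ * (M * (j * 2 ^ (2 * D + p))) * ((j : ℝ) + 1) ^ (2 * D)), 1 / (4 * j),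
    by positivity, fun K hK x y Q Q' hQ hQ' hx hxy w hw a b k => ?_⟩
  have hdeg : (Q a * Q' b - Q b * Q' a).totalDegree ≤ 2 * D := by
    refine (MvPolynomial.totalDegree_sub _ _).trans (max_le ?_ ?_)
    · refine (MvPolynomial.totalDegree_mul _ _).trans ?_
      have := hQ.deg a
      have := hQ'.deg b
      omega
    · refine (MvPolynomial.totalDegree_mul _ _).trans ?_
      have := hQ.deg b
      have := hQ'.deg a
      omega
  have hnd : (ln (Q a) 0 w * ln (Q' b) 0 w - ln (Q b) 0 w * ln (Q' a) 0 w).natDegree ≤ 2 * D := by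
    refine (natDegree_sub_le _ _).trans (max_le ?_ ?_)
    · rw [two_mul]
      exact natDegree_mul_le_of_le (natDegree_ln (hQ.deg a) 0 w) (natDegree_ln (hQ'.deg b) 0 w)
    · rw [two_mul]
      exact natDegree_mul_le_of_le (natDegree_ln (hQ.deg b) 0 w) (natDegree_ln (hQ'.deg a) 0 w)
  have key : ∀ τ ∈ Ioo ‖x - y‖ (1 / (2 * j)),
      |(ln (Q a) 0 w * ln (Q' b) 0 w - ln (Q b) 0 w * ln (Q' a) 0 w).coeff k| ≤
        C₂ * (C₁ * (M * (j * 2 ^ (2 * D + p))) * ((j : ℝ) + 1) ^ (2 * D)) * τ ^ p := by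
    intro τ hτ
    have hτ0 : 0 < τ := (norm_nonneg _).trans_lt hτ.1
    have hjτ : j * (2 * τ) ≤ 1 := by
      have := (lt_div_iff₀ (by positivity)).mp hτ.2
      linarith
    have h2τ : 2 * τ ≤ 1 := by nlinarith
    have hv := HolA.vol_le hu hQ hQ' hx hτ0 (by linarith) hjτ hτ.1.le a b
    have hb := h₁ _ hdeg x τ _ ((j : ℝ) + 1) hτ0 (by linarith) (by positivity) hv
    rw [mul_assoc C₂]
    refine h₂ _ hnd _ (fun t ht => ?_) k
    have hz : ‖t • w - x‖ ≤ (j : ℝ) + 1 := by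
      refine (norm_sub_le _ _).trans ?_
      rw [norm_smul, Real.norm_eq_abs, abs_of_nonneg ht.1]
      have := mul_le_one₀ ht.2 (norm_nonneg w) hw
      linarith
    have h3 := hb _ hz
    rw [ev_sub, ev_mul, ev_mul] at h3
    rw [eval_sub, eval_mul, eval_mul, eval_ln_zero, eval_ln_zero, eval_ln_zero, eval_ln_zero]
    refine h3.trans ?_
    have h4 : (2 * τ) ^ K ≤ (2 * τ) ^ (2 * D + p) :=
      pow_le_pow_of_le_one (by linarith) h2τ hK
    calc _ = C₁ * (M * (j * (2 * τ) ^ K)) * (((j : ℝ) + 1) / τ) ^ (2 * D) := by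
          rw [hM]; ring
      _ ≤ C₁ * (M * (j * (2 * τ) ^ (2 * D + p))) * (((j : ℝ) + 1) / τ) ^ (2 * D) := by gcongr
      _ = _ := by
          rw [div_pow, mul_pow, pow_add τ]
          field_simp
  have hlt : ‖x - y‖ < 1 / (2 * j) := hxy.trans_lt (by
    rw [div_lt_div_iff₀ (by positivity) (by positivity)]; linarith)
  have ht : Tendsto (fun τ : ℝ =>
      C₂ * (C₁ * (M * (j * 2 ^ (2 * D + p))) * ((j : ℝ) + 1) ^ (2 * D)) * τ ^ p) (𝓝[>] ‖x - y‖)
      (𝓝 (C₂ * (C₁ * (M * (j * 2 ^ (2 * D + p))) * ((j : ℝ) + 1) ^ (2 * D)) * ‖x - y‖ ^ p)) :=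
    (Continuous.tendsto (by fun_prop) _).mono_left nhdsWithin_le_nhds
  exact ge_of_tendsto ht (mem_of_superset (Ioo_mem_nhdsGT hlt) key)

end Pool.Agent.MP_66cee2_co.XI
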