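import Pool.Agent.MP_66cee2_co.XI.Kit

/-
Exponential lower bound, second half: assembly from the rows.
-/

namespace Pool.Agent.MP_66cee2_co.XI

open MeasureTheory Set Filter Metric Topology Pool.Agent.MP_66cee2_co.X
open scoped ENNReal RealInnerProductSpace

namespace MainA

theorem consts {ρ C : ℝ} (h0 : 0 < ρ) (h1 : ρ < 1) (hC : 0 ≤ C) :
    ∃ c : ℝ, 1 < c ∧ ∃ d₀ : ℕ, ∀ d n : ℕ, d₀ ≤ d → (n : ℝ) ≤ c ^ d →
      ∃ m p : ℕ, p = 16 * (m + 1) ∧ 6 * p ≤ d ∧ C * (n + 2) * ρ ^ p ≤ 1 / 12 := by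
  have hc : ∀ᶠ c : ℝ in 𝓝[>] 1, c ^ 6 * ρ < 1 := by
    refine nhdsWithin_le_nhds ?_
    have : ContinuousAt (fun c : ℝ => c ^ 6 * ρ) 1 := by fun_prop
    exact this.eventually_lt continuousAt_const (by simpa using h1)
  obtain ⟨c, hκ, hc1⟩ := (hc.and self_mem_nhdsWithin).exists
  have hc1 : 1 < c := hc1
  have hc0 : 0 < c := by linarith
  have ht : Tendsto (fun p : ℕ => C * (c ^ 96 + 2) * (c ^ 6 * ρ) ^ p) atTop (𝓝 0) := by
    simpa using (tendsto_pow_atTop_nhds_zero_of_lt_one (by positivity) hκ).const_mul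
      (C * (c ^ 96 + 2))
  obtain ⟨p₀, hp₀⟩ := eventually_atTop.1 (ht.eventually_le_const (by norm_num : (0 : ℝ) < 1 / 12))
  refine ⟨c, hc1, 96 * (p₀ + 1), fun d n hd hn => ⟨d / 96 - 1, 16 * (d / 96), by omega, by omega,
    le_trans ?_ (hp₀ (16 * (d / 96)) (by omega))⟩⟩
  set p := 16 * (d / 96) with hp
  have h2 : (n : ℝ) ≤ c ^ 96 * (c ^ 6) ^ p := by
    refine hn.trans ?_
    rw [← pow_mul, ← pow_add]
    exact pow_le_pow_right₀ hc1.le (by omega)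
  have h3 : (1 : ℝ) ≤ (c ^ 6) ^ p := one_le_pow₀ (one_le_pow₀ hc1.le)
  rw [mul_pow, ← mul_assoc, mul_assoc C (c ^ 96 + 2)]
  gcongr
  nlinarith

theorem psd_of_zero {n : ℕ} {A : Set (Ix n → ℝ)} (h : ∀ a ∈ A, a sI = 0) : Psd A := by
  intro v hv
  have : v sI = 0 := by
    induction hv using Submodule.span_induction with
    | mem a ha => exact h a ha
    | zero => rfl
    | add a b _ _ ha hb => simp [ha, hb]
    | smul t a _ ha => simp [ha]
  rw [lz_eq]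
  simp only [sI] at this
  rw [this, zero_mul, mul_zero, add_zero, add_zero]
  exact mul_nonneg zero_le_two (Finset.sum_nonneg fun i _ => mul_self_nonneg _)

theorem psd_const {n : ℕ} {A : Set (Ix n → ℝ)} (h : A ⊆ {lift (0 : E n)}) : Psd A := by
  intro v hv
  obtain ⟨t, rfl⟩ := Submodule.mem_span_singleton.1 (Submodule.span_mono h hv)
  rw [lz_eq]
  simp only [lift, Pi.smul_apply, smul_eq_mul, PiLp.zero_apply, norm_zero]
  simp
  nlinarith [mul_self_nonneg t]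

theorem flat_const {d n : ℕ} {Z : Set (E d)} (p : ℕ) (h : ∀ x ∈ Z, ∀ y ∈ Z, ‖x - y‖ ≠ 1) :
    Flat Z (fun _ => lift (0 : E n)) p where
  bdd := ⟨1, fun x _ a => by
    rcases a with i | _ | _ <;> norm_num [lift, abs_of_nonneg]⟩
  hol := ⟨0, 1, one_pos, fun x _ y _ _ a b => by simp⟩
  one := fun x _ => by simp [lz_lift]
  orth := fun x hx y hy e => absurd e (h x hx y hy)

theorem ph_self {p : ℕ} (a : Fin p → ℝ) : ph a a = p := by simp [ph]

theorem two_of_three {q : Fin 3 → Prop} (h : ∀ k l, k ≠ l → q k ∨ q l) :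
    ∃ k l, k ≠ l ∧ q k ∧ q l := by
  rcases h 0 1 (by decide) with h0 | h1
  · rcases h 1 2 (by decide) with h1 | h2
    · exact ⟨0, 1, by decide, h0, h1⟩
    · exact ⟨0, 2, by decide, h0, h2⟩
  · rcases h 0 2 (by decide) with h0 | h2
    · exact ⟨0, 1, by decide, h0, h1⟩
    · exact ⟨1, 2, by decide, h1, h2⟩

theorem exp_small {p : ℕ} (hp : 16 ≤ p) : 2 * Real.exp (-((1 : ℝ) ^ 2 * p / 2)) < 1 / 2 := by
  have h1 : (16 : ℝ) ≤ p := by exact_mod_cast hp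
  have h2 := Real.add_one_le_exp ((1 : ℝ) ^ 2 * p / 2)
  rw [Real.exp_neg]
  have h3 : (Real.exp ((1 : ℝ) ^ 2 * p / 2))⁻¹ ≤ 9⁻¹ := inv_anti₀ (by norm_num) (by linarith)
  linarith

end MainA

open MainA

theorem sI_of (hTor : STor) (hLev : SLev) (hFLT : SFLT) (hClo : SClo) (hDatE : SDatE)
    (hDat1 : SDat1) (hPsd : SPsd) (hChe : SChe) (hPos : SPosI) (hEnd : SEnd) : SI := by
  obtain ⟨ρ, C, h0, h1, hC, hF⟩ := hFLT
  obtain ⟨c, hc, d₀, hd₀⟩ := consts h0 h1 hC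
  refine ⟨c, hc, d₀, fun d n hd hn P u hP hu => ?_⟩
  obtain ⟨m, p, hp, hpd, hb⟩ := hd₀ d n hd hn
  have hp1 : 1 ≤ p := by omega
  have hd2 : 2 ≤ d := by omega
  have hp0 : (0 : ℝ) < p := by exact_mod_cast hp1
  obtain ⟨T, hTc, hT1, hT2⟩ := hTor d p hp1 hpd
  obtain ⟨w, x₀, D, j, r, hw, hj, hr, hcov⟩ := hLev d n p P u (by omega) hu T hTc
  set K := 4 * D + p + 1 with hK
  set X : Fin 3 → (Fin p → ℝ) → E d := fun k θ => x₀ + T k θ with hX
  have hn2 : ∀ k a, ‖T k a‖ ^ 2 = 1 / 2 := fun k a => by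
    rw [← real_inner_self_eq_norm_sq, hT1, ph_self]; field_simp
  have hXc : ∀ k, Continuous (X k) := fun k => continuous_const.add (hTc k)
  have hX1 : ∀ k a b, ‖X k a - X k b‖ ^ 2 = 1 - ph a b / p := fun k a b => by
    simp only [hX, add_sub_add_left_eq_sub]
    rw [norm_sub_sq_real, hn2, hn2, hT1]; field_simp; ring
  have hX2 : ∀ k l a b, k ≠ l → ‖X k a - X l b‖ = 1 := fun k l a b hkl => by
    simp only [hX, add_sub_add_left_eq_sub]
    rw [← sq_eq_sq₀ (norm_nonneg _) zero_le_one, norm_sub_sq_real, hn2, hn2, hT2 k l a b hkl]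
    norm_num
  set Z : Fin 4 → Set (E d) := fun c => Pc u D K j (Cl c j w) with hZ
  have hsm : ∀ (c : Fin 4) (k : Fin 3) (V : E d → Ix n → ℝ), Flat (Z c) V p →
      Psd (V '' (Z c ∩ range (X k))) → (tor p).real (X k ⁻¹' Den (Z c) r) ≤ 1 / 12 :=
    fun c k V hV hV' => (hF m p hp d n (Z c) V r (X k) (isClosed_pc hClo u D K j c w) hV hr
      (hXc k) (hX1 k) hV').trans hb
  obtain ⟨⟨V₀, hV₀, hV₀'⟩, hno⟩ := hDatE d n u hd2 (JetField.uf hu) D p j K hp1 hj (by omega) w hw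
  obtain ⟨V₂, hV₂⟩ := hDat1 d n u hd2 (JetField.uf hu) D p j K hp1 hj (by omega) w hw
  rw [← cl_zero] at hV₀
  rw [← cl_one] at hno
  rw [← cl_two] at hV₂
  have hbig : ∀ k, Psd (V₂ '' (Z 2 ∩ range (X k))) →
      1 / 2 ≤ (tor p).real (X k ⁻¹' Den (Z 3) r) := fun k hk => by
    have e0 := hsm 0 k V₀ hV₀ (psd_of_zero (by rintro _ ⟨x, -, rfl⟩; exact hV₀' x))
    have e1 := hsm 1 k _ (flat_const p hno) (psd_const (by rintro _ ⟨x, -, rfl⟩; rfl))
    have e2 := hsm 2 k V₂ hV₂ hk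
    have e3 : (tor p).real {θ | ∃ c, x₀ + T k θ ∈ Den (Z c) r} ≤
        ∑ c, (tor p).real (X k ⁻¹' Den (Z c) r) := by
      refine le_trans (le_of_eq ?_) (measureReal_iUnion_fintype_le _)
      congr 1; ext θ; simp [hX]
    rw [Fin.sum_univ_four] at e3
    linarith [hcov k]
  obtain ⟨k, l, hkl, hk, hl⟩ := two_of_three (q := fun k => Psd (V₂ '' (Z 2 ∩ range (X k))))
    fun k l hkl => (hPsd n).1 _ _ (by
      rintro _ ⟨_, ⟨hx, a, rfl⟩, rfl⟩ _ ⟨_, ⟨hy, b, rfl⟩, rfl⟩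
      exact hV₂.orth _ hx _ hy (hX2 k l a b hkl))
  have hne : ∀ k, 1 / 2 ≤ (tor p).real (X k ⁻¹' Den (Z 3) r) → ∃ a, X k a ∈ Den (Z 3) r :=
    fun k h => by
      by_contra hcon
      have : X k ⁻¹' Den (Z 3) r = ∅ := eq_empty_of_forall_notMem fun a ha => hcon ⟨a, ha⟩
      rw [this, measureReal_empty] at h
      norm_num at h
  obtain ⟨a, ha⟩ := hne k (hbig k hk)
  obtain ⟨a₁, ha₁⟩ := hne l (hbig l hl)
  obtain ⟨a₂, ha₂, hph⟩ : ∃ a₂, X l a₂ ∈ Den (Z 3) r ∧ |ph a₁ a₂| < 1 * p := by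
    by_contra hcon
    push Not at hcon
    have e1 : (tor p).real (X l ⁻¹' Den (Z 3) r) ≤ (tor p).real {b | 1 * (p : ℝ) ≤ |ph a₁ b|} :=
      measureReal_mono fun b hb => hcon b hb
    linarith [hChe p a₁ 1 zero_le_one, exp_small (p := p) (by omega), hbig l hl]
  rw [one_mul, abs_lt] at hph
  have hq : -1 < ph a₁ a₂ / p ∧ ph a₁ a₂ / p < 1 :=
    ⟨by rw [lt_div_iff₀ hp0]; linarith, by rw [div_lt_one hp0]; exact hph.2⟩
  have hZ3 : Z 3 = Pc u D K j (Cl2 j) := by simp only [hZ, cl_three]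
  rw [hZ3] at ha ha₁ ha₂
  obtain ⟨S, c₀, hS⟩ := hPos d n u hd2 (JetField.uf hu) D K j r (by omega) hj hr _ ha _ ha₁ _ ha₂
    (hX2 l k _ _ hkl.symm) (hX2 l k _ _ hkl.symm)
    (fun e => by
      have := hX1 l a₁ a₂
      rw [e, sub_self, norm_zero] at this
      linarith [hq.2])
    (fun e => by
      have e1 : X l a₁ - X l a₂ = (2 : ℝ) • (X l a₁ - X k a) := by
        rw [two_smul]; nth_rewrite 2 [e]; abel
      have := hX1 l a₁ a₂
      rw [e1, norm_smul, hX2 l k _ _ hkl.symm] at this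
      norm_num at this
      linarith [hq.1])
  refine ⟨aff S c₀, fun x y => ?_, hEnd d n hd2 P u hP hu S c₀ hS⟩
  simp only [aff, add_sub_add_right_eq_sub, ← map_sub, LinearIsometry.norm_map]

end Pool.Agent.MP_66cee2_co.XI
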