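import Pool.Agent.MP_66cee2_co.XI.Kit

/-
Exhaustion by pieces.
-/

namespace Pool.Agent.MP_66cee2_co.XI

open MeasureTheory Set Filter Metric Topology Polynomial Pool.Agent.MP_66cee2_co.X
open scoped ENNReal RealInnerProductSpace

namespace ExhIA

variable {d n : ℕ}

theorem thin_mono {B B' : Set (E d)} {x : E d} {τ : ℝ} (h : Thin B x τ) (hs : B' ⊆ B) :
    Thin B' x τ := (measure_mono (inter_subset_inter_left _ hs)).trans h

/-- the two types of jets. -/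
def Ty (Q : Ix n → MP d) : Prop := (Q sI = 0 ∧ ∃ i, Q (Sum.inl i) ≠ 0) ∨ (Q sI ≠ 0 ∧ GC Q)

theorem scale {u : E d → Ix n → ℝ} {x : E d} {Q : Ix n → MP d} (hJ : JetAt u x Q) (hT : Ty Q) :
    ∃ Q' : Ix n → MP d, JetAt u x Q' ∧ Ty Q' ∧ ∀ a α, |MvPolynomial.coeff α (Q' a)| ≤ 1 := by
  set A : ℝ := 1 + ∑ a, ∑ α ∈ (Q a).support, |MvPolynomial.coeff α (Q a)| with hA
  have h0 : 0 < A := by positivity
  have hb : ∀ a α, |MvPolynomial.coeff α (Q a)| ≤ A := by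
    intro a α
    by_cases hα : α ∈ (Q a).support
    · have a1 := Finset.single_le_sum (f := fun α => |MvPolynomial.coeff α (Q a)|)
        (fun _ _ => abs_nonneg _) hα
      have a2 := Finset.single_le_sum
        (f := fun a => ∑ α ∈ (Q a).support, |MvPolynomial.coeff α (Q a)|)
        (fun _ _ => Finset.sum_nonneg fun _ _ => abs_nonneg _) (Finset.mem_univ a)
      linarith
    · rw [MvPolynomial.notMem_support_iff.mp hα, abs_zero]
      exact h0.le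
  have hi : 0 < A⁻¹ := inv_pos.mpr h0
  refine ⟨fun a => A⁻¹ • Q a, fun K => ?_, ?_, fun a α => ?_⟩
  · obtain ⟨C, τ₀, h1, h2⟩ := hJ K
    refine ⟨A⁻¹ * C, τ₀, h1, fun τ t0 t1 => thin_mono (h2 τ t0 t1) ?_⟩
    rintro z ⟨a, b, h⟩
    refine ⟨a, b, ?_⟩
    rw [ev_smul, ev_smul, mul_assoc, mul_assoc, mul_assoc, ← mul_sub, abs_mul, abs_of_pos hi] at h
    exact lt_of_mul_lt_mul_left h hi.le
  · rcases hT with ⟨h1, i, h2⟩ | ⟨h1, h2⟩
    · exact Or.inl ⟨by simp [h1], i, smul_ne_zero hi.ne' h2⟩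
    · refine Or.inr ⟨smul_ne_zero hi.ne' h1, fun z => ?_⟩
      have := h2 z
      rw [lz_eq] at this ⊢
      simp only [evv, ev_smul] at this ⊢
      rw [mul_pow, ← this, Finset.sum_congr rfl fun i _ => mul_mul_mul_comm _ _ _ _,
        ← Finset.mul_sum]
      ring
  · rw [MvPolynomial.coeff_smul, smul_eq_mul, abs_mul, abs_of_pos hi, inv_mul_le_iff₀ h0, mul_one]
    exact hb a α

theorem ev_large (y : ℝ) : ∀ᶠ j : ℕ in atTop, y ≤ j :=
  tendsto_natCast_atTop_atTop.eventually_ge_atTop y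

theorem ev_one_le {y : ℝ} (hy : 0 < y) : ∀ᶠ j : ℕ in atTop, 1 ≤ (j : ℝ) * y :=
  (ev_large (1 / y)).mono fun _ h => (div_le_iff₀ hy).mp h

theorem adm {u : E d → Ix n → ℝ} {x : E d} {Q : Ix n → MP d} (hJ : JetAt u x Q)
    (hc : ∀ a α, |MvPolynomial.coeff α (Q a)| ≤ 1) {D : ℕ} (hD : ∀ a, (Q a).totalDegree ≤ D)
    (K : ℕ) : ∀ᶠ j : ℕ in atTop, Adm u D K j x Q := by
  obtain ⟨C, τ₀, h1, h2⟩ := hJ K
  filter_upwards [ev_large C, ev_one_le h1, ev_large 1] with j a1 a2 a3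
  refine ⟨hD, hc, fun τ t0 t1 => thin_mono (h2 τ t0 ?_) ?_⟩
  · exact le_of_mul_le_mul_left (t1.trans a2) (by linarith)
  · rintro z ⟨a, b, h⟩
    exact ⟨a, b, (mul_le_mul_of_nonneg_right a1 (by positivity)).trans_lt h⟩

theorem top_coeff {q : MP d} (hq : q ≠ 0) :
    ∃ α : Fin d →₀ ℕ, α.degree = q.totalDegree ∧ MvPolynomial.coeff α q ≠ 0 := by
  obtain ⟨α, h1, h2⟩ := Finset.exists_mem_eq_sup q.support (MvPolynomial.support_nonempty.mpr hq)
    fun s => s.sum fun _ e => e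
  exact ⟨α, h2.symm, MvPolynomial.mem_support_iff.mp h1⟩

theorem top_ne {q : MP d} (hq : q ≠ 0) :
    MvPolynomial.homogeneousComponent q.totalDegree q ≠ 0 := by
  obtain ⟨α, h1, h2⟩ := top_coeff hq
  intro h
  have := MvPolynomial.coeff_homogeneousComponent q.totalDegree q α
  rw [h, if_pos h1, MvPolynomial.coeff_zero] at this
  exact h2 this.symm

theorem top_fam {p : Fin n → MP d} (h : ∃ i, p i ≠ 0) : ∃ m i₀, (∀ i, (p i).totalDegree ≤ m) ∧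
    MvPolynomial.homogeneousComponent m (p i₀) ≠ 0 := by
  classical
  obtain ⟨i, hi⟩ := h
  obtain ⟨i₀, h1, h2⟩ := Finset.exists_max_image (Finset.univ.filter fun i => p i ≠ 0)
    (fun i => (p i).totalDegree) ⟨i, by simpa using hi⟩
  refine ⟨_, i₀, fun k => ?_, top_ne (by simpa using h1)⟩
  by_cases hk : p k = 0
  · simp [hk]
  · exact h2 k (by simpa using hk)

theorem ae_ev (hN : SNull) {q : MP d} (hq : q ≠ 0) : ∀ᵐ a : E d, ev q a ≠ 0 := by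
  rw [ae_iff]; simpa using hN d q hq

theorem ae_ne (hN : SNull) (hd : 1 ≤ d) : ∀ᵐ a : E d, ‖a‖ ≠ 0 := by
  filter_upwards [ae_ev hN (MvPolynomial.X_ne_zero (R := ℝ) (⟨0, hd⟩ : Fin d))] with a ha h
  rw [norm_eq_zero.mp h] at ha
  simp at ha

theorem ae_co (hN : SNull) (hd : 1 ≤ d) {q : MP d} {m : ℕ}
    (hq : MvPolynomial.homogeneousComponent m q ≠ 0) :
    ∀ᵐ a : E d, 0 < co q (‖a‖⁻¹ • a) m ^ 2 := by
  filter_upwards [ae_ev hN hq, ae_ne hN hd] with a h1 h2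
  rw [co_smul, co_eq_ev]
  positivity

theorem ae_sum (hN : SNull) (hd : 1 ≤ d) {p : Fin n → MP d} {m : ℕ} {i₀ : Fin n}
    (hq : MvPolynomial.homogeneousComponent m (p i₀) ≠ 0) :
    ∀ᵐ a : E d, 0 < ∑ i, co (p i) (‖a‖⁻¹ • a) m ^ 2 :=
  (ae_co hN hd hq).mono fun a h => h.trans_le (Finset.single_le_sum
    (f := fun i => co (p i) (‖a‖⁻¹ • a) m ^ 2) (fun _ _ => sq_nonneg _) (Finset.mem_univ i₀))

theorem cls (hN : SNull) (hd : 1 ≤ d) {Q : Ix n → MP d} (hT : Ty Q) :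
    ∀ᵐ a : E d, ∃ c, ∀ᶠ j : ℕ in atTop, Cl c j (‖a‖⁻¹ • a) Q := by
  rcases hT with ⟨h1, h2⟩ | ⟨h1, h2⟩
  · obtain ⟨m, i₀, a1, a2⟩ := top_fam (p := fun i => Q (Sum.inl i)) h2
    filter_upwards [ae_sum hN hd (p := fun i => Q (Sum.inl i)) a2] with a ha
    refine ⟨0, (ev_one_le ha).mono fun j hj => ?_⟩
    rw [cl_zero]
    exact ⟨h1, m, fun i => degL_of_totalDegree (a1 i) _, hj⟩
  set m := (Q sI).totalDegree with hm
  have hq := top_ne h1
  by_cases h : ∀ i, (Q (Sum.inl i)).totalDegree ≤ m + 1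
  swap
  · push Not at h
    obtain ⟨i, hi⟩ := h
    obtain ⟨k, i₀, a1, a2⟩ := top_fam (p := fun i => Q (Sum.inl i))
      ⟨i, fun e => by rw [e] at hi; simp at hi⟩
    filter_upwards [ae_sum hN hd (p := fun i => Q (Sum.inl i)) a2, ae_co hN hd hq] with a ha hb
    refine ⟨1, ((ev_one_le ha).and (ev_one_le hb)).mono fun j hj => ?_⟩
    rw [cl_one]
    exact ⟨h2, m, k, hi.trans_le (a1 i), degL_of_totalDegree le_rfl _,
      fun i => degL_of_totalDegree (a1 i) _, hj.2, hj.1⟩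
  set H : MP d := (∑ i, MvPolynomial.X i ^ 2) * MvPolynomial.homogeneousComponent m (Q sI) ^ 2 -
    ∑ i, MvPolynomial.homogeneousComponent (m + 1) (Q (Sum.inl i)) ^ 2 with hH
  have eH : ∀ z, ev H z = ‖z‖ ^ 2 * co (Q sI) z m ^ 2 - ∑ i, co (Q (Sum.inl i)) z (m + 1) ^ 2 := by
    intro z
    simp only [hH, ev_sub, ev_mul, ev_sum, ev_pow, ev_X, co_eq_ev, EuclideanSpace.real_norm_sq_eq]
  by_cases h0 : H = 0
  · obtain ⟨α, a1, a2⟩ := top_coeff h1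
    refine Eventually.of_forall fun a => ⟨3, (ev_one_le (sq_pos_of_ne_zero a2)).mono fun j hj => ?_⟩
    rw [cl_three]
    refine ⟨m, ⟨h2, le_rfl, h, fun z => ?_⟩, α, a1, hj⟩
    have := eH z
    rw [h0, ev_zero] at this
    linarith
  · filter_upwards [ae_ev hN h0, ae_ne hN hd, ae_co hN hd hq] with a ha hb hc
    have e : co (Q sI) (‖a‖⁻¹ • a) m ^ 2 - ∑ i, co (Q (Sum.inl i)) (‖a‖⁻¹ • a) (m + 1) ^ 2 =
        (‖a‖⁻¹ ^ (m + 1)) ^ 2 * ev H a := by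
      have hb' : ‖a‖⁻¹ * ‖a‖ = 1 := inv_mul_cancel₀ hb
      simp only [eH, co_smul, mul_pow, ← Finset.mul_sum]
      linear_combination (-((‖a‖⁻¹ ^ m) ^ 2 * co (Q sI) a m ^ 2 * (‖a‖⁻¹ * ‖a‖ + 1))) * hb'
    have hp : 0 < |co (Q sI) (‖a‖⁻¹ • a) m ^ 2 -
        ∑ i, co (Q (Sum.inl i)) (‖a‖⁻¹ • a) (m + 1) ^ 2| := by
      rw [e]
      positivity
    refine ⟨2, ((ev_one_le hp).and (ev_one_le hc)).mono fun j hj => ?_⟩
    rw [cl_two]
    exact ⟨h2, m, degL_of_totalDegree le_rfl _, fun i => degL_of_totalDegree (h i) _, hj.2, hj.1⟩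

end ExhIA

theorem sExhI : SNull → SExhI := by
  intro hN d n u x Q hd hJ hT
  obtain ⟨Q', a1, a2, a3⟩ := ExhIA.scale hJ hT
  filter_upwards [ExhIA.cls hN hd a2] with a ⟨c, hc⟩
  refine ⟨Finset.univ.sup fun b => (Q' b).totalDegree, fun D hD K => ?_⟩
  have h1 := ExhIA.adm a1 a3 (D := D) (fun b =>
    (Finset.le_sup (f := fun b => (Q' b).totalDegree) (Finset.mem_univ b)).trans hD) K
  refine eventually_atTop.mp ?_
  filter_upwards [hc, h1, ExhIA.ev_large ‖x‖] with j b1 b2 b3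
  exact ⟨c, b3, Q', b2, b1⟩

end Pool.Agent.MP_66cee2_co.XI
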