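import Pool.Agent.MP_66cee2_co.XI.Kit

/-
Data at infinity of the class with slope of length different from one.
-/

namespace Pool.Agent.MP_66cee2_co.XI

open Set Polynomial Pool.Agent.MP_66cee2_co.X

namespace Dat1A

variable {d n : ℕ}

/-- bounded and flat of order `p` at scale `r` on `Z`. -/
def BL (Z : Set (E d)) (r : ℝ) (p : ℕ) (f : E d → ℝ) : Prop :=
  ∃ C, 0 ≤ C ∧ (∀ x ∈ Z, |f x| ≤ C) ∧
    ∀ x ∈ Z, ∀ y ∈ Z, ‖x - y‖ ≤ r → |f x - f y| ≤ C * ‖x - y‖ ^ p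

variable {Z : Set (E d)} {r : ℝ} {p : ℕ} {f g : E d → ℝ}

theorem BL.mk' {A B : ℝ} (hA : 0 ≤ A) (hB : 0 ≤ B) (h1 : ∀ x ∈ Z, |f x| ≤ A)
    (h2 : ∀ x ∈ Z, ∀ y ∈ Z, ‖x - y‖ ≤ r → |f x - f y| ≤ B * ‖x - y‖ ^ p) : BL Z r p f :=
  ⟨A + B, by positivity, fun x hx => (h1 x hx).trans (by linarith), fun x hx y hy h =>
    (h2 x hx y hy h).trans (by gcongr; linarith)⟩

theorem BL.const (c : ℝ) : BL Z r p fun _ => c :=
  BL.mk' (abs_nonneg c) le_rfl (fun _ _ => le_rfl) fun _ _ _ _ _ => by simp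

theorem BL.sub (hf : BL Z r p f) (hg : BL Z r p g) : BL Z r p fun x => f x - g x := by
  obtain ⟨A, hA, a1, a2⟩ := hf
  obtain ⟨B, hB, b1, b2⟩ := hg
  refine ⟨A + B, by positivity, fun x hx => (abs_sub _ _).trans (add_le_add (a1 x hx) (b1 x hx)),
    fun x hx y hy h => ?_⟩
  rw [show f x - g x - (f y - g y) = (f x - f y) - (g x - g y) by ring, add_mul]
  exact (abs_sub _ _).trans (add_le_add (a2 x hx y hy h) (b2 x hx y hy h))

theorem BL.mul (hf : BL Z r p f) (hg : BL Z r p g) : BL Z r p fun x => f x * g x := by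
  obtain ⟨A, hA, a1, a2⟩ := hf
  obtain ⟨B, hB, b1, b2⟩ := hg
  refine BL.mk' (A := A * B) (B := 2 * (A * B)) (by positivity) (by positivity) (fun x hx => ?_)
    fun x hx y hy h => ?_
  · rw [abs_mul]; exact mul_le_mul (a1 x hx) (b1 x hx) (abs_nonneg _) hA
  · rw [show f x * g x - f y * g y = (f x - f y) * g x + f y * (g x - g y) by ring]
    refine (abs_add_le _ _).trans ?_
    rw [abs_mul, abs_mul]
    have e1 := mul_le_mul (a2 x hx y hy h) (b1 x hx) (abs_nonneg _) (by positivity)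
    have e2 := mul_le_mul (a1 y hy) (b2 x hx y hy h) (abs_nonneg _) hA
    linarith

theorem BL.sum {F : Fin n → E d → ℝ} (h : ∀ i, BL Z r p (F i)) :
    BL Z r p fun x => ∑ i, F i x := by
  choose C h0 h1 h2 using h
  refine ⟨∑ i, C i, Finset.sum_nonneg fun i _ => h0 i, fun x hx =>
    (Finset.abs_sum_le_sum_abs _ _).trans (Finset.sum_le_sum fun i _ => h1 i x hx),
    fun x hx y hy h => ?_⟩
  rw [← Finset.sum_sub_distrib, Finset.sum_mul]
  exact (Finset.abs_sum_le_sum_abs _ _).trans (Finset.sum_le_sum fun i _ => h2 i x hx y hy h)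

theorem BL.sq (hf : BL Z r p f) : BL Z r p fun x => f x ^ 2 := by
  simpa only [pow_two] using hf.mul hf

theorem BL.invSqrt (hf : BL Z r p f) {A : ℝ} (hA : 0 ≤ A) (h : ∀ x ∈ Z, 1 ≤ A * |f x|) :
    BL Z r p fun x => (√|f x|)⁻¹ := by
  obtain ⟨B, hB, -, b2⟩ := hf
  have h1 : ∀ x ∈ Z, 0 < √|f x| ∧ (√|f x|)⁻¹ ≤ √A := fun x hx => by
    have h2 : 1 ≤ √A * √|f x| := by
      rw [← Real.sqrt_mul hA]; exact Real.one_le_sqrt.2 (h x hx)
    have h3 : 0 < √|f x| := by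
      refine lt_of_le_of_ne (Real.sqrt_nonneg _) fun e => ?_
      rw [← e] at h2; norm_num at h2
    exact ⟨h3, by rw [inv_le_iff_one_le_mul₀ h3]; exact h2⟩
  refine BL.mk' (A := √A) (B := √A ^ 3 * B) (by positivity) (by positivity) (fun x hx => ?_)
    fun x hx y hy hxy => ?_
  · rw [abs_of_nonneg (by positivity)]; exact (h1 x hx).2
  · obtain ⟨s0, s1⟩ := h1 x hx
    obtain ⟨t0, t1⟩ := h1 y hy
    have e0 : |f y| - |f x| = √|f y| ^ 2 - √|f x| ^ 2 := by
      rw [Real.sq_sqrt (abs_nonneg _), Real.sq_sqrt (abs_nonneg _)]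
    have e1 : abs (|f y| - |f x|) ≤ B * ‖x - y‖ ^ p :=
      (abs_abs_sub_abs_le_abs_sub _ _).trans (by rw [abs_sub_comm]; exact b2 x hx y hy hxy)
    rw [e0] at e1
    generalize √|f x| = s at *
    generalize √|f y| = t at *
    have e2 : s⁻¹ - t⁻¹ = s⁻¹ * t⁻¹ * (s + t)⁻¹ * (t ^ 2 - s ^ 2) := by field_simp; ring
    have e3 : (s + t)⁻¹ ≤ √A := (inv_anti₀ s0 (by linarith)).trans s1
    rw [e2, abs_mul, abs_of_pos (by positivity), mul_assoc (√A ^ 3), pow_three']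
    gcongr

theorem coeff_sub_top {a b : ℝ[X]} {k l : ℕ} (ha : a.natDegree ≤ k + 1) (hb : b.natDegree ≤ l) :
    (a * b).coeff (k + l) = a.coeff (k + 1) * (X * b).coeff l + a.coeff k * b.coeff l := by
  have h1 : (a - C (a.coeff (k + 1)) * X ^ (k + 1)).natDegree ≤ k := by
    rw [natDegree_le_iff_coeff_eq_zero]
    intro N hN
    rw [coeff_sub, coeff_C_mul_X_pow]
    split_ifs with e
    · rw [e, sub_self]
    · rw [coeff_eq_zero_of_natDegree_lt (by omega), sub_zero]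
  have h2 : a * b = C (a.coeff (k + 1)) * (X ^ k * (X * b)) +
      (a - C (a.coeff (k + 1)) * X ^ (k + 1)) * b := by ring
  rw [h2, coeff_add, coeff_C_mul, coeff_mul_add_eq_of_natDegree_le h1 hb, add_comm k l,
    coeff_X_pow_mul, coeff_sub, coeff_C_mul_X_pow, if_neg (by omega), sub_zero]

theorem abs_X_mul {q : ℝ[X]} {c : ℝ} (h : ∀ k, |q.coeff k| ≤ c) (k : ℕ) :
    |(X * q).coeff k| ≤ c := by
  cases k with
  | zero => simpa using (abs_nonneg _).trans (h 0)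
  | succ k => rw [coeff_X_mul]; exact h k

theorem inv_le {a : ℝ} {j : ℕ} (h : 1 ≤ (j : ℝ) * a ^ 2) : a ≠ 0 ∧ |a⁻¹| ≤ j := by
  have h0 : a ≠ 0 := by rintro rfl; norm_num at h
  have hj : (1 : ℝ) ≤ j := by
    rcases Nat.eq_zero_or_pos j with rfl | hj
    · norm_num at h
    · exact_mod_cast hj
  refine ⟨h0, ?_⟩
  rw [← sq_le_sq₀ (abs_nonneg _) (by linarith), sq_abs, inv_pow,
    inv_le_iff_one_le_mul₀ (by positivity)]
  nlinarith [sq_nonneg a]

theorem diffs {P P' q q' : ℝ[X]} {m m' : ℕ} (hP : P.natDegree ≤ m + 1) (hq : q.natDegree ≤ m)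
    (hP' : P'.natDegree ≤ m' + 1) (hq' : q'.natDegree ≤ m') (h : q.coeff m ≠ 0)
    (h' : q'.coeff m' ≠ 0) :
    slp P q m - slp P' q' m' =
      (q.coeff m)⁻¹ * (q'.coeff m')⁻¹ * (P * q' - q * P').coeff (m + m' + 1) ∧
    ofs P q m - ofs P' q' m' = (q.coeff m)⁻¹ * (q'.coeff m')⁻¹ * ((P * q' - q * P').coeff (m + m') -
      (slp P q m - slp P' q' m') *
        (q.coeff m * (X * q').coeff m' + (X * q).coeff m * q'.coeff m')) := by
  constructor
  · rw [coeff_sub, add_assoc, coeff_mul_add_eq_of_natDegree_le hq hP', ← add_assoc,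
      add_right_comm, coeff_mul_add_eq_of_natDegree_le hP hq', slp, slp]
    field_simp
  · rw [coeff_sub, coeff_sub_top hP hq', mul_comm q P', add_comm m m', coeff_sub_top hP' hq]
    simp only [ofs, slp]
    field_simp
    ring

end Dat1A

open Dat1A in
theorem sDat1 : SEdge → SHol → SOne → SDat1 := by
  intro hE hH hO d n u hd hu D p j K hp hj hK w hw
  have hE' := hE d n u hd hu D K j (by omega) hj
  set Z := Pc u D K j (Cl1 j w) with hZ
  have hex : ∀ x, ∃ (Q : Ix n → MP d) (m : ℕ), x ∈ Z → Adm u D K j x Q ∧ GC Q ∧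
      DegL (Q sI) w m ∧ (∀ i, DegL (Q (Sum.inl i)) w (m + 1)) ∧ 1 ≤ (j : ℝ) * co (Q sI) w m ^ 2 ∧
      1 ≤ (j : ℝ) * |co (Q sI) w m ^ 2 - ∑ i, co (Q (Sum.inl i)) w (m + 1) ^ 2| := by
    intro x
    by_cases hx : x ∈ Z
    · obtain ⟨-, Q, hA, h0, m, h1⟩ := hx
      exact ⟨Q, m, fun _ => ⟨hA, h0, h1⟩⟩
    · exact ⟨0, 0, fun h => (hx h).elim⟩
  choose Q m hQ using hex
  obtain ⟨C, r, hr, hC⟩ := hH d n u hu D p j hp hj
  set c : ℝ := ((mons d D).card : ℝ) with hc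
  have hc0 : 0 ≤ c := by positivity
  set P : E d → Fin n → ℝ[X] := fun x i => ln (Q x (Sum.inl i)) 0 w with hP
  set q : E d → ℝ[X] := fun x => ln (Q x sI) 0 w with hq
  have hPc : ∀ x ∈ Z, ∀ i k, |(P x i).coeff k| ≤ c := fun x hx i k =>
    abs_co_le ((hQ x hx).1.deg _) ((hQ x hx).1.cf _) hw.le k
  have hqc : ∀ x ∈ Z, ∀ k, |(q x).coeff k| ≤ c := fun x hx k =>
    abs_co_le ((hQ x hx).1.deg _) ((hQ x hx).1.cf _) hw.le k
  have hPd : ∀ x ∈ Z, ∀ i, (P x i).natDegree ≤ m x + 1 := fun x hx i =>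
    degL_iff.1 ((hQ x hx).2.2.2.1 i)
  have hqd : ∀ x ∈ Z, (q x).natDegree ≤ m x := fun x hx => degL_iff.1 (hQ x hx).2.2.1
  have hq0 : ∀ x ∈ Z, (q x).coeff (m x) ≠ 0 ∧ |((q x).coeff (m x))⁻¹| ≤ j := fun x hx =>
    inv_le (hQ x hx).2.2.2.2.1
  have hR : ∀ x ∈ Z, ∀ y ∈ Z, ‖x - y‖ ≤ r → ∀ i k,
      |(P x i * q y - q x * P y i).coeff k| ≤ |C| * ‖x - y‖ ^ p := fun x hx y hy h i k =>
    (hC K (by omega) x y _ _ (hQ x hx).1 (hQ y hy).1 hx.1 h w hw.le (Sum.inl i) sI k).trans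
      (mul_le_mul_of_nonneg_right (le_abs_self C) (by positivity))
  set L : Fin n → E d → ℝ := fun i x => slp (P x i) (q x) (m x) with hL
  set b : Fin n → E d → ℝ := fun i x => ofs (P x i) (q x) (m x) with hb
  have hL1 : ∀ i, ∀ x ∈ Z, |L i x| ≤ c * j := fun i x hx => by
    simp only [hL, slp, div_eq_mul_inv, abs_mul]
    exact mul_le_mul (hPc x hx i _) (hq0 x hx).2 (abs_nonneg _) hc0
  have hL2 : ∀ i, ∀ x ∈ Z, ∀ y ∈ Z, ‖x - y‖ ≤ r →
      |L i x - L i y| ≤ j * j * |C| * ‖x - y‖ ^ p := fun i x hx y hy h => by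
    simp only [hL]
    rw [(diffs (hPd x hx i) (hqd x hx) (hPd y hy i) (hqd y hy) (hq0 x hx).1 (hq0 y hy).1).1,
      abs_mul, abs_mul, mul_assoc (j * j : ℝ)]
    have := (hq0 x hx).2
    have := (hq0 y hy).2
    have := hR x hx y hy h i (m x + m y + 1)
    gcongr
  have bL : ∀ i, BL Z r p (L i) := fun i => BL.mk' (by positivity) (by positivity) (hL1 i) (hL2 i)
  have bb : ∀ i, BL Z r p (b i) := fun i => by
    refine BL.mk' (A := (c + c * j * c) * j) (B := j * j * (|C| + j * j * |C| * (c * c + c * c)))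
      (by positivity) (by positivity) (fun x hx => ?_) fun x hx y hy h => ?_
    · simp only [hb, ofs, div_eq_mul_inv, abs_mul]
      refine mul_le_mul ((abs_sub _ _).trans (add_le_add (hPc x hx i _) ?_)) (hq0 x hx).2
        (abs_nonneg _) (by positivity)
      rw [abs_mul]
      exact mul_le_mul (hL1 i x hx) (abs_X_mul (hqc x hx) _) (abs_nonneg _) (by positivity)
    · simp only [hb]
      rw [(diffs (hPd x hx i) (hqd x hx) (hPd y hy i) (hqd y hy) (hq0 x hx).1 (hq0 y hy).1).2,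
        abs_mul, abs_mul, mul_assoc (j * j : ℝ)]
      refine mul_le_mul (mul_le_mul (hq0 x hx).2 (hq0 y hy).2 (abs_nonneg _) (by positivity))
        ((abs_sub _ _).trans ?_) (abs_nonneg _) (by positivity)
      rw [add_mul, mul_right_comm, abs_mul]
      refine add_le_add (hR x hx y hy h i _) (mul_le_mul (hL2 i x hx y hy h)
        ((abs_add_le _ _).trans ?_) (abs_nonneg _) (by positivity))
      rw [abs_mul, abs_mul]
      exact add_le_add (mul_le_mul (hqc x hx _) (abs_X_mul (hqc y hy) _) (abs_nonneg _) hc0)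
        (mul_le_mul (abs_X_mul (hqc x hx) _) (hqc y hy _) (abs_nonneg _) hc0)
  have hκ : ∀ x ∈ Z, 1 ≤ j * c ^ 2 * |1 - ∑ i, L i x ^ 2| := fun x hx => by
    have e : (q x).coeff (m x) ^ 2 - ∑ i, (P x i).coeff (m x + 1) ^ 2 =
        (q x).coeff (m x) ^ 2 * (1 - ∑ i, L i x ^ 2) := by
      rw [mul_sub, mul_one, Finset.mul_sum]
      congr 1
      refine Finset.sum_congr rfl fun i _ => ?_
      have := (hq0 x hx).1
      simp only [hL, slp]
      field_simp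
    refine le_trans (hQ x hx).2.2.2.2.2 ?_
    change j * |(q x).coeff (m x) ^ 2 - ∑ i, (P x i).coeff (m x + 1) ^ 2| ≤ _
    rw [e, abs_mul, ← mul_assoc, abs_pow]
    have := hqc x hx (m x)
    gcongr
  set g : E d → E n := fun x => WithLp.toLp 2 fun i => b i x * (√|1 - ∑ i, L i x ^ 2|)⁻¹ with hg
  have bg : ∀ i, BL Z r p fun x => g x i := fun i =>
    (bb i).mul (((BL.const 1).sub (BL.sum fun i => (bL i).sq)).invSqrt (by positivity) hκ)
  have bV : ∀ a, BL Z r p fun x => lift (g x) a := by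
    rintro (i | _ | _)
    · exact bg i
    · simp only [lift, EuclideanSpace.real_norm_sq_eq]
      exact (BL.const _).sub (BL.sum fun i => (bg i).sq)
    · exact BL.const 1
  refine ⟨fun x => lift (g x), ?_, ?_, fun x _ => by simp [lz_lift], fun x hx y hy hxy => ?_⟩
  · choose A h0 h1 _ using bV
    exact ⟨∑ a, A a, fun x hx a => (h1 a x hx).trans
      (Finset.single_le_sum (fun a _ => h0 a) (Finset.mem_univ a))⟩
  · choose A h0 _ h2 using fun a : Ix n × Ix n => (bV a.1).mul (bV a.2)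
    refine ⟨∑ a, A a, r, hr, fun x hx y hy h a a' => (h2 (a, a') x hx y hy h).trans ?_⟩
    exact mul_le_mul_of_nonneg_right
      (Finset.single_le_sum (fun a _ => h0 a) (Finset.mem_univ _)) (by positivity)
  · have hN := nbr_of_edge (hE' x y _ _ (hQ x hx).1 (hQ y hy).1 hxy) (hQ x hx).2.1 (hQ y hy).2.1
      0 hw
    have c3 : q y ≠ 0 := fun h => (hq0 y hy).1 (by rw [h, coeff_zero])
    obtain ⟨e1, e2⟩ := (hO n _ _ _ _ hN c3 (m x) (hqd x hx) (hq0 x hx).1).2 (m y) (hqd y hy)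
      (hq0 y hy).1
    change ∀ i, L i x = L i y at e1
    change ∑ i, (b i x - b i y) ^ 2 = 1 - ∑ i, L i x ^ 2 at e2
    have e3 : 0 ≤ 1 - ∑ i, L i x ^ 2 := e2 ▸ Finset.sum_nonneg fun i _ => sq_nonneg _
    have e4 : 1 - ∑ i, L i x ^ 2 ≠ 0 := fun e => by
      have := hκ x hx
      rw [e] at this; norm_num at this
    rw [lz_lift, EuclideanSpace.real_norm_sq_eq]
    simp only [hg, PiLp.sub_apply, ← e1, ← sub_mul, mul_pow, inv_pow, abs_of_nonneg e3,
      Real.sq_sqrt e3, ← Finset.sum_mul, e2, mul_inv_cancel₀ e4, sub_self]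

end Pool.Agent.MP_66cee2_co.XI
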