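import Pool.Agent.MP_66cee2_co.XI.Spec

/-
Exponential lower bound, second half: small tools.
-/

namespace Pool.Agent.MP_66cee2_co.XI

open MeasureTheory Set Filter Metric Topology Polynomial Pool.Agent.MP_66cee2_co.X
open scoped ENNReal RealInnerProductSpace

variable {d n : ℕ}

@[simp] theorem ev_zero (z : E d) : ev (0 : MP d) z = 0 := by simp [ev]
@[simp] theorem ev_one (z : E d) : ev (1 : MP d) z = 1 := by simp [ev]
@[simp] theorem ev_C (c : ℝ) (z : E d) : ev (MvPolynomial.C c : MP d) z = c := by simp [ev]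
@[simp] theorem ev_X (i : Fin d) (z : E d) : ev (MvPolynomial.X i : MP d) z = z i := by simp [ev]
@[simp] theorem ev_add (p q : MP d) (z : E d) : ev (p + q) z = ev p z + ev q z := by simp [ev]
@[simp] theorem ev_sub (p q : MP d) (z : E d) : ev (p - q) z = ev p z - ev q z := by simp [ev]
@[simp] theorem ev_mul (p q : MP d) (z : E d) : ev (p * q) z = ev p z * ev q z := by simp [ev]
@[simp] theorem ev_pow (p : MP d) (k : ℕ) (z : E d) : ev (p ^ k) z = ev p z ^ k := by simp [ev]
@[simp] theorem ev_smul (c : ℝ) (p : MP d) (z : E d) : ev (c • p) z = c * ev p z := by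
  simp [ev, MvPolynomial.smul_eval]
@[simp] theorem ev_sum {ι : Type*} (s : Finset ι) (p : ι → MP d) (z : E d) :
    ev (∑ i ∈ s, p i) z = ∑ i ∈ s, ev (p i) z := by simp [ev]

theorem ev_eq_sum (q : MP d) (z : E d) :
    ev q z = ∑ α ∈ q.support, MvPolynomial.coeff α q * ∏ i, z i ^ α i :=
  MvPolynomial.eval_eq' _ _

@[fun_prop] theorem continuous_ev (q : MP d) : Continuous (ev q) := by
  have : ev q = fun z => ∑ α ∈ q.support, MvPolynomial.coeff α q * ∏ i, z i ^ α i :=
    funext (ev_eq_sum q)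
  rw [this]; fun_prop

@[fun_prop] theorem contDiff_ev (q : MP d) {m : WithTop ℕ∞} : ContDiff ℝ m (ev q) := by
  have : ev q = fun z => ∑ α ∈ q.support, MvPolynomial.coeff α q * ∏ i, z i ^ α i :=
    funext (ev_eq_sum q)
  rw [this]
  refine ContDiff.sum fun α _ => contDiff_const.mul (contDiff_prod fun i _ => ?_)
  exact ((EuclideanSpace.proj i : E d →L[ℝ] ℝ).contDiff).pow _

theorem ev_ext {p q : MP d} (h : ∀ z, ev p z = ev q z) : p = q :=
  MvPolynomial.funext fun x => h (WithLp.toLp 2 x)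

theorem eq_zero_of_ev {q : MP d} (h : ∀ z, ev q z = 0) : q = 0 :=
  ev_ext fun z => by simp [h z]

/-- a nonzero polynomial is nonzero on a dense set. -/
theorem dense_ev_ne (hN : SNull) {q : MP d} (hq : q ≠ 0) : Dense {z : E d | ev q z ≠ 0} := by
  have : ∀ᵐ z : E d, ev q z ≠ 0 := by
    rw [ae_iff]; simpa using hN d q hq
  exact Measure.dense_of_ae this

/-- the translate `z ↦ q (z + w)`. -/
noncomputable def sh (w : E d) (q : MP d) : MP d :=
  MvPolynomial.aeval (fun i => MvPolynomial.X i + MvPolynomial.C (w i)) q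

@[simp] theorem ev_sh (w : E d) (q : MP d) (z : E d) : ev (sh w q) z = ev q (z + w) := by
  unfold ev sh
  induction q using MvPolynomial.induction_on with
  | C a => simp
  | add p q hp hq => simp only [map_add, hp, hq]
  | mul_X p i hp => simp only [map_mul, hp]; simp

theorem sh_ne_zero (w : E d) {q : MP d} (hq : q ≠ 0) : sh w q ≠ 0 := fun h =>
  hq (eq_zero_of_ev fun z => by simpa using congrArg (fun p => ev p (z - w)) h)

theorem totalDegree_sh (w : E d) (q : MP d) : (sh w q).totalDegree ≤ q.totalDegree := by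
  unfold sh
  rw [MvPolynomial.aeval_def, MvPolynomial.eval₂_eq']
  refine MvPolynomial.totalDegree_finsetSum_le fun α hα => ?_
  refine (MvPolynomial.totalDegree_mul _ _).trans ?_
  rw [MvPolynomial.algebraMap_eq, MvPolynomial.totalDegree_C, zero_add]
  refine (MvPolynomial.totalDegree_finsetProd _ _).trans ?_
  refine le_trans ?_ (MvPolynomial.le_totalDegree hα)
  rw [Finsupp.sum_fintype _ _ (fun _ => rfl)]
  refine Finset.sum_le_sum fun i _ => (MvPolynomial.totalDegree_pow _ _).trans ?_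
  have : (MvPolynomial.X i + MvPolynomial.C (w i) : MP d).totalDegree ≤ 1 :=
    (MvPolynomial.totalDegree_add _ _).trans (by simp)
  nlinarith [Nat.zero_le (α i)]

theorem eval_ln (q : MP d) (x w : E d) (t : ℝ) : (ln q x w).eval t = ev q (x + t • w) := by
  unfold ev ln
  induction q using MvPolynomial.induction_on with
  | C a => simp
  | add p q hp hq => simp only [map_add, eval_add, hp, hq]
  | mul_X p i hp =>
    simp only [map_mul, eval_mul, hp, MvPolynomial.aeval_X, MvPolynomial.eval_X, eval_add, eval_C,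
      eval_X, PiLp.add_apply, PiLp.smul_apply, smul_eq_mul, mul_comm t]

theorem eval_ln_zero (q : MP d) (w : E d) (t : ℝ) : (ln q 0 w).eval t = ev q (t • w) := by
  rw [eval_ln, zero_add]

theorem ln_eq_sum (q : MP d) (x w : E d) : ln q x w =
    ∑ α ∈ q.support, C (MvPolynomial.coeff α q) * ∏ i, (C (x i) + C (w i) * X) ^ α i := by
  unfold ln
  rw [MvPolynomial.aeval_def, MvPolynomial.eval₂_eq']
  rfl

theorem lin_deg (a b : ℝ) : (C a + C b * X : ℝ[X]).natDegree ≤ 1 := by
  compute_degree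

theorem prod_lin (s : Finset (Fin d)) (x w : E d) (α : Fin d → ℕ) :
    (∏ i ∈ s, (C (x i) + C (w i) * X : ℝ[X]) ^ α i).natDegree ≤ ∑ i ∈ s, α i ∧
      (∏ i ∈ s, (C (x i) + C (w i) * X : ℝ[X]) ^ α i).coeff (∑ i ∈ s, α i) =
        ∏ i ∈ s, w i ^ α i := by
  induction s using Finset.induction_on with
  | empty => simp
  | insert i s hi ih =>
    have h1 : ((C (x i) + C (w i) * X : ℝ[X]) ^ α i).natDegree ≤ α i := by
      simpa using natDegree_pow_le_of_le (α i) (lin_deg (x i) (w i))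
    have h2 : ((C (x i) + C (w i) * X : ℝ[X]) ^ α i).coeff (α i) = w i ^ α i := by
      have := coeff_pow_of_natDegree_le (m := α i) (lin_deg (x i) (w i))
      simpa using this
    rw [Finset.prod_insert hi, Finset.sum_insert hi, Finset.prod_insert hi]
    exact ⟨natDegree_mul_le_of_le h1 ih.1, by
      rw [coeff_mul_add_eq_of_natDegree_le h1 ih.1, h2, ih.2]⟩

theorem sum_le_totalDegree {q : MP d} {α : Fin d →₀ ℕ} (hα : α ∈ q.support) :
    ∑ i, α i ≤ q.totalDegree := by
  have := MvPolynomial.le_totalDegree hα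
  rwa [Finsupp.sum_fintype _ _ (fun _ => rfl)] at this

theorem natDegree_ln {q : MP d} {m : ℕ} (h : q.totalDegree ≤ m) (x w : E d) :
    (ln q x w).natDegree ≤ m := by
  rw [ln_eq_sum]
  refine natDegree_sum_le_of_forall_le _ _ fun α hα => (natDegree_C_mul_le _ _).trans ?_
  exact (prod_lin _ x w α).1.trans ((sum_le_totalDegree hα).trans h)

theorem co_eq_sum (q : MP d) (w : E d) (k : ℕ) : co q w k =
    ∑ α ∈ q.support with ∑ i, α i = k, MvPolynomial.coeff α q * ∏ i, w i ^ α i := by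
  unfold co
  rw [ln_eq_sum, finsetSum_coeff, Finset.sum_filter]
  refine Finset.sum_congr rfl fun α _ => ?_
  have : (∏ i, (C ((0 : E d) i) + C (w i) * X : ℝ[X]) ^ α i) =
      C (∏ i, w i ^ α i) * X ^ ∑ i, α i := by
    simp [mul_pow, Finset.prod_mul_distrib, Finset.prod_pow_eq_pow_sum]
  rw [this, ← mul_assoc, ← C_mul, coeff_C_mul_X_pow]
  simp [eq_comm]

/-- the top coefficient does not depend on the base point. -/
theorem coeff_ln_top {q : MP d} {m : ℕ} (h : q.totalDegree ≤ m) (x w : E d) :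
    (ln q x w).coeff m = co q w m := by
  rw [co_eq_sum, ln_eq_sum, finsetSum_coeff, Finset.sum_filter]
  refine Finset.sum_congr rfl fun α hα => ?_
  rw [coeff_C_mul]
  split_ifs with e
  · rw [← e, (prod_lin _ x w α).2]
  · rw [coeff_eq_zero_of_natDegree_lt ((prod_lin _ x w α).1.trans_lt
      (lt_of_le_of_ne ((sum_le_totalDegree hα).trans h) e)), mul_zero]

theorem co_eq_ev (q : MP d) (w : E d) (k : ℕ) :
    co q w k = ev (MvPolynomial.homogeneousComponent k q) w := by
  rw [co_eq_sum, MvPolynomial.homogeneousComponent_apply, ev_sum]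
  refine Finset.sum_congr ?_ fun α _ => ?_
  · ext α; simp [Finsupp.degree_eq_sum]
  · simp [ev, MvPolynomial.eval_monomial]

@[fun_prop] theorem continuous_co (q : MP d) (k : ℕ) : Continuous fun w => co q w k := by
  simp only [co_eq_ev]; fun_prop

theorem co_smul (q : MP d) (c : ℝ) (w : E d) (k : ℕ) : co q (c • w) k = c ^ k * co q w k := by
  rw [co_eq_sum, co_eq_sum, Finset.mul_sum]
  refine Finset.sum_congr rfl fun α hα => ?_
  rw [← (Finset.mem_filter.1 hα).2]
  simp [mul_pow, Finset.prod_mul_distrib, Finset.prod_pow_eq_pow_sum, mul_left_comm]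

theorem co_smul_left (q : MP d) (c : ℝ) (w : E d) (k : ℕ) : co (c • q) w k = c * co q w k := by
  simp [co_eq_ev]

theorem degL_iff {q : MP d} {w : E d} {m : ℕ} : DegL q w m ↔ (ln q 0 w).natDegree ≤ m :=
  natDegree_le_iff_coeff_eq_zero.symm

theorem degL_of_totalDegree {q : MP d} {m : ℕ} (h : q.totalDegree ≤ m) (w : E d) : DegL q w m :=
  degL_iff.2 (natDegree_ln h 0 w)

/-- the finite set of exponents of degree at most `D`. -/
noncomputable def mons (d D : ℕ) : Finset (Fin d →₀ ℕ) :=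
  (Finsupp.finite_of_degree_le (σ := Fin d) D).toFinset

theorem support_subset_mons {q : MP d} {D : ℕ} (h : q.totalDegree ≤ D) :
    q.support ⊆ mons d D := fun α hα => by
  simp only [mons, Set.Finite.mem_toFinset, Set.mem_ofPred_eq, Finsupp.degree_eq_sum]
  exact (sum_le_totalDegree hα).trans h

theorem abs_mono_le (z : E d) (R : ℝ) (hR : 1 ≤ R) (hz : ‖z‖ ≤ R) (α : Fin d → ℕ) {D : ℕ}
    (h : ∑ i, α i ≤ D) : |∏ i, z i ^ α i| ≤ R ^ D := by
  rw [Finset.abs_prod]
  refine le_trans (Finset.prod_le_prod (fun _ _ => abs_nonneg _) (g := fun i => R ^ α i)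
    fun i _ => ?_) ?_
  · rw [abs_pow]
    exact pow_le_pow_left₀ (abs_nonneg _) ((PiLp.norm_apply_le z i).trans hz) _
  · rw [Finset.prod_pow_eq_pow_sum]
    exact pow_le_pow_right₀ hR h

/-- uniform bound for values. -/
theorem abs_ev_le {q : MP d} {D : ℕ} (h : q.totalDegree ≤ D) {A : ℝ}
    (hc : ∀ α, |MvPolynomial.coeff α q| ≤ A) {R : ℝ} (hR : 1 ≤ R) {z : E d} (hz : ‖z‖ ≤ R) :
    |ev q z| ≤ (mons d D).card * (A * R ^ D) := by
  have hA : 0 ≤ A := (abs_nonneg _).trans (hc 0)
  rw [ev_eq_sum]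
  refine (Finset.abs_sum_le_sum_abs _ _).trans ?_
  refine (Finset.sum_le_card_nsmul _ _ (A * R ^ D) fun α hα => ?_).trans ?_
  · rw [abs_mul]
    exact mul_le_mul (hc α) (abs_mono_le z R hR hz α ((sum_le_totalDegree hα).trans h))
      (abs_nonneg _) hA
  · rw [nsmul_eq_mul]
    gcongr
    exact support_subset_mons h

/-- uniform bound for line coefficients. -/
theorem abs_co_le {q : MP d} {D : ℕ} (h : q.totalDegree ≤ D)
    (hc : ∀ α, |MvPolynomial.coeff α q| ≤ 1) {w : E d} (hw : ‖w‖ ≤ 1) (k : ℕ) :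
    |co q w k| ≤ (mons d D).card := by
  rw [co_eq_sum]
  refine (Finset.abs_sum_le_sum_abs _ _).trans ?_
  refine (Finset.sum_le_card_nsmul _ _ 1 fun α hα => ?_).trans ?_
  · rw [abs_mul]
    have := abs_mono_le w 1 le_rfl hw α le_rfl
    rw [one_pow] at this
    exact mul_le_one₀ (hc α) (abs_nonneg _) this
  · rw [nsmul_eq_mul, mul_one]
    exact_mod_cast Finset.card_le_card ((Finset.filter_subset _ _).trans (support_subset_mons h))

theorem EdgeId.symm {Q Q' : Ix n → MP d} (h : EdgeId Q Q') : EdgeId Q' Q := fun z w hw => by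
  have := h (z + w) (-w) (by simpa using hw)
  rwa [add_neg_cancel_right, lz_comm] at this

theorem lz_gc {a b : Ix n → ℝ} (ha : lz a a = a sI ^ 2) (hb : lz b b = b sI ^ 2) :
    a sI * b sI * lz a b = (a sI * b sI) ^ 2 -
      ∑ i, (a (Sum.inl i) * b sI - b (Sum.inl i) * a sI) ^ 2 := by
  rw [lz_eq] at ha hb ⊢
  have e : ∑ i, (a (Sum.inl i) * b sI - b (Sum.inl i) * a sI) ^ 2 =
      b sI ^ 2 * ∑ i, a (Sum.inl i) * a (Sum.inl i) +
        a sI ^ 2 * ∑ i, b (Sum.inl i) * b (Sum.inl i) -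
        2 * (a sI * b sI) * ∑ i, a (Sum.inl i) * b (Sum.inl i) := by
    simp only [Finset.mul_sum, ← Finset.sum_add_distrib, ← Finset.sum_sub_distrib]
    exact Finset.sum_congr rfl fun i _ => by ring
  rw [e]
  simp only [sI] at ha hb ⊢
  linear_combination (b (Sum.inr true) ^ 2 / 2) * ha + (a (Sum.inr true) ^ 2 / 2) * hb

/-- the edge identity on a line in a unit direction. -/
theorem nbr_of_edge {Q Q' : Ix n → MP d} (h : EdgeId Q Q') (hQ : GC Q) (hQ' : GC Q') (x : E d)
    {w : E d} (hw : ‖w‖ = 1) : Nbr (fun i => ln (Q (Sum.inl i)) x w) (ln (Q sI) x w)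
      (fun i => ln (Q' (Sum.inl i)) x w) (ln (Q' sI) x w) := by
  intro t s hs
  have h0 : lz (evv Q (x + t • w)) (evv Q' (x + s • w)) = 0 := by
    rcases hs with rfl | rfl
    · have := h (x + t • w) w hw
      rwa [show x + t • w + w = x + (t + 1) • w by module] at this
    · have := h (x + t • w) (-w) (by simpa using hw)
      rwa [show x + t • w + -w = x + (t - 1) • w by module] at this
  have := lz_gc (hQ (x + t • w)) (hQ' (x + s • w))
  rw [h0, mul_zero] at this
  simp only [eval_ln]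
  exact (sub_eq_zero.1 this.symm).symm

theorem Nbr.symm {p p' : Fin n → ℝ[X]} {q q' : ℝ[X]} (h : Nbr p q p' q') : Nbr p' q' p q := by
  intro t s hs
  have := h s t (by rcases hs with rfl | rfl <;> simp)
  rw [mul_comm (eval t q'), ← this]
  exact Finset.sum_congr rfl fun i _ => by ring

theorem vol_ball_mul (c τ : ℝ) (hc : 0 < c) : volume (ball (0 : E d) (c * τ)) =
    ENNReal.ofReal c ^ d * volume (ball (0 : E d) τ) := by
  rw [Measure.addHaar_ball_mul_of_pos _ _ hc, finrank_euclideanSpace_fin,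
    ENNReal.ofReal_pow hc.le]

/-- a set that is thin at `x` at scale `3 τ` fills at most `1 / 16` of a ball of radius `τ`
inside; translated form. -/
theorem Thin.shift {B : Set (E d)} {x y : E d} {τ σ : ℝ} (h : Thin B x σ) (hσ : σ ≤ 4 * τ)
    (v : E d) (hv : ‖y + v - x‖ + τ ≤ σ) :
    volume ({z | z + v ∈ B} ∩ ball y τ) ≤ 16⁻¹ * volume (ball (0 : E d) τ) := by
  have h1 : {z | z + v ∈ B} ∩ ball y τ ⊆ (fun z => z + v) ⁻¹' (B ∩ ball x σ) := by
    rintro z ⟨hz, hz'⟩
    refine ⟨hz, ?_⟩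
    rw [mem_ball_iff_norm] at hz' ⊢
    calc ‖z + v - x‖ = ‖(y + v - x) + (z - y)‖ := by congr 1; abel
      _ ≤ ‖y + v - x‖ + ‖z - y‖ := norm_add_le _ _
      _ < σ := by linarith
  refine (measure_mono h1).trans ?_
  rw [measure_preimage_add_right]
  refine le_trans h ?_
  calc (16 * 4 ^ d : ℝ≥0∞)⁻¹ * volume (ball (0 : E d) σ)
      ≤ (16 * 4 ^ d : ℝ≥0∞)⁻¹ * volume (ball (0 : E d) (4 * τ)) := by gcongr
    _ = 16⁻¹ * volume (ball (0 : E d) τ) := by
      rw [vol_ball_mul 4 τ (by norm_num), ENNReal.mul_inv (by simp) (by simp), mul_assoc,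
        ← mul_assoc (4 ^ d : ℝ≥0∞)⁻¹, ENNReal.ofReal_ofNat,
        ENNReal.inv_mul_cancel (by simp) (by simp), one_mul]

/-- a vector nearly parallel to a unit vector. -/
theorem near_par {a u : Ix n → ℝ} (hu : u ⬝ᵥ u = 1) {ε : ℝ}
    (h : ∀ i k, |a i * u k - a k * u i| ≤ ε) (i : Ix n) :
    |a i - (a ⬝ᵥ u) * u i| ≤ (n + 2) * ε := by
  have h1 : ∀ k, |u k| ≤ 1 := fun k => by
    rw [← sq_le_one_iff_abs_le_one, ← hu, sq]
    exact Finset.single_le_sum (f := fun k => u k * u k) (fun k _ => mul_self_nonneg _)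
      (Finset.mem_univ k)
  have e : a i - (a ⬝ᵥ u) * u i = ∑ k, (a i * u k - a k * u i) * u k := by
    have : a i = a i * (u ⬝ᵥ u) := by rw [hu, mul_one]
    rw [this]
    simp only [dotProduct, Finset.mul_sum, Finset.sum_mul, ← Finset.sum_sub_distrib]
    refine Finset.sum_congr rfl fun k _ => ?_
    have h2 : ∑ x, a i * (u x * u x) * u k = a i * u k := by
      rw [← Finset.sum_mul, ← Finset.mul_sum]; change a i * (u ⬝ᵥ u) * u k = _; rw [hu, mul_one]
    rw [h2]; ring
  rw [e]
  refine (Finset.abs_sum_le_sum_abs _ _).trans ?_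
  refine (Finset.sum_le_card_nsmul _ _ ε fun k _ => ?_).trans (by simp)
  rw [abs_mul]
  exact (mul_le_of_le_one_right (abs_nonneg _) (h1 k)).trans (h i k)

instance : IsProbabilityMeasure circ := ⟨by
  have h : 0 < 2 * Real.pi := by positivity
  simp only [circ, Measure.smul_apply, Measure.restrict_apply_univ, Real.volume_Ioc, sub_zero,
    smul_eq_mul]
  exact ENNReal.inv_mul_cancel (by simpa using h) ENNReal.ofReal_ne_top⟩

instance (p : ℕ) : IsProbabilityMeasure (tor p) := by unfold tor; infer_instance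

theorem integral_circ {F : Type*} [NormedAddCommGroup F] [NormedSpace ℝ F] (f : ℝ → F) :
    ∫ a, f a ∂circ = (2 * Real.pi)⁻¹ • ∫ a in (0 : ℝ)..(2 * Real.pi), f a := by
  have h : 0 ≤ 2 * Real.pi := by positivity
  rw [circ, integral_smul_measure, intervalIntegral.integral_of_le h, ENNReal.toReal_inv,
    ENNReal.toReal_ofReal h]

instance : IsFiniteMeasure (sig d) := by
  unfold sig
  have : IsFiniteMeasure (volume.restrict (ball (0 : E d) 1)) :=
    isFiniteMeasure_restrict.2 measure_ball_lt_top.ne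
  infer_instance

theorem JetField.uf {P : E d → Matrix (Ix n) (Ix n) ℝ} {u : E d → Ix n → ℝ}
    (h : JetField P u) : UF u := ⟨h.meas, h.unit, h.orth⟩

theorem cl_zero {j : ℕ} {w : E d} : (Cl 0 j w : (Ix n → MP d) → Prop) = ClE j w := by
  funext Q; simp [Cl]
theorem cl_one {j : ℕ} {w : E d} : (Cl 1 j w : (Ix n → MP d) → Prop) = Cl0 j w := by
  funext Q; simp [Cl]
theorem cl_two {j : ℕ} {w : E d} : (Cl 2 j w : (Ix n → MP d) → Prop) = Cl1 j w := by
  funext Q; simp [Cl]
theorem cl_three {j : ℕ} {w : E d} : (Cl 3 j w : (Ix n → MP d) → Prop) = Cl2 j := by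
  funext Q; simp [Cl]

theorem isClosed_pc (h : SClo) (u : E d → Ix n → ℝ) (D K j : ℕ) (c : Fin 4) (w : E d) :
    IsClosed (Pc u D K j (Cl c j w)) :=
  (h d n u D K j c).preimage (f := fun x => (x, w)) (by fun_prop)

end Pool.Agent.MP_66cee2_co.XI
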