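import Pool.Agent.MP_66cee2_co.XI.Kit

/-
Lorentz linear algebra.
-/

namespace Pool.Agent.MP_66cee2_co.XI

open Pool.Agent.MP_66cee2_co.X Matrix
open scoped MatrixOrder

namespace PsdA

variable {n : ℕ}

/-- the matrix of the Lorentz form as a linear map. -/
def Jl (n : ℕ) : (Ix n → ℝ) →ₗ[ℝ] (Ix n → ℝ) where
  toFun := Jv
  map_add' a b := by
    funext i
    rcases i with i | i <;> simp [Jv, mul_add]
  map_smul' c a := by
    funext i
    rcases i with i | i <;> simp [Jv, mul_left_comm]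

theorem lz_Jl (a b : Ix n → ℝ) : lz a b = a ⬝ᵥ Jl n b := rfl

theorem lz_span {A : Set (Ix n → ℝ)} {b : Ix n → ℝ} (h : ∀ a ∈ A, lz a b = 0) :
    ∀ a ∈ Submodule.span ℝ A, lz a b = 0 := by
  intro a ha
  induction ha using Submodule.span_induction with
  | mem x hx => exact h x hx
  | zero => simp [lz]
  | add x y _ _ hx hy => rw [lz, add_dotProduct]; exact (congrArg₂ _ hx hy).trans (add_zero 0)
  | smul c x _ hx => rw [lz, smul_dotProduct, show x ⬝ᵥ Jv b = 0 from hx, smul_zero]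

theorem lz_nonneg {a : Ix n → ℝ} (h : a sI = 0) : 0 ≤ lz a a := by
  rw [lz_eq, show a (Sum.inr true) = 0 from h, zero_mul, mul_zero, add_zero, add_zero]
  exact mul_nonneg zero_le_two (Finset.sum_nonneg fun i _ => mul_self_nonneg _)

theorem two_neg {v w : Ix n → ℝ} (hv : lz v v < 0) (hw : lz w w < 0) (h : lz v w = 0) : False := by
  have h1 : v sI ≠ 0 := fun e => (lz_nonneg e).not_gt hv
  have h2 : w sI ≠ 0 := fun e => (lz_nonneg e).not_gt hw
  have h3 := lz_nonneg (a := w sI • v - v sI • w) (by simp [mul_comm])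
  have h' : lz w v = 0 := (lz_comm w v).trans h
  rw [lz_Jl] at hv hw h h'
  simp only [lz_Jl, map_sub, map_smul, sub_dotProduct, dotProduct_sub, smul_dotProduct,
    dotProduct_smul, smul_eq_mul, h, h'] at h3
  nlinarith [mul_pos (mul_self_pos.2 h1) (neg_pos.2 hw), mul_pos (mul_self_pos.2 h2) (neg_pos.2 hv)]

theorem root {A : Set (Ix n → ℝ)} (h : Psd A) : ∃ M : Matrix (Ix n) (Ix n) ℝ,
    ∀ a ∈ A, ∀ b ∈ A, lz a b = M.mulVec a ⬝ᵥ M.mulVec b := by
  obtain ⟨g, hg⟩ := LinearMap.exists_extend (LinearMap.id : Submodule.span ℝ A →ₗ[ℝ] _)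
  let P : Matrix (Ix n) (Ix n) ℝ := LinearMap.toMatrix' ((Submodule.span ℝ A).subtype ∘ₗ g)
  have hP : ∀ x, P *ᵥ x = (g x : Ix n → ℝ) := fun x => LinearMap.toMatrix'_mulVec _ x
  have hA : ∀ a ∈ A, P *ᵥ a = a := fun a ha => by
    rw [hP]
    exact congrArg Subtype.val (LinearMap.congr_fun hg ⟨a, Submodule.subset_span ha⟩)
  let N : Matrix (Ix n) (Ix n) ℝ := Pᵀ * LinearMap.toMatrix' (Jl n) * P
  have hN : ∀ x y, x ⬝ᵥ N *ᵥ y = lz (P *ᵥ x) (P *ᵥ y) := fun x y => by
    rw [← mulVec_mulVec, ← mulVec_mulVec, dotProduct_mulVec, vecMul_transpose,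
      LinearMap.toMatrix'_mulVec (Jl n), lz_Jl]
  have hs : N.PosSemidef := by
    refine PosSemidef.of_dotProduct_mulVec_nonneg ?_ fun x => ?_
    · ext i k
      have e : ∀ i k, N i k = lz (P *ᵥ Pi.single i 1) (P *ᵥ Pi.single k 1) := fun i k => by
        rw [← hN]; simp
      rw [conjTranspose_apply, star_trivial, e, e, lz_comm]
    · rw [star_trivial, hN, hP]
      exact h _ (g x).2
  obtain ⟨M, hM⟩ := CStarAlgebra.nonneg_iff_eq_star_mul_self.mp hs.nonneg
  refine ⟨M, fun a ha b hb => ?_⟩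
  have e := hN a b
  rw [hA a ha, hA b hb, hM, ← mulVec_mulVec, dotProduct_mulVec, star_eq_conjTranspose,
    conjTranspose_eq_transpose_of_trivial, vecMul_transpose] at e
  exact e.symm

end PsdA

theorem sPsd : SPsd := by
  refine fun n => ⟨fun A B h => ?_, fun A h => PsdA.root h⟩
  by_contra hc
  simp only [Psd, not_or, not_forall, not_le] at hc
  obtain ⟨⟨v, hv, h1⟩, w, hw, h2⟩ := hc
  refine PsdA.two_neg h1 h2 (PsdA.lz_span (fun a ha => ?_) v hv)
  rw [lz_comm]
  exact PsdA.lz_span (fun b hb => (lz_comm b a).trans (h a ha b hb)) w hw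

end Pool.Agent.MP_66cee2_co.XI
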