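import Pool.Agent.MP_66cee2_co.XI.Kit

/-
Row Bes1: decay of the Bessel function.
-/

namespace Pool.Agent.MP_66cee2_co.XI

open MeasureTheory Set Real

namespace Bes1A

/-- the oscillating factor. -/
noncomputable def ee (l x : ℝ) : ℂ := Complex.exp (Complex.I * (l * sin x : ℝ))

/-- a regularised inverse of the cosine. -/
noncomputable def gg (s x : ℝ) : ℝ := s ^ 2 * cos x / (s ^ 2 * cos x ^ 2 + 1)

/-- the derivative of `gg` up to the factor `s ^ 2`. -/
noncomputable def gd (s x : ℝ) : ℝ :=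
  -sin x * (1 - s ^ 2 * cos x ^ 2) / (s ^ 2 * cos x ^ 2 + 1) ^ 2

/-- the derivative of the comparison function. -/
noncomputable def fd (s x : ℝ) : ℝ :=
  sin x ^ 2 / (s ^ 2 * cos x ^ 2 + 1) - arctan (s * cos x) * cos x / s

theorem den_pos (s x : ℝ) : 0 < s ^ 2 * cos x ^ 2 + 1 := by positivity

theorem norm_ee (l x : ℝ) : ‖ee l x‖ = 1 := by
  rw [ee, mul_comm, Complex.norm_exp_ofReal_mul_I]

theorem d_ee (l x : ℝ) : HasDerivAt (ee l) (ee l x * (Complex.I * (l * cos x : ℝ))) x :=
  ((((hasDerivAt_sin x).const_mul l).ofReal_comp).const_mul Complex.I).cexp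

theorem d_gg (s x : ℝ) : HasDerivAt (gg s) (s ^ 2 * gd s x) x := by
  have h := ((hasDerivAt_cos x).const_mul (s ^ 2)).div
    ((((hasDerivAt_cos x).pow 2).const_mul (s ^ 2)).add_const 1) (den_pos s x).ne'
  refine h.congr_deriv ?_
  have := (den_pos s x).ne'
  simp only [gd, Pi.pow_apply]
  field_simp
  push_cast
  ring

theorem d_ff {s : ℝ} (hs : 0 < s) (x : ℝ) :
    HasDerivAt (fun x => -(arctan (s * cos x) * sin x / s)) (fd s x) x := by
  have h := (((((hasDerivAt_cos x).const_mul s).arctan).mul (hasDerivAt_sin x)).div_const s).neg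
  refine h.congr_deriv ?_
  have := (den_pos s x).ne'
  have h2 : 1 + (s * cos x) ^ 2 ≠ 0 := by positivity
  simp only [fd]
  field_simp
  ring

theorem gd_le (s x : ℝ) : |gd s x| ≤ 1 / (s ^ 2 * cos x ^ 2 + 1) := by
  have hp := den_pos s x
  have h0 : 0 ≤ s ^ 2 * cos x ^ 2 := by positivity
  rw [gd, abs_div, abs_mul, abs_neg, abs_of_pos (pow_pos hp 2), div_le_div_iff₀ (pow_pos hp 2) hp,
    one_mul, sq (s ^ 2 * cos x ^ 2 + 1)]
  refine mul_le_mul_of_nonneg_right ?_ hp.le
  exact (mul_le_of_le_one_left (abs_nonneg _) (abs_sin_le_one x)).trans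
    (abs_le.2 ⟨by linarith, by linarith⟩)

theorem inv_le {s : ℝ} (hs : 0 < s) (x : ℝ) :
    1 / (s ^ 2 * cos x ^ 2 + 1) ≤ fd s x + 3 / s := by
  have hp := den_pos s x
  have h1 : cos x ^ 2 / (s ^ 2 * cos x ^ 2 + 1) ≤ 1 / s := by
    rw [div_le_div_iff₀ hp hs]
    nlinarith [sq_nonneg (s - 1), cos_sq_le_one x, sq_nonneg (cos x),
      mul_nonneg (sq_nonneg (cos x)) (sq_nonneg (s - 1)), mul_nonneg (sq_nonneg (cos x)) hs.le]
  have h2 : arctan (s * cos x) * cos x / s ≤ 2 / s := by
    refine div_le_div_of_nonneg_right ((le_abs_self _).trans ?_) hs.le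
    rw [abs_mul]
    refine (mul_le_of_le_one_right (abs_nonneg _) (abs_cos_le_one x)).trans (abs_le.2 ⟨?_, ?_⟩)
    · linarith [neg_pi_div_two_lt_arctan (s * cos x), pi_le_four]
    · linarith [arctan_lt_pi_div_two (s * cos x), pi_le_four]
  have e : 1 / (s ^ 2 * cos x ^ 2 + 1) =
      sin x ^ 2 / (s ^ 2 * cos x ^ 2 + 1) + cos x ^ 2 / (s ^ 2 * cos x ^ 2 + 1) := by
    rw [← add_div, sin_sq_add_cos_sq]
  have e2 : 3 / s = 1 / s + 2 / s := by ring
  rw [e, e2, fd]
  linarith

theorem c_gd (s : ℝ) : Continuous (gd s) :=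
  Continuous.div (by fun_prop) (by fun_prop) fun x => (pow_pos (den_pos s x) 2).ne'

theorem c_gg (s : ℝ) : Continuous (gg s) :=
  Continuous.div (by fun_prop) (by fun_prop) fun x => (den_pos s x).ne'

theorem c_fd (s : ℝ) : Continuous (fd s) :=
  (Continuous.div (by fun_prop) (by fun_prop) fun x => (den_pos s x).ne').sub
    (((continuous_arctan.comp (by fun_prop)).mul continuous_cos).div_const s)

theorem c_ee (l : ℝ) : Continuous (ee l) := by
  unfold ee
  fun_prop

end Bes1A

open Bes1A in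
theorem sBes1 : SBes1 := by
  refine ⟨6, fun l c hl => ?_⟩
  have hl' : 0 < |l| := abs_pos.2 hl
  have hs : 0 < √|l| := sqrt_pos.2 hl'
  have hs2 : √|l| ^ 2 = |l| := sq_sqrt hl'.le
  generalize √|l| = s at hs hs2
  have hp : 0 < 2 * π := by positivity
  have hI : (Complex.I * l) ≠ 0 := mul_ne_zero Complex.I_ne_zero (Complex.ofReal_ne_zero.2 hl)
  let G' : ℝ → ℂ := fun x => (((s ^ 2 * gd s x : ℝ) : ℂ) * ee l x +
    (gg s x : ℂ) * (ee l x * (Complex.I * (l * cos x : ℝ)))) / (Complex.I * l)
  have cG : Continuous G' := by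
    have h1 := c_gd s
    have h2 := c_gg s
    have h3 := c_ee l
    fun_prop
  have iG : ∫ a in (0 : ℝ)..(2 * π), G' (a - c) = 0 := by
    rw [intervalIntegral.integral_eq_sub_of_hasDerivAt
      (f := fun a => (gg s (a - c) : ℂ) * ee l (a - c) / (Complex.I * l))
      (fun a _ => ((((d_gg s (a - c)).ofReal_comp).mul (d_ee l (a - c))).div_const
        (Complex.I * l)).comp_sub_const a c)
      ((cG.comp (continuous_sub_right c)).intervalIntegrable _ _)]
    simp [gg, ee]
  have iF : ∫ a in (0 : ℝ)..(2 * π), fd s (a - c) = 0 := by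
    rw [intervalIntegral.integral_eq_sub_of_hasDerivAt
      (f := fun a => -(arctan (s * cos (a - c)) * sin (a - c) / s))
      (fun a _ => (d_ff hs (a - c)).comp_sub_const a c)
      (((c_fd s).comp (continuous_sub_right c)).intervalIntegrable _ _)]
    simp
  have hb : ∀ x, ‖ee l x - G' x‖ ≤ 2 * fd s x + 6 / s := by
    intro x
    have h1 := (den_pos s x).ne'
    have e : ee l x - G' x = ee l x * (((1 / (s ^ 2 * cos x ^ 2 + 1) : ℝ) : ℂ) -
        ((s ^ 2 * gd s x : ℝ) : ℂ) / (Complex.I * l)) := by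
      have e1 : (1 / (s ^ 2 * cos x ^ 2 + 1) : ℝ) = 1 - gg s x * cos x := by
        rw [gg]
        field_simp
        ring
      have hl2 : (l : ℂ) ≠ 0 := Complex.ofReal_ne_zero.2 hl
      rw [e1]
      simp only [G']
      push_cast
      field_simp
      ring
    rw [e, norm_mul, norm_ee, one_mul]
    refine (norm_sub_le _ _).trans ?_
    rw [norm_div, norm_mul, Complex.norm_I, one_mul, Complex.norm_real, Complex.norm_real,
      Complex.norm_real, norm_mul, norm_of_nonneg (sq_nonneg s), norm_eq_abs l, ← hs2,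
      mul_div_cancel_left₀ _ (pow_pos hs 2).ne', norm_of_nonneg (one_div_pos.2 (den_pos s x)).le,
      norm_eq_abs]
    have h2 := gd_le s x
    have h3 := inv_le hs x
    have e2 : 6 / s = 2 * (3 / s) := by ring
    linarith
  have i1 := ((c_ee l).comp (continuous_sub_right c)).intervalIntegrable (μ := volume) 0 (2 * π)
  have i2 := (cG.comp (continuous_sub_right c)).intervalIntegrable (μ := volume) 0 (2 * π)
  have i3 := (((c_fd s).comp (continuous_sub_right c)).intervalIntegrable (μ := volume) 0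
    (2 * π)).const_mul 2
  have key := intervalIntegral.norm_integral_le_of_norm_le (μ := volume) hp.le
    (f := fun a => ee l (a - c) - G' (a - c)) (g := fun a => 2 * fd s (a - c) + 6 / s)
    (ae_of_all _ fun a _ => hb _) (i3.add intervalIntegrable_const)
  rw [intervalIntegral.integral_sub (f := fun a => ee l (a - c)) (g := fun a => G' (a - c)) i1 i2,
    iG, sub_zero, intervalIntegral.integral_add (f := fun a => 2 * fd s (a - c)) i3
      intervalIntegrable_const, intervalIntegral.integral_const_mul, iF,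
    intervalIntegral.integral_const, mul_zero, zero_add, sub_zero, smul_eq_mul] at key
  rw [integral_circ, norm_smul, norm_of_nonneg (inv_pos.2 hp).le, inv_mul_le_iff₀ hp]
  exact key

end Pool.Agent.MP_66cee2_co.XI
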