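import Pool.Agent.MP_66cee2_co.XI.Kit

/-
Row `Bes2`: the one dimensional Schur bound from the decay of the Bessel function.
-/

namespace Pool.Agent.MP_66cee2_co.XI

open MeasureTheory Set Filter Metric Topology
open scoped ENNReal

namespace Bes2A

theorem small_sin {x δ : ℝ} (h1 : -Real.pi ≤ x) (h2 : x ≤ Real.pi) (h : |Real.sin x| < δ) :
    |x| < 2 * δ ∨ |x - Real.pi| < 2 * δ ∨ |x + Real.pi| < 2 * δ := by
  have hp := Real.pi_pos
  have key : ∀ z : ℝ, |z| ≤ Real.pi / 2 → |Real.sin z| < δ → |z| < 2 * δ := by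
    intro z hz hs
    have h3 := Real.mul_abs_le_abs_sin hz
    have h4 : 1 / 2 ≤ 2 / Real.pi := by
      rw [div_le_div_iff₀ two_pos hp]; linarith [Real.pi_le_four]
    nlinarith [abs_nonneg z]
  by_cases a1 : Real.pi / 2 ≤ x
  · exact Or.inr (Or.inl (key _ (abs_le.2 ⟨by linarith, by linarith⟩)
      (by rwa [Real.sin_sub_pi, abs_neg])))
  by_cases a2 : x ≤ -(Real.pi / 2)
  · exact Or.inr (Or.inr (key _ (abs_le.2 ⟨by linarith, by linarith⟩)
      (by rwa [Real.sin_add_pi, abs_neg])))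
  · exact Or.inl (key _ (abs_le.2 ⟨by linarith, by linarith⟩) h)

theorem circ_bad {b δ : ℝ} (hb : b ∈ Ico 0 (2 * Real.pi)) (hδ : 0 ≤ δ) :
    circ.real {b' | |Real.sin ((b' - b) / 2)| < δ} ≤ 24 * δ := by
  have hm : MeasurableSet {b' : ℝ | |Real.sin ((b' - b) / 2)| < δ} :=
    (isOpen_lt (by fun_prop) continuous_const).measurableSet
  have hs : {b' : ℝ | |Real.sin ((b' - b) / 2)| < δ} ∩ Ioc 0 (2 * Real.pi) ⊆
      ball b (4 * δ) ∪ (ball (b + 2 * Real.pi) (4 * δ) ∪ ball (b - 2 * Real.pi) (4 * δ)) := by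
    rintro x ⟨hx, h1, h2⟩
    simp only [mem_union, mem_ball, Real.dist_eq, abs_lt]
    rcases small_sin (by linarith [hb.2]) (by linarith [hb.1]) hx with h | h | h
    · exact Or.inl ⟨by linarith [(abs_lt.1 h).1], by linarith [(abs_lt.1 h).2]⟩
    · exact Or.inr (Or.inl ⟨by linarith [(abs_lt.1 h).1], by linarith [(abs_lt.1 h).2]⟩)
    · exact Or.inr (Or.inr ⟨by linarith [(abs_lt.1 h).1], by linarith [(abs_lt.1 h).2]⟩)
  refine ENNReal.toReal_le_of_le_ofReal (by positivity) ?_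
  have h1 : (ENNReal.ofReal (2 * Real.pi))⁻¹ ≤ 1 :=
    ENNReal.inv_le_one.2 (ENNReal.one_le_ofReal.2 (by linarith [Real.two_le_pi]))
  rw [circ, Measure.smul_apply, Measure.restrict_apply hm, smul_eq_mul]
  refine (mul_le_of_le_one_left' h1).trans ((measure_mono hs).trans ?_)
  refine (measure_union_le _ _).trans ((add_le_add le_rfl (measure_union_le _ _)).trans ?_)
  rw [Real.volume_ball, Real.volume_ball, Real.volume_ball,
    ← ENNReal.ofReal_add (by positivity) (by positivity),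
    ← ENNReal.ofReal_add (by positivity) (by positivity)]
  exact ENNReal.ofReal_le_ofReal (by linarith)

theorem norm_le_one (φ : ℝ → ℝ) :
    ‖∫ a, Complex.exp (Complex.I * (φ a : ℝ)) ∂circ‖ ≤ 1 := by
  have := norm_integral_le_of_norm_le_const (μ := circ) (C := 1)
    (f := fun a => Complex.exp (Complex.I * (φ a : ℝ)))
    (Eventually.of_forall fun a => (Complex.norm_exp_I_mul_ofReal _).le)
  simpa using this

theorem main {C : ℝ} (hC : ∀ l c : ℝ, l ≠ 0 →
    ‖∫ a, Complex.exp (Complex.I * (l * Real.sin (a - c) : ℝ)) ∂circ‖ ≤ C / √|l|)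
    {s y b : ℝ} (hy : 0 < y) (hs : |s| = y ^ 3) (hb : b ∈ Ico 0 (2 * Real.pi)) :
    ∫ b', ‖∫ a, Complex.exp (Complex.I * (s * (Real.cos (a - b) - Real.cos (a - b')) : ℝ))
      ∂circ‖ ∂circ ≤ (|C| + 24) / y := by
  have hm : MeasurableSet {b' : ℝ | |Real.sin ((b' - b) / 2)| < y⁻¹} :=
    (isOpen_lt (by fun_prop) continuous_const).measurableSet
  have hi := (integrable_const (μ := circ) (1 : ℝ)).indicator hm
  refine (integral_mono_of_nonneg (g := fun b' => |C| / y +
    indicator {b' : ℝ | |Real.sin ((b' - b) / 2)| < y⁻¹} (fun _ => (1 : ℝ)) b')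
    (Eventually.of_forall fun _ => norm_nonneg _) ((integrable_const _).add hi)
    (Eventually.of_forall fun b' => ?_)).trans ?_
  · have h0 : 0 ≤ |C| / y := by positivity
    by_cases h : |Real.sin ((b' - b) / 2)| < y⁻¹
    · have := norm_le_one fun a => s * (Real.cos (a - b) - Real.cos (a - b'))
      simp only [indicator_of_mem (show b' ∈ {b' : ℝ | |Real.sin ((b' - b) / 2)| < y⁻¹} from h)]
      linarith
    · have e : ∀ a, s * (Real.cos (a - b) - Real.cos (a - b')) =
          (-2 * s * Real.sin ((b' - b) / 2)) * Real.sin (a - (b + b') / 2) := fun a => by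
        rw [Real.cos_sub_cos, show (a - b + (a - b')) / 2 = a - (b + b') / 2 by ring,
          show (a - b - (a - b')) / 2 = (b' - b) / 2 by ring]
        ring
      have hl : y ^ 2 ≤ |-2 * s * Real.sin ((b' - b) / 2)| := by
        rw [abs_mul, abs_mul, hs, abs_neg, abs_two]
        have h1 : y ^ 3 * y⁻¹ ≤ y ^ 3 * |Real.sin ((b' - b) / 2)| :=
          mul_le_mul_of_nonneg_left (not_lt.1 h) (by positivity)
        have h2 : y ^ 3 * y⁻¹ = y ^ 2 := by field_simp
        nlinarith [sq_nonneg y]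
      have hl0 : -2 * s * Real.sin ((b' - b) / 2) ≠ 0 :=
        abs_pos.1 (lt_of_lt_of_le (by positivity) hl)
      simp only [indicator_of_notMem
        (show b' ∉ {b' : ℝ | |Real.sin ((b' - b) / 2)| < y⁻¹} from h), add_zero, e]
      refine (hC _ _ hl0).trans ?_
      exact div_le_div₀ (abs_nonneg _) (le_abs_self _) hy (Real.le_sqrt_of_sq_le hl)
  · rw [integral_add (integrable_const _) hi, integral_indicator_const _ hm, integral_const]
    have := circ_bad hb (inv_nonneg.2 hy.le)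
    simp only [probReal_univ, smul_eq_mul, one_mul, mul_one, add_div]
    rw [div_eq_mul_inv 24]
    linarith

end Bes2A

theorem sBes2 : SBes1 → SBes2 := by
  rintro ⟨C, hC⟩
  have hA : 1 ≤ |C| + 24 := by linarith [abs_nonneg C]
  refine ⟨((|C| + 24) ^ 4) ^ 3, one_le_pow₀ (one_le_pow₀ hA), fun s b hs => ?_⟩
  obtain ⟨y, hy0, hy⟩ : ∃ y : ℝ, 0 ≤ y ∧ |s| = y ^ 3 :=
    ⟨|s| ^ (((3 : ℕ) : ℝ)⁻¹), by positivity,
      (Real.rpow_inv_natCast_pow (abs_nonneg s) three_ne_zero).symm⟩
  have hAy : (|C| + 24) ^ 4 ≤ y := by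
    rw [hy] at hs
    exact (pow_le_pow_iff_left₀ (by positivity) hy0 three_ne_zero).1 hs
  have hy1 : 0 < y := lt_of_lt_of_le (by positivity) hAy
  have hb := toIcoMod_mem_Ico' Real.two_pi_pos b
  have e : ∀ a, Real.cos (a - b) = Real.cos (a - toIcoMod Real.two_pi_pos 0 b) := fun a => by
    rw [← Real.cos_sub_int_mul_two_pi (a - toIcoMod Real.two_pi_pos 0 b)
      (toIcoDiv Real.two_pi_pos 0 b), ← zsmul_eq_mul, sub_sub, toIcoMod_add_toIcoDiv_zsmul]
  have h := Bes2A.main hC hy1 hy hb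
  simp only [← e] at h
  refine (mul_le_mul_of_nonneg_right (pow_le_pow_left₀
    (integral_nonneg fun _ => norm_nonneg _) h 4) (abs_nonneg s)).trans ?_
  rw [hy, div_pow, div_mul_eq_mul_div, div_le_one (by positivity)]
  nlinarith [pow_pos hy1 3]

end Pool.Agent.MP_66cee2_co.XI
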