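import Pool.Agent.MP_66cee2_co.XI.Kit

/-! Chernoff bound for the phase on the torus. -/

namespace Pool.Agent.MP_66cee2_co.XI

open MeasureTheory ProbabilityTheory Set
open scoped NNReal

namespace CheA

theorem mean (c : ℝ) : ∫ b, Real.cos (c - b) ∂circ = 0 := by
  rw [integral_circ, intervalIntegral.integral_comp_sub_left (fun x => Real.cos x) c,
    integral_cos, sub_zero, Real.sin_sub_two_pi, sub_self, smul_zero]

theorem one (p : ℕ) (a : Fin p → ℝ) (i : Fin p) :
    HasSubgaussianMGF (fun b : Fin p → ℝ => Real.cos (a i - b i)) 1 (tor p) := by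
  have h := hasSubgaussianMGF_of_mem_Icc_of_integral_eq_zero (μ := tor p)
    (X := fun b : Fin p → ℝ => Real.cos (a i - b i)) (a := -1) (b := 1)
    (Measurable.aemeasurable (by fun_prop))
    (Filter.Eventually.of_forall fun b => Real.cos_mem_Icc _) (by
      have hm : MeasurePreserving (fun b : Fin p → ℝ => b i) (tor p) circ :=
        measurePreserving_eval (fun _ : Fin p => circ) i
      rw [← mean (a i), ← hm.map_eq, integral_map hm.measurable.aemeasurable (by fun_prop)])
  have e : ((‖(1 : ℝ) - -1‖₊ / 2) ^ 2 : ℝ≥0) = 1 := by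
    ext
    norm_num
  rwa [e] at h

theorem sub (p : ℕ) (a : Fin p → ℝ) : HasSubgaussianMGF (fun b => ph a b) p (tor p) := by
  have hi : iIndepFun (fun (i : Fin p) (b : Fin p → ℝ) => Real.cos (a i - b i)) (tor p) :=
    iIndepFun_pi (μ := fun _ : Fin p => circ) (X := fun i x => Real.cos (a i - x))
      fun i => by fun_prop
  have h := HasSubgaussianMGF.sum_of_iIndepFun hi (c := fun _ => 1) (s := Finset.univ)
    fun i _ => one p a i
  simpa [ph] using h

end CheA

theorem sChe : SChe := by
  intro p a l hl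
  have h0 : 0 ≤ l * p := by positivity
  have h1 := (CheA.sub p a).measure_ge_le h0
  have h2 := (CheA.sub p a).neg.measure_ge_le h0
  have e : -(l * p) ^ 2 / (2 * ((p : ℝ≥0) : ℝ)) = -(l ^ 2 * p / 2) := by
    rcases Nat.eq_zero_or_pos p with rfl | hp
    · simp
    · have : (p : ℝ) ≠ 0 := by positivity
      push_cast
      field_simp
  rw [e] at h1 h2
  have hs : {b | l * p ≤ |ph a b|} ⊆
      {b | l * p ≤ ph a b} ∪ {b | l * p ≤ (-fun b => ph a b) b} :=
    fun b (hb : l * p ≤ |ph a b|) => le_abs.1 hb
  refine (measureReal_mono hs).trans ((measureReal_union_le _ _).trans ?_)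
  linarith

end Pool.Agent.MP_66cee2_co.XI
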