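import Pool.Agent.MP_66cee2_co.XI.Kit

/-
The flat bound on the torus.
-/

namespace Pool.Agent.MP_66cee2_co.XI

open MeasureTheory Set Real

namespace FLA

theorem num (m : ℕ) (p S t : ℝ) (hp : p = 16 * (m + 1)) (hS : 1 ≤ S)
    (ht : t = √p / (4 * exp 1 * S)) :
    2 * S * t * (t ^ 2 * S ^ 2 / 2) ^ m / m.factorial ≤
      exp (-(p / 32)) * (16 * exp 1 * exp (-(p / 32))) := by
  have he := exp_pos 1
  have hm : (0 : ℝ) ≤ m := Nat.cast_nonneg m
  have hp1 : 1 ≤ p := by linarith
  have h1 : t ^ 2 * S ^ 2 / 2 = exp (-2) * ((m + 1) / 2) := by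
    have : exp (-2) = (exp 1 ^ 2)⁻¹ := by
      rw [← exp_nat_mul, ← exp_neg]
      norm_num
    rw [ht, div_pow, sq_sqrt (by linarith), this, hp]
    field_simp
    norm_num
  have h2 : (t ^ 2 * S ^ 2 / 2) ^ m / m.factorial ≤ exp (2 - 3 * p / 32) := by
    rw [h1, mul_pow, mul_div_assoc, ← exp_nat_mul]
    refine (mul_le_mul_of_nonneg_left (pow_div_factorial_le_exp _ (by positivity) m)
      (exp_pos _).le).trans ?_
    rw [← exp_add, exp_le_exp, hp]
    linarith
  have h3 : 2 * S * t ≤ 16 * exp (p / 32 - 1) := by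
    have a : √p ≤ p := sqrt_le_iff.2 ⟨by linarith, by nlinarith⟩
    have b := add_one_le_exp (p / 32)
    have c : 2 * S * t = √p / (2 * exp 1) := by
      rw [ht]
      field_simp
      norm_num
    rw [c, exp_sub, div_le_iff₀ (by positivity)]
    field_simp
    linarith
  have h0 : 0 ≤ t := by rw [ht]; positivity
  rw [mul_div_assoc]
  refine (mul_le_mul h3 h2 (by positivity) (by positivity)).trans (le_of_eq ?_)
  rw [mul_assoc, mul_left_comm (exp _), mul_assoc, ← exp_add, ← mul_assoc (exp _), ← exp_add,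
    ← exp_add]
  congr 2
  ring

theorem prod_le {X : Type} [MeasurableSpace X] (μ : Measure X) [IsProbabilityMeasure μ]
    {A : Set X} (hA : MeasurableSet A) {s : Set (X × X)} (hs : MeasurableSet s) {c : ℝ}
    (hc : 0 ≤ c) (h1 : ∀ x ∈ s, x.1 ∈ A) (h2 : ∀ a, μ.real (Prod.mk a ⁻¹' s) ≤ c) :
    (μ.prod μ).real s ≤ c * μ.real A := by
  have h : (μ.prod μ) s ≤ ENNReal.ofReal c * μ A := by
    rw [Measure.prod_apply hs, ← lintegral_indicator_const hA]
    refine lintegral_mono fun a => ?_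
    by_cases ha : a ∈ A
    · rw [indicator_of_mem ha]
      exact (ENNReal.le_ofReal_iff_toReal_le (measure_ne_top _ _) hc).2 (h2 a)
    · have : Prod.mk a ⁻¹' s = ∅ := eq_empty_of_forall_notMem fun b hb => ha (h1 _ hb)
      simp [this]
  have := ENNReal.toReal_mono (by finiteness) h
  rwa [ENNReal.toReal_mul, ENNReal.toReal_ofReal hc] at this

variable {p : ℕ} {ι : Type} [Fintype ι] {A : Set (Fin p → ℝ)} {v : (Fin p → ℝ) → ι → ℝ}

theorem self_le (h : TF A v) (a : Fin p → ℝ) : v a ⬝ᵥ v a ≤ 1 := by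
  by_cases ha : a ∈ A
  · exact (h.one a ha).le
  · simp [h.zero a ha]

theorem k_le (h : TF A v) (a b : Fin p → ℝ) : (v a ⬝ᵥ v b) ^ 2 ≤ 1 := by
  have h1 := Finset.sum_mul_sq_le_sq_mul_sq Finset.univ (v a) (v b)
  have h2 := self_le h a
  have h3 := self_le h b
  simp only [dotProduct, ← sq] at h2 h3 ⊢
  exact h1.trans (mul_le_one₀ h2 (by positivity) h3)

theorem k_eq (a b : Fin p → ℝ) :
    (v a ⬝ᵥ v b) ^ 2 = ∑ i, ∑ k, v a i * v a k * (v b i * v b k) := by
  rw [sq, dotProduct, Finset.sum_mul_sum]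
  exact Finset.sum_congr rfl fun i _ => Finset.sum_congr rfl fun k _ => by ring

theorem k_meas (h : TF A v) :
    Measurable fun x : (Fin p → ℝ) × (Fin p → ℝ) => (v x.1 ⬝ᵥ v x.2) ^ 2 := by
  simp only [k_eq]
  exact Finset.measurable_sum _ fun i _ => Finset.measurable_sum _ fun k _ =>
    ((h.meas i k).comp measurable_fst).mul ((h.meas i k).comp measurable_snd)

theorem w_int (h : TF A v) (i k : ι) : Integrable (fun a => v a i * v a k) (tor p) := by
  refine Integrable.of_bound (h.meas i k).aestronglyMeasurable 1 (ae_of_all _ fun a => ?_)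
  have h1 : ∀ i, |v a i| ≤ 1 := fun i => by
    rw [← sq_le_one_iff_abs_le_one, sq]
    exact (Finset.single_le_sum (f := fun k => v a k * v a k) (fun k _ => mul_self_nonneg _)
      (Finset.mem_univ i)).trans (self_le h a)
  rw [norm_eq_abs, abs_mul]
  exact mul_le_one₀ (h1 i) (abs_nonneg _) (h1 k)

theorem mass (h : TF A v) : (tor p).real A ^ 2 ≤
    Fintype.card ι * ∫ x, (v x.1 ⬝ᵥ v x.2) ^ 2 ∂((tor p).prod (tor p)) := by
  have h1 : (tor p).real A = ∑ i, ∫ a, v a i * v a i ∂tor p := by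
    rw [← integral_finsetSum _ fun i _ => w_int h i i, ← integral_indicator_one h.ms]
    refine integral_congr_ae (ae_of_all _ fun a => ?_)
    by_cases ha : a ∈ A
    · rw [indicator_of_mem ha]
      exact (h.one a ha).symm
    · simp [ha, h.zero a ha]
  simp only [k_eq]
  rw [integral_finsetSum _ fun i _ => integrable_finsetSum _ fun k _ =>
    (w_int h i k).mul_prod (w_int h i k), h1]
  refine sq_sum_le_card_mul_sum_sq.trans (mul_le_mul_of_nonneg_left
    (Finset.sum_le_sum fun i _ => ?_) (Nat.cast_nonneg _))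
  rw [integral_finsetSum _ fun k _ => (w_int h i k).mul_prod (w_int h i k)]
  rw [Finset.sum_congr rfl fun k _ =>
    integral_prod_mul (fun a => v a i * v a k) fun a => v a i * v a k, sq]
  exact Finset.single_le_sum (f := fun k => (∫ a, v a i * v a k ∂tor p) * ∫ a, v a i * v a k ∂tor p)
    (fun k _ => mul_self_nonneg _) (Finset.mem_univ i)

theorem ph_meas : Measurable fun x : (Fin p → ℝ) × (Fin p → ℝ) => ph x.1 x.2 := by
  unfold ph
  fun_prop

theorem ph_le (a b : Fin p → ℝ) : |ph a b| ≤ p :=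
  (Finset.abs_sum_le_sum_abs _ _).trans
    ((Finset.sum_le_card_nsmul _ _ 1 fun _ _ => abs_cos_le_one _).trans (by simp))

theorem lower (h : TF A v) (hC : SChe) {l t E : ℝ} (hl : 0 ≤ l) (ht : 0 < t)
    (hE : E = exp (-(l * p) ^ 2 / (2 * t ^ 2))) :
    E * (∫ x, (v x.1 ⬝ᵥ v x.2) ^ 2 ∂((tor p).prod (tor p)) -
      2 * exp (-(l ^ 2 * p / 2)) * (tor p).real A) ≤
      ∫ x, (v x.1 ⬝ᵥ v x.2) ^ 2 * exp (-ph x.1 x.2 ^ 2 / (2 * t ^ 2)) ∂((tor p).prod (tor p)) := by
  set T : Set ((Fin p → ℝ) × (Fin p → ℝ)) := {x | x.1 ∈ A ∧ l * p ≤ |ph x.1 x.2|} with hT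
  have mT : MeasurableSet T :=
    (measurable_fst h.ms).inter (measurableSet_le measurable_const ph_meas.abs)
  have h1 := prod_le (tor p) h.ms mT (c := 2 * exp (-(l ^ 2 * p / 2))) (by positivity)
    (fun x hx => hx.1) fun a => (measureReal_mono fun b hb => hb.2).trans (hC p a l hl)
  have hE0 : 0 < E := hE ▸ exp_pos _
  have ik : Integrable (fun x : (Fin p → ℝ) × (Fin p → ℝ) => (v x.1 ⬝ᵥ v x.2) ^ 2)
      ((tor p).prod (tor p)) := Integrable.of_bound (k_meas h).aestronglyMeasurable 1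
    (ae_of_all _ fun x => by rw [norm_eq_abs, abs_sq]; exact k_le h _ _)
  have iT : Integrable (T.indicator 1 : _ → ℝ) ((tor p).prod (tor p)) :=
    (integrable_const 1).indicator mT
  refine (mul_le_mul_of_nonneg_left (sub_le_sub_left h1 _) hE0.le).trans ?_
  rw [← integral_indicator_one mT, ← integral_sub ik iT, ← integral_const_mul]
  refine integral_mono ((ik.sub iT).const_mul E) (ik.mul_bdd (c := 1)
    (measurable_exp.comp ((ph_meas.pow_const 2).neg.div_const _)).aestronglyMeasurable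
    (ae_of_all _ fun x => ?_)) fun x => ?_
  · rw [norm_eq_abs, abs_exp, exp_le_one_iff]
    exact div_nonpos_of_nonpos_of_nonneg (neg_nonpos.2 (sq_nonneg _)) (by positivity)
  · have k0 := sq_nonneg (v x.1 ⬝ᵥ v x.2)
    by_cases hx : x ∈ T
    · refine le_trans (mul_nonpos_of_nonneg_of_nonpos hE0.le ?_) (by positivity)
      simpa [hx] using k_le h x.1 x.2
    simp only [indicator_of_notMem hx, sub_zero]
    by_cases ha : x.1 ∈ A
    · rw [mul_comm, hE]
      have h2 : |ph x.1 x.2| < l * p := not_le.1 fun h => hx ⟨ha, h⟩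
      have h3 := sq_le_sq' (abs_lt.1 h2).1.le (abs_lt.1 h2).2.le
      gcongr
    · simp [h.zero _ ha]

theorem hhat_le (h : TF A v) (hS : SSch) (s : ℝ) : ‖hhat v s‖ ≤ (tor p).real A := by
  have := hS p ι A v h s 1 fun b => (le_abs_self _).trans (by
    rw [← norm_eq_abs]
    refine (norm_integral_le_of_norm_le_const (C := 1) (ae_of_all _ fun b' => ?_)).trans (by simp)
    rw [norm_norm]
    refine (norm_integral_le_of_norm_le_const (C := 1) (ae_of_all _ fun a => ?_)).trans (by simp)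
    exact (Complex.norm_exp_I_mul_ofReal _).le)
  rw [one_pow, mul_one] at this
  exact le_of_sq_le_sq this measureReal_nonneg

end FLA

open FLA in
theorem sFL : SBes2 → SSch → SGau → SChe → SFL := by
  rintro ⟨S, hS, hB⟩ hSch hG hC
  have he := exp_pos 1
  have he1 : 1 ≤ exp 1 := one_le_exp zero_le_one
  set l := 1 / (16 * exp 1 * S) with hl
  have l0 : 0 < l := by positivity
  have l1 : l ≤ 1 / 16 := one_div_le_one_div_of_le (by norm_num) (by nlinarith)
  refine ⟨exp (-(l ^ 2 / 2)), 2 + 16 * exp 1, exp_pos _, exp_lt_one_iff.2 (by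
    have := pow_pos l0 2
    linarith), by positivity, ?_⟩
  rintro m p hp ι _ A v h ⟨B, hb⟩
  have hp' : (p : ℝ) = 16 * (m + 1) := by exact_mod_cast hp
  have p0 : (0 : ℝ) < p := by rw [hp']; positivity
  set t := √p / (4 * exp 1 * S) with ht
  have t0 : 0 < t := by positivity
  set M := (tor p).real A with hM
  have M0 : 0 ≤ M := measureReal_nonneg
  have h1 := hG _ ((tor p).prod (tor p)) (fun x => (v x.1 ⬝ᵥ v x.2) ^ 2) (fun x => ph x.1 x.2) m
    M S (|B| * p ^ (p - (2 * m + 1))) (k_meas h) ph_meas (fun x => ⟨sq_nonneg _, k_le h _ _⟩) hS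
    (fun x => (hb _ _).trans (by
      rw [← pow_sub_mul_pow _ (show 2 * m + 1 ≤ p by omega), ← mul_assoc]
      have := ph_le x.1 x.2
      have := le_abs_self B
      gcongr))
    (hhat_le h hSch) (fun s hs => by
      have s0 : 0 < |s| := by linarith
      have j4 : (√(√|s|))⁻¹ ^ 4 = |s|⁻¹ := by
        rw [inv_pow, show 4 = 2 * 2 from rfl, pow_mul, sq_sqrt (sqrt_nonneg _), sq_sqrt s0.le]
      have h2 := hSch p ι A v h s (√(√|s|))⁻¹ fun b =>
        le_of_pow_le_pow_left₀ four_ne_zero (by positivity) (by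
          rw [j4, ← one_div, le_div_iff₀ s0]
          exact hB s b hs)
      rw [show (√(√|s|))⁻¹ ^ p = ((|s| ^ (2 * m + 2)) ^ 2)⁻¹ by
        rw [hp, show 16 * (m + 1) = 4 * ((2 * m + 2) * 2) by ring, pow_mul, j4, inv_pow, pow_mul],
        ← div_eq_mul_inv, le_div_iff₀ (by positivity), ← mul_pow] at h2
      exact le_of_sq_le_sq h2 M0) t t0
  have h2 := lower h hC l0.le t0 (E := exp (-((p : ℝ) / 32))) (by
    rw [ht, div_pow, sq_sqrt p0.le, hl]
    congr 1
    field_simp
    norm_num)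
  have h3 := mul_le_mul_of_nonneg_left (num m p S t hp' hS ht) M0
  have h4 := le_of_mul_le_mul_left (a := exp (-((p : ℝ) / 32)))
    (c := M * (16 * exp 1 * exp (-((p : ℝ) / 32)))) (h2.trans (h1.trans (by
      refine le_trans (le_of_eq ?_) (h3.trans (le_of_eq ?_)) <;> ring))) (exp_pos _)
  have h5 := mass h
  have h6 : exp (-(l ^ 2 * p / 2)) = exp (-(l ^ 2 / 2)) ^ p := by
    rw [← exp_nat_mul]
    congr 1
    ring
  have h7 : exp (-((p : ℝ) / 32)) ≤ exp (-(l ^ 2 / 2)) ^ p := by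
    rw [← h6, exp_le_exp]
    have : l ^ 2 ≤ (1 / 16) ^ 2 := by gcongr
    nlinarith
  rw [h6] at h4
  set r := exp (-(l ^ 2 / 2)) ^ p
  have r0 : 0 ≤ r := by positivity
  rcases M0.eq_or_lt with h8 | h8
  · rw [← h8]
    positivity
  refine le_of_mul_le_mul_left ?_ h8
  have h9 : M * (16 * exp 1 * exp (-((p : ℝ) / 32))) ≤ M * (16 * exp 1 * r) := by gcongr
  have h10 := mul_le_mul_of_nonneg_left (h4.trans h9) (Nat.cast_nonneg (α := ℝ) (Fintype.card ι))
  nlinarith

end Pool.Agent.MP_66cee2_co.XI
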