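import Pool.Agent.MP_66cee2_co.XI.Kit

/-
Row FLT: the flat bound for a flat field in space.
-/

namespace Pool.Agent.MP_66cee2_co.XI

open MeasureTheory Set Filter Metric Topology Pool.Agent.MP_66cee2_co.X

namespace FLTA

theorem cont {d n p : ℕ} {Z : Set (E d)} {V : E d → Ix n → ℝ} (h : Flat Z V p) (hp : p ≠ 0)
    (a b : Ix n) : ContinuousOn (fun x => V x a * V x b) Z := by
  obtain ⟨C, r, hr, h⟩ := h.hol
  intro x hx
  refine tendsto_iff_dist_tendsto_zero.2 (squeeze_zero' (g := fun y => C * ‖y - x‖ ^ p)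
    (Eventually.of_forall fun _ => dist_nonneg) ?_ ?_)
  · filter_upwards [self_mem_nhdsWithin, mem_nhdsWithin_of_mem_nhds (closedBall_mem_nhds x hr)]
      with y hy hy'
    exact h y hy x hx (mem_closedBall_iff_norm.1 hy') a b
  · have : Continuous fun y : E d => C * ‖y - x‖ ^ p := by fun_prop
    simpa [hp] using (this.tendsto x).mono_left (nhdsWithin_le_nhds (s := Z))

end FLTA

theorem sFLT : SFL → SPsd → SApx → SDen → SFLT := by
  classical
  rintro ⟨ρ, C, h0, h1, hC, hF⟩ hP hA hD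
  refine ⟨ρ, C, h0, h1, hC, fun m p hp d n Z V r T hZ hV hr hT hd hpsd => ?_⟩
  have hp0 : p ≠ 0 := by omega
  obtain ⟨M, hM⟩ := (hP n).2 _ hpsd
  obtain ⟨B, hB⟩ := hA d n p Z V r hr hV
  have hcl : IsClosed (T ⁻¹' Den Z r) := ((hD d Z).1 hZ r).preimage hT
  have hmem : ∀ θ ∈ T ⁻¹' Den Z r, V (T θ) ∈ V '' (Z ∩ range T) :=
    fun θ hθ => ⟨T θ, ⟨hθ.1, θ, rfl⟩, rfl⟩
  have key := hF m p hp (Ix n) (T ⁻¹' Den Z r)
    ((T ⁻¹' Den Z r).indicator fun θ => M.mulVec (V (T θ)))
    ⟨hcl.measurableSet, fun i k => ?_, fun θ hθ => ?_, fun θ hθ => indicator_of_notMem hθ _⟩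
    ⟨|B| / p ^ p, fun a b => ?_⟩
  · simpa using key
  · have hc : ContinuousOn (fun θ => ∑ a, ∑ b, M i a * M k b * (V (T θ) a * V (T θ) b))
        (T ⁻¹' Den Z r) :=
      continuousOn_finsetSum _ fun a _ => continuousOn_finsetSum _ fun b _ =>
        continuousOn_const.mul ((FLTA.cont hV hp0 a b).comp hT.continuousOn fun θ hθ => hθ.1)
    convert hc.measurable_piecewise (continuousOn_const (c := (0 : ℝ))) hcl.measurableSet using 1
    funext θ
    by_cases hθ : θ ∈ T ⁻¹' Den Z r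
    · rw [indicator_of_mem hθ, piecewise_eq_of_mem _ _ _ hθ]
      simp only [Matrix.mulVec, dotProduct]
      rw [Finset.sum_mul_sum]
      exact Finset.sum_congr rfl fun a _ => Finset.sum_congr rfl fun b _ => by ring
    · rw [indicator_of_notMem hθ, piecewise_eq_of_notMem _ _ _ hθ]
      simp
  · rw [indicator_of_mem hθ, ← hM _ (hmem θ hθ) _ (hmem θ hθ), hV.one _ hθ.1]
  · have hn : 0 ≤ |B| / (p : ℝ) ^ p * |ph a b| ^ p := by positivity
    by_cases ha : a ∈ T ⁻¹' Den Z r
    · by_cases hb : b ∈ T ⁻¹' Den Z r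
      · rw [indicator_of_mem ha, indicator_of_mem hb, ← hM _ (hmem a ha) _ (hmem b hb)]
        refine (hB _ ha _ hb).trans ?_
        rw [hd, sub_sub_cancel_left, abs_neg, abs_div, Nat.abs_cast, div_pow, div_mul_eq_mul_div,
          mul_div_assoc]
        exact mul_le_mul_of_nonneg_right (le_abs_self B) (by positivity)
      · rw [indicator_of_notMem hb]
        simpa using hn
    · rw [indicator_of_notMem ha]
      simpa using hn

end Pool.Agent.MP_66cee2_co.XI
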