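import Pool.Agent.MP_66cee2_co.XI.Kit

/-
Exponential lower bound, second half: Gaussian test functions.
-/

namespace Pool.Agent.MP_66cee2_co.XI

open MeasureTheory Set Filter Metric Topology Polynomial Pool.Agent.MP_66cee2_co.X
open scoped Nat

namespace GauA

theorem gauss {b : ℝ} (hb : 0 < b) (u : ℝ) :
    ∫ s : ℝ, Real.exp (-b * s ^ 2) * Real.cos (s * u) =
      √(Real.pi / b) * Real.exp (-u ^ 2 / (4 * b)) := by
  have h := fourierIntegral_gaussian (b := (b : ℂ)) (by simpa using hb) (u : ℂ)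
  have hi : Integrable fun x : ℝ =>
      Complex.exp (Complex.I * u * x) * Complex.exp (-(b : ℂ) * x ^ 2) := by
    have := integrable_cexp_quadratic (b := (b : ℂ)) (by simpa using hb) (Complex.I * u) 0
    simpa only [add_zero, Complex.exp_add, mul_comm] using this
  have h2 := integral_re hi
  rw [h] at h2
  have e1 : ((Real.pi : ℂ) / b) ^ (1 / 2 : ℂ) * Complex.exp (-(u : ℂ) ^ 2 / (4 * b)) =
      ((√(Real.pi / b) * Real.exp (-u ^ 2 / (4 * b)) : ℝ) : ℂ) := by
    rw [Real.sqrt_eq_rpow, Complex.ofReal_mul, Complex.ofReal_cpow (by positivity)]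
    push_cast
    rfl
  rw [e1, RCLike.re_to_complex, Complex.ofReal_re] at h2
  rw [← h2]
  refine integral_congr_ae (ae_of_all _ fun s => ?_)
  have e2 : Complex.exp (-(b : ℂ) * s ^ 2) = (Real.exp (-b * s ^ 2) : ℝ) := by push_cast; rfl
  have e3 : Complex.I * u * s = ((s * u : ℝ) : ℂ) * Complex.I := by push_cast; ring
  simp only [RCLike.re_to_complex, e2, e3, Complex.mul_re, Complex.ofReal_re, Complex.ofReal_im,
    Complex.exp_ofReal_mul_I_re, mul_zero, sub_zero]
  ring

theorem taylor_exp (m : ℕ) : ∀ x : ℝ, 0 ≤ x →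
    |Real.exp (-x) - ∑ k ∈ Finset.range m, (-x) ^ k / k !| ≤ x ^ m / m ! := by
  induction m with
  | zero =>
    intro x hx
    simpa [abs_of_pos (Real.exp_pos _)] using hx
  | succ m ih =>
    intro x hx
    have hd : ∀ y : ℝ, HasDerivAt
        (fun y : ℝ => Real.exp (-y) - ∑ k ∈ Finset.range (m + 1), (-y) ^ k / k !)
        (-(Real.exp (-y) - ∑ k ∈ Finset.range m, (-y) ^ k / k !)) y := fun y => by
      have h1 : ∀ k ∈ Finset.range m, HasDerivAt (fun y : ℝ => (-y) ^ (k + 1) / (k + 1)!)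
          (-((-y) ^ k / k !)) y := fun k _ => by
        refine (((hasDerivAt_neg y).fun_pow (k + 1)).div_const _).congr_deriv ?_
        rw [Nat.factorial_succ]; push_cast
        have : (k ! : ℝ) ≠ 0 := by positivity
        field_simp
      simp only [Finset.sum_range_succ']
      refine ((hasDerivAt_neg y).exp.fun_sub ((HasDerivAt.fun_sum h1).add_const
        ((1 : ℝ) / 1))).congr_of_eventuallyEq (Eventually.of_forall fun z => by simp)
        |>.congr_deriv ?_
      rw [Finset.sum_neg_distrib]; ring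
    have hB : ∀ y : ℝ, HasDerivAt (fun y : ℝ => y ^ (m + 1) / (m + 1)!) (y ^ m / m !) y :=
      fun y => by
        refine ((hasDerivAt_pow (m + 1) y).div_const _).congr_deriv ?_
        rw [Nat.factorial_succ]; push_cast
        have : (m ! : ℝ) ≠ 0 := by positivity
        field_simp
    exact image_norm_le_of_norm_deriv_right_le_deriv_boundary (a := 0) (b := x)
      (fun y _ => (hd y).continuousAt.continuousWithinAt) (fun y _ => (hd y).hasDerivWithinAt)
      (by simp [Finset.sum_range_succ']) hB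
      (fun y hy => by rw [norm_neg]; exact ih y hy.1) ⟨hx, le_rfl⟩

theorem dom {S A : ℝ} (hS : 0 < S) {g : ℝ → ℝ} (hg : AEStronglyMeasurable g volume)
    (h1 : ∀ s, |s| ≤ S → |g s| ≤ A) (h2 : ∀ s, S ≤ |s| → |g s| * s ^ 2 ≤ A * S ^ 2) :
    Integrable g ∧ ∫ s, |g s| ≤ 4 * A * S := by
  have hA : 0 ≤ A := (abs_nonneg _).trans (h1 0 (by simpa using hS.le))
  set f : ℝ → ℝ := (Ioi S).indicator fun y => y ^ (-2 : ℝ) with hf
  have hfi : Integrable f := (integrable_indicator_iff measurableSet_Ioi).2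
    (integrableOn_Ioi_rpow_of_lt (by norm_num) hS)
  have hfv : ∫ s, f s = S⁻¹ := by
    rw [hf, integral_indicator measurableSet_Ioi, integral_Ioi_rpow_of_lt (by norm_num) hS]
    norm_num [Real.rpow_neg_one]
  have hf0 : ∀ y, 0 ≤ f y := fun y =>
    indicator_nonneg (fun z hz => Real.rpow_nonneg (hS.trans hz).le _) y
  have hf1 : ∀ y, S < y → f y = (y ^ 2)⁻¹ := fun y hy => by
    rw [hf, indicator_of_mem (mem_Ioi.2 hy), Real.rpow_neg (hS.trans hy).le, Real.rpow_two]
  have hci : Integrable ((Icc (-S) S).indicator fun _ : ℝ => A) :=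
    (integrable_indicator_iff measurableSet_Icc).2 (integrableOn_const measure_Icc_lt_top.ne)
  have hDi : Integrable fun s =>
      (Icc (-S) S).indicator (fun _ : ℝ => A) s + A * S ^ 2 * (f s + f (-s)) :=
    hci.add ((hfi.add hfi.comp_neg).const_mul _)
  have hle : ∀ s, |g s| ≤
      (Icc (-S) S).indicator (fun _ : ℝ => A) s + A * S ^ 2 * (f s + f (-s)) := fun s => by
    by_cases hs : s ∈ Icc (-S) S
    · rw [indicator_of_mem hs]
      exact (h1 s (abs_le.2 hs)).trans (le_add_of_nonneg_right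
        (mul_nonneg (by positivity) (add_nonneg (hf0 _) (hf0 _))))
    · rw [indicator_of_notMem hs, zero_add]
      have hs' : S < |s| := not_le.1 fun h => hs (abs_le.1 h)
      have hs0 : 0 < s ^ 2 := by rw [← sq_abs]; exact pow_pos (hS.trans hs') 2
      have h3 : (s ^ 2)⁻¹ ≤ f s + f (-s) := by
        rcases lt_abs.1 hs' with h | h
        · rw [← hf1 s h]; linarith [hf0 (-s)]
        · rw [← neg_sq, ← hf1 (-s) h]; linarith [hf0 s]
      calc |g s| ≤ A * S ^ 2 * (s ^ 2)⁻¹ := by
            rw [← div_eq_mul_inv, le_div_iff₀ hs0]; exact h2 s hs'.le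
        _ ≤ _ := by gcongr
  have hgi : Integrable g := hDi.mono' hg (ae_of_all _ hle)
  refine ⟨hgi, (integral_mono hgi.abs hDi hle).trans (le_of_eq ?_)⟩
  have hsi : Integrable fun s => A * S ^ 2 * (f s + f (-s)) := (hfi.add hfi.comp_neg).const_mul _
  rw [integral_add hci hsi, integral_const_mul,
    integral_add hfi hfi.comp_neg, integral_neg_eq_self f, hfv,
    integral_indicator measurableSet_Icc]
  simp only [integral_const, MeasurableSet.univ, measureReal_restrict_apply, univ_inter,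
    Real.volume_real_Icc, smul_eq_mul]
  rw [max_eq_left (by linarith)]
  field_simp
  ring

theorem pow_gauss (u t : ℝ) (ht : 0 < t) (N : ℕ) :
    |u| ^ N * Real.exp (-u ^ 2 / (2 * t ^ 2)) ≤ N ! * Real.exp (1 / 2) * t ^ N := by
  obtain ⟨y, hy0, hy⟩ : ∃ y, 0 ≤ y ∧ |u| = y * t := ⟨|u| / t, by positivity, by field_simp⟩
  have h1 := Real.pow_div_factorial_le_exp y hy0 N
  rw [div_le_iff₀ (by positivity)] at h1
  have e : -u ^ 2 / (2 * t ^ 2) = -(y ^ 2 / 2) := by
    rw [← sq_abs u, hy]; field_simp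
  have h2 : Real.exp y * Real.exp (-(y ^ 2 / 2)) ≤ Real.exp (1 / 2) := by
    rw [← Real.exp_add]; exact Real.exp_le_exp.2 (by nlinarith [sq_nonneg (y - 1)])
  rw [e, hy, mul_pow]
  calc y ^ N * t ^ N * Real.exp (-(y ^ 2 / 2))
      ≤ Real.exp y * N ! * t ^ N * Real.exp (-(y ^ 2 / 2)) := by gcongr
    _ = N ! * (Real.exp y * Real.exp (-(y ^ 2 / 2))) * t ^ N := by ring
    _ ≤ _ := by gcongr

/-- the expansion of the Gaussian average of a function with decay. -/
theorem expand {g : ℝ → ℝ} (hg : AEStronglyMeasurable g volume) {M S : ℝ} {m : ℕ} (hS : 1 ≤ S)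
    (h1 : ∀ s, |g s| ≤ M) (h2 : ∀ s, S ≤ |s| → |g s| * |s| ^ (2 * m + 2) ≤ M) (b : ℝ)
    (hb : 0 < b) :
    |(∫ s, Real.exp (-b * s ^ 2) * g s) -
      ∑ k ∈ Finset.range m, (-b) ^ k / k ! * ∫ s, s ^ (2 * k) * g s| ≤
      b ^ m / m ! * (4 * (M * S ^ (2 * m)) * S) := by
  have hM : 0 ≤ M := (abs_nonneg _).trans (h1 0)
  have hd : ∀ k ≤ m, Integrable (fun s => s ^ (2 * k) * g s) ∧
      ∫ s, |s ^ (2 * k) * g s| ≤ 4 * (M * S ^ (2 * m)) * S := fun k hk => by
    refine dom (by linarith) ((continuous_pow _).aestronglyMeasurable.mul hg) (fun s hs => ?_)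
      fun s hs => ?_
    · rw [abs_mul, abs_pow, mul_comm]
      exact mul_le_mul (h1 s) ((pow_le_pow_left₀ (abs_nonneg _) hs _).trans
        (pow_le_pow_right₀ hS (by omega))) (by positivity) hM
    · calc |s ^ (2 * k) * g s| * s ^ 2 = |g s| * |s| ^ (2 * k + 2) := by
            rw [abs_mul, abs_pow, ← sq_abs s]; ring
        _ ≤ |g s| * |s| ^ (2 * m + 2) := by
            gcongr
            exact hS.trans hs
        _ ≤ M * 1 * 1 := by simpa using h2 s hs
        _ ≤ _ := by gcongr <;> exact one_le_pow₀ hS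
  have hi0 : Integrable fun s => Real.exp (-b * s ^ 2) * g s :=
    ((integrable_exp_neg_mul_sq hb).mul_const M).mono'
      ((by fun_prop : Continuous fun s : ℝ => Real.exp (-b * s ^ 2)).aestronglyMeasurable.mul hg)
      (ae_of_all _ fun s => by
        rw [norm_mul, Real.norm_of_nonneg (Real.exp_pos _).le]
        exact mul_le_mul_of_nonneg_left (h1 s) (Real.exp_pos _).le)
  have hi1 : ∀ k ∈ Finset.range m, Integrable fun s => (-b) ^ k / k ! * (s ^ (2 * k) * g s) :=
    fun k hk => (hd k (Finset.mem_range.1 hk).le).1.const_mul _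
  simp only [← integral_const_mul]
  rw [← integral_finsetSum _ hi1, ← integral_sub hi0 (integrable_finsetSum _ hi1)]
  refine le_trans ?_ (mul_le_mul_of_nonneg_left (hd m le_rfl).2 (by positivity))
  rw [← integral_const_mul, ← Real.norm_eq_abs]
  refine norm_integral_le_of_norm_le ((hd m le_rfl).1.abs.const_mul _) (ae_of_all _ fun s => ?_)
  have e : Real.exp (-b * s ^ 2) * g s -
      ∑ k ∈ Finset.range m, (-b) ^ k / k ! * (s ^ (2 * k) * g s) =
      (Real.exp (-(b * s ^ 2)) - ∑ k ∈ Finset.range m, (-(b * s ^ 2)) ^ k / k !) * g s := by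
    rw [sub_mul, Finset.sum_mul, neg_mul]
    congr 1
    refine Finset.sum_congr rfl fun k _ => ?_
    rw [← neg_mul, mul_pow, pow_mul]; ring
  rw [e, Real.norm_eq_abs, abs_mul, abs_mul, abs_of_nonneg (a := s ^ (2 * m))
    (by rw [pow_mul]; positivity), ← mul_assoc]
  refine mul_le_mul_of_nonneg_right ((taylor_exp m _ (by positivity)).trans (le_of_eq ?_))
    (abs_nonneg _)
  rw [mul_pow, pow_mul]; ring

end GauA

open GauA

theorem sGau (hC : SCoef) : SGau := by
  intro X _ μ _ k ψ m M S B hk hψ hk1 hS hB h1 h2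
  set g : ℝ → ℝ := fun s => ∫ x, k x * Real.cos (s * ψ x) ∂μ with hg
  have hkn : ∀ x, |k x| ≤ 1 := fun x => by rw [abs_of_nonneg (hk1 x).1]; exact (hk1 x).2
  have hgh : ∀ s : ℝ, |g s| ≤
      ‖∫ x, (k x : ℂ) * Complex.exp (Complex.I * (s * ψ x : ℝ)) ∂μ‖ := fun s => by
    have hi : Integrable (fun x => (k x : ℂ) * Complex.exp (Complex.I * (s * ψ x : ℝ))) μ :=
      (integrable_const (1 : ℝ)).mono' (Measurable.aestronglyMeasurable (by fun_prop))
        (ae_of_all _ fun x => by
          rw [norm_mul, Complex.norm_exp_I_mul_ofReal, mul_one, Complex.norm_real]; exact hkn x)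
    refine le_trans (le_of_eq ?_) (Complex.abs_re_le_norm _)
    rw [← RCLike.re_to_complex, ← integral_re hi]
    refine congrArg _ (integral_congr_ae (ae_of_all _ fun x => ?_))
    dsimp only
    rw [RCLike.re_to_complex, Complex.re_ofReal_mul, mul_comm Complex.I,
      Complex.exp_ofReal_mul_I_re]
  have hgm : AEStronglyMeasurable g volume :=
    (StronglyMeasurable.integral_prod_right (f := fun s x => k x * Real.cos (s * ψ x))
      (Measurable.stronglyMeasurable (by fun_prop))).aestronglyMeasurable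
  have hπ : 2 ≤ √(2 * Real.pi) := Real.le_sqrt_of_sq_le (by linarith [Real.pi_gt_three])
  have hM : 0 ≤ M := (norm_nonneg _).trans (h1 0)
  set F : ℝ → ℝ := fun t => ∫ x, k x * Real.exp (-ψ x ^ 2 / (2 * t ^ 2)) ∂μ with hF
  have hFub : ∀ t : ℝ, 0 < t →
      F t = t / √(2 * Real.pi) * ∫ s, Real.exp (-(t ^ 2 / 2) * s ^ 2) * g s := fun t ht => by
    have hb : 0 < t ^ 2 / 2 := by positivity
    have hi : Integrable (Function.uncurry fun (s : ℝ) x =>
        Real.exp (-(t ^ 2 / 2) * s ^ 2) * (k x * Real.cos (s * ψ x))) (volume.prod μ) :=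
      ((integrable_exp_neg_mul_sq hb).mul_prod (integrable_const (1 : ℝ))).mono'
        (Measurable.aestronglyMeasurable (by unfold Function.uncurry; fun_prop))
        (ae_of_all _ fun z => by
          simp only [Function.uncurry, norm_mul, Real.norm_of_nonneg (Real.exp_pos _).le]
          exact mul_le_mul_of_nonneg_left (mul_le_one₀ (hkn _) (norm_nonneg _)
            (Real.abs_cos_le_one _)) (Real.exp_pos _).le)
    have e : ∀ s : ℝ, Real.exp (-(t ^ 2 / 2) * s ^ 2) * g s =
        ∫ x, Real.exp (-(t ^ 2 / 2) * s ^ 2) * (k x * Real.cos (s * ψ x)) ∂μ :=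
      fun s => (integral_const_mul _ _).symm
    simp only [e]
    rw [integral_integral_swap hi, ← integral_const_mul]
    refine integral_congr_ae (ae_of_all _ fun x => ?_)
    simp only [mul_left_comm _ (k x)]
    rw [integral_const_mul, gauss hb, show Real.pi / (t ^ 2 / 2) = 2 * Real.pi / t ^ 2 by
      field_simp, Real.sqrt_div (by positivity), Real.sqrt_sq ht.le,
      show 4 * (t ^ 2 / 2) = 2 * t ^ 2 by ring]
    have : 0 < √(2 * Real.pi) := by linarith
    field_simp
  set P : ℝ[X] := ∑ i ∈ Finset.range m, C ((-1 / 2) ^ i / i ! * (∫ s, s ^ (2 * i) * g s) /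
    √(2 * Real.pi)) * Polynomial.X ^ (2 * i + 1) with hP
  have hrem : ∀ t : ℝ, 0 < t →
      |F t - P.eval t| ≤ 2 * M * S * t * (t ^ 2 * S ^ 2 / 2) ^ m / m ! := fun t ht => by
    have h3 := expand hgm hS (fun s => (hgh s).trans (h1 s))
      (fun s hs => le_trans (by gcongr; exact hgh s) (h2 s hs)) (t ^ 2 / 2) (by positivity)
    have e : P.eval t = t / √(2 * Real.pi) *
        ∑ i ∈ Finset.range m, (-(t ^ 2 / 2)) ^ i / i ! * ∫ s, s ^ (2 * i) * g s := by
      rw [hP, eval_finsetSum, Finset.mul_sum]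
      refine Finset.sum_congr rfl fun i _ => ?_
      rw [eval_mul, eval_C, eval_pow, eval_X, show -(t ^ 2 / 2) = -1 / 2 * t ^ 2 by ring,
        mul_pow, ← pow_mul]
      ring
    rw [hFub t ht, e, ← mul_sub, abs_mul, abs_of_nonneg (by positivity)]
    calc _ ≤ t / 2 * ((t ^ 2 / 2) ^ m / m ! * (4 * (M * S ^ (2 * m)) * S)) := by gcongr
      _ = _ := by rw [pow_mul, show t ^ 2 * S ^ 2 / 2 = t ^ 2 / 2 * S ^ 2 by ring, mul_pow]; ring
  have hF0 : ∀ t : ℝ, 0 < t → |F t| ≤
      |B| * ((2 * m + 1)! * Real.exp (1 / 2) * t ^ (2 * m + 1)) * μ.real univ := fun t ht => by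
    rw [← Real.norm_eq_abs]
    refine norm_integral_le_of_norm_le_const (ae_of_all _ fun x => ?_)
    rw [Real.norm_of_nonneg (mul_nonneg (hk1 x).1 (Real.exp_pos _).le)]
    calc _ ≤ |B| * |ψ x| ^ (2 * m + 1) * Real.exp (-ψ x ^ 2 / (2 * t ^ 2)) := by
          gcongr
          exact (hB x).trans (by gcongr; exact le_abs_self B)
      _ ≤ _ := by
          rw [mul_assoc]; exact mul_le_mul_of_nonneg_left (pow_gauss _ t ht _) (abs_nonneg B)
  have hP0 : P = 0 := by
    refine hC.2 (2 * m) P (|B| * ((2 * m + 1)! * Real.exp (1 / 2)) * μ.real univ +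
      2 * M * S * (S ^ 2 / 2) ^ m / m !) 1 ?_ one_pos fun t ht => ?_
    · refine natDegree_sum_le_of_forall_le _ _ fun i hi => (natDegree_C_mul_X_pow_le _ _).trans ?_
      have := Finset.mem_range.1 hi
      omega
    · have e : P.eval t = F t - (F t - P.eval t) := by ring
      rw [e]
      refine (abs_sub _ _).trans ((add_le_add (hF0 t ht.1) (hrem t ht.1)).trans (le_of_eq ?_))
      rw [show t ^ 2 * S ^ 2 / 2 = t ^ 2 * (S ^ 2 / 2) by ring, mul_pow, ← pow_mul]
      ring
  intro t ht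
  have := hrem t ht
  rw [hP0, eval_zero, sub_zero] at this
  exact (le_abs_self _).trans this

end Pool.Agent.MP_66cee2_co.XI
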