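import Pool.Agent.MP_66cee2_co.XI.Kit

/-
Choice of the direction, the translation and the level.
-/

namespace Pool.Agent.MP_66cee2_co.XI

open MeasureTheory Set Filter Metric Topology Polynomial Pool.Agent.MP_66cee2_co.X
open scoped ENNReal RealInnerProductSpace

namespace LevA

/-- exhaustion, without measurability. -/
theorem exh {X : Type} [MeasurableSpace X] (μ : Measure X) {B : Set X} {A : ℕ → Set X}
    (h : ∀ᵐ θ ∂μ, θ ∈ B → ∀ᶠ i in atTop, θ ∈ A i) {c : ℝ≥0∞} (hc : c < μ B) :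
    ∀ᶠ i in atTop, c < μ (A i) := by
  have hm : Monotone fun N : ℕ => ⋂ i ≥ N, A i := fun N N' hN =>
    biInter_subset_biInter_left fun i hi => le_trans hN hi
  have h1 : μ B ≤ μ (⋃ N : ℕ, ⋂ i ≥ N, A i) := by
    refine measure_mono_ae ?_
    filter_upwards [h] with θ hθ hB
    obtain ⟨N, hN⟩ := eventually_atTop.1 (hθ hB)
    exact mem_iUnion.2 ⟨N, mem_iInter₂.2 hN⟩
  rw [hm.measure_iUnion] at h1
  obtain ⟨N, hN⟩ := lt_iSup_iff.1 (hc.trans_le h1)
  filter_upwards [eventually_ge_atTop N] with i hi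
  exact hN.trans_le (measure_mono (biInter_subset_of_mem hi))

theorem den_anti {d : ℕ} {Z : Set (E d)} {r r' : ℝ} (h : r' ≤ r) : Den Z r ⊆ Den Z r' :=
  fun _ hx => ⟨hx.1, fun τ h0 h1 => hx.2 τ h0 (h1.trans h)⟩

/-- a translation that avoids a null set almost everywhere on the tori. -/
theorem exists_shift {d p : ℕ} (T : Fin 3 → (Fin p → ℝ) → E d) (hT : ∀ k, Continuous (T k))
    {G : E d → Prop} (hG : ∀ᵐ x, G x) : ∃ x₀ : E d, ∀ k, ∀ᵐ θ ∂tor p, G (x₀ + T k θ) := by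
  obtain ⟨N, hN1, hN2, hN3⟩ := exists_measurable_superset_of_null (ae_iff.1 hG)
  have h1 : ∀ k, ∀ᵐ x₀ : E d, ∀ᵐ θ ∂tor p, x₀ + T k θ ∉ N := by
    intro k
    have hm : MeasurableSet {z : (Fin p → ℝ) × E d | z.2 + T k z.1 ∉ N} :=
      (hN2.preimage (measurable_snd.add ((hT k).measurable.comp measurable_fst))).compl
    refine (Measure.ae_ae_comm (μ := tor p) (ν := volume)
      (p := fun θ x₀ => x₀ + T k θ ∉ N) hm).1 (Eventually.of_forall fun θ => ?_)
    exact (measurePreserving_add_right volume (T k θ)).quasiMeasurePreserving.ae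
      (measure_eq_zero_iff_ae_notMem.1 hN3)
  obtain ⟨x₀, hx₀⟩ := (ae_all_iff.2 h1).exists
  refine ⟨x₀, fun k => (hx₀ k).mono fun θ hθ => ?_⟩
  by_contra hb
  exact hθ (hN1 hb)

end LevA

open LevA

theorem sLev : SClo → SDen → SCls → SExhI → SLev := by
  intro hClo hDen hCls hExh d n p P u hd hu T hT
  have : Nonempty (Fin d) := ⟨⟨0, hd⟩⟩
  let Good : E d → E d → Prop := fun x a => ∃ D₀ : ℕ, ∀ D, D₀ ≤ D → ∃ j₀ : ℕ, ∀ j, j₀ ≤ j →
    ∃ c, x ∈ Pc u D (4 * D + p + 1) j (Cl c j (‖a‖⁻¹ • a))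
  have hm : MeasurableSet {z : E d × E d | Good z.1 z.2} := by
    rw [measurableSet_setOfPred]
    refine Measurable.exists fun D₀ => Measurable.forall fun D => Measurable.imp measurable_const
      (Measurable.exists fun j₀ => Measurable.forall fun j => Measurable.imp measurable_const
        (Measurable.exists fun c => ?_))
    have hf : Measurable fun z : E d × E d => (z.1, ‖z.2‖⁻¹ • z.2) := by fun_prop
    exact measurableSet_setOfPred.1
      ((hClo d n u D (4 * D + p + 1) j c).measurableSet.preimage hf)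
  have h1 : ∀ᵐ x : E d, ∀ᵐ a : E d, Good x a := by
    filter_upwards [hCls d n P u hu] with x hx
    obtain ⟨Q, hQ, hQ'⟩ := hx
    filter_upwards [hExh d n u x Q hd hQ hQ'] with a ha
    obtain ⟨D₀, hD₀⟩ := ha
    exact ⟨D₀, fun D hD => hD₀ D hD _⟩
  have h2 : ∀ᵐ a : E d, a ≠ 0 := compl_mem_ae_iff.2 (measure_singleton (0 : E d))
  obtain ⟨a, ha, ha0⟩ := (((Measure.ae_ae_comm (p := Good) hm).1 h1).and h2).exists
  have hw : ‖‖a‖⁻¹ • a‖ = 1 := norm_smul_inv_norm ha0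
  simp only [Good] at ha
  generalize ‖a‖⁻¹ • a = w at ha hw
  have h3 : ∀ᵐ x : E d, ∀ (D j : ℕ) (c : Fin 4), x ∈ Pc u D (4 * D + p + 1) j (Cl c j w) →
      ∃ r > 0, x ∈ Den (Pc u D (4 * D + p + 1) j (Cl c j w)) r :=
    ae_all_iff.2 fun D => ae_all_iff.2 fun j => ae_all_iff.2 fun c =>
      (hDen d _).2 (isClosed_pc hClo u D _ j c w).measurableSet
  obtain ⟨x₀, hx₀⟩ := exists_shift T hT (ha.and h3)
  have hc : ENNReal.ofReal (3 / 4) < tor p univ := by
    rw [measure_univ, ENNReal.ofReal_lt_one]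
    norm_num
  have e1 : ∀ k, ∀ᶠ D : ℕ in atTop, ENNReal.ofReal (3 / 4) < tor p {θ | ∀ᶠ j : ℕ in atTop,
      ∃ c, x₀ + T k θ ∈ Pc u D (4 * D + p + 1) j (Cl c j w)} := by
    intro k
    refine exh (tor p) ?_ hc
    filter_upwards [hx₀ k] with θ hθ _
    obtain ⟨D₀, hD₀⟩ := hθ.1
    exact eventually_atTop.2 ⟨D₀, fun D hD => eventually_atTop.2 (hD₀ D hD)⟩
  obtain ⟨D, hD⟩ := (eventually_all.2 e1).exists
  have e2 : ∀ k, ∀ᶠ j : ℕ in atTop, ENNReal.ofReal (3 / 4) < tor p {θ |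
      ∃ c, x₀ + T k θ ∈ Pc u D (4 * D + p + 1) j (Cl c j w)} := fun k =>
    exh (tor p) (Eventually.of_forall fun θ hθ => hθ) (hD k)
  obtain ⟨j, hj, hj1⟩ := ((eventually_all.2 e2).and (eventually_ge_atTop 1)).exists
  have e3 : ∀ k, ∀ᶠ i : ℕ in atTop, ENNReal.ofReal (3 / 4) < tor p {θ |
      ∃ c, x₀ + T k θ ∈ Den (Pc u D (4 * D + p + 1) j (Cl c j w)) (1 / ((i : ℝ) + 1))} := by
    intro k
    refine exh (tor p) ?_ (hj k)
    filter_upwards [hx₀ k] with θ hθ hB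
    obtain ⟨c, hc⟩ := hB
    obtain ⟨r, hr, hr'⟩ := hθ.2 D j c hc
    filter_upwards [tendsto_one_div_add_atTop_nhds_zero_nat.eventually (ge_mem_nhds hr)] with i hi
    exact ⟨c, den_anti hi hr'⟩
  obtain ⟨i, hi⟩ := (eventually_all.2 e3).exists
  exact ⟨w, x₀, D, j, 1 / ((i : ℝ) + 1), hw, hj1, Nat.one_div_pos_of_nat, fun k =>
    (ENNReal.ofReal_le_iff_le_toReal (measure_ne_top _ _)).1 (hi k).le⟩

end Pool.Agent.MP_66cee2_co.XI
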