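import Pool.Agent.MP_66cee2_co.XI.Kit

/-
The Schur test on the torus.
-/

namespace Pool.Agent.MP_66cee2_co.XI

open MeasureTheory Set Filter
open scoped ComplexConjugate

namespace SchA

theorem intg {Y F : Type*} [MeasurableSpace Y] [NormedAddCommGroup F] [MeasurableSpace F]
    [BorelSpace F] [SecondCountableTopology F] (ν : Measure Y) [IsFiniteMeasure ν] {f : Y → F}
    (hf : Measurable f) (C : ℝ) (h : ∀ y, ‖f y‖ ≤ C) : Integrable f ν :=
  Integrable.of_bound hf.aestronglyMeasurable C (ae_of_all _ h)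

variable {X κ : Type*} [MeasurableSpace X] [Fintype κ]

/-- The abstract setting. -/
structure Dat (A : Set X) (w : κ → X → ℝ) (e : X → X → ℂ) : Prop where
  ms : MeasurableSet A
  mw : ∀ k, Measurable (w k)
  me : Measurable fun x : X × X => e x.1 x.2
  sq : ∀ a, ∑ k, w k a ^ 2 = A.indicator 1 a
  ne : ∀ a b, ‖e a b‖ ≤ 1

variable {A : Set X} {w : κ → X → ℝ} {e : X → X → ℂ}

omit [MeasurableSpace X] in
theorem ind_le (A : Set X) (a : X) : A.indicator (1 : X → ℝ) a ≤ 1 := by
  by_cases h : a ∈ A <;> simp [h]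

theorem Dat.abs_le (h : Dat A w e) (k : κ) (a : X) : |w k a| ≤ 1 := by
  rw [← sq_le_one_iff_abs_le_one]
  refine le_trans ?_ ((h.sq a).le.trans (ind_le A a))
  exact Finset.single_le_sum (f := fun k => w k a ^ 2) (fun _ _ => sq_nonneg _)
    (Finset.mem_univ k)

theorem Dat.ker_le (h : Dat A w e) (a b : X) : |∑ k, w k a * w k b| ≤ A.indicator 1 a := by
  have h1 := Finset.sum_mul_sq_le_sq_mul_sq Finset.univ (fun k => w k a) fun k => w k b
  rw [h.sq, h.sq] at h1
  have h2 := ind_le A b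
  by_cases ha : a ∈ A
  · simp only [ha, indicator_of_mem, Pi.one_apply, one_mul] at h1 ⊢
    exact (sq_le_one_iff_abs_le_one _).1 (h1.trans h2)
  · simp only [ha, not_false_eq_true, indicator_of_notMem, zero_mul] at h1 ⊢
    exact (abs_eq_zero.2 (pow_eq_zero_iff two_ne_zero |>.1 (le_antisymm h1 (sq_nonneg _)))).le

theorem Dat.me' (h : Dat A w e) {Y : Type*} [MeasurableSpace Y] {f g : Y → X} (hf : Measurable f)
    (hg : Measurable g) : Measurable fun y => e (f y) (g y) := h.me.comp (hf.prodMk hg)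

theorem Dat.norm_le (h : Dat A w e) (k : κ) (a b : X) : ‖(w k b : ℂ) * e a b‖ ≤ 1 := by
  rw [norm_mul, Complex.norm_real, Real.norm_eq_abs]
  exact mul_le_one₀ (h.abs_le k b) (norm_nonneg _) (h.ne a b)

/-- The transform in one variable. -/
noncomputable def G (μ : Measure X) (w : κ → X → ℝ) (e : X → X → ℂ) (k : κ) (a : X) : ℂ :=
  ∫ b, (w k b : ℂ) * e a b ∂μ

variable (μ : Measure X) [IsProbabilityMeasure μ]

theorem Dat.mG (h : Dat A w e) (k : κ) : Measurable (G μ w e k) := by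
  have : Measurable fun x : X × X => (w k x.2 : ℂ) * e x.1 x.2 :=
    (Complex.measurable_ofReal.comp ((h.mw k).comp measurable_snd)).mul h.me
  exact (this.stronglyMeasurable.integral_prod_right' (ν := μ)).measurable

theorem Dat.nG (h : Dat A w e) (k : κ) (a : X) : ‖G μ w e k a‖ ≤ 1 := by
  have := norm_integral_le_of_norm_le_const (μ := μ) (ae_of_all _ fun b => h.norm_le k a b)
  simpa [G] using this

theorem Dat.iw (h : Dat A w e) (k : κ) (a : X) : Integrable (fun b => (w k b : ℂ) * e a b) μ :=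
  intg μ ((Complex.measurable_ofReal.comp (h.mw k)).mul (h.me' measurable_const measurable_id)) 1
    (h.norm_le k a)

theorem Dat.mker (h : Dat A w e) :
    Measurable fun x : X × X => ((∑ k, w k x.1 * w k x.2 : ℝ) : ℂ) :=
  Complex.measurable_ofReal.comp (Finset.measurable_sum _ fun k _ =>
    ((h.mw k).comp measurable_fst).mul ((h.mw k).comp measurable_snd))

theorem Dat.nker (h : Dat A w e) (a b : X) : ‖((∑ k, w k a * w k b : ℝ) : ℂ)‖ ≤ 1 := by
  rw [Complex.norm_real, Real.norm_eq_abs]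
  exact (h.ker_le a b).trans (ind_le A a)

theorem Dat.step1 (h : Dat A w e) :
    ∫ x : X × X, ((∑ k, w k x.1 * w k x.2 : ℝ) : ℂ) * e x.1 x.2 ∂μ.prod μ =
      ∫ a, ∑ k, (w k a : ℂ) * G μ w e k a ∂μ := by
  have hi : Integrable (fun x : X × X => ((∑ k, w k x.1 * w k x.2 : ℝ) : ℂ) * e x.1 x.2)
      (μ.prod μ) := intg _ (h.mker.mul h.me) 1 fun x => by
    rw [norm_mul]; exact mul_le_one₀ (h.nker _ _) (norm_nonneg _) (h.ne _ _)
  rw [integral_prod _ hi]
  refine integral_congr_ae (ae_of_all _ fun a => ?_)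
  simp only [G, ← integral_const_mul]
  rw [← integral_finsetSum _ fun k _ => (h.iw μ k a).const_mul _]
  refine integral_congr_ae (ae_of_all _ fun b => ?_)
  simp only [Complex.ofReal_sum, Complex.ofReal_mul, Finset.sum_mul, mul_assoc]

theorem Dat.isq (h : Dat A w e) : Integrable (fun a => ∑ k, ‖G μ w e k a‖ ^ 2) μ :=
  integrable_finsetSum _ fun k _ => intg μ ((h.mG μ k).norm.pow_const 2) 1 fun a => by
    rw [norm_pow, norm_norm]
    exact pow_le_one₀ (norm_nonneg _) (h.nG μ k a)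

theorem Dat.iind (h : Dat A w e) : Integrable (A.indicator (1 : X → ℝ)) μ :=
  (integrable_const (1 : ℝ)).indicator h.ms

theorem Dat.step2 (h : Dat A w e) (t : ℝ) :
    2 * t * ‖∫ a, ∑ k, (w k a : ℂ) * G μ w e k a ∂μ‖ ≤
      t ^ 2 * μ.real A + ∫ a, ∑ k, ‖G μ w e k a‖ ^ 2 ∂μ := by
  have h1 : ∀ a, ‖((2 * t : ℝ) : ℂ) * ∑ k, (w k a : ℂ) * G μ w e k a‖ ≤
      t ^ 2 * A.indicator 1 a + ∑ k, ‖G μ w e k a‖ ^ 2 := by
    intro a
    rw [← h.sq, Finset.mul_sum, Finset.mul_sum, ← Finset.sum_add_distrib]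
    refine (norm_sum_le _ _).trans (Finset.sum_le_sum fun k _ => ?_)
    rw [norm_mul, norm_mul, Complex.norm_real, Complex.norm_real, Real.norm_eq_abs,
      Real.norm_eq_abs, abs_mul, abs_two, ← sq_abs t, ← sq_abs (w k a)]
    nlinarith [sq_nonneg (|t| * |w k a| - ‖G μ w e k a‖)]
  have h2 := norm_integral_le_of_norm_le (((h.iind μ).const_mul (t ^ 2)).add (h.isq μ))
    (ae_of_all _ h1)
  rw [integral_const_mul, norm_mul, Complex.norm_real, Real.norm_eq_abs] at h2
  refine le_trans (mul_le_mul_of_nonneg_right (le_abs_self _) (norm_nonneg _)) (h2.trans_eq ?_)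
  simp only [Pi.add_apply]
  rw [integral_add ((h.iind μ).const_mul _) (h.isq μ), integral_const_mul,
    integral_indicator_one h.ms]

theorem Dat.step3 (h : Dat A w e) (a : X) : ((∑ k, ‖G μ w e k a‖ ^ 2 : ℝ) : ℂ) =
    ∫ x : X × X, ((∑ k, w k x.1 * w k x.2 : ℝ) : ℂ) * (e a x.1 * conj (e a x.2)) ∂μ.prod μ := by
  have h1 : ∀ k, ((‖G μ w e k a‖ ^ 2 : ℝ) : ℂ) =
      ∫ x : X × X, ((w k x.1 : ℂ) * e a x.1) * conj ((w k x.2 : ℂ) * e a x.2) ∂μ.prod μ := by
    intro k
    rw [integral_prod_mul (fun b => (w k b : ℂ) * e a b) fun b => conj ((w k b : ℂ) * e a b),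
      integral_conj, Complex.ofReal_pow, ← Complex.mul_conj']
    rfl
  have h2 : ∀ k, Integrable
      (fun x : X × X => ((w k x.1 : ℂ) * e a x.1) * conj ((w k x.2 : ℂ) * e a x.2)) (μ.prod μ) := by
    intro k
    have hm : Measurable fun b => (w k b : ℂ) * e a b :=
      (Complex.measurable_ofReal.comp (h.mw k)).mul (h.me' measurable_const measurable_id)
    refine intg _ ((hm.comp measurable_fst).mul
      (Complex.continuous_conj.measurable.comp (hm.comp measurable_snd))) 1 fun x => ?_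
    rw [norm_mul, Complex.norm_conj]
    exact mul_le_one₀ (h.norm_le k a _) (norm_nonneg _) (h.norm_le k a _)
  rw [Complex.ofReal_sum, Finset.sum_congr rfl fun k _ => h1 k,
    ← integral_finsetSum _ fun k _ => h2 k]
  refine integral_congr_ae (ae_of_all _ fun x => ?_)
  simp only [Complex.ofReal_sum, Complex.ofReal_mul, Finset.sum_mul, map_mul, Complex.conj_ofReal]
  exact Finset.sum_congr rfl fun k _ => by ring

theorem Dat.step4 (h : Dat A w e) {J : ℝ}
    (hJ : ∀ b, ∫ b', ‖∫ a, e a b * conj (e a b') ∂μ‖ ∂μ ≤ J) :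
    ∫ a, ∑ k, ‖G μ w e k a‖ ^ 2 ∂μ ≤ μ.real A * J := by
  have hm : Measurable fun y : X × X × X => e y.1 y.2.1 * conj (e y.1 y.2.2) :=
    (h.me' measurable_fst measurable_snd.fst).mul
      (Complex.continuous_conj.measurable.comp (h.me' measurable_fst measurable_snd.snd))
  have hn : ∀ a b b', ‖e a b * conj (e a b')‖ ≤ 1 := fun a b b' => by
    rw [norm_mul, Complex.norm_conj]
    exact mul_le_one₀ (h.ne _ _) (norm_nonneg _) (h.ne _ _)
  have hK : Measurable fun x : X × X => ‖∫ a, e a x.1 * conj (e a x.2) ∂μ‖ :=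
    (hm.stronglyMeasurable.integral_prod_left' (μ := μ)).measurable.norm
  have hKn : ∀ x : X × X, ‖∫ a, e a x.1 * conj (e a x.2) ∂μ‖ ≤ 1 := fun x => by
    simpa using norm_integral_le_of_norm_le_const (μ := μ) (ae_of_all _ fun a => hn a x.1 x.2)
  have hi : Integrable (fun x : X × X =>
      A.indicator (1 : X → ℝ) x.1 * ‖∫ a, e a x.1 * conj (e a x.2) ∂μ‖) (μ.prod μ) := by
    refine intg _ (((measurable_one.indicator h.ms).comp measurable_fst).mul hK) 1 fun x => ?_
    rw [norm_mul, norm_norm]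
    refine mul_le_one₀ ?_ (norm_nonneg _) (hKn x)
    by_cases hx : x.1 ∈ A <;> simp [hx]
  have e1 : ((∫ a, ∑ k, ‖G μ w e k a‖ ^ 2 ∂μ : ℝ) : ℂ) = ∫ x : X × X,
      ((∑ k, w k x.1 * w k x.2 : ℝ) : ℂ) * ∫ a, e a x.1 * conj (e a x.2) ∂μ ∂μ.prod μ := by
    rw [← integral_complex_ofReal]
    simp only [← integral_const_mul]
    rw [← integral_integral_swap]
    · exact integral_congr_ae (ae_of_all _ fun a => h.step3 μ a)
    · refine intg _ ((h.mker.comp measurable_snd).mul hm) 1 fun y => ?_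
      simp only [Function.uncurry]
      rw [norm_mul]
      exact mul_le_one₀ (h.nker _ _) (norm_nonneg _) (hn _ _ _)
  calc ∫ a, ∑ k, ‖G μ w e k a‖ ^ 2 ∂μ ≤ ‖((∫ a, ∑ k, ‖G μ w e k a‖ ^ 2 ∂μ : ℝ) : ℂ)‖ := by
        rw [Complex.norm_real, Real.norm_eq_abs]
        exact le_abs_self _
    _ ≤ ∫ x : X × X, A.indicator (1 : X → ℝ) x.1 * ‖∫ a, e a x.1 * conj (e a x.2) ∂μ‖
          ∂μ.prod μ := by
        rw [e1]
        refine norm_integral_le_of_norm_le hi (ae_of_all _ fun x => ?_)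
        rw [norm_mul, Complex.norm_real, Real.norm_eq_abs]
        exact mul_le_mul_of_nonneg_right (h.ker_le _ _) (norm_nonneg _)
    _ ≤ ∫ b, A.indicator (1 : X → ℝ) b * J ∂μ := by
        rw [integral_prod _ hi]
        refine integral_mono hi.integral_prod_left ((h.iind μ).mul_const J) fun b => ?_
        simp only [integral_const_mul]
        exact mul_le_mul_of_nonneg_left (hJ b) (indicator_nonneg (fun _ _ => zero_le_one) b)
    _ = μ.real A * J := by rw [integral_mul_const, integral_indicator_one h.ms]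

theorem Dat.schur (h : Dat A w e) {J : ℝ}
    (hJ : ∀ b, ∫ b', ‖∫ a, e a b * conj (e a b') ∂μ‖ ∂μ ≤ J) :
    ‖∫ x : X × X, ((∑ k, w k x.1 * w k x.2 : ℝ) : ℂ) * e x.1 x.2 ∂μ.prod μ‖ ^ 2 ≤
      μ.real A ^ 2 * J := by
  rw [h.step1 μ]
  have h1 := discrim_le_zero (a := μ.real A)
    (b := -(2 * ‖∫ a, ∑ k, (w k a : ℂ) * G μ w e k a ∂μ‖)) (c := μ.real A * J) fun t => by
      nlinarith [h.step2 μ t, h.step4 μ hJ]
  rw [discrim] at h1
  nlinarith

theorem exp_ph {p : ℕ} (s : ℝ) (a b b' : Fin p → ℝ) :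
    Complex.exp (Complex.I * (s * ph a b : ℝ)) * conj (Complex.exp (Complex.I * (s * ph a b' : ℝ))) =
      ∏ i, Complex.exp (Complex.I *
        (s * (Real.cos (a i - b i) - Real.cos (a i - b' i)) : ℝ)) := by
  rw [← Complex.exp_conj, ← Complex.exp_add, ← Complex.exp_sum, map_mul, Complex.conj_I,
    Complex.conj_ofReal, ← Finset.mul_sum, ← Complex.ofReal_sum, ← Finset.mul_sum,
    Finset.sum_sub_distrib, ph, ph]
  congr 1
  push_cast
  ring

end SchA

open SchA in
theorem sSch : SSch := by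
  intro p ι _ A v hv s J hJ
  have hD : Dat A (fun (k : ι × ι) a => v a k.1 * v a k.2)
      fun a b => Complex.exp (Complex.I * (s * ph a b : ℝ)) := by
    refine ⟨hv.ms, fun k => hv.meas k.1 k.2, ?_, fun a => ?_, fun a b => ?_⟩
    · refine Continuous.measurable ?_
      unfold ph
      fun_prop
    · have e : ∑ k : ι × ι, (v a k.1 * v a k.2) ^ 2 = (v a ⬝ᵥ v a) * (v a ⬝ᵥ v a) := by
        rw [Fintype.sum_prod_type, dotProduct, Finset.sum_mul_sum]
        exact Finset.sum_congr rfl fun i _ => Finset.sum_congr rfl fun k _ => by ring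
      rw [e]
      by_cases ha : a ∈ A
      · simp [ha, hv.one a ha]
      · simp [ha, hv.zero a ha]
    · rw [mul_comm, Complex.norm_exp_ofReal_mul_I]
  have key := hD.schur (tor p) (J := J ^ p) fun b => by
    simp only [exp_ph]
    have e1 : ∀ b' : Fin p → ℝ, ‖∫ a : Fin p → ℝ, ∏ i, Complex.exp (Complex.I *
        (s * (Real.cos (a i - b i) - Real.cos (a i - b' i)) : ℝ)) ∂tor p‖ =
        ∏ i, ‖∫ a, Complex.exp (Complex.I *
          (s * (Real.cos (a - b i) - Real.cos (a - b' i)) : ℝ)) ∂circ‖ := by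
      intro b'
      rw [tor, integral_fintype_prod_eq_prod (fun i a => Complex.exp (Complex.I *
        (s * (Real.cos (a - b i) - Real.cos (a - b' i)) : ℝ))), norm_prod]
    simp only [e1]
    rw [tor, integral_fintype_prod_eq_prod (fun i β => ‖∫ a, Complex.exp (Complex.I *
      (s * (Real.cos (a - b i) - Real.cos (a - β)) : ℝ)) ∂circ‖)]
    refine (Finset.prod_le_prod (fun i _ => integral_nonneg fun _ => norm_nonneg _)
      fun i _ => hJ (b i)).trans_eq ?_
    simp
  have e : ∀ a b, ∑ k : ι × ι, v a k.1 * v a k.2 * (v b k.1 * v b k.2) = (v a ⬝ᵥ v b) ^ 2 := by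
    intro a b
    rw [Fintype.sum_prod_type, sq, dotProduct, Finset.sum_mul_sum]
    exact Finset.sum_congr rfl fun i _ => Finset.sum_congr rfl fun k _ => by ring
  simp only [e] at key
  exact key

end Pool.Agent.MP_66cee2_co.XI
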