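import Pool.Agent.MP_66cee2_co.XI.Kit

/-
Row Tor: three orthogonal flat tori.
-/

namespace Pool.Agent.MP_66cee2_co.XI

open Pool.Agent.MP_66cee2_co.X
open scoped RealInnerProductSpace

theorem sTor : STor := by
  classical
  intro d p hp hd
  obtain ⟨e⟩ : Nonempty (Fin 3 × (Fin p × Bool) ↪ Fin d) :=
    Function.Embedding.nonempty_of_card_le (by simp; omega)
  have hv : Orthonormal ℝ fun j : Fin 3 × (Fin p × Bool) =>
      (EuclideanSpace.single (e j) (1 : ℝ) : E d) :=
    (EuclideanSpace.orthonormal_single (𝕜 := ℝ) (ι := Fin d)).comp e e.injective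
  let c : (Fin p → ℝ) → Fin p × Bool → ℝ := fun a j =>
    (√(2 * p))⁻¹ * (if j.2 then Real.cos (a j.1) else Real.sin (a j.1))
  let T : Fin 3 → (Fin p → ℝ) → E d := fun k a =>
    ∑ j, c a j • (EuclideanSpace.single (e (k, j)) (1 : ℝ) : E d)
  have hin : ∀ k l a b, ⟪T k a, T l b⟫ = if k = l then ∑ j, c a j * c b j else 0 := by
    intro k l a b
    simp only [T, sum_inner, inner_sum, real_inner_smul_left, real_inner_smul_right,
      orthonormal_iff_ite.1 hv, Prod.mk.injEq]
    split_ifs with h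
    · simp [h, mul_comm]
    · simp [h]
  refine ⟨T, fun k => ?_, fun k a b => ?_, fun k l a b h => by rw [hin, if_neg h]⟩
  · refine continuous_finsetSum _ fun j _ => ?_
    have : Continuous fun a => c a j := by
      simp only [c]
      split_ifs <;> fun_prop
    fun_prop
  · have h2 : (0 : ℝ) < 2 * p := by positivity
    rw [hin, if_pos rfl, Fintype.sum_prod_type, ph, Finset.sum_div]
    refine Finset.sum_congr rfl fun i _ => ?_
    have h3 : (√(2 * p : ℝ))⁻¹ * (√(2 * p : ℝ))⁻¹ = (2 * p : ℝ)⁻¹ := by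
      rw [← mul_inv, Real.mul_self_sqrt h2.le]
    simp only [c, Fintype.sum_bool, if_true, Bool.false_eq_true, if_false, Real.cos_sub]
    rw [div_eq_mul_inv, ← h3]
    ring

end Pool.Agent.MP_66cee2_co.XI
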