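import Pool.Agent.MP_66cee2_co.XI.Edge
import Pool.Agent.MP_66cee2_co.XI.Aff1
import Pool.Agent.MP_66cee2_co.XI.Gau
import Pool.Agent.MP_66cee2_co.XI.Clo
import Pool.Agent.MP_66cee2_co.XI.Dat1
import Pool.Agent.MP_66cee2_co.XI.Sch
import Pool.Agent.MP_66cee2_co.XI.One
import Pool.Agent.MP_66cee2_co.XI.Cls
import Pool.Agent.MP_66cee2_co.XI.FL
import Pool.Agent.MP_66cee2_co.XI.Rem
import Pool.Agent.MP_66cee2_co.XI.Two
import Pool.Agent.MP_66cee2_co.XI.DatE
import Pool.Agent.MP_66cee2_co.XI.ExhI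
import Pool.Agent.MP_66cee2_co.XI.Bes1
import Pool.Agent.MP_66cee2_co.XI.Bes2
import Pool.Agent.MP_66cee2_co.XI.Aff2
import Pool.Agent.MP_66cee2_co.XI.Path
import Pool.Agent.MP_66cee2_co.XI.Spr
import Pool.Agent.MP_66cee2_co.XI.Lev
import Pool.Agent.MP_66cee2_co.XI.Apx
import Pool.Agent.MP_66cee2_co.XI.Hol
import Pool.Agent.MP_66cee2_co.XI.Psd
import Pool.Agent.MP_66cee2_co.XI.Pin
import Pool.Agent.MP_66cee2_co.XI.FLT
import Pool.Agent.MP_66cee2_co.XI.End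
import Pool.Agent.MP_66cee2_co.XI.PosI
import Pool.Agent.MP_66cee2_co.XI.Sig
import Pool.Agent.MP_66cee2_co.XI.Che
import Pool.Agent.MP_66cee2_co.XI.Den
import Pool.Agent.MP_66cee2_co.XI.Par
import Pool.Agent.MP_66cee2_co.XI.Coef
import Pool.Agent.MP_66cee2_co.XI.Null
import Pool.Agent.MP_66cee2_co.XI.Tor
import Pool.Agent.MP_66cee2_co.XI.Dec
import Pool.Agent.MP_66cee2_co.XI.Main

/-
Exponential lower bound, second half: the theorem.
-/

namespace Pool.Agent.MP_66cee2_co.XI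

open Pool.Agent.MP_66cee2_co.X

theorem sI_all : SI :=
  have hRem := sRem sNull
  have hSig := sSig sNull
  have hEdge := sEdge hRem sCoef hSig
  have hHol := sHol hRem sCoef
  sI_of sTor (sLev sClo sDen (sCls hRem sDen) (sExhI sNull))
    (sFLT (sFL (sBes2 sBes1) sSch (sGau sCoef) sChe) sPsd sApx sDen) sClo
    (sDatE hEdge hHol sOne) (sDat1 hEdge hHol sOne) sPsd sChe
    (sPosI sNull sClo hEdge (sAff2 sNull (sAff1 sNull (sTwo sOne) sDec)) (sPath sDec)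
      (sPar hRem sDen))
    (sEnd hSig (sPin hSig) (sSpr hSig sDec))

end Pool.Agent.MP_66cee2_co.XI
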