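import Pool.Agent.MP_66cee2_co.XI.Kit

/-
Exponential lower bound, second half: from a set of positive measure to the conclusion.
-/

namespace Pool.Agent.MP_66cee2_co.XI

open MeasureTheory Set Filter Metric Topology Pool.Agent.MP_66cee2_co.X

namespace EndA

variable {d n : ℕ}

theorem lz_smul (a b : Ix n → ℝ) (t : ℝ) : lz a (t • b) = t * lz a b := by
  simp only [lz_eq, Pi.smul_apply, smul_eq_mul, mul_add, Finset.mul_sum]
  congr 1
  · congr 1
    · exact Finset.sum_congr rfl fun i _ => by ring
    · ring
  · ring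

theorem cont (T : E d →ₗᵢ[ℝ] E n) (c : E n) (a : Ix n) :
    Continuous fun y => lift (aff T c y) a := by
  have h : Continuous (aff T c) := T.continuous.add continuous_const
  rcases a with i | b
  · exact (EuclideanSpace.proj i : E n →L[ℝ] ℝ).continuous.comp h
  · cases b
    · exact continuous_const.sub (h.norm.pow 2)
    · exact continuous_const

theorem pin (hP : SPin) (hd : 2 ≤ d) {P : E d → Matrix (Ix n) (Ix n) ℝ} (hF : Field P)
    (T : E d →ₗᵢ[ℝ] E n) (c : E n) (R : E d → Ix n → ℝ) (S : Set (E d))
    (hS : ∀ y ∈ S, ∃ t : ℝ, t ≠ 0 ∧ R y = t • lift (aff T c y))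
    (ho : AePair fun x y => ∀ a, lz (P x a) (R y) = 0) :
    ∀ᵐ x, sig d {w | x + w ∈ S} ≠ 0 → 0 < P x sI sI ∧
      ∀ a b, P x a b = P x sI sI * lift (aff T c x) a * lift (aff T c x) b := by
  filter_upwards [hF.pos, ho] with x hx hx' h0
  refine ⟨hx.2.1, hP d n hd T c x (P x) hx.1 hx.2.2 fun h => h0 ?_⟩
  refine le_antisymm (le_trans (measure_mono_ae ?_) h.le) zero_le
  filter_upwards [hx'] with w hw hw' a
  obtain ⟨t, ht, e⟩ := hS _ hw'
  have := hw a
  rw [e, lz_smul] at this
  exact (mul_eq_zero.1 this).resolve_left ht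

theorem pos (hs : sig d univ ≠ 0) {S : Set (E d)} (hS : MeasurableSet S) (h0 : volume S ≠ 0) :
    ¬ ∀ᵐ x : E d, sig d {w | x + w ∈ S} = 0 := by
  intro h
  have h1 : ∀ᵐ x : E d, ∀ᵐ w ∂sig d, x + w ∉ S := by
    filter_upwards [h] with x hx
    rw [ae_iff]
    simpa using hx
  have hm : MeasurableSet {p : E d × E d | p.1 + p.2 ∉ S} :=
    (measurable_fst.add measurable_snd) hS.compl
  have h2 := (Measure.ae_ae_comm (p := fun x w : E d => x + w ∉ S) hm).1 h1
  have : NeZero (sig d) := ⟨fun e => hs (by rw [e]; rfl)⟩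
  obtain ⟨w, hw⟩ := h2.exists
  rw [ae_iff] at hw
  apply h0
  rw [← measure_preimage_add_right volume w S]
  simp only [not_not] at hw
  exact hw

end EndA

theorem sEnd : SSig → SPin → SSpr → SEnd := by
  intro hs hP hR d n hd P u hF hJ T c h0
  have hG := EndA.cont T c
  have hu : ∀ a, Measurable fun y => u y a := fun a => (measurable_pi_apply a).comp hJ.meas
  have hm0 : MeasurableSet {y | ∀ a b,
      lift (aff T c y) a * u y b = lift (aff T c y) b * u y a} := by
    simp only [ofPred_forall]
    exact MeasurableSet.iInter fun a => MeasurableSet.iInter fun b =>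
      measurableSet_eq_fun ((hG a).measurable.mul (hu b)) ((hG b).measurable.mul (hu a))
  have hm : MeasurableSet {x | 0 < P x sI sI ∧
      ∀ a b, P x a b = P x sI sI * lift (aff T c x) a * lift (aff T c x) b} := by
    simp only [ofPred_and, ofPred_forall]
    exact (measurableSet_lt measurable_const (hF.meas _ _)).inter
      (MeasurableSet.iInter fun a => MeasurableSet.iInter fun b => measurableSet_eq_fun
        (hF.meas a b) (((hF.meas _ _).mul (hG a).measurable).mul (hG b).measurable))
  have h1 := EndA.pin hP hd hF T c u _ (fun y (hy : ∀ a b,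
      lift (aff T c y) a * u y b = lift (aff T c y) b * u y a) => by
    have e : u y = u y sI • lift (aff T c y) := funext fun b => by
      have := hy sI b
      rw [show lift (aff T c y) sI = 1 from rfl, one_mul] at this
      rw [this, Pi.smul_apply, smul_eq_mul, mul_comm]
    refine ⟨u y sI, fun h => ?_, e⟩
    have := hJ.unit y
    rw [e, h] at this
    simp at this) (by
    filter_upwards [hJ.pin] with x hx
    filter_upwards [hx] with w hw a using (hw a).1)
  have h2 := EndA.pin hP hd hF T c (fun y => P y sI) _ (fun y (hy : 0 < P y sI sI ∧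
      ∀ a b, P y a b = P y sI sI * lift (aff T c y) a * lift (aff T c y) b) =>
    ⟨P y sI sI, hy.1.ne', funext fun b => by
      rw [hy.2 sI b, Pi.smul_apply, smul_eq_mul]
      simp [lift]⟩) (by
    filter_upwards [hF.orth] with x hx
    filter_upwards [hx] with w hw a using hw a sI)
  have h3 := hR d _ hd hm (fun h => EndA.pos (hs d hd).2.1 hm0 h0 (by
    filter_upwards [h1, measure_eq_zero_iff_ae_notMem.1 h] with x hx hx'
    by_contra hc
    exact hx' (hx hc))) h2
  filter_upwards [h3] with x hx using hx.2

end Pool.Agent.MP_66cee2_co.XI
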