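import Pool.Agent.MP_66cee2_co.X.DefsJ

/-
Exponential lower bound, second half of the measurable theorem: definitions and statements.
-/

namespace Pool.Agent.MP_66cee2_co.XI

open MeasureTheory Set Filter Metric Topology Polynomial Pool.Agent.MP_66cee2_co.X
open scoped ENNReal RealInnerProductSpace

/-- polynomials on Euclidean space. -/
abbrev MP (d : ℕ) : Type := MvPolynomial (Fin d) ℝ

/-- evaluation of a vector of polynomials. -/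
noncomputable def evv {d n : ℕ} (Q : Ix n → MP d) (z : E d) : Ix n → ℝ := fun a => ev (Q a) z

/-- a measurable field of unit vectors, orthogonal on almost every unit pair. -/
structure UF {d n : ℕ} (u : E d → Ix n → ℝ) : Prop where
  meas : Measurable u
  unit : ∀ x, u x ⬝ᵥ u x = 1
  orth : AePair fun x y => lz (u x) (u y) = 0

/-- the points where the polynomial vector is not nearly parallel to the field. -/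
def badS {d n : ℕ} (u : E d → Ix n → ℝ) (Q : Ix n → MP d) (ε : ℝ) : Set (E d) :=
  {z | ∃ a b, ε < |ev (Q a) z * u z b - ev (Q b) z * u z a|}

/-- `B` fills at most the fraction `1 / (16 * 4 ^ d)` of the ball. -/
def Thin {d : ℕ} (B : Set (E d)) (x : E d) (τ : ℝ) : Prop :=
  volume (B ∩ ball x τ) ≤ (16 * 4 ^ d : ℝ≥0∞)⁻¹ * volume (ball (0 : E d) τ)

/-- `Q` (global coordinates) is parallel to `u` to infinite order at `x`. -/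
def JetAt {d n : ℕ} (u : E d → Ix n → ℝ) (x : E d) (Q : Ix n → MP d) : Prop :=
  ∀ K : ℕ, ∃ C : ℝ, ∃ τ₀ > 0, ∀ τ, 0 < τ → τ ≤ τ₀ → Thin (badS u Q (C * τ ^ K)) x τ

/-- `Q` is admissible at `x` at level `(D, K, j)`. -/
structure Adm {d n : ℕ} (u : E d → Ix n → ℝ) (D K j : ℕ) (x : E d) (Q : Ix n → MP d) : Prop where
  deg : ∀ a, (Q a).totalDegree ≤ D
  cf : ∀ a α, |MvPolynomial.coeff α (Q a)| ≤ 1
  thin : ∀ τ : ℝ, 0 < τ → j * τ ≤ 1 → Thin (badS u Q (j * τ ^ K)) x τ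

/-- restriction of a polynomial to the line `x + t w`. -/
noncomputable def ln {d : ℕ} (q : MP d) (x w : E d) : ℝ[X] :=
  MvPolynomial.aeval (fun i => C (x i) + C (w i) * X) q

/-- coefficient of `t ^ k` in `q (t w)`. -/
noncomputable def co {d : ℕ} (q : MP d) (w : E d) (k : ℕ) : ℝ := (ln q 0 w).coeff k

/-- `q (t w)` has degree at most `m`. -/
def DegL {d : ℕ} (q : MP d) (w : E d) (m : ℕ) : Prop := ∀ k, m < k → co q w k = 0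

/-- the vector is a multiple of a lift. -/
def GC {d n : ℕ} (Q : Ix n → MP d) : Prop := ∀ z, lz (evv Q z) (evv Q z) = ev (Q sI) z ^ 2

/-- Euclidean class. -/
def ClE {d n : ℕ} (j : ℕ) (w : E d) (Q : Ix n → MP d) : Prop :=
  Q sI = 0 ∧ ∃ m, (∀ i, DegL (Q (Sum.inl i)) w m) ∧ 1 ≤ (j : ℝ) * ∑ i, co (Q (Sum.inl i)) w m ^ 2

/-- superlinear class. -/
def Cl0 {d n : ℕ} (j : ℕ) (w : E d) (Q : Ix n → MP d) : Prop :=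
  GC Q ∧ ∃ m k, m + 2 ≤ k ∧ DegL (Q sI) w m ∧ (∀ i, DegL (Q (Sum.inl i)) w k) ∧
    1 ≤ (j : ℝ) * co (Q sI) w m ^ 2 ∧ 1 ≤ (j : ℝ) * ∑ i, co (Q (Sum.inl i)) w k ^ 2

/-- class with slope of length different from one. -/
def Cl1 {d n : ℕ} (j : ℕ) (w : E d) (Q : Ix n → MP d) : Prop :=
  GC Q ∧ ∃ m, DegL (Q sI) w m ∧ (∀ i, DegL (Q (Sum.inl i)) w (m + 1)) ∧
    1 ≤ (j : ℝ) * co (Q sI) w m ^ 2 ∧
    1 ≤ (j : ℝ) * |co (Q sI) w m ^ 2 - ∑ i, co (Q (Sum.inl i)) w (m + 1) ^ 2|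

/-- qualitative form of the isometric class. -/
def Iso2 {d n : ℕ} (Q : Ix n → MP d) (m : ℕ) : Prop :=
  GC Q ∧ (Q sI).totalDegree ≤ m ∧ (∀ i, (Q (Sum.inl i)).totalDegree ≤ m + 1) ∧
    ∀ z : E d, ∑ i, co (Q (Sum.inl i)) z (m + 1) ^ 2 = ‖z‖ ^ 2 * co (Q sI) z m ^ 2

/-- isometric class. -/
def Cl2 {d n : ℕ} (j : ℕ) (Q : Ix n → MP d) : Prop :=
  ∃ m, Iso2 Q m ∧ ∃ α : Fin d →₀ ℕ, α.degree = m ∧
    1 ≤ (j : ℝ) * MvPolynomial.coeff α (Q sI) ^ 2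

/-- the four classes. -/
def Cl {d n : ℕ} (c : Fin 4) (j : ℕ) (w : E d) (Q : Ix n → MP d) : Prop :=
  (c = 0 ∧ ClE j w Q) ∨ (c = 1 ∧ Cl0 j w Q) ∨ (c = 2 ∧ Cl1 j w Q) ∨ (c = 3 ∧ Cl2 j Q)

/-- a piece. -/
def Pc {d n : ℕ} (u : E d → Ix n → ℝ) (D K j : ℕ) (Φ : (Ix n → MP d) → Prop) : Set (E d) :=
  {x | ‖x‖ ≤ j ∧ ∃ Q, Adm u D K j x Q ∧ Φ Q}

/-- the identity on all unit pairs. -/
def EdgeId {d n : ℕ} (Q Q' : Ix n → MP d) : Prop :=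
  ∀ z w : E d, ‖w‖ = 1 → lz (evv Q z) (evv Q' (z + w)) = 0

/-- points of `Z` where the complement is thin at all scales up to `r`. -/
def Den {d : ℕ} (Z : Set (E d)) (r : ℝ) : Set (E d) :=
  {x | x ∈ Z ∧ ∀ τ, 0 < τ → τ ≤ r → Thin Zᶜ x τ}

/-- a field of unit vectors on `Z`, flat of order `p` up to sign, orthogonal on unit pairs. -/
structure Flat {d n : ℕ} (Z : Set (E d)) (V : E d → Ix n → ℝ) (p : ℕ) : Prop where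
  bdd : ∃ C, ∀ x ∈ Z, ∀ a, |V x a| ≤ C
  hol : ∃ C r : ℝ, 0 < r ∧ ∀ x ∈ Z, ∀ y ∈ Z, ‖x - y‖ ≤ r → ∀ a b,
    |V x a * V x b - V y a * V y b| ≤ C * ‖x - y‖ ^ p
  one : ∀ x ∈ Z, lz (V x) (V x) = 1
  orth : ∀ x ∈ Z, ∀ y ∈ Z, ‖x - y‖ = 1 → lz (V x) (V y) = 0

/-- the Lorentz form is nonnegative on the span. -/
def Psd {n : ℕ} (A : Set (Ix n → ℝ)) : Prop := ∀ v ∈ Submodule.span ℝ A, 0 ≤ lz v v

/-- uniform probability on the circle. -/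
noncomputable def circ : Measure ℝ :=
  (ENNReal.ofReal (2 * Real.pi))⁻¹ • volume.restrict (Ioc 0 (2 * Real.pi))

/-- uniform probability on the torus. -/
noncomputable def tor (p : ℕ) : Measure (Fin p → ℝ) := Measure.pi fun _ => circ

/-- the phase. -/
noncomputable def ph {p : ℕ} (a b : Fin p → ℝ) : ℝ := ∑ i, Real.cos (a i - b i)

/-- common neighbour of `0` and `h` near `v`. -/
noncomputable def wv {d : ℕ} (v h : E d) : E d := (1 / 2 : ℝ) • h + √(1 - ‖h‖ ^ 2 / 4) • v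

/-- the affine map `T z + c`. -/
noncomputable def aff {d n : ℕ} (T : E d →ₗᵢ[ℝ] E n) (c : E n) (z : E d) : E n := T z + c

/-! ### Statements -/

/-- zero sets of polynomials are null. -/
def SNull : Prop := ∀ (d : ℕ) (q : MP d), q ≠ 0 → volume {z : E d | ev q z = 0} = 0

/-- Remez inequality. -/
def SRem : Prop :=
  ∀ d m : ℕ, ∃ C : ℝ, 0 ≤ C ∧ ∀ q : MP d, q.totalDegree ≤ m → ∀ (x : E d) (τ ε R : ℝ),
    0 < τ → τ ≤ R → 0 ≤ ε →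
    volume ({z | ε < |ev q z|} ∩ ball x τ) ≤ 2⁻¹ * volume (ball (0 : E d) τ) →
    ∀ z, ‖z - x‖ ≤ R → |ev q z| ≤ C * ε * (R / τ) ^ m

/-- one variable: values bound coefficients; high order vanishing. -/
def SCoef : Prop :=
  (∀ m : ℕ, ∃ C : ℝ, 0 ≤ C ∧ ∀ q : ℝ[X], q.natDegree ≤ m → ∀ A : ℝ,
    (∀ t ∈ Icc (0 : ℝ) 1, |q.eval t| ≤ A) → ∀ k, |q.coeff k| ≤ C * A) ∧
  ∀ (m : ℕ) (q : ℝ[X]) (B δ : ℝ), q.natDegree ≤ m → 0 < δ →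
    (∀ t ∈ Ioo (0 : ℝ) δ, |q.eval t| ≤ B * t ^ (m + 1)) → q = 0

/-- facts on the sphere measure. -/
def SSig : Prop :=
  ∀ d : ℕ, 2 ≤ d → (∀ᵐ w ∂sig d, ‖w‖ = 1) ∧ sig d univ ≠ 0 ∧ sig d univ ≠ ⊤ ∧
    (∀ p : E d → Prop, (∀ᵐ w ∂sig d, p w) → ∀ v : E d, ‖v‖ = 1 → ∀ ε > 0,
      ∃ w, ‖w‖ = 1 ∧ ‖w - v‖ < ε ∧ p w) ∧
    ∀ (α : E d) (β : ℝ), ¬ (α = 0 ∧ β = 0) → sig d {w | ⟪α, w⟫ + β = 0} = 0

/-- pieces are closed, jointly in the direction. -/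
def SClo : Prop :=
  ∀ (d n : ℕ) (u : E d → Ix n → ℝ) (D K j : ℕ) (c : Fin 4),
    IsClosed {x : E d × E d | x.1 ∈ Pc u D K j (Cl c j x.2)}

/-- density points. -/
def SDen : Prop :=
  ∀ (d : ℕ) (Z : Set (E d)), (IsClosed Z → ∀ r, IsClosed (Den Z r)) ∧
    (MeasurableSet Z → ∀ᵐ x, x ∈ Z → ∃ r > 0, x ∈ Den Z r)

/-- the type of the jets. -/
def SCls : Prop :=
  ∀ (d n : ℕ) (P : E d → Matrix (Ix n) (Ix n) ℝ) (u : E d → Ix n → ℝ), JetField P u →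
    ∀ᵐ x, ∃ Q, JetAt u x Q ∧ ((Q sI = 0 ∧ ∃ i, Q (Sum.inl i) ≠ 0) ∨ (Q sI ≠ 0 ∧ GC Q))

/-- exhaustion by pieces. -/
def SExhI : Prop :=
  ∀ (d n : ℕ) (u : E d → Ix n → ℝ) (x : E d) (Q : Ix n → MP d), 1 ≤ d → JetAt u x Q →
    ((Q sI = 0 ∧ ∃ i, Q (Sum.inl i) ≠ 0) ∨ (Q sI ≠ 0 ∧ GC Q)) →
    ∀ᵐ a : E d, ∃ D₀, ∀ D ≥ D₀, ∀ K, ∃ j₀, ∀ j ≥ j₀, ∃ c,
      x ∈ Pc u D K j (Cl c j (‖a‖⁻¹ • a))

/-- every unit pair of admissible points satisfies the identity. -/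
def SEdge : Prop :=
  ∀ (d n : ℕ) (u : E d → Ix n → ℝ), 2 ≤ d → UF u → ∀ D K j : ℕ, 4 * D + 1 ≤ K → 1 ≤ j →
    ∀ x y Q Q', Adm u D K j x Q → Adm u D K j y Q' → ‖x - y‖ = 1 → EdgeId Q Q'

/-- minors of nearby admissible vectors are small. -/
def SHol : Prop :=
  ∀ (d n : ℕ) (u : E d → Ix n → ℝ), UF u → ∀ D p j : ℕ, 1 ≤ p → 1 ≤ j → ∃ C r : ℝ, 0 < r ∧
    ∀ K, 2 * D + p ≤ K → ∀ x y Q Q', Adm u D K j x Q → Adm u D K j y Q' → ‖x‖ ≤ j →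
      ‖x - y‖ ≤ r → ∀ w : E d, ‖w‖ ≤ 1 → ∀ a b k,
        |(ln (Q a) 0 w * ln (Q' b) 0 w - ln (Q b) 0 w * ln (Q' a) 0 w).coeff k| ≤ C * ‖x - y‖ ^ p

/-- one variable unit pairs: `p / q` and `p' / q'` are at distance one at `t`, `t ± 1`. -/
def Nbr {n : ℕ} (p : Fin n → ℝ[X]) (q : ℝ[X]) (p' : Fin n → ℝ[X]) (q' : ℝ[X]) : Prop :=
  ∀ t s : ℝ, (s = t + 1 ∨ s = t - 1) →
    ∑ i, ((p i).eval t * q'.eval s - (p' i).eval s * q.eval t) ^ 2 = (q.eval t * q'.eval s) ^ 2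

/-- slope and offset at infinity. -/
noncomputable def slp (p q : ℝ[X]) (m : ℕ) : ℝ := p.coeff (m + 1) / q.coeff m

/-- offset at infinity; the coefficient below the top is read from `X * q`. -/
noncomputable def ofs (p q : ℝ[X]) (m : ℕ) : ℝ :=
  (p.coeff m - slp p q m * (X * q).coeff m) / q.coeff m

/-- behaviour at infinity on one line. -/
def SOne : Prop :=
  ∀ (n : ℕ) (p p' : Fin n → ℝ[X]) (q q' : ℝ[X]), Nbr p q p' q' → q' ≠ 0 →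
    ∀ m, q.natDegree ≤ m → q.coeff m ≠ 0 →
    (∀ i, (p i).natDegree ≤ m + 1) ∧
    ∀ m', q'.natDegree ≤ m' → q'.coeff m' ≠ 0 →
      (∀ i, slp (p i) q m = slp (p' i) q' m') ∧
      ∑ i, (ofs (p i) q m - ofs (p' i) q' m') ^ 2 = 1 - ∑ i, slp (p i) q m ^ 2

/-- slope of length one: every step equals the slope. -/
def STwo : Prop :=
  ∀ (n : ℕ) (p p' : Fin n → ℝ[X]) (q q' : ℝ[X]), Nbr p q p' q' →
    ∀ m m', q.natDegree ≤ m → q.coeff m ≠ 0 → q'.natDegree ≤ m' → q'.coeff m' ≠ 0 →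
    ∑ i, slp (p i) q m ^ 2 = 1 → ∀ i (t : ℝ),
      (p' i).eval (t + 1) * q.eval t - (p i).eval t * q'.eval (t + 1) =
        slp (p i) q m * (q.eval t * q'.eval (t + 1))

/-- data at infinity of the Euclidean class and of the superlinear class. -/
def SDatE : Prop :=
  ∀ (d n : ℕ) (u : E d → Ix n → ℝ), 2 ≤ d → UF u → ∀ D p j K : ℕ, 1 ≤ p → 1 ≤ j →
    4 * D + p ≤ K → ∀ w : E d, ‖w‖ = 1 →
    (∃ V : E d → Ix n → ℝ, Flat (Pc u D K j (ClE j w)) V p ∧ ∀ x, V x sI = 0) ∧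
    ∀ x ∈ Pc u D K j (Cl0 j w), ∀ y ∈ Pc u D K j (Cl0 j w), ‖x - y‖ ≠ 1

/-- data at infinity of the class with slope of length different from one. -/
def SDat1 : Prop :=
  ∀ (d n : ℕ) (u : E d → Ix n → ℝ), 2 ≤ d → UF u → ∀ D p j K : ℕ, 1 ≤ p → 1 ≤ j →
    4 * D + p ≤ K → ∀ w : E d, ‖w‖ = 1 →
    ∃ V : E d → Ix n → ℝ, Flat (Pc u D K j (Cl1 j w)) V p

/-- approximate orthogonality at density points. -/
def SApx : Prop :=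
  ∀ (d n p : ℕ) (Z : Set (E d)) (V : E d → Ix n → ℝ) (r : ℝ), 0 < r → Flat Z V p →
    ∃ B : ℝ, ∀ x ∈ Den Z r, ∀ y ∈ Den Z r, lz (V x) (V y) ^ 2 ≤ B * |‖x - y‖ ^ 2 - 1| ^ p

/-- Lorentz linear algebra. -/
def SPsd : Prop :=
  ∀ n : ℕ, (∀ A B : Set (Ix n → ℝ), (∀ a ∈ A, ∀ b ∈ B, lz a b = 0) → Psd A ∨ Psd B) ∧
    ∀ A : Set (Ix n → ℝ), Psd A → ∃ M : Matrix (Ix n) (Ix n) ℝ,
      ∀ a ∈ A, ∀ b ∈ A, lz a b = M.mulVec a ⬝ᵥ M.mulVec b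

/-- three orthogonal tori. -/
def STor : Prop :=
  ∀ d p : ℕ, 1 ≤ p → 6 * p ≤ d → ∃ T : Fin 3 → (Fin p → ℝ) → E d, (∀ k, Continuous (T k)) ∧
    (∀ k a b, ⟪T k a, T k b⟫ = ph a b / (2 * p)) ∧ ∀ k l a b, k ≠ l → ⟪T k a, T l b⟫ = 0

/-- decay of the Bessel function. -/
def SBes1 : Prop :=
  ∃ C : ℝ, ∀ l c : ℝ, l ≠ 0 →
    ‖∫ a, Complex.exp (Complex.I * (l * Real.sin (a - c) : ℝ)) ∂circ‖ ≤ C / √|l|

/-- the one dimensional Schur bound. -/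
def SBes2 : Prop :=
  ∃ S : ℝ, 1 ≤ S ∧ ∀ s b : ℝ, S ≤ |s| →
    (∫ b', ‖∫ a, Complex.exp (Complex.I * (s * (Real.cos (a - b) - Real.cos (a - b')) : ℝ))
      ∂circ‖ ∂circ) ^ 4 * |s| ≤ 1

/-- the hypotheses on a field of unit vectors on a subset of the torus. -/
structure TF {p : ℕ} {ι : Type} [Fintype ι] (A : Set (Fin p → ℝ))
    (v : (Fin p → ℝ) → ι → ℝ) : Prop where
  ms : MeasurableSet A
  meas : ∀ i k, Measurable fun θ => v θ i * v θ k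
  one : ∀ θ ∈ A, v θ ⬝ᵥ v θ = 1
  zero : ∀ θ, θ ∉ A → v θ = 0

/-- Fourier transform of the push forward of the kernel. -/
noncomputable def hhat {p : ℕ} {ι : Type} [Fintype ι] (v : (Fin p → ℝ) → ι → ℝ) (s : ℝ) : ℂ :=
  ∫ x : (Fin p → ℝ) × (Fin p → ℝ),
    (((v x.1 ⬝ᵥ v x.2) ^ 2 : ℝ) : ℂ) * Complex.exp (Complex.I * (s * ph x.1 x.2 : ℝ))
    ∂((tor p).prod (tor p))

/-- Schur test on the torus. -/
def SSch : Prop :=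
  ∀ (p : ℕ) (ι : Type) [Fintype ι] (A : Set (Fin p → ℝ)) (v : (Fin p → ℝ) → ι → ℝ), TF A v →
    ∀ s J : ℝ, (∀ b : ℝ, ∫ b', ‖∫ a, Complex.exp (Complex.I *
      (s * (Real.cos (a - b) - Real.cos (a - b')) : ℝ)) ∂circ‖ ∂circ ≤ J) →
    ‖hhat v s‖ ^ 2 ≤ (tor p).real A ^ 2 * J ^ p

/-- Gaussian test functions. -/
def SGau : Prop :=
  ∀ (X : Type) [MeasurableSpace X] (μ : Measure X) [IsFiniteMeasure μ] (k φ : X → ℝ) (m : ℕ)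
    (M S B : ℝ), Measurable k → Measurable φ → (∀ x, 0 ≤ k x ∧ k x ≤ 1) → 1 ≤ S →
    (∀ x, k x ≤ B * |φ x| ^ (2 * m + 1)) →
    (∀ s : ℝ, ‖∫ x, (k x : ℂ) * Complex.exp (Complex.I * (s * φ x : ℝ)) ∂μ‖ ≤ M) →
    (∀ s : ℝ, S ≤ |s| →
      ‖∫ x, (k x : ℂ) * Complex.exp (Complex.I * (s * φ x : ℝ)) ∂μ‖ * |s| ^ (2 * m + 2) ≤ M) →
    ∀ t : ℝ, 0 < t → ∫ x, k x * Real.exp (-φ x ^ 2 / (2 * t ^ 2)) ∂μ ≤
      2 * M * S * t * (t ^ 2 * S ^ 2 / 2) ^ m / m.factorial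

/-- Chernoff bound for the phase. -/
def SChe : Prop :=
  ∀ (p : ℕ) (a : Fin p → ℝ) (l : ℝ), 0 ≤ l →
    (tor p).real {b | l * p ≤ |ph a b|} ≤ 2 * Real.exp (-(l ^ 2 * p / 2))

/-- the flat bound on the torus. -/
def SFL : Prop :=
  ∃ ρ C : ℝ, 0 < ρ ∧ ρ < 1 ∧ 0 ≤ C ∧ ∀ m p : ℕ, p = 16 * (m + 1) →
    ∀ (ι : Type) [Fintype ι] (A : Set (Fin p → ℝ)) (v : (Fin p → ℝ) → ι → ℝ), TF A v →
    (∃ B : ℝ, ∀ a b, (v a ⬝ᵥ v b) ^ 2 ≤ B * |ph a b| ^ p) →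
    (tor p).real A ≤ C * Fintype.card ι * ρ ^ p

/-- the flat bound for a flat field in space. -/
def SFLT : Prop :=
  ∃ ρ C : ℝ, 0 < ρ ∧ ρ < 1 ∧ 0 ≤ C ∧ ∀ m p : ℕ, p = 16 * (m + 1) →
    ∀ (d n : ℕ) (Z : Set (E d)) (V : E d → Ix n → ℝ) (r : ℝ) (T : (Fin p → ℝ) → E d),
    IsClosed Z → Flat Z V p → 0 < r → Continuous T →
    (∀ a b, ‖T a - T b‖ ^ 2 = 1 - ph a b / p) → Psd (V '' (Z ∩ range T)) →
    (tor p).real (T ⁻¹' Den Z r) ≤ C * (n + 2) * ρ ^ p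

/-- two step decomposition of small vectors. -/
def SDec : Prop :=
  ∀ d : ℕ, (∀ v h : E d, ‖v‖ = 1 → ⟪v, h⟫ = 0 → ‖h‖ ≤ 1 →
      ‖wv v h‖ = 1 ∧ ‖wv v h - h‖ = 1 ∧ ‖wv v h - v‖ ≤ ‖h‖ ∧ ‖wv v h - h - v‖ ≤ ‖h‖) ∧
    ∀ v v' : E d, ‖v‖ = 1 → ‖v'‖ = 1 → v ≠ v' → v ≠ -v' → ∃ H H' : E d →L[ℝ] E d,
      ∀ z, H z + H' z = z ∧ ⟪v, H z⟫ = 0 ∧ ⟪v', H' z⟫ = 0

/-- a vector of the isometric class with a neighbour is affine. -/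
def SAff1 : Prop :=
  ∀ (d n : ℕ), 2 ≤ d → ∀ (Q Q' : Ix n → MP d) (m m' : ℕ), Iso2 Q m → Iso2 Q' m' →
    MvPolynomial.homogeneousComponent m (Q sI) ≠ 0 →
    MvPolynomial.homogeneousComponent m' (Q' sI) ≠ 0 → EdgeId Q Q' →
    ∃ (T : E d →L[ℝ] E n) (c : E n), ∀ z i, ev (Q (Sum.inl i)) z = ev (Q sI) z * (T z + c) i

/-- both ends of an edge in the isometric class are the same isometry. -/
def SAff2 : Prop :=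
  ∀ (d n : ℕ), 2 ≤ d → ∀ (j j' : ℕ) (Q Q' : Ix n → MP d), Cl2 j Q → Cl2 j' Q' → EdgeId Q Q' →
    Q sI ≠ 0 ∧ Q' sI ≠ 0 ∧ ∃ (T : E d →ₗᵢ[ℝ] E n) (c : E n),
      (∀ z, evv Q z = ev (Q sI) z • lift (aff T c z)) ∧
      ∀ z, evv Q' z = ev (Q' sI) z • lift (aff T c z)

/-- four step paths. -/
def SPath : Prop :=
  ∀ (d : ℕ) (Z : Set (E d)) (r : ℝ) (x x₁ x₂ : E d), IsClosed Z → 0 < r → x ∈ Den Z r →
    x₁ ∈ Den Z r → x₂ ∈ Den Z r → ‖x₁ - x‖ = 1 → ‖x₂ - x‖ = 1 → x₁ ≠ x₂ →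
    x₁ - x ≠ -(x₂ - x) → ∃ (y : E d) (S : Set (E d)), MeasurableSet S ∧ volume S ≠ 0 ∧
      ∀ z ∈ S, ∃ y₁ y₂ y₃, y ∈ Z ∧ y₁ ∈ Z ∧ y₂ ∈ Z ∧ y₃ ∈ Z ∧ z ∈ Z ∧
        ‖y - y₁‖ = 1 ∧ ‖y₁ - y₂‖ = 1 ∧ ‖y₂ - y₃‖ = 1 ∧ ‖y₃ - z‖ = 1

/-- the field is parallel to the lift. -/
def SPar : Prop :=
  ∀ (d n : ℕ) (u : E d → Ix n → ℝ), Measurable u → ∀ D K j : ℕ, D < K → 1 ≤ j →
    ∀ G : E d → Ix n → ℝ, Continuous G →
    ∀ᵐ y, (∃ (Q : Ix n → MP d) (q : MP d), Adm u D K j y Q ∧ q ≠ 0 ∧ q.totalDegree ≤ D ∧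
      ∀ z, evv Q z = ev q z • G z) → ∀ a b, G y a * u y b = G y b * u y a

/-- pinning. -/
def SPin : Prop :=
  ∀ (d n : ℕ), 2 ≤ d → ∀ (T : E d →ₗᵢ[ℝ] E n) (c : E n) (x : E d) (M : Matrix (Ix n) (Ix n) ℝ),
    M.PosSemidef → trJ M = M sI sI →
    sig d {w | ∀ a, lz (M a) (lift (aff T c (x + w))) = 0} ≠ 0 →
    ∀ a b, M a b = M sI sI * lift (aff T c x) a * lift (aff T c x) b

/-- spreading. -/
def SSpr : Prop :=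
  ∀ (d : ℕ) (S : Set (E d)), 2 ≤ d → MeasurableSet S → volume S ≠ 0 →
    (∀ᵐ x, sig d {w | x + w ∈ S} ≠ 0 → x ∈ S) → ∀ᵐ x, x ∈ S

/-- from a set of positive measure to the conclusion. -/
def SEnd : Prop :=
  ∀ (d n : ℕ), 2 ≤ d → ∀ (P : E d → Matrix (Ix n) (Ix n) ℝ) (u : E d → Ix n → ℝ), Field P →
    JetField P u → ∀ (T : E d →ₗᵢ[ℝ] E n) (c : E n),
    volume {y | ∀ a b, lift (aff T c y) a * u y b = lift (aff T c y) b * u y a} ≠ 0 →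
    ∀ᵐ x, ∀ a b, P x a b = P x sI sI * lift (aff T c x) a * lift (aff T c x) b

/-- choice of the direction, the translation and the level. -/
def SLev : Prop :=
  ∀ (d n p : ℕ) (P : E d → Matrix (Ix n) (Ix n) ℝ) (u : E d → Ix n → ℝ), 1 ≤ d → JetField P u →
    ∀ T : Fin 3 → (Fin p → ℝ) → E d, (∀ k, Continuous (T k)) →
    ∃ (w x₀ : E d) (D j : ℕ) (r : ℝ), ‖w‖ = 1 ∧ 1 ≤ j ∧ 0 < r ∧ ∀ k, 3 / 4 ≤
      (tor p).real {θ | ∃ c, x₀ + T k θ ∈ Den (Pc u D (4 * D + p + 1) j (Cl c j w)) r}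

/-- from three density points of the isometric class to a set of positive measure. -/
def SPosI : Prop :=
  ∀ (d n : ℕ) (u : E d → Ix n → ℝ), 2 ≤ d → UF u → ∀ (D K j : ℕ) (r : ℝ), 4 * D + 1 ≤ K →
    1 ≤ j → 0 < r → ∀ x ∈ Den (Pc u D K j (Cl2 j)) r, ∀ x₁ ∈ Den (Pc u D K j (Cl2 j)) r,
    ∀ x₂ ∈ Den (Pc u D K j (Cl2 j)) r, ‖x₁ - x‖ = 1 → ‖x₂ - x‖ = 1 → x₁ ≠ x₂ →
    x₁ - x ≠ -(x₂ - x) → ∃ (T : E d →ₗᵢ[ℝ] E n) (c : E n),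
      volume {y | ∀ a b, lift (aff T c y) a * u y b = lift (aff T c y) b * u y a} ≠ 0

end Pool.Agent.MP_66cee2_co.XI
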